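import Pool.Agent.R885.Frm
import Pool.Agent.R885.P1

/-!
The order of the gradient of a hypersurface at a place, in terms of the orders of the derivatives of
the coordinates.
-/

set_option autoImplicit false
set_option linter.overlappingInstances false
set_option linter.unusedSectionVars false

open FF Pool.Agent.R885 Pool.Agent.W603.LV Pool.Agent.W619.PQ Pool.Agent.Y173.QA

namespace Pool.Agent.K9h25

section

variable {k K : Type} [Field k] [CharZero k] [Field K] [Algebra k K]

/-- the estimate away from the units -/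
theorem unit_of_lt (P : Place k K) {t : K} (ht : P.ord t = 1) {E : Derivation k K K}
    (hE : Pres P E) (hEt : E t = 1) {A B G1 G2 : K} (hA0 : A ≠ 0)
    (hG1 : P.Reg G1) (hG2 : P.Reg G2) (hG20 : G2 ≠ 0) (hrel : A * G1 + B * G2 = 0)
    (h1 : ∃ a b, P.Reg a ∧ P.Reg b ∧ E G1 = A * a + B * b)
    (h2 : ∃ a b, P.Reg a ∧ P.Reg b ∧ E G2 = A * a + B * b) (hlt : P.ord G2 < P.ord A) :
    P.ord G2 = 0 ∨ (B ≠ 0 ∧ G1 ≠ 0 ∧ P.ord G1 = 0) := by
  by_cases h0 : P.ord G2 = 0
  · exact Or.inl h0
  right
  have hγ : 0 ≤ P.ord G2 := (P.reg_iff hG20).1 hG2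
  obtain ⟨hE2, hE2o⟩ := ord_der_unif P ht hE hEt hG20 h0
  obtain ⟨a, b, ha, hb, hab⟩ := h2
  have hAa : Ge P (P.ord G2) (A * a) := by
    have h3 : Ge P (P.ord A) A := Or.inr le_rfl
    have h4 : Ge P (P.ord A + 0) (A * a) := h3.mul ha
    exact h4.mono (by omega)
  have hB0 : B ≠ 0 := by
    rintro rfl
    rw [zero_mul, add_zero] at hab
    rw [← hab] at hAa
    have := hAa.resolve_left hE2
    omega
  have hBle : P.ord B ≤ P.ord G2 - 1 := by
    by_contra hcon
    have h3 : Ge P (P.ord B) B := Or.inr le_rfl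
    have h4 : Ge P (P.ord B + 0) (B * b) := h3.mul hb
    have h5 := hAa.add (h4.mono (by omega : P.ord G2 ≤ P.ord B + 0))
    rw [← hab] at h5
    have := h5.resolve_left hE2
    omega
  have hAG : A * G1 = -(B * G2) := eq_neg_of_add_eq_zero_left hrel
  have hG10 : G1 ≠ 0 := by
    rintro rfl
    rw [mul_zero] at hAG
    exact mul_ne_zero hB0 hG20 (neg_eq_zero.1 hAG.symm)
  have hord : P.ord A + P.ord G1 = P.ord B + P.ord G2 := by
    rw [← P.ord_mul hA0 hG10, hAG, P.ord_neg, P.ord_mul hB0 hG20]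
  refine ⟨hB0, hG10, ?_⟩
  by_contra h3
  obtain ⟨hE1, hE1o⟩ := ord_der_unif P ht hE hEt hG10 h3
  obtain ⟨a', b', ha', hb', hab'⟩ := h1
  have h4 : Ge P (P.ord B) (E G1) := by
    rw [hab']
    have h5 : Ge P (P.ord A) A := Or.inr le_rfl
    have h6 : Ge P (P.ord B) B := Or.inr le_rfl
    have h7 : Ge P (P.ord A + 0) (A * a') := h5.mul ha'
    have h8 : Ge P (P.ord B + 0) (B * b') := h6.mul hb'
    exact (h7.mono (by omega)).add (h8.mono (by omega))
  have := h4.resolve_left hE1
  omega

variable {r m : ℕ} {x : Fin r → K}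

/-- the derivative of the elements of the ring of the chart -/
theorem E_A0 (P : Place k K) {E : Derivation k K K} {A B : K}
    (hmon : ∀ w : Fin r → ℤ, 0 ≤ w ⬝ᵥ vec P x → ∃ a ∈ A0 P x, ∃ b ∈ A0 P x,
      E (mono x w) = A * a + B * b) {h : K} (hh : h ∈ A0 P x) :
    ∃ a ∈ A0 P x, ∃ b ∈ A0 P x, E h = A * a + B * b := by
  unfold A0 at hh
  induction hh using Subring.closure_induction with
  | mem z hz =>
    rcases hz with ⟨c, rfl⟩ | ⟨w, hw, rfl⟩
    · exact ⟨0, zero_mem _, 0, zero_mem _, by rw [E.map_algebraMap]; ring⟩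
    · exact hmon w hw
  | zero => exact ⟨0, zero_mem _, 0, zero_mem _, by rw [map_zero]; ring⟩
  | one => exact ⟨0, zero_mem _, 0, zero_mem _, by rw [E.map_one_eq_zero]; ring⟩
  | add y z _ _ hy hz =>
    obtain ⟨a, ha, b, hb, h1⟩ := hy
    obtain ⟨a', ha', b', hb', h2⟩ := hz
    exact ⟨a + a', add_mem ha ha', b + b', add_mem hb hb', by rw [map_add, h1, h2]; ring⟩
  | neg y _ hy =>
    obtain ⟨a, ha, b, hb, h1⟩ := hy
    exact ⟨-a, neg_mem ha, -b, neg_mem hb, by rw [map_neg, h1]; ring⟩
  | mul y z hy' hz' hy hz =>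
    obtain ⟨a, ha, b, hb, h1⟩ := hy
    obtain ⟨a', ha', b', hb', h2⟩ := hz
    refine ⟨y * a' + z * a, add_mem (mul_mem hy' ha') (mul_mem hz' ha), y * b' + z * b,
      add_mem (mul_mem hy' hb') (mul_mem hz' hb), ?_⟩
    rw [E.leibniz, h1, h2, smul_eq_mul, smul_eq_mul]
    ring

/-- **The order of the gradient.** -/
theorem ord_le (htr : Algebra.trdeg k K = (m + 1 : ℕ))
    (hfin : ∀ y : Fin (m + 1) → K, IsTranscendenceBasis k y →
      FiniteDimensional (IntermediateField.adjoin k (Set.range y)) K)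
    (P : Place k K) (hx : ∀ i, x i ≠ 0) (hgen : IntermediateField.adjoin k (Set.range x) = ⊤)
    {y : Fin m → K}
    (hy : ∀ p : MvPolynomial (Fin m) k, p ≠ 0 →
      MvPolynomial.aeval y p ≠ 0 ∧ P.ord (MvPolynomial.aeval y p) = 0)
    {t : K} (ht : P.ord t = 1) {E : Derivation k K K} (hE : Pres P E) (hEt : E t = 1)
    (hEy : ∀ j, E (y j) = 0) {A B G1 G2 : K} (hA0 : A ≠ 0) (hB : P.Reg B)
    (hG1 : G1 ∈ A0 P x) (hG2 : G2 ∈ A0 P x) (hG20 : G2 ≠ 0) (hrel : A * G1 + B * G2 = 0)
    (hmon : ∀ w : Fin r → ℤ, 0 ≤ w ⬝ᵥ vec P x → ∃ a ∈ A0 P x, ∃ b ∈ A0 P x,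
      E (mono x w) = A * a + B * b) : P.ord A ≤ P.ord G2 := by
  by_contra hlt
  push Not at hlt
  have hreg := fun z (hz : z ∈ A0 P x) => A0_reg P hx hz
  have hE' : ∀ h ∈ A0 P x, ∃ a b, P.Reg a ∧ P.Reg b ∧ E h = A * a + B * b := by
    intro h hh
    obtain ⟨a, ha, b, hb, h1⟩ := E_A0 P hmon hh
    exact ⟨a, b, hreg a ha, hreg b hb, h1⟩
  have hpres : ∀ D : Derivation k K K, (∀ w : Fin r → ℤ, 0 ≤ w ⬝ᵥ vec P x →
      D (mono x w) ∈ AA P x) → (∀ j, D (y j) = 0) → Pres P D := by
    intro D hD hDy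
    refine smooth htr hfin P hy (AA P x) (fun a ha => AA_reg P hx ha) (AA_frac P hx hgen) D
      (fun a ha => AA_der P hD ha) fun j => ?_
    rw [hDy]
    exact P.reg_zero
  rcases unit_of_lt P ht hE hEt hA0 (hreg _ hG1) (hreg _ hG2) hG20 hrel (hE' _ hG1) (hE' _ hG2)
    hlt with h1 | ⟨hB0, hG10, h1⟩
  · -- the second derivative is a unit
    have hinv : G2⁻¹ ∈ AA P x := AA_inv P (A0_le P x hG2) hG20 h1
    have hBA : A⁻¹ * B ∈ AA P x := by
      have h2 : A⁻¹ * B = -(G1 * G2⁻¹) := by
        field_simp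
        linear_combination hrel
      rw [h2]
      exact neg_mem (mul_mem (A0_le P x hG1) hinv)
    have h2 := hpres (A⁻¹ • E) (fun w hw => by
      obtain ⟨a, ha, b, hb, h3⟩ := hmon w hw
      have h4 : (A⁻¹ • E) (mono x w) = a + A⁻¹ * B * b := by
        rw [Derivation.smul_apply, smul_eq_mul, h3]
        field_simp
      rw [h4]
      exact add_mem (A0_le P x ha) (mul_mem hBA (A0_le P x hb))) fun j => by
        rw [Derivation.smul_apply, hEy, smul_zero]
    have h3 := h2 t (Or.inr (by omega))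
    rw [Derivation.smul_apply, hEt, smul_eq_mul, mul_one] at h3
    have h4 := (P.reg_iff (inv_ne_zero hA0)).1 h3
    rw [P.ord_inv] at h4
    omega
  · -- the first derivative is a unit
    have hinv : G1⁻¹ ∈ AA P x := AA_inv P (A0_le P x hG1) hG10 h1
    have hAB : B⁻¹ * A ∈ AA P x := by
      have h2 : B⁻¹ * A = -(G2 * G1⁻¹) := by
        field_simp
        linear_combination hrel
      rw [h2]
      exact neg_mem (mul_mem (A0_le P x hG2) hinv)
    have h2 := hpres (B⁻¹ • E) (fun w hw => by
      obtain ⟨a, ha, b, hb, h3⟩ := hmon w hw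
      have h4 : (B⁻¹ • E) (mono x w) = B⁻¹ * A * a + b := by
        rw [Derivation.smul_apply, smul_eq_mul, h3]
        field_simp
      rw [h4]
      exact add_mem (mul_mem hAB (A0_le P x ha)) (A0_le P x hb)) fun j => by
        rw [Derivation.smul_apply, hEy, smul_zero]
    have h3 := h2 t (Or.inr (by omega))
    rw [Derivation.smul_apply, hEt, smul_eq_mul, mul_one] at h3
    have h4 := (P.reg_iff (inv_ne_zero hB0)).1 h3
    rw [P.ord_inv] at h4
    have h5 := (P.reg_iff hB0).1 hB
    have h6 : A * G1 = -(B * G2) := eq_neg_of_add_eq_zero_left hrel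
    have h7 : P.ord A + P.ord G1 = P.ord B + P.ord G2 := by
      rw [← P.ord_mul hA0 hG10, h6, P.ord_neg, P.ord_mul hB0 hG20]
    omega

end

section

variable {k L : Type} [Field k] [CharZero k] [Field L] [Algebra k L] {r : ℕ} {Q : Type}
  [Fintype Q]

/-- derivations which are diagonal on algebraically independent elements -/
theorem exists_log_der {u : Q → L} (hind : AlgebraicIndependent k u) (l : Q) :
    ∃ D : Derivation k L L, (∀ l', l' ≠ l → D (u l') = 0) ∧ D (u l) = u l := by
  classical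
  obtain ⟨s, hs, hs'⟩ := exists_isTranscendenceBasis_superset (R := k)
    (s := Set.range u) (AlgebraicIndependent.to_subtype_range hind)
  let a : Q → s := fun j => ⟨u j, hs ⟨j, rfl⟩⟩
  obtain ⟨E, hE⟩ := Pool.Agent.W619.PQ.exists_dual (fun z : s => (z : L)) hs' (a l)
  refine ⟨u l • E, fun l' hl => ?_, ?_⟩
  · have h1 := hE (a l')
    change E (u l') = _ at h1
    rw [Derivation.smul_apply, h1, smul_eq_mul, if_neg, mul_zero]
    intro h2
    exact hl (hind.injective (congrArg Subtype.val h2))
  · have h1 := hE (a l)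
    change E (u l) = _ at h1
    rw [Derivation.smul_apply, h1, smul_eq_mul, if_pos rfl, mul_one]

/-- **Monomials with different exponents are linearly independent**, at a point at which sufficiently
many monomials are algebraically independent. -/
theorem ev_ne {c : Fin r → L} (hc : ∀ i, c i ≠ 0) {ρ : Q → Fin r → ℤ}
    (hind : AlgebraicIndependent k fun l => mono c (ρ l)) :
    ∀ (N : ℕ) (g : (Fin r → ℤ) →₀ k), g ≠ 0 → g.support.card ≤ N →
      (∀ m ∈ g.support, ∀ m' ∈ g.support, ∃ (M : ℤ) (a : Q → ℤ), M ≠ 0 ∧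
        M • (m - m') = ∑ l, a l • ρ l) → ev c g ≠ 0 := by
  classical
  have hL0 : CharZero L := charZero_of_injective_algebraMap (algebraMap k L).injective
  -- the derivations
  have hD := exists_log_der hind
  choose D hD using hD
  -- the eigenvalues
  have heig : ∀ (l : Q) (w : Fin r → ℤ) (M : ℤ) (a : Q → ℤ), M ≠ 0 →
      M • w = ∑ l, a l • ρ l →
        D l (mono c w) = algebraMap k L ((a l : k) / (M : k)) * mono c w := by
    intro l w M a hM hw
    have h1 : D l (mono c (M • w)) = (a l : L) * mono c (M • w) := by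
      have h2 : ∀ s : Finset Q, D l (∏ l' ∈ s, mono c (ρ l') ^ a l') /
          (∏ l' ∈ s, mono c (ρ l') ^ a l') = ∑ l' ∈ s, (a l' : L) * (if l' = l then 1 else 0) := by
        intro s
        induction s using Finset.induction_on with
        | empty => simp
        | insert b s hb ih =>
          rw [Finset.prod_insert hb, Finset.sum_insert hb, dlog_mul (D l)
            (zpow_ne_zero _ (mono_ne hc _)) (Finset.prod_ne_zero_iff.2 fun i _ =>
              zpow_ne_zero _ (mono_ne hc _)), ih, dlog_zpow (D l) (mono_ne hc _)]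
          congr 2
          split_ifs with h3
          · rw [h3, (hD l).2, div_self (mono_ne hc _)]
          · rw [(hD l).1 b h3, zero_div]
      have h3 : mono c (M • w) = ∏ l', mono c (ρ l') ^ a l' := by
        rw [hw, N.mono_sum hc]
        rfl
      have h4 := h2 Finset.univ
      rw [← h3, div_eq_iff (mono_ne hc _)] at h4
      rw [h4]
      congr 1
      rw [Finset.sum_eq_single l]
      · rw [if_pos rfl, mul_one]
      · intro b _ hb
        rw [if_neg hb, mul_zero]
      · intro h5
        exact absurd (Finset.mem_univ _) h5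
    rw [mono_zsmul, Derivation.leibniz_zpow] at h1
    simp only [smul_eq_mul, zsmul_eq_mul] at h1
    have hM' : (M : L) ≠ 0 := Int.cast_ne_zero.2 hM
    have h2 : mono c w ≠ 0 := mono_ne hc w
    have h3 : mono c w ^ M = mono c w ^ (M - 1) * mono c w := by
      rw [← zpow_add_one₀ h2]
      congr 1
      ring
    rw [h3] at h1
    have h4 : mono c w ^ (M - 1) ≠ 0 := zpow_ne_zero _ h2
    have h5 : (M : L) * D l (mono c w) = (a l : L) * mono c w := by
      apply mul_left_cancel₀ h4
      linear_combination h1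
    rw [map_div₀, map_intCast, map_intCast, div_mul_eq_mul_div, eq_div_iff hM', mul_comm, h5]
  intro N
  induction N with
  | zero =>
    intro g hg hN
    exact absurd (Finsupp.support_eq_empty.1 (Finset.card_eq_zero.1 (Nat.le_zero.1 hN))) hg
  | succ N ih =>
    intro g hg hN hsp hev
    obtain ⟨m0, hm0⟩ := Finsupp.support_nonempty_iff.2 hg
    have hev1 : ∑ m ∈ g.support, algebraMap k L (g m) * mono c (m - m0) = 0 := by
      have h1 := ev_eq hc g m0
      rw [hev] at h1
      exact (mul_eq_zero.1 h1.symm).resolve_left (mono_ne hc _)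
    by_cases hall : ∀ m ∈ g.support, m = m0
    · rw [Finset.sum_eq_single m0] at hev1
      · rw [sub_self, mono_zero, mul_one] at hev1
        exact Finsupp.mem_support_iff.1 hm0 ((map_eq_zero _).1 hev1)
      · intro m hm hne
        exact absurd (hall m hm) hne
      · intro h1
        exact absurd hm0 h1
    push Not at hall
    obtain ⟨m1, hm1, hne⟩ := hall
    choose! M a hM ha using fun m (hm : m ∈ g.support) => hsp m hm m0 hm0
    obtain ⟨l, hl⟩ : ∃ l, a m1 l ≠ 0 := by
      by_contra hcon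
      push Not at hcon
      have h1 := ha m1 hm1
      rw [Finset.sum_eq_zero fun l _ => by rw [hcon l, zero_smul]] at h1
      exact hne (sub_eq_zero.1 ((smul_eq_zero.1 h1).resolve_left (hM m1 hm1)))
    have h0l : a m0 l = 0 := by
      have h1 := heig l 0 (M m0) (a m0) (hM m0 hm0) (by
        have h2 := ha m0 hm0
        rwa [sub_self] at h2)
      rw [mono_zero, (D l).map_one_eq_zero, mul_one] at h1
      have h2 := ((map_eq_zero _).1 h1.symm)
      have h3 : (M m0 : k) ≠ 0 := Int.cast_ne_zero.2 (hM m0 hm0)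
      have h4 := (div_eq_zero_iff.1 h2).resolve_right h3
      exact_mod_cast h4
    -- the derivative
    obtain ⟨g', hg'⟩ : ∃ g' : (Fin r → ℤ) →₀ k, ∀ m, g' m = g m * ((a m l : k) / (M m : k)) := by
      refine ⟨Finsupp.onFinset g.support (fun m => g m * ((a m l : k) / (M m : k))) ?_, fun m => rfl⟩
      intro m hm
      rw [Finsupp.mem_support_iff]
      exact left_ne_zero_of_mul hm
    have hsupp : g'.support ⊆ g.support.erase m0 := by
      intro m hm
      rw [Finsupp.mem_support_iff, hg'] at hm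
      rw [Finset.mem_erase, Finsupp.mem_support_iff]
      refine ⟨?_, left_ne_zero_of_mul hm⟩
      rintro rfl
      apply right_ne_zero_of_mul hm
      rw [h0l, Int.cast_zero, zero_div]
    have hg'0 : g' ≠ 0 := by
      intro h0
      have h1 := hg' m1
      rw [h0, Finsupp.zero_apply] at h1
      refine mul_ne_zero (Finsupp.mem_support_iff.1 hm1) (div_ne_zero ?_ ?_) h1.symm
      · exact Int.cast_ne_zero.2 hl
      · exact Int.cast_ne_zero.2 (hM m1 hm1)
    refine ih g' hg'0 ?_ ?_ ?_
    · have h1 := Finset.card_le_card hsupp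
      rw [Finset.card_erase_of_mem hm0] at h1
      omega
    · intro m hm m' hm'
      exact hsp m (Finset.mem_of_mem_erase (hsupp hm)) m' (Finset.mem_of_mem_erase (hsupp hm'))
    · have h1 := congrArg (D l) hev1
      rw [map_sum, map_zero] at h1
      have h2 : ev' c g' m0 = 0 := by
        rw [← h1]
        unfold ev'
        rw [Finsupp.sum_of_support_subset g' (hsupp.trans (Finset.erase_subset _ _)) _
          (fun _ _ => by rw [map_zero, zero_mul])]
        refine Finset.sum_congr rfl fun m hm => ?_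
        rw [(D l).leibniz, (D l).map_algebraMap, smul_zero, add_zero, smul_eq_mul,
          heig l (m - m0) (M m) (a m) (hM m hm) (ha m hm), hg', map_mul]
        ring
      rw [ev_eq hc g' m0, h2, mul_zero]

end

end Pool.Agent.K9h25
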