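import Pool.Agent.R885.LPB
import Pool.Agent.R885.Mono

/-!
Estimates for a vector in the cone of at most two tight vectors.
-/

set_option autoImplicit false
set_option linter.overlappingInstances false
set_option linter.unusedSectionVars false

open FF Pool.Agent.R885 Pool.Agent.W603.LV Pool.Agent.W619.PQ

namespace Pool.Agent.K9h25

variable {k : Type} [Field k] {r jj : ℕ} {v : Fin r → ℤ} {σ : Fin jj → Fin r → ℤ}
  {α : Fin jj → ℚ}

theorem dot_comb (hsum : ∀ k, ∑ i, α i * (σ i k : ℚ) = v k) (w : Fin r → ℤ) :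
    ((w ⬝ᵥ v : ℤ) : ℚ) = ∑ i, α i * ((w ⬝ᵥ σ i : ℤ) : ℚ) := by
  have h1 := dq_sum (fun i => ((w i : ℤ) : ℚ)) σ α hsum
  simp only [dq_int] at h1
  exact h1

/-- a rational multiple of an integral vector -/
theorem mult_le {g : ℤ} (hg : 0 < g) {β : ℚ} (hβ : 0 < β) {z : ℤ} (h : (g : ℚ) = β * z) :
    β ≤ g := by
  have h1 : (0 : ℚ) < g := by exact_mod_cast hg
  have h2 : (0 : ℚ) < z := by
    by_contra hcon
    push Not at hcon
    have := mul_nonpos_of_nonneg_of_nonpos hβ.le hcon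
    linarith
  have h3 : (1 : ℚ) ≤ z := by
    have : 0 < z := by exact_mod_cast h2
    exact_mod_cast this
  rw [h]
  nlinarith

/-- the deviation of the minimum -/
theorem dev_nonneg {f : (Fin r → ℤ) →₀ k} (hf0 : f ≠ 0) (hα : ∀ i, 0 < α i)
    (hsum : ∀ k, ∑ i, α i * (σ i k : ℚ) = v k) :
    ∑ i, α i * (mn (σ i) f : ℚ) ≤ mn v f := by
  obtain ⟨m, hm, hmv⟩ := exists_mn hf0 v
  rw [← hmv, dot_comb hsum]
  refine Finset.sum_le_sum fun i _ => mul_le_mul_of_nonneg_left ?_ (hα i).le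
  exact_mod_cast mn_le hm

/-- **The arithmetic of two tight vectors.** -/
theorem two_arith {a b : ℚ} {p q p' q' : ℤ} (ha : 0 < a) (hb : 0 < b) (hq : 0 ≤ q)
    (hp' : 0 ≤ p') {E : ℚ} (h1 : E = a * p + b * q) (h2 : E = a * p' + b * q')
    (hlt : p' < p) {g : ℤ} (hg : 0 < g) {y z : ℤ} (hgy : (g : ℚ) = a * y + b * z) :
    a + b ≤ g + E := by
  obtain ⟨s, hs⟩ : ∃ s, s = p - p' := ⟨_, rfl⟩
  obtain ⟨t, ht⟩ : ∃ t, t = q' - q := ⟨_, rfl⟩
  have hs1 : 1 ≤ s := by omega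
  have hst : a * s = b * t := by
    rw [hs, ht]
    push_cast
    linarith
  have ht1 : 1 ≤ t := by
    have h3 : (0 : ℚ) < b * t := by
      rw [← hst]
      have : (0 : ℚ) < s := by exact_mod_cast (by omega : 0 < s)
      positivity
    have h4 : (0 : ℚ) < t := by
      by_contra hcon
      push Not at hcon
      have := mul_nonpos_of_nonneg_of_nonpos hb.le hcon
      linarith
    have h5 : 0 < t := by exact_mod_cast h4
    omega
  have hE : a * s ≤ E := by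
    have h3 : (s : ℚ) ≤ p := by exact_mod_cast (by omega : s ≤ p)
    have h4 : (0 : ℚ) ≤ q := by exact_mod_cast hq
    have h5 := mul_le_mul_of_nonneg_left h3 ha.le
    have h6 := mul_nonneg hb.le h4
    linarith
  have hg0 : (0 : ℚ) < g := by exact_mod_cast hg
  rcases hs1.lt_or_eq with hs2 | hs2
  · rcases ht1.lt_or_eq with ht2 | ht2
    · have h3 : (2 : ℚ) ≤ s := by exact_mod_cast hs2
      have h4 : (2 : ℚ) ≤ t := by exact_mod_cast ht2
      nlinarith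
    · rw [← ht2, Int.cast_one, mul_one] at hst
      have h3 : a ≤ g := mult_le hg ha (z := y + s * z) (by
        rw [hgy, ← hst]
        push_cast
        ring)
      linarith
  · rw [← hs2, Int.cast_one, mul_one] at hst
    have h3 : b ≤ g := mult_le hg hb (z := t * y + z) (by
      rw [hgy, hst]
      push_cast
      ring)
    rw [← hs2, Int.cast_one, mul_one] at hE
    linarith

/-- **The numerical estimate.** -/
theorem cone_arith {f : (Fin r → ℤ) →₀ k} (hα : ∀ i, 0 < α i)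
    (hf0 : f ≠ 0) (hsum : ∀ k, ∑ i, α i * (σ i k : ℚ) = v k) (hjj : jj ≤ 2)
    (hhom : jj = 2 → ∃ m ∈ f.support, ∃ m' ∈ f.support, m ⬝ᵥ v = mn v f ∧ m' ⬝ᵥ v = mn v f ∧
      ∃ i, m ⬝ᵥ σ i ≠ m' ⬝ᵥ σ i)
    {g : ℤ} {s' c' : Fin r → ℤ} (hg : 0 < g) (hgs : v = g • s') (hc' : c' ⬝ᵥ s' = 1) :
    ∑ i, α i ≤ g + ((mn v f : ℚ) - ∑ i, α i * (mn (σ i) f : ℚ)) := by
  have hdev := dev_nonneg hf0 hα hsum
  have hgv : (g : ℚ) = ∑ i, α i * ((c' ⬝ᵥ σ i : ℤ) : ℚ) := by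
    rw [← dot_comb hsum, hgs, dotProduct_smul, hc', smul_eq_mul, mul_one]
  have hg0 : (0 : ℚ) < g := by exact_mod_cast hg
  obtain rfl | rfl | rfl : jj = 0 ∨ jj = 1 ∨ jj = 2 := by omega
  · simp only [Finset.univ_eq_empty, Finset.sum_empty] at hdev ⊢
    linarith
  · simp only [Fin.sum_univ_one] at hgv hdev ⊢
    have h1 := mult_le hg (hα 0) hgv
    linarith
  · obtain ⟨m, hm, m', hm', hmv, hmv', i0, hi0⟩ := hhom rfl
    simp only [Fin.sum_univ_two] at hgv ⊢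
    have hE : ∀ n ∈ f.support, n ⬝ᵥ v = mn v f →
        (mn v f : ℚ) - (α 0 * (mn (σ 0) f : ℚ) + α 1 * (mn (σ 1) f : ℚ)) =
        α 0 * ((n ⬝ᵥ σ 0 - mn (σ 0) f : ℤ) : ℚ) + α 1 * ((n ⬝ᵥ σ 1 - mn (σ 1) f : ℤ) : ℚ) := by
      intro n _ hnv
      rw [← hnv, dot_comb hsum, Fin.sum_univ_two]
      push_cast
      ring
    have hp : ∀ n ∈ f.support, ∀ i, 0 ≤ n ⬝ᵥ σ i - mn (σ i) f := fun n hn i =>
      sub_nonneg.2 (mn_le hn)
    have key : ∀ n ∈ f.support, ∀ n' ∈ f.support, n ⬝ᵥ v = mn v f → n' ⬝ᵥ v = mn v f →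
        n' ⬝ᵥ σ 0 < n ⬝ᵥ σ 0 → α 0 + α 1 ≤ g + ((mn v f : ℚ) -
          (α 0 * (mn (σ 0) f : ℚ) + α 1 * (mn (σ 1) f : ℚ))) := by
      intro n hn n' hn' hnv hnv' hlt
      exact two_arith (hα 0) (hα 1) (hp n hn 1) (hp n' hn' 0)
        (hE n hn hnv) (hE n' hn' hnv') (by omega) hg hgv
    have h0 : m ⬝ᵥ σ 0 ≠ m' ⬝ᵥ σ 0 := by
      intro h1
      have h2 := dot_comb hsum (m - m')
      rw [sub_dotProduct, hmv, hmv', sub_self, Int.cast_zero, Fin.sum_univ_two, sub_dotProduct,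
        h1, sub_self, Int.cast_zero, mul_zero, zero_add] at h2
      have h3 := (mul_eq_zero.1 h2.symm).resolve_left (hα 1).ne'
      have h4 : (m - m') ⬝ᵥ σ 1 = 0 := by exact_mod_cast h3
      rw [sub_dotProduct] at h4
      apply hi0
      fin_cases i0
      · exact h1
      · change m ⬝ᵥ σ 1 = m' ⬝ᵥ σ 1
        omega
    rcases lt_or_gt_of_ne h0 with h1 | h1
    · exact key m' hm' m hm hmv' hmv h1
    · exact key m hm m' hm' hmv hmv' h1

/-- **The estimate for the order of the residue form.** -/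
theorem total_arith {f : (Fin r → ℤ) →₀ k} (hα : ∀ i, 0 < α i)
    (hf0 : f ≠ 0) (hsum : ∀ k, ∑ i, α i * (σ i k : ℚ) = v k) (hjj : jj ≤ 2)
    (hhom : jj = 2 → ∃ m ∈ f.support, ∃ m' ∈ f.support, m ⬝ᵥ v = mn v f ∧ m' ⬝ᵥ v = mn v f ∧
      ∃ i, m ⬝ᵥ σ i ≠ m' ⬝ᵥ σ i)
    {u0 : Fin r → ℤ} {c a0 : ℤ} (hc : 0 < c)
    (hS : ∀ i, u0 ⬝ᵥ σ i = a0 + c * mn (σ i) f) {o g : ℤ} {s' c' : Fin r → ℤ} (hg : 0 < g)
    (hgs : v = g • s') (hc' : c' ⬝ᵥ s' = 1) (h1 : o ≤ -g - mn v f) :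
    (c : ℚ) * o + ((u0 ⬝ᵥ v : ℤ) : ℚ) ≤ -(c - a0) * ∑ i, α i ∧ o + mn v f ≤ 0 := by
  have h2 := cone_arith hα hf0 hsum hjj hhom hg hgs hc'
  refine ⟨?_, by omega⟩
  have h3 : ((u0 ⬝ᵥ v : ℤ) : ℚ) = a0 * ∑ i, α i + c * ∑ i, α i * (mn (σ i) f : ℚ) := by
    rw [dot_comb hsum, Finset.mul_sum, Finset.mul_sum, ← Finset.sum_add_distrib]
    refine Finset.sum_congr rfl fun i _ => ?_
    rw [hS]
    push_cast
    ring
  rw [h3]
  have h4 : (o : ℚ) ≤ -g - mn v f := by exact_mod_cast h1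
  have hcq : (0 : ℚ) < c := by exact_mod_cast hc
  have h5 := mul_le_mul_of_nonneg_left h4 hcq.le
  have h6 := mul_le_mul_of_nonneg_left h2 hcq.le
  linarith

/-- bounds for the entries -/
theorem comb_bound (hα : ∀ i, 0 < α i) (hsum : ∀ k, ∑ i, α i * (σ i k : ℚ) = v k) {V0 : ℚ}
    {w : Fin r → ℤ} (hw : ∀ i, |((w ⬝ᵥ σ i : ℤ) : ℚ)| ≤ V0) :
    |((w ⬝ᵥ v : ℤ) : ℚ)| ≤ V0 * ∑ i, α i := by
  rw [dot_comb hsum, Finset.mul_sum]
  refine (Finset.abs_sum_le_sum_abs _ _).trans (Finset.sum_le_sum fun i _ => ?_)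
  rw [abs_mul, abs_of_pos (hα i), mul_comm]
  exact mul_le_mul_of_nonneg_right (hw i) (hα i).le

end Pool.Agent.K9h25
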