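import Pool.Agent.K9h25.Pl
import Pool.Agent.R885.MB
import Pool.Agent.R885.P1
import Pool.Agent.W828.PG.DIVI

/-!
Monomials with algebraically independent residues at the places over a chart.
-/

set_option autoImplicit false
set_option linter.overlappingInstances false
set_option linter.unusedSectionVars false

open FF Pool.Agent.R885 Pool.Agent.W603.LV Pool.Agent.W619.PQ Pool.Agent.Y173.QA

namespace Pool.Agent.K9h25

section

open scoped IntermediateField.algebraAdjoinAdjoin in
/-- a finite set which generates a field with many algebraically independent elements contains many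
algebraically independent elements -/
theorem exists_ind {k L : Type} [Field k] [Field L] [Algebra k L] {m : ℕ} {G : Set L}
    (hG : G.Finite) {y : Fin m → L} (hy : AlgebraicIndependent k y)
    (hyG : ∀ j, y j ∈ IntermediateField.adjoin k G) :
    ∃ t : Fin m → L, (∀ j, t j ∈ G) ∧ AlgebraicIndependent k t := by
  classical
  let E : IntermediateField k L := IntermediateField.adjoin k G
  let s : Set E := {z | (z : L) ∈ G}
  have hsfin : s.Finite := by
    refine Set.Finite.of_finite_image (f := fun z : E => (z : L)) (hG.subset ?_)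
      Subtype.val_injective.injOn
    rintro _ ⟨z, hz, rfl⟩
    exact hz
  have htop : IntermediateField.adjoin k s = ⊤ := by
    have h1 : (IntermediateField.adjoin k s).map E.val = (⊤ : IntermediateField k E).map E.val := by
      rw [IntermediateField.adjoin_map, ← AlgHom.fieldRange_eq_map,
        IntermediateField.fieldRange_val]
      change IntermediateField.adjoin k _ = IntermediateField.adjoin k G
      congr 1
      ext z
      constructor
      · rintro ⟨y, hy, rfl⟩
        exact hy
      · intro hz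
        exact ⟨⟨z, IntermediateField.subset_adjoin _ _ hz⟩, hz, rfl⟩
    exact IntermediateField.map_injective _ h1
  have halg0 : Algebra.IsAlgebraic (IntermediateField.adjoin k s) E := by
    constructor
    intro z
    have hz : z ∈ IntermediateField.adjoin k s := by
      rw [htop]
      trivial
    exact isAlgebraic_algebraMap (R := IntermediateField.adjoin k s) (A := E) ⟨z, hz⟩
  have halg : Algebra.IsAlgebraic (Algebra.adjoin k s) E :=
    (IsFractionRing.comap_isAlgebraic_iff (A := Algebra.adjoin k s)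
      (K := IntermediateField.adjoin k s) (C := E)).2 halg0
  obtain ⟨B, hBs, hB⟩ := exists_isTranscendenceBasis_subset (R := k) s
  have hBfin : B.Finite := hsfin.subset hBs
  have hFB : Fintype B := hBfin.fintype
  have hyE : AlgebraicIndependent k fun j => (⟨y j, hyG j⟩ : E) :=
    AlgebraicIndependent.of_comp E.val hy
  have hle : m ≤ Fintype.card B := by
    have h1 := hyE.cardinalMk_le_trdeg
    rw [← hB.cardinalMk_eq_trdeg, Cardinal.mk_fin, Cardinal.mk_fintype] at h1
    exact_mod_cast h1
  let e : Fin m → B := fun j => (Fintype.equivFin B).symm (Fin.castLE hle j)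
  have he : Function.Injective e := fun a b hab =>
    Fin.castLE_injective hle ((Fintype.equivFin B).symm.injective hab)
  have h1 : AlgebraicIndependent k fun j => ((e j : E) : L) :=
    (hB.1.comp e he).map' (f := E.val) E.val.injective
  exact ⟨fun j => ((e j : E) : L), fun j => hBs (e j).2, h1⟩

variable {k K : Type} [Field k] [CharZero k] [Field K] [Algebra k K] {r m : ℕ} {x : Fin r → K}

/-- units with algebraically independent residues -/
theorem unit_of_ind (P : Place k K) {z : Fin m → K} (hz : ∀ j, P.Reg (z j))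
    (h : AlgebraicIndependent k fun j => P.red (z j)) :
    ∀ p : MvPolynomial (Fin m) k, p ≠ 0 →
      MvPolynomial.aeval z p ≠ 0 ∧ P.ord (MvPolynomial.aeval z p) = 0 := by
  intro p hp
  obtain ⟨h1, h2⟩ := Pool.Agent.W828.PG.red_aeval P z hz p
  have h3 : P.red (MvPolynomial.aeval z p) ≠ 0 := by
    rw [h2]
    intro h4
    exact hp ((algebraicIndependent_iff.1 h) p h4)
  rw [Ne, P.red_eq_zero_iff h1] at h3
  push Not at h3
  exact ⟨h3.1, le_antisymm h3.2 ((P.reg_iff h3.1).1 h1)⟩

/-- units have algebraically independent residues -/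
theorem ind_of_unit (P : Place k K) {z : Fin m → K}
    (h : ∀ p : MvPolynomial (Fin m) k, p ≠ 0 →
      MvPolynomial.aeval z p ≠ 0 ∧ P.ord (MvPolynomial.aeval z p) = 0) :
    (∀ j, P.Reg (z j)) ∧ AlgebraicIndependent k fun j => P.red (z j) := by
  have hz : ∀ j, P.Reg (z j) := by
    intro j
    have h1 := h (MvPolynomial.X j) (MvPolynomial.X_ne_zero j)
    rw [MvPolynomial.aeval_X] at h1
    exact Or.inr h1.2.ge
  refine ⟨hz, ?_⟩
  rw [algebraicIndependent_iff]
  intro p hp
  by_contra hp0
  have h1 := h p hp0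
  obtain ⟨h2, h3⟩ := Pool.Agent.W828.PG.red_aeval P z hz p
  exact P.red_ne_zero h1.1 h1.2 (h3.trans hp)

/-- **Monomials with algebraically independent residues.** -/
theorem exists_C (P : Place k K) (hx : ∀ i, x i ≠ 0) {B : Finset (Fin r → ℤ)} {bs : B}
    (hbs : ∀ b : B, (bs : Fin r → ℤ) ⬝ᵥ vec P x ≤ (b : Fin r → ℤ) ⬝ᵥ vec P x) {y : Fin m → K}
    (hy : ∀ p : MvPolynomial (Fin m) k, p ≠ 0 →
      MvPolynomial.aeval y p ≠ 0 ∧ P.ord (MvPolynomial.aeval y p) = 0)
    {a : Fin m → B → k} {a0 : B → k}
    (hl0 : (∑ b : B, a0 b • mono x ((b : Fin r → ℤ) - bs)) ≠ 0)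
    (hl0' : P.ord (∑ b : B, a0 b • mono x ((b : Fin r → ℤ) - bs)) = 0)
    (hyl : ∀ j, y j * (∑ b : B, a0 b • mono x ((b : Fin r → ℤ) - bs)) =
      ∑ b : B, a j b • mono x ((b : Fin r → ℤ) - bs)) :
    ∃ β : Fin m → B, (∀ j, (β j : Fin r → ℤ) ⬝ᵥ vec P x = (bs : Fin r → ℤ) ⬝ᵥ vec P x) ∧
      AlgebraicIndependent k fun j => P.red (mono x ((β j : Fin r → ℤ) - bs)) := by
  classical
  obtain ⟨hyr, hyi⟩ := ind_of_unit P hy
  let G : Set P.RF := {z | ∃ b : B, (b : Fin r → ℤ) ⬝ᵥ vec P x = (bs : Fin r → ℤ) ⬝ᵥ vec P x ∧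
    z = P.red (mono x ((b : Fin r → ℤ) - bs))}
  have hGfin : G.Finite := by
    refine (Set.finite_range fun b : B => P.red (mono x ((b : Fin r → ℤ) - bs))).subset ?_
    rintro _ ⟨b, -, rfl⟩
    exact ⟨b, rfl⟩
  have hmreg : ∀ b : B, P.Reg (mono x ((b : Fin r → ℤ) - bs)) := by
    intro b
    right
    rw [ord_mono P hx, sub_dotProduct]
    exact sub_nonneg.2 (hbs b)
  have hred : ∀ c : B → k, P.Reg (∑ b : B, c b • mono x ((b : Fin r → ℤ) - bs)) ∧
      P.red (∑ b : B, c b • mono x ((b : Fin r → ℤ) - bs)) ∈ IntermediateField.adjoin k G := by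
    intro c
    have h1 : ∀ b ∈ (Finset.univ : Finset B), P.Reg (c b • mono x ((b : Fin r → ℤ) - bs)) := by
      intro b _
      rw [Algebra.smul_def]
      exact P.reg_mul (P.reg_const _) (hmreg b)
    obtain ⟨h2, h3⟩ := Pool.Agent.W828.PG.red_sum P Finset.univ
      (fun b : B => c b • mono x ((b : Fin r → ℤ) - bs)) h1
    refine ⟨h2, ?_⟩
    rw [h3]
    refine sum_mem fun b _ => ?_
    rw [Algebra.smul_def, P.red_mul (P.reg_const _) (hmreg b)]
    refine mul_mem ?_ ?_
    · rw [← P.algebraMap_RF]
      exact IntermediateField.algebraMap_mem _ _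
    · by_cases hb : (b : Fin r → ℤ) ⬝ᵥ vec P x = (bs : Fin r → ℤ) ⬝ᵥ vec P x
      · exact IntermediateField.subset_adjoin _ _ ⟨b, hb, rfl⟩
      · have h4 : P.red (mono x ((b : Fin r → ℤ) - bs)) = 0 := by
          rw [P.red_eq_zero_iff (hmreg b)]
          right
          rw [ord_mono P hx, sub_dotProduct]
          have := hbs b
          omega
        rw [h4]
        exact zero_mem _
  have hl0red : P.red (∑ b : B, a0 b • mono x ((b : Fin r → ℤ) - bs)) ≠ 0 :=
    P.red_ne_zero hl0 hl0'
  have hyG : ∀ j, P.red (y j) ∈ IntermediateField.adjoin k G := by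
    intro j
    have h1 := congrArg P.red (hyl j)
    rw [P.red_mul (hyr j) (hred a0).1] at h1
    rw [eq_div_of_mul_eq hl0red h1]
    exact div_mem (hred (a j)).2 (hred a0).2
  obtain ⟨t, ht, hti⟩ := exists_ind hGfin hyi hyG
  choose β hβ hβt using ht
  refine ⟨β, hβ, ?_⟩
  have h1 : t = fun j => P.red (mono x ((β j : Fin r → ℤ) - bs)) := funext hβt
  rwa [h1] at hti

end

end Pool.Agent.K9h25
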