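import Pool.Agent.K9h25.Fb
import Pool.Agent.K9h25.Ru
import Pool.Agent.R885.P6

/-!
Hypersurfaces which are ruled: those with a degenerate Newton polytope, and those of width one.
-/

set_option autoImplicit false
set_option linter.overlappingInstances false
set_option linter.unusedSectionVars false

open FF IntermediateField Pool.Agent.R885 Pool.Agent.W603.LV Pool.Agent.W619.PQ
  Pool.Agent.Y173.QA Pool.Agent.W619.TW Pool.Agent.TH165.ACC Pool.Agent.TH122.AB Pool.Agent.Y174

namespace Pool.Agent.K9h25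

/-- The canonical divisor is not pseudo-effective: for every finite set `S` of functions, a section
of `M K_V + A`, where `A` is the divisor generated by `S`, vanishes if `M` is sufficiently large. -/
def NotPsef (k K : Type) [Field k] [Field K] [Algebra k K] (n : ℕ) : Prop :=
  ∀ S : Finset K, ∃ M0 : ℕ, ∀ M : ℕ, M0 ≤ M → ∀ ω : (Fin n → Derivation k K K) → K,
    Pool.Agent.W602.GT.TwSec k K n M (fun _ => False) S 1 ω → ∀ D, ω D = 0

section

variable {k K : Type} [Field k] [Field K] [Algebra k K] {n r : ℕ} {x : Fin r → K}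

theorem notPsef_of_neg (h : N.Neg k K n) : NotPsef k K n := by
  intro T
  obtain ⟨M0, hM0⟩ := h T
  refine ⟨M0, fun M hM ω hω D => ?_⟩
  have h1 : ω = 0 := hM0 M hM ω ⟨hω.1, fun v hv D hD => by
    rcases hω.2.2 v hv (fun h => h) D hD with h2 | ⟨s, hs, hs0, hle⟩
    · exact Or.inl h2
    · refine Or.inr ⟨s, hs, hs0, ?_⟩
      rw [Nat.cast_one, one_mul, mul_zero, sub_zero]
      rw [Nat.cast_one, one_mul] at hle
      exact_mod_cast hle⟩
  rw [h1]
  rfl

variable [CharZero k]

theorem notPsef_ruled (htr : Algebra.trdeg k K = (n : ℕ)) (δ : Derivation k K K) {σ : K}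
    (hσ0 : σ ≠ 0) (hσ : δ σ = σ)
    (htop : IntermediateField.adjoin (Pool.Agent.W602.GT.consts δ) {σ} = ⊤) :
    NotPsef k K n := by
  intro T
  obtain ⟨N0, hN0⟩ := no_sec htr (Bd := fun _ => False) δ hσ0 hσ htop (fun _ _ _ h => h) T
  refine ⟨N0, fun M hM ω hω => hN0 M 1 hM one_pos ω ?_⟩
  rw [one_mul]
  exact hω

/-- generators in a subfield -/
theorem top_of_mem (hgen : IntermediateField.adjoin k (Set.range x) = ⊤) {C : IntermediateField k K}
    {L : IntermediateField C K} (h : ∀ i, x i ∈ L) : L = ⊤ := by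
  rw [eq_top_iff]
  intro z _
  have h1 : z ∈ IntermediateField.adjoin k (Set.range x) := by
    rw [hgen]
    trivial
  have h2 : IntermediateField.adjoin k (Set.range x) ≤ L.restrictScalars k := by
    rw [IntermediateField.adjoin_le_iff]
    rintro _ ⟨i, rfl⟩
    exact h i
  exact h2 h1

/-- the derivative of a monomial -/
theorem der_mono_lg (δ : Derivation k K K) (hx : ∀ i, x i ≠ 0) {η : Fin r → K}
    (hδ : lg x δ = η) (w : Fin r → ℤ) : δ (mono x w) = mono x w * ∑ i, (w i : K) * η i := by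
  rw [der_mono δ hx, ← hδ]
  rfl

/-- **Degenerate Newton polytopes.** -/
theorem notPsef_hom (htr : Algebra.trdeg k K = (n : ℕ)) (hr : r = n + 1) (hx : ∀ i, x i ≠ 0)
    (hgen : IntermediateField.adjoin k (Set.range x) = ⊤) {f : (Fin r → ℤ) →₀ k}
    (hf0 : f ≠ 0) (hf : ev x f = 0) (hgr : gr x f ≠ 0) {v0 c : Fin r → ℤ} (hc : c ⬝ᵥ v0 = 1)
    (hcon : ∀ m ∈ f.support, ∀ m' ∈ f.support, m ⬝ᵥ v0 = m' ⬝ᵥ v0) : NotPsef k K n := by
  classical
  obtain ⟨m0, hm0⟩ := Finsupp.support_nonempty_iff.2 hf0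
  obtain ⟨δ, hδ⟩ := N.der_of_ker htr hx hgen (J := Unit) (f := fun _ => f) (by
    rw [Fintype.card_unit]; omega) (fun _ => hf) (linearIndependent_unique_iff.2 hgr)
    (η := fun i => (v0 i : K)) fun _ => N.gr_dot_const hf fun m hm => hcon m hm m0 hm0
  have hmono : ∀ w : Fin r → ℤ, δ (mono x w) = ((w ⬝ᵥ v0 : ℤ) : K) * mono x w := by
    intro w
    rw [der_mono_lg δ hx hδ, dot_intCast, mul_comm]
  refine notPsef_ruled htr δ (σ := mono x c) (mono_ne hx _) (by
    rw [hmono, hc, Int.cast_one, one_mul]) (top_of_mem hgen fun i => ?_)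
  have h1 : x i = mono x (Pi.single i 1 - (v0 i) • c) * mono x c ^ (v0 i) := by
    rw [mono_sub hx, mono_single, mono_zsmul, div_mul_cancel₀]
    exact zpow_ne_zero _ (mono_ne hx _)
  have h2 : mono x (Pi.single i 1 - (v0 i) • c) ∈ Pool.Agent.W602.GT.consts δ := by
    rw [Pool.Agent.W602.GT.mem_consts, hmono, sub_dotProduct, single_one_dotProduct,
      smul_dotProduct, hc, smul_eq_mul, mul_one, sub_self, Int.cast_zero, zero_mul]
  rw [h1]
  refine mul_mem ?_ (zpow_mem (IntermediateField.mem_adjoin_simple_self _ _) _)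
  exact IntermediateField.algebraMap_mem _ (⟨_, h2⟩ : Pool.Agent.W602.GT.consts δ)

/-- **Width one.** -/
theorem notPsef_width (hn : 1 ≤ n) (htr : Algebra.trdeg k K = (n : ℕ)) (hr : r = n + 1)
    (hx : ∀ i, x i ≠ 0) (hgen : IntermediateField.adjoin k (Set.range x) = ⊤)
    {f : (Fin r → ℤ) →₀ k} (hf0 : f ≠ 0) (hf : ev x f = 0) (hgr : gr x f ≠ 0)
    {s β : Fin r → ℤ} (hβ : β ⬝ᵥ s = 1) (hw1 : mn s f + mn (-s) f = -1)
    {w : Fin n → Fin r → ℤ} (hws : ∀ j, w j ⬝ᵥ s = 0)
    (hind : AlgebraicIndependent k fun j => mono x (w j)) : NotPsef k K n := by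
  classical
  have hK0 : CharZero K := charZero_of_injective_algebraMap (algebraMap k K).injective
  obtain ⟨μ, hμ⟩ : ∃ μ, μ = mn s f := ⟨_, rfl⟩
  have hlo : ∀ m ∈ f.support, μ ≤ m ⬝ᵥ s := fun m hm => by rw [hμ]; exact mn_le hm
  have hhi : ∀ m ∈ f.support, m ⬝ᵥ s ≤ μ + 1 := by
    intro m hm
    have h1 := mn_le (v := -s) hm
    rw [dotProduct_neg] at h1
    omega
  have hs0 : s ≠ 0 := by
    rintro rfl
    rw [dotProduct_zero] at hβ
    exact zero_ne_one hβ
  have hsupp0 : ∀ m, m ∈ (ini s f).support ↔ m ∈ f.support ∧ m ⬝ᵥ s = μ := by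
    intro m
    unfold ini
    rw [Finsupp.support_filter, Finset.mem_filter, hμ]
  have hsupp1 : ∀ m, m ∈ (ini (-s) f).support ↔ m ∈ f.support ∧ m ⬝ᵥ s = μ + 1 := by
    intro m
    unfold ini
    rw [Finsupp.support_filter, Finset.mem_filter, dotProduct_neg]
    constructor
    · rintro ⟨h1, h2⟩
      exact ⟨h1, by omega⟩
    · rintro ⟨h1, h2⟩
      exact ⟨h1, by omega⟩
  have hsplit : f = ini s f + ini (-s) f := by
    ext m
    rw [Finsupp.add_apply]
    unfold ini
    rw [Finsupp.filter_apply, Finsupp.filter_apply, dotProduct_neg]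
    by_cases hm : m ∈ f.support
    · have h1 := hlo m hm
      have h2 := hhi m hm
      rcases (by omega : m ⬝ᵥ s = μ ∨ m ⬝ᵥ s = μ + 1) with h3 | h3
      · rw [if_pos (by omega), if_neg (by omega), add_zero]
      · rw [if_neg (by omega), if_pos (by omega), zero_add]
    · rw [Finsupp.notMem_support_iff.1 hm]
      simp
  have hev : ev x f = ev x (ini s f) + ev x (ini (-s) f) := by
    conv_lhs => rw [hsplit]
    unfold ev
    rw [Finsupp.sum_add_index']
    · intro m
      rw [map_zero, zero_mul]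
    · intro m a b
      rw [map_add, add_mul]
  -- the part of larger degree does not vanish
  have hliw : LinearIndependent ℚ fun (l : Fin n) (i : Fin r) => (w l i : ℚ) := by
    have h1 := li_fib (k := k) (F := K) hx hf hgr hind
    have h2 := h1.comp (Sum.inr : Fin n → Unit ⊕ Fin n) Sum.inr_injective
    exact li_down (F := K) h2
  have hlis : LinearIndependent ℚ fun (_ : Unit) (i : Fin r) => (s i : ℚ) := by
    rw [linearIndependent_unique_iff]
    intro h1
    apply hs0
    funext i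
    have h2 : ((s i : ℤ) : ℚ) = 0 := congrFun h1 i
    rw [Pi.zero_apply]
    exact_mod_cast h2
  have hspan : ∀ v : Fin r → ℤ, v ⬝ᵥ s = 0 → ∃ (M : ℤ) (c : Fin n → ℤ), M ≠ 0 ∧
      M • v = ∑ l, c l • w l := fun v hv =>
    span_int hliw hlis (fun l _ => hws l) (by
      rw [Fintype.card_fin, Fintype.card_unit]
      omega) fun _ => hv
  have h1ne : ev x (ini (-s) f) ≠ 0 := by
    obtain ⟨m0, hm0, hm0'⟩ := exists_mn hf0 (-s)
    refine ev_ne hx hind _ _ ?_ le_rfl fun m hm m' hm' => hspan _ ?_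
    · intro h0
      have h1 : ini (-s) f m0 = f m0 := by
        unfold ini
        rw [Finsupp.filter_apply, if_pos hm0']
      rw [h0, Finsupp.zero_apply] at h1
      exact Finsupp.mem_support_iff.1 hm0 h1.symm
    · rw [sub_dotProduct, ((hsupp1 m).1 hm).2, ((hsupp1 m').1 hm').2, sub_self]
  -- the pairing of the gradient
  have hgs : ∑ i, gr x f i * (s i : K) = ev x (ini (-s) f) := by
    rw [N.gr_dot]
    have h1 : ∀ m ∈ f.support, algebraMap k K (f m) * ((m ⬝ᵥ s : ℤ) : K) * mono x m =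
        (μ : K) * (algebraMap k K (f m) * mono x m) +
          algebraMap k K (ini (-s) f m) * mono x m := by
      intro m hm
      have h2 : ini (-s) f m = if m ⬝ᵥ s = μ + 1 then f m else 0 := by
        unfold ini
        rw [Finsupp.filter_apply, dotProduct_neg]
        congr 1
        exact propext ⟨fun h => by omega, fun h => by omega⟩
      rw [h2]
      rcases (by have := hlo m hm; have := hhi m hm; omega :
        m ⬝ᵥ s = μ ∨ m ⬝ᵥ s = μ + 1) with h3 | h3
      · rw [if_neg (by omega), h3, map_zero]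
        ring
      · rw [if_pos h3, h3]
        push_cast
        ring
    rw [Finset.sum_congr rfl h1, Finset.sum_add_distrib, ← Finset.mul_sum]
    have h2 : ∑ m ∈ f.support, algebraMap k K (f m) * mono x m = 0 := hf
    rw [h2, mul_zero, zero_add]
    unfold ev
    rw [Finsupp.sum_of_support_subset (ini (-s) f) (s := f.support)
      (fun m hm => ((hsupp1 m).1 hm).1) _ (fun _ _ => by rw [map_zero, zero_mul])]
  -- a direction of the base
  have hw0 : w ⟨0, hn⟩ ≠ 0 := by
    intro h0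
    have h1 := hind.transcendental ⟨0, hn⟩
    rw [h0, mono_zero] at h1
    exact h1 isAlgebraic_one
  obtain ⟨g, w0, b, hg, hgw, hb⟩ := exists_prim hw0
  have hw0s : w0 ⬝ᵥ s = 0 := by
    have h1 := hws ⟨0, hn⟩
    rw [hgw, smul_dotProduct] at h1
    exact (smul_eq_zero.1 h1).resolve_left hg.ne'
  have hw0b : w0 ⬝ᵥ b = 1 := by rw [dotProduct_comm]; exact hb
  -- the derivation
  obtain ⟨κ, hκ⟩ : ∃ κ : K, κ = -(∑ i, gr x f i * (b i : K)) / ∑ i, gr x f i * (s i : K) :=
    ⟨_, rfl⟩
  have hgs0 : ∑ i, gr x f i * (s i : K) ≠ 0 := by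
    rw [hgs]
    exact h1ne
  obtain ⟨δ, hδ⟩ := N.der_of_ker htr hx hgen (J := Unit) (f := fun _ => f) (by
    rw [Fintype.card_unit]; omega) (fun _ => hf) (linearIndependent_unique_iff.2 hgr)
    (η := fun i => (b i : K) + κ * (s i : K)) fun _ => by
      have h1 : ∑ i, gr x f i * ((b i : K) + κ * (s i : K)) =
          ∑ i, gr x f i * (b i : K) + κ * ∑ i, gr x f i * (s i : K) := by
        rw [Finset.mul_sum, ← Finset.sum_add_distrib]
        exact Finset.sum_congr rfl fun i _ => by ring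
      rw [h1, hκ]
      field_simp
      ring
  have hmono : ∀ v : Fin r → ℤ, v ⬝ᵥ s = 0 → δ (mono x v) = ((v ⬝ᵥ b : ℤ) : K) * mono x v := by
    intro v hv
    have h1 : ∑ i, (v i : K) * ((b i : K) + κ * (s i : K)) = ((v ⬝ᵥ b : ℤ) : K) := by
      have h2 : ∑ i, (v i : K) * ((b i : K) + κ * (s i : K)) =
          ∑ i, (v i : K) * (b i : K) + κ * ∑ i, (v i : K) * (s i : K) := by
        rw [Finset.mul_sum, ← Finset.sum_add_distrib]
        exact Finset.sum_congr rfl fun i _ => by ring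
      rw [h2, dot_intCast, dot_intCast, hv, Int.cast_zero, mul_zero, add_zero]
    rw [der_mono_lg δ hx hδ, h1, mul_comm]
  obtain ⟨L, hL⟩ : ∃ L : IntermediateField (Pool.Agent.W602.GT.consts δ) K,
    L = IntermediateField.adjoin (Pool.Agent.W602.GT.consts δ) {mono x w0} := ⟨_, rfl⟩
  have hσL : mono x w0 ∈ L := by
    rw [hL]
    exact IntermediateField.mem_adjoin_simple_self _ _
  have hvL : ∀ v : Fin r → ℤ, v ⬝ᵥ s = 0 → mono x v ∈ L := by
    intro v hv
    have h1 : mono x v = mono x (v - (v ⬝ᵥ b) • w0) * mono x w0 ^ (v ⬝ᵥ b) := by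
      rw [mono_sub hx, mono_zsmul, div_mul_cancel₀]
      exact zpow_ne_zero _ (mono_ne hx _)
    have h2 : mono x (v - (v ⬝ᵥ b) • w0) ∈ Pool.Agent.W602.GT.consts δ := by
      rw [Pool.Agent.W602.GT.mem_consts, hmono _ (by
        rw [sub_dotProduct, smul_dotProduct, hv, hw0s, smul_zero, sub_zero]), sub_dotProduct,
        smul_dotProduct, hw0b, smul_eq_mul, mul_one, sub_self, Int.cast_zero, zero_mul]
    rw [h1]
    refine mul_mem ?_ (zpow_mem hσL _)
    exact IntermediateField.algebraMap_mem _ (⟨_, h2⟩ : Pool.Agent.W602.GT.consts δ)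
  have hev'L : ∀ (g : (Fin r → ℤ) →₀ k) (m0 : Fin r → ℤ),
      (∀ m ∈ g.support, (m - m0) ⬝ᵥ s = 0) → ev' x g m0 ∈ L := by
    intro g m0 h
    unfold ev'
    refine sum_mem fun m hm => mul_mem ?_ (hvL _ (h m hm))
    have h1 : algebraMap k K (g m) ∈ Pool.Agent.W602.GT.consts δ :=
      IntermediateField.algebraMap_mem _ _
    exact IntermediateField.algebraMap_mem _ (⟨_, h1⟩ : Pool.Agent.W602.GT.consts δ)
  -- the last coordinate
  have hzL : mono x β ∈ L := by
    obtain ⟨E0, hE0⟩ : ∃ E0, E0 = ev' x (ini s f) (μ • β) := ⟨_, rfl⟩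
    obtain ⟨E1, hE1⟩ : ∃ E1, E1 = ev' x (ini (-s) f) ((μ + 1) • β) := ⟨_, rfl⟩
    have hE0L : E0 ∈ L := by
      rw [hE0]
      refine hev'L _ _ fun m hm => ?_
      rw [sub_dotProduct, smul_dotProduct, hβ, ((hsupp0 m).1 hm).2, smul_eq_mul, mul_one, sub_self]
    have hE1L : E1 ∈ L := by
      rw [hE1]
      refine hev'L _ _ fun m hm => ?_
      rw [sub_dotProduct, smul_dotProduct, hβ, ((hsupp1 m).1 hm).2, smul_eq_mul, mul_one, sub_self]
    have h0 := ev_eq hx (ini s f) (μ • β)
    have h1 := ev_eq hx (ini (-s) f) ((μ + 1) • β)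
    rw [← hE0] at h0
    rw [← hE1] at h1
    have hE10 : E1 ≠ 0 := by
      intro h2
      rw [h2, mul_zero] at h1
      exact h1ne h1
    have h2 : mono x (μ • β) * (E0 + mono x β * E1) = 0 := by
      have h3 : mono x ((μ + 1) • β) = mono x (μ • β) * mono x β := by
        rw [add_smul, one_smul, mono_add hx]
      rw [hev, h0, h1, h3] at hf
      rw [← hf]
      ring
    have h3 := (mul_eq_zero.1 h2).resolve_left (mono_ne hx _)
    have h4 : mono x β = -E0 / E1 := by
      rw [eq_div_iff hE10]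
      linear_combination h3
    rw [h4]
    exact div_mem (neg_mem hE0L) hE1L
  refine notPsef_ruled htr δ (σ := mono x w0) (mono_ne hx _) (by
    rw [hmono _ hw0s, hw0b, Int.cast_one, one_mul]) ?_
  rw [← hL]
  refine top_of_mem hgen fun i => ?_
  have h1 : x i = mono x (Pi.single i 1 - (s i) • β) * mono x β ^ (s i) := by
    rw [mono_sub hx, mono_single, mono_zsmul, div_mul_cancel₀]
    exact zpow_ne_zero _ (mono_ne hx _)
  rw [h1]
  refine mul_mem (hvL _ ?_) (zpow_mem hzL _)
  rw [sub_dotProduct, single_one_dotProduct, smul_dotProduct, hβ, smul_eq_mul, mul_one, sub_self]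

end

end Pool.Agent.K9h25
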