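import Pool.Agent.K9h25.Ng
import Pool.Agent.R885.NG11

/-!
Fibres of monomial maps on an arbitrary hypersurface of a torus: high multiples of the canonical
divisor have no sections.
-/

set_option autoImplicit false
set_option linter.overlappingInstances false
set_option linter.unusedSectionVars false

open FF Pool.Agent.R885 Pool.Agent.W603.LV Pool.Agent.W619.PQ Pool.Agent.Y173.QA
  Pool.Agent.W619.TW Pool.Agent.TH165.ACC Pool.Agent.TH122.AB Pool.Agent.Y174

namespace Pool.Agent.K9h25

section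

variable {r : ℕ}

/-- an integral vector which is orthogonal to all vectors which are orthogonal to independent
vectors is a rational combination of them -/
theorem span_int {Q A : Type} [Fintype Q] [Fintype A] {ρ : Q → Fin r → ℤ} {σ : A → Fin r → ℤ}
    (hρ : LinearIndependent ℚ fun (l : Q) (i : Fin r) => (ρ l i : ℚ))
    (hσ : LinearIndependent ℚ fun (a : A) (i : Fin r) => (σ a i : ℚ))
    (hρσ : ∀ l a, ρ l ⬝ᵥ σ a = 0) (hc : r ≤ Fintype.card Q + Fintype.card A) {w : Fin r → ℤ}
    (hw : ∀ a, w ⬝ᵥ σ a = 0) : ∃ (M : ℤ) (c : Q → ℤ), M ≠ 0 ∧ M • w = ∑ l, c l • ρ l := by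
  classical
  by_contra hcon
  have hli : LinearIndependent ℚ (Sum.elim (fun (l : Q) (i : Fin r) => (ρ l i : ℚ))
      fun (_ : Unit) (i : Fin r) => (w i : ℚ)) := by
    rw [Fintype.linearIndependent_iff]
    intro g hg
    have hg' : ∀ i, ∑ l, g (Sum.inl l) * (ρ l i : ℚ) + g (Sum.inr ()) * (w i : ℚ) = 0 := by
      intro i
      have h1 := congrFun hg i
      rw [Fintype.sum_sum_type, Pi.add_apply, Finset.sum_apply,
        Fintype.sum_unique (ι := Unit)] at h1
      exact h1
    by_cases h0 : g (Sum.inr ()) = 0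
    · have h1 := Fintype.linearIndependent_iff.1 hρ (fun l => g (Sum.inl l)) (by
        funext i
        have h2 := hg' i
        rw [h0, zero_mul, add_zero] at h2
        rw [Finset.sum_apply, Pi.zero_apply, ← h2]
        rfl)
      rintro (l | l)
      · exact h1 l
      · exact h0
    · exfalso
      obtain ⟨D, hD, hDg⟩ := exists_denom g
      choose z hz using hDg
      apply hcon
      refine ⟨-z (Sum.inr ()), fun l => z (Sum.inl l), ?_, ?_⟩
      · intro h1
        have h2 : z (Sum.inr ()) = 0 := neg_eq_zero.1 h1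
        have h3 := hz (Sum.inr ())
        rw [h2, Int.cast_zero] at h3
        have h4 : (D : ℚ) ≠ 0 := by exact_mod_cast hD.ne'
        exact h0 ((mul_eq_zero.1 h3).resolve_left h4)
      · funext i
        have h1 : (((-z (Sum.inr ())) • w) i : ℚ) = ((∑ l, z (Sum.inl l) • ρ l) i : ℤ) := by
          rw [Finset.sum_apply]
          simp only [Pi.smul_apply, smul_eq_mul]
          push_cast
          simp only [← hz]
          have h2 := hg' i
          have h3 : ∑ l, (D : ℚ) * g (Sum.inl l) * (ρ l i : ℚ) =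
              D * ∑ l, g (Sum.inl l) * (ρ l i : ℚ) := by
            rw [Finset.mul_sum]
            exact Finset.sum_congr rfl fun l _ => by ring
          rw [h3]
          linear_combination -(D : ℚ) * h2
        exact_mod_cast h1
  have h1 := rank_le hli hσ (by
    rintro (l | l) a
    · change ∑ i, (ρ l i : ℚ) * (σ a i : ℚ) = 0
      rw [dot_intCast, hρσ, Int.cast_zero]
    · change ∑ i, (w i : ℚ) * (σ a i : ℚ) = 0
      rw [dot_intCast, hw, Int.cast_zero])
  simp only [Fintype.card_sum, Fintype.card_unit, Fintype.card_fin] at h1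
  omega

end

section

variable {k Λ F : Type} [Field k] [CharZero k] [Field Λ] [Algebra k Λ] [Field F] [Algebra Λ F]
  [Algebra k F] [IsScalarTower k Λ F] {r d m : ℕ} {x : Fin r → F}

/-- the gradient and the exponents of algebraically independent monomials -/
theorem li_fib (hx : ∀ i, x i ≠ 0) {f : (Fin r → ℤ) →₀ k} (hf : ev x f = 0)
    (hgr : gr x f ≠ 0) {w : Fin d → Fin r → ℤ} (hind : AlgebraicIndependent k fun j => mono x (w j)) :
    LinearIndependent F (Sum.elim (fun _ : Unit => gr x f) fun j i => (w j i : F)) := by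
  classical
  choose D hD hD' using exists_log_der hind
  rw [Fintype.linearIndependent_iff]
  intro g hg
  have hg' : ∀ i, g (Sum.inl ()) * gr x f i + ∑ j, g (Sum.inr j) * (w j i : F) = 0 := by
    intro i
    have h1 := congrFun hg i
    rw [Fintype.sum_sum_type, Pi.add_apply, Fintype.sum_unique (ι := Unit),
      Finset.sum_apply] at h1
    exact h1
  have hr : ∀ j, g (Sum.inr j) = 0 := by
    intro j
    have h1 : ∑ i, (g (Sum.inl ()) * gr x f i + ∑ j, g (Sum.inr j) * (w j i : F)) *
        lg x (D j) i = 0 := Finset.sum_eq_zero fun i _ => by rw [hg', zero_mul]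
    simp only [add_mul] at h1
    rw [Finset.sum_add_distrib] at h1
    have h2 : ∑ i, g (Sum.inl ()) * gr x f i * lg x (D j) i = 0 := by
      have h3 : ∑ i, g (Sum.inl ()) * gr x f i * lg x (D j) i =
          g (Sum.inl ()) * ∑ i, gr x f i * lg x (D j) i := by
        rw [Finset.mul_sum]
        exact Finset.sum_congr rfl fun i _ => by ring
      rw [h3, gr_lg hx hf, mul_zero]
    have h3 : ∑ i, (∑ j', g (Sum.inr j') * (w j' i : F)) * lg x (D j) i = g (Sum.inr j) := by
      simp only [Finset.sum_mul]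
      rw [Finset.sum_comm]
      have h4 : ∀ j', ∑ i, g (Sum.inr j') * (w j' i : F) * lg x (D j) i =
          g (Sum.inr j') * (if j' = j then 1 else 0) := by
        intro j'
        have h5 : ∑ i, (w j' i : F) * lg x (D j) i = D j (mono x (w j')) / mono x (w j') := by
          rw [der_mono (D j) hx, mul_div_cancel_left₀ _ (mono_ne hx _)]
          rfl
        have h6 : ∑ i, g (Sum.inr j') * (w j' i : F) * lg x (D j) i =
            g (Sum.inr j') * ∑ i, (w j' i : F) * lg x (D j) i := by
          rw [Finset.mul_sum]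
          exact Finset.sum_congr rfl fun i _ => by ring
        rw [h6, h5]
        congr 1
        split_ifs with h7
        · rw [h7, hD', div_self (mono_ne hx _)]
        · rw [hD j j' h7, zero_div]
      rw [Finset.sum_congr rfl fun j' _ => h4 j', Finset.sum_eq_single j]
      · rw [if_pos rfl, mul_one]
      · intro j' _ hj
        rw [if_neg hj, mul_zero]
      · intro hj
        exact absurd (Finset.mem_univ _) hj
    rw [h2, h3, zero_add] at h1
    exact h1
  have h0 : g (Sum.inl ()) = 0 := by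
    by_contra hne
    apply hgr
    funext i
    have h1 := hg' i
    rw [Finset.sum_eq_zero fun j _ => by rw [hr j, zero_mul], add_zero] at h1
    exact (mul_eq_zero.1 h1).resolve_left hne
  rintro (z | j)
  · exact h0
  · exact hr j

/-- **The initial parts are not homogeneous.** -/
theorem not_hom (hx : ∀ i, x i ≠ 0) {f : (Fin r → ℤ) →₀ k} (hf0 : f ≠ 0) (hf : ev x f = 0)
    {w : Fin d → Fin r → ℤ} {t : Fin d → Λ} (ht : AlgebraicIndependent k t)
    (hwt : ∀ j, algebraMap Λ F (t j) = mono x (w j)) (hr : r = d + m + 2)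
    (P : Place Λ F) (C : Fin m → Fin r → ℤ) (σ : Fin 2 → Fin r → ℤ)
    (hCv : ∀ j, C j ⬝ᵥ vec P x = 0)
    (hCi : AlgebraicIndependent Λ fun j => P.red (mono x (C j)))
    (hli : LinearIndependent ℚ fun (z : Fin d ⊕ Fin m) (i : Fin r) =>
        ((Sum.elim w C z i : ℤ) : ℚ))
    (hσ : LinearIndependent ℚ fun (i : Fin 2) (k : Fin r) => (σ i k : ℚ))
    (hwσ : ∀ j i, w j ⬝ᵥ σ i = 0) (hCσ : ∀ j i, C j ⬝ᵥ σ i = 0) :
    ∃ m ∈ f.support, ∃ m' ∈ f.support, m ⬝ᵥ vec P x = mn (vec P x) f ∧
      m' ⬝ᵥ vec P x = mn (vec P x) f ∧ ∃ i, m ⬝ᵥ σ i ≠ m' ⬝ᵥ σ i := by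
  classical
  by_contra hcon
  push Not at hcon
  let iA : Algebra k P.RF := ((algebraMap Λ P.RF).comp (algebraMap k Λ)).toAlgebra
  have hT : IsScalarTower k Λ P.RF := IsScalarTower.of_algebraMap_eq fun _ => rfl
  have hwv : ∀ j, w j ⬝ᵥ vec P x = 0 := by
    intro j
    rw [← ord_mono P hx, ← hwt]
    have h0 : t j ≠ 0 := by
      intro h0
      have h1 := hwt j
      rw [h0, map_zero] at h1
      exact mono_ne hx _ h1.symm
    exact P.ord_const h0
  have hpt := pt_ne P hx
  -- the monomials at the residual point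
  have hind : AlgebraicIndependent k fun z : Fin d ⊕ Fin m => mono (pt P x) (Sum.elim w C z) := by
    have h1 := (ht.sumElim_comp hCi).comp (Sum.swap : Fin d ⊕ Fin m → Fin m ⊕ Fin d)
      Sum.swap_leftInverse.injective
    have h2 : (Sum.elim (fun j => P.red (mono x (C j))) (algebraMap Λ P.RF ∘ t)) ∘
        (Sum.swap : Fin d ⊕ Fin m → Fin m ⊕ Fin d) =
        fun z : Fin d ⊕ Fin m => mono (pt P x) (Sum.elim w C z) := by
      funext z
      rcases z with j | j
      · change algebraMap Λ P.RF (t j) = mono (pt P x) (w j)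
        rw [← red_mono_zero P hx (hwv j), ← hwt, P.algebraMap_RF]
      · change P.red (mono x (C j)) = mono (pt P x) (C j)
        rw [red_mono_zero P hx (hCv j)]
    rwa [h2] at h1
  -- the initial part
  have hini : ev (pt P x) (ini (vec P x) f) = 0 := by
    have h1 := N.ev_pt P hx (f := f.mapRange (algebraMap k Λ) (map_zero _)) (by
      rw [ev_map]
      exact hf)
    rw [ini_map, ev_map] at h1
    exact h1
  have hini0 : ini (vec P x) f ≠ 0 := by
    obtain ⟨m0, hm0, hm0'⟩ := exists_mn hf0 (vec P x)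
    intro h0
    have h1 : ini (vec P x) f m0 = f m0 := by
      unfold ini
      rw [Finsupp.filter_apply, if_pos hm0']
    rw [h0, Finsupp.zero_apply] at h1
    exact Finsupp.mem_support_iff.1 hm0 h1.symm
  have hsupp : ∀ n, n ∈ (ini (vec P x) f).support ↔ n ∈ f.support ∧
      n ⬝ᵥ vec P x = mn (vec P x) f := by
    intro n
    unfold ini
    rw [Finsupp.support_filter, Finset.mem_filter]
  refine ev_ne hpt hind _ _ hini0 le_rfl (fun n hn n' hn' => ?_) hini
  obtain ⟨hn1, hn2⟩ := (hsupp n).1 hn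
  obtain ⟨hn1', hn2'⟩ := (hsupp n').1 hn'
  refine span_int hli hσ ?_ ?_ fun i => ?_
  · rintro (j | j) i
    · exact hwσ j i
    · exact hCσ j i
  · simp only [Fintype.card_sum, Fintype.card_fin]
    omega
  · rw [sub_dotProduct, hcon n hn1 n' hn1' hn2 hn2' i, sub_self]

/-- **The fibres of the monomial maps.** -/
theorem neg_fibre [IsAlgClosed Λ] (e : (Unit ⊕ Fin d) ⊕ Fin (m + 1) ≃ Fin r)
    (htr : Algebra.trdeg Λ F = (m + 1 : ℕ)) (hx : ∀ i, x i ≠ 0)
    (hgen : IntermediateField.adjoin Λ (Set.range x) = ⊤) {f : (Fin r → ℤ) →₀ k}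
    (hf0 : f ≠ 0) (hf : ev x f = 0) (hgr : gr x f ≠ 0)
    {S : Finset (Fin r → ℤ)} {u0 : Fin r → ℤ} {c a0 : ℤ} (hc : 0 < c) (hac : a0 < c)
    (hS : ∀ s ∈ S, u0 ⬝ᵥ s = a0 + c * mn s f)
    (hpos : ∀ q : Fin r → ℚ, (∀ s ∈ S, 0 ≤ dq q s) → ∀ s ∈ S, dq q s = 0)
    {w : Fin d → Fin r → ℤ} (hwS : ∀ j, ∀ s ∈ S, w j ⬝ᵥ s = 0)
    {t : Fin d → Λ} (ht : AlgebraicIndependent k t) (hwt : ∀ j, algebraMap Λ F (t j) = mono x (w j))
    (hcon : ∀ w' : Fin r → ℤ, (∀ s ∈ S, w' ⬝ᵥ s = 0) → ∃ a : Λ, algebraMap Λ F a = mono x w')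
    (T : Finset F) :
    ∃ M0 : ℕ, ∀ M : ℕ, M0 ≤ M → ∀ ω : (Fin (m + 1) → Derivation Λ F F) → F,
      PairSec Λ F (m + 1) (fun _ => 0) T M 1 ω → ω = 0 := by
  classical
  have hcΛ : CharZero Λ := charZero_of_injective_algebraMap (algebraMap k Λ).injective
  have hsp : ∀ P : Place Λ F, InSpan S (vec P x) := by
    intro P w' hw'
    obtain ⟨a, ha⟩ := hcon w' hw'
    rw [← ord_mono P hx, ← ha]
    have ha0 : a ≠ 0 := by
      rintro rfl
      rw [map_zero] at ha
      exact mono_ne hx w' ha.symm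
    exact P.ord_const ha0
  have hr : r = d + m + 2 := by
    rw [← Fintype.card_fin r, ← Fintype.card_congr e]
    simp only [Fintype.card_sum, Fintype.card_unit, Fintype.card_fin]
    omega
  have hind : AlgebraicIndependent k fun j => mono x (w j) := by
    have h1 := ht.map' (f := IsScalarTower.toAlgHom k Λ F) (algebraMap Λ F).injective
    have h2 : (fun i => (IsScalarTower.toAlgHom k Λ F) (t i)) = fun j => mono x (w j) := by
      funext j
      exact hwt j
    rw [← h2]
    exact h1
  obtain ⟨f', hf'd⟩ : ∃ f' : (Fin r → ℤ) →₀ Λ, f' = f.mapRange (algebraMap k Λ) (map_zero _) :=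
    ⟨_, rfl⟩
  have hsupp' : f'.support = f.support := by rw [hf'd]; exact supp_map f
  have hmn' : ∀ v, mn v f' = mn v f := fun v => by rw [hf'd]; exact mn_map f v
  have hf'0 : f' ≠ 0 := by
    intro h0
    rw [h0, Finsupp.support_zero] at hsupp'
    exact hf0 (Finsupp.support_eq_empty.1 hsupp'.symm)
  have hgr' : gr x f' = gr x f := by
    funext i
    rw [hf'd]
    exact gr_map x f i
  refine neg_zero (f := f') (S := S) (u0 := u0) (c := c) (a0 := a0) (w := w) (t := t) htr hx hgen e
    hf'0 ?_ hwt ?_ hc hac hwS ?_ hpos hsp ?_ T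
  · rw [hf'd, ev_map]
    exact hf
  · rw [hgr']
    exact li_fib hx hf hgr hind
  · intro s hs
    rw [hmn']
    exact hS s hs
  · intro P C σ hCv hCi hli hσ hwσ hCσ
    obtain ⟨n, hn, n', hn', h1, h2, h3⟩ := not_hom hx hf0 hf ht hwt hr P C σ hCv hCi hli hσ hwσ hCσ
    refine ⟨n, ?_, n', ?_, ?_, ?_, h3⟩
    · rw [hsupp']
      exact hn
    · rw [hsupp']
      exact hn'
    · rw [hmn']
      exact h1
    · rw [hmn']
      exact h2

end

end Pool.Agent.K9h25
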