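import Pool.Agent.K9h25.Mn

/-!
The dichotomy for mild hypersurfaces.
-/

set_option autoImplicit false
set_option linter.overlappingInstances false
set_option linter.unusedSectionVars false

open FF Pool.Agent.R885 Pool.Agent.W619.PQ Pool.Agent.TH165.ACC
open Pool.Agent.W602.GT (KodGe LogSec TwSec RegAt LogAt DerReg DerLog Divisorial IsPluri)

namespace Pool.Agent.K9h25

section

variable {k K : Type} [Field k] [Field K] [Algebra k K] {n : ℕ}

/-- effective multiples of the canonical divisor -/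
theorem not_notPsef_of_kod (h : KodGe k K n (fun _ => False) 0) : ¬ NotPsef k K n := by
  intro hneg
  obtain ⟨N, hN, ω, hω, D, hD, -⟩ := h
  obtain ⟨M0, hM0⟩ := hneg {1}
  refine pow_ne_zero (M0 + 1) hD (hM0 ((M0 + 1) * N) ?_ (fun D => ω 0 D ^ (M0 + 1)) ?_ D)
  · exact (Nat.le_succ M0).trans (Nat.le_mul_of_pos_right _ hN)
  · have hpl : IsPluri ((M0 + 1) * N) (fun D => ω 0 D ^ (M0 + 1)) := by
      intro A D'
      have h1 := (hω 0).1 A D'
      beta_reduce
      rw [h1, mul_pow, ← pow_mul, mul_comm N]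
    have hreg : ∀ (P : Place k K) (D' : Fin n → Derivation k K K), P.Reg (ω 0 D') →
        Pool.Agent.W602.GT.TwReg P {1} 1 (ω 0 D' ^ (M0 + 1)) := by
      intro P D' h1
      by_cases h2 : ω 0 D' = 0
      · left
        rw [h2, zero_pow (Nat.succ_ne_zero _)]
      · refine Or.inr ⟨1, Finset.mem_singleton_self _, one_ne_zero, ?_⟩
        rw [P.ord_one, mul_zero, P.ord_pow]
        have h3 := (P.reg_iff h2).1 h1
        positivity
    exact ⟨hpl, fun P hP D' hD' => hreg P D' ((hω 0).2.1 P hP D' hD'),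
      fun P hP hB D' hD' => hreg P D' ((hω 0).2.2 P hP hB D' hD')⟩

end

theorem mn_iff {r : ℕ} {k : Type} [Field k] {f : (Fin r → ℤ) →₀ k} (hf0 : f ≠ 0)
    {u : Fin r → ℚ} {v : Fin r → ℤ} : (∃ m ∈ f.support, 1 + ((m ⬝ᵥ v : ℤ) : ℚ) ≤
      ∑ i, u i * (v i : ℚ)) ↔ 1 + (mn v f : ℚ) ≤ dq u v := by
  constructor
  · rintro ⟨m, hm, h⟩
    have h1 : (mn v f : ℚ) ≤ ((m ⬝ᵥ v : ℤ) : ℚ) := by exact_mod_cast mn_le hm
    unfold dq
    linarith
  · intro h
    obtain ⟨m, hm, hmv⟩ := exists_mn hf0 v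
    refine ⟨m, hm, ?_⟩
    rw [hmv]
    exact h

end Pool.Agent.K9h25
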