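import Pool.Agent.K9h25.HSer

/-!
Graded linear series with a small moving part: the approximation of the class.
-/

set_option autoImplicit false
set_option linter.unusedSectionVars false
set_option linter.overlappingInstances false

open FF Module Pool.Agent.W602.GT Pool.Agent.Y172 Pool.Agent.R887 Pool.Agent.N110
  Pool.Agent.N110.NV

namespace Pool.Agent.K9h25.H

section

variable {K : Type} [Field K] [Algebra ℂ K] {N n : ℕ} {y : Fin (N + 1) → K}
  {lam B : Place ℂ K → ℚ} {V : ℕ → ℕ → Submodule ℂ K}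

/-- the fixed part -/
def Fxs (y : Fin (N + 1) → K) (lam : Place ℂ K → ℚ) (V : ℕ → ℕ → Submodule ℂ K) :
    Set (Place ℂ K) := {Q | ∃ s : ℚ, 0 < s ∧ Q ∈ Fx y lam V s}

theorem fx_unif {a : ℚ} (T₀ : Finset (Place ℂ K)) (hT₀ : ∀ P ∈ T₀, P ∈ Fx y lam V a) :
    ∃ t : ℝ, 0 < t ∧ ∃ m₀ : ℕ, ∀ P ∈ T₀, ∀ m b : ℕ, m₀ ≤ m → (b : ℝ) ≤ t * m →
      ∀ g ∈ V m b, g ≠ 0 → a * m ≤ Od lam m g P := by
  classical
  induction T₀ using Finset.induction_on with
  | empty => exact ⟨1, one_pos, 0, fun P hP => absurd hP (by simp)⟩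
  | insert P T hPT ih =>
    obtain ⟨t, ht, m₀, h⟩ := ih fun Q hQ => hT₀ Q (Finset.mem_insert_of_mem hQ)
    obtain ⟨-, t', ht', m₀', h'⟩ := hT₀ P (Finset.mem_insert_self P T)
    refine ⟨min t t', lt_min ht ht', max m₀ m₀', fun Q hQ m b hm hb g hg hg0 => ?_⟩
    have hm0 : (0 : ℝ) ≤ m := Nat.cast_nonneg _
    rcases Finset.mem_insert.1 hQ with rfl | hQ
    · exact h' m b ((le_max_right _ _).trans hm)
        (hb.trans (mul_le_mul_of_nonneg_right (min_le_right _ _) hm0)) g hg hg0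
    · exact h Q hQ m b ((le_max_left _ _).trans hm)
        (hb.trans (mul_le_mul_of_nonneg_right (min_le_left _ _) hm0)) g hg hg0

/-- **Small moving part.** -/
theorem Ser.approx (hy : NormalModel y) (hn : Algebra.trdeg ℂ K = n) (hn0 : 0 < n)
    {i : Fin (N + 1)} (hi : y i ≠ 0) (hl : Fin0 y lam) {Hy : Place ℂ K → ℚ}
    (hHe : Effective y Hy)
    (hHP : ∀ P l, IsPrimeDivisor y P → Centred y l P → Hy P = P.ord (y i / y l))
    {ρ : ℕ} {c : Place ℂ K → Fin ρ → ℚ} (hc : FiniteClasses y c)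
    (hB : Effective y B) (h : Ser y lam B V) {κ : ℝ} (hκ : 0 < κ)
    (hκb : ∀ x ∈ closure (effSet y c), ∀ z ∈ closure (effSet y c), κ * ‖x‖ ≤ ‖x + z‖)
    {δ : ℝ} (hδ : 0 < δ)
    (hbd : ∃ t : ℝ, 0 < t ∧ ∃ m₀ : ℕ, ∀ m b : ℕ, m₀ ≤ m → (b : ℝ) ≤ t * m →
      ∀ g₀ ∈ V m b, ∀ g₁ ∈ V m b, g₀ ≠ 0 → ∀ u : Fin (n - 1) → K, (∀ a, IsPencil y (u a)) →
        (degreeOver u (fun _ : Fin 1 => g₁ / g₀) : ℝ) ≤ δ * m)
    {a : ℚ} (ha : 0 < a) (T₀ : Finset (Place ℂ K)) (hT₀ : ∀ P ∈ T₀, P ∈ Fx y lam V a)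
    {η : ℝ} (hη : 0 < η) :
    ∃ G : Place ℂ K → ℚ, Effective y G ∧ (∀ P ∈ T₀, a ≤ G P) ∧
      (∀ P, G P ≠ 0 → P ∈ Fxs y lam V) ∧
      ‖toR (cls y c lam) - toR (cls y c G)‖ ≤ δ * ‖toR (cls y c Hy)‖ / κ + η := by
  classical
  obtain ⟨t1, ht1, m1, h1⟩ := hbd
  obtain ⟨t2, ht2, m2, h2⟩ := fx_unif T₀ hT₀
  have hB2 : {P : Place ℂ K | IsPrimeDivisor y P ∧ B P ≠ 0}.Finite := hB.2
  obtain ⟨SB, hSB⟩ : ∃ SB : ℝ, SB = ∑ P ∈ hB2.toFinset, (B P : ℝ) * ‖toR (c P)‖ := ⟨_, rfl⟩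
  have hBf : ∀ P ∈ hB2.toFinset, IsPrimeDivisor y P := by
    intro P hP
    rw [Set.Finite.mem_toFinset] at hP
    exact hP.1
  have hSB0 : 0 ≤ SB := by
    rw [hSB]
    refine Finset.sum_nonneg fun P hP => mul_nonneg ?_ (norm_nonneg _)
    exact_mod_cast hB.1 P (hBf P hP)
  obtain ⟨t3, ht3, ht3'⟩ : ∃ t3 : ℝ, 0 < t3 ∧ t3 * (SB + ‖toR (cls y c B)‖) ≤ η / 2 := by
    have h3 : 0 ≤ ‖toR (cls y c B)‖ := norm_nonneg _
    refine ⟨(η / 2) / (SB + ‖toR (cls y c B)‖ + 1), by positivity, ?_⟩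
    rw [div_mul_eq_mul_div, div_le_iff₀ (by positivity)]
    nlinarith
  obtain ⟨t, htd⟩ : ∃ t, t = min (min t1 t2) t3 := ⟨_, rfl⟩
  have ht : 0 < t := by
    rw [htd]
    exact lt_min (lt_min ht1 ht2) ht3
  have htt1 : t ≤ t1 := by
    rw [htd]
    exact (min_le_left _ _).trans (min_le_left _ _)
  have htt2 : t ≤ t2 := by
    rw [htd]
    exact (min_le_left _ _).trans (min_le_right _ _)
  have htt3 : t ≤ t3 := by
    rw [htd]
    exact min_le_right _ _
  obtain ⟨ma, ba, hma, hba, ga, hga, hga0⟩ := h.psef t ht (max (max m1 m2) 1)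
  have hma1 : 1 ≤ ma := (le_max_right _ _).trans hma
  have hmam1 : m1 ≤ ma := ((le_max_left _ _).trans (le_max_left _ _)).trans hma
  have hmam2 : m2 ≤ ma := ((le_max_right _ _).trans (le_max_left _ _)).trans hma
  -- the finite set of prime divisors
  have hOf : {P : Place ℂ K | IsPrimeDivisor y P ∧ Od lam ma ga P ≠ 0}.Finite :=
    od_fin hy hl hga0
  obtain ⟨T, hT⟩ : ∃ T : Finset (Place ℂ K), T = hOf.toFinset ∪ hB2.toFinset := ⟨_, rfl⟩
  have hTp : ∀ P ∈ T, IsPrimeDivisor y P := by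
    intro P hP
    rw [hT, Finset.mem_union, Set.Finite.mem_toFinset, Set.Finite.mem_toFinset] at hP
    rcases hP with hP | hP
    · exact hP.1
    · exact hP.1
  have hTn : ∀ P, IsPrimeDivisor y P → P ∉ T → Od lam ma ga P = 0 ∧ B P = 0 := by
    intro P hP hPT
    rw [hT, Finset.mem_union, not_or, Set.Finite.mem_toFinset, Set.Finite.mem_toFinset] at hPT
    constructor
    · by_contra h3
      exact hPT.1 ⟨hP, h3⟩
    · by_contra h3
      exact hPT.2 ⟨hP, h3⟩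
  obtain ⟨T', hT'⟩ : ∃ T' : Finset (Place ℂ K), T' = T.filter (fun P => P ∉ Fxs y lam V) :=
    ⟨_, rfl⟩
  obtain ⟨T'', hT''⟩ : ∃ T'' : Finset (Place ℂ K), T'' = T.filter (fun P => ¬ P ∉ Fxs y lam V) :=
    ⟨_, rfl⟩
  have hT'm : ∀ P, P ∈ T' ↔ P ∈ T ∧ P ∉ Fxs y lam V := by
    intro P
    rw [hT', Finset.mem_filter]
  have hT''m : ∀ P, P ∈ T'' ↔ P ∈ T ∧ P ∈ Fxs y lam V := by
    intro P
    rw [hT'', Finset.mem_filter, not_not]
  -- the error
  obtain ⟨S, hS⟩ : ∃ S : ℝ, S = ∑ P ∈ T', ‖toR (c P)‖ := ⟨_, rfl⟩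
  have hS0 : 0 ≤ S := by
    rw [hS]
    exact Finset.sum_nonneg fun _ _ => norm_nonneg _
  obtain ⟨ε, hε, hεS⟩ : ∃ ε : ℚ, 0 < ε ∧ (ε : ℝ) * S ≤ η / 2 := by
    obtain ⟨ε, h3, h4⟩ := exists_rat_btwn (show 0 < (η / 2) / (S + 1) by positivity)
    refine ⟨ε, by exact_mod_cast h3, ?_⟩
    rw [lt_div_iff₀ (by linarith)] at h4
    nlinarith
  obtain ⟨k, hk, bb, hbb, g₂, hg₂, hg₂0, hg₂T⟩ := h.small ht hma1 hba hga hga0 hε T'
    (fun P hP => ⟨hTp P ((hT'm P).1 hP).1, fun h3 => ((hT'm P).1 hP).2 ⟨ε, hε, h3⟩⟩)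
  obtain ⟨m, hm⟩ : ∃ m, m = k * ma := ⟨_, rfl⟩
  have hmma : ma ≤ m := by
    rw [hm]
    exact Nat.le_mul_of_pos_left _ hk
  have hm1 : 1 ≤ m := hma1.trans hmma
  have hm0 : (0 : ℝ) < m := by exact_mod_cast hm1
  have hm0q : (0 : ℚ) < m := by exact_mod_cast hm1
  obtain ⟨b, hb⟩ : ∃ b, b = max (k * ba) bb := ⟨_, rfl⟩
  have hbt : (b : ℝ) ≤ t * m := by
    rw [hb, Nat.cast_max, hm]
    refine max_le ?_ hbb
    push_cast
    nlinarith [mul_le_mul_of_nonneg_left hba (Nat.cast_nonneg (α := ℝ) k)]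
  obtain ⟨g₃, hg₃d⟩ : ∃ g₃, g₃ = ga ^ k := ⟨_, rfl⟩
  have hg₃ : g₃ ∈ V m b := by
    rw [hg₃d, hm, hb]
    exact h.mono _ _ _ (le_max_left _ _) (h.pow hga k hk)
  have hg₃0 : g₃ ≠ 0 := by
    rw [hg₃d]
    exact pow_ne_zero _ hga0
  rw [← hm] at hg₂ hg₂T
  have hg₂' : g₂ ∈ V m b := by
    rw [hb]
    exact h.mono _ _ _ (le_max_right _ _) hg₂
  have hO3 : ∀ P, IsPrimeDivisor y P → P ∉ T → Od lam m g₃ P = 0 := by
    intro P hP hPT
    rw [hg₃d, hm, od_pow, (hTn P hP hPT).1, mul_zero]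
  have hb0 : (0 : ℚ) ≤ b := Nat.cast_nonneg _
  have hb0r : (0 : ℝ) ≤ b := Nat.cast_nonneg _
  -- the divisors of the sections
  obtain ⟨D₃, hD₃⟩ : ∃ D₃ : Place ℂ K → ℚ, D₃ = fun P => Od lam m g₃ P + b * B P := ⟨_, rfl⟩
  obtain ⟨D₂, hD₂⟩ : ∃ D₂ : Place ℂ K → ℚ, D₂ = fun P => Od lam m g₂ P + b * B P := ⟨_, rfl⟩
  have hD₃f : Fin0 y D₃ := by
    rw [hD₃]
    exact (od_fin hy hl hg₃0).add (Fin0.smul (y := y) hB.2 b)
  have hD₂f : Fin0 y D₂ := by
    rw [hD₂]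
    exact (od_fin hy hl hg₂0).add (Fin0.smul (y := y) hB.2 b)
  have hD₃0 : ∀ P, IsPrimeDivisor y P → 0 ≤ D₃ P := by
    intro P hP
    rw [hD₃]
    exact h.pole m b hm1 g₃ hg₃ hg₃0 P hP
  have hD₂0 : ∀ P, IsPrimeDivisor y P → 0 ≤ D₂ P := by
    intro P hP
    rw [hD₂]
    exact h.pole m b hm1 g₂ hg₂' hg₂0 P hP
  have hD₃T : ∀ P, IsPrimeDivisor y P → P ∉ T → D₃ P = 0 := by
    intro P hP hPT
    rw [hD₃]
    change Od lam m g₃ P + b * B P = 0
    rw [hO3 P hP hPT, (hTn P hP hPT).2, mul_zero, add_zero]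
  -- the quotient
  obtain ⟨g, hg⟩ : ∃ g, g = g₂ / g₃ := ⟨_, rfl⟩
  have hg0 : g ≠ 0 := by
    rw [hg]
    exact div_ne_zero hg₂0 hg₃0
  obtain ⟨D, hD⟩ : ∃ D : ℕ, D = ⌊δ * m⌋₊ := ⟨_, rfl⟩
  have hDle : (D : ℝ) ≤ δ * m := by
    rw [hD]
    exact Nat.floor_le (by positivity)
  obtain ⟨f, hf0, hf⟩ := ct K N n y hy hn hn0 i hi g D hg0 fun u hu => by
    rw [hD]
    refine Nat.le_floor ?_
    rw [hg]
    exact h1 m b (hmam1.trans hmma)
      (hbt.trans (mul_le_mul_of_nonneg_right htt1 hm0.le)) g₃ hg₃ g₂ hg₂' hg₃0 u hu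
  -- the moving part and the fixed part
  obtain ⟨F, hF⟩ : ∃ F : Place ℂ K → ℚ, F = fun P => min (D₃ P) (D₂ P) := ⟨_, rfl⟩
  obtain ⟨M, hM⟩ : ∃ M : Place ℂ K → ℚ, M = fun P => D₃ P - F P := ⟨_, rfl⟩
  have hFf : Fin0 y F := by
    refine (hD₃f.union hD₂f).subset ?_
    rintro P ⟨hP, h0⟩
    by_contra hcon
    rw [Set.mem_union, not_or] at hcon
    have h3 : D₃ P = 0 := by
      by_contra h4
      exact hcon.1 ⟨hP, h4⟩
    have h4 : D₂ P = 0 := by
      by_contra h4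
      exact hcon.2 ⟨hP, h4⟩
    apply h0
    rw [hF]
    change min (D₃ P) (D₂ P) = 0
    rw [h3, h4, min_self]
  have hMf : Fin0 y M := by
    rw [hM]
    exact hD₃f.sub hFf
  have hF0 : ∀ P, IsPrimeDivisor y P → 0 ≤ F P := by
    intro P hP
    rw [hF]
    exact le_min (hD₃0 P hP) (hD₂0 P hP)
  have hFT : ∀ P, IsPrimeDivisor y P → P ∉ T → F P = 0 := by
    intro P hP hPT
    refine le_antisymm ?_ (hF0 P hP)
    rw [hF]
    exact (min_le_left _ _).trans (hD₃T P hP hPT).le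
  have hM0 : ∀ P, 0 ≤ M P := by
    intro P
    rw [hM, hF]
    exact sub_nonneg.2 (min_le_left _ _)
  have hMe : Effective y M := ⟨fun P _ => hM0 P, hMf⟩
  -- the divisor `D H - M`
  obtain ⟨G₂, hG₂⟩ : ∃ G₂ : Place ℂ K → ℚ, G₂ = fun P => (P.ord f + D * Hy P) - M P := ⟨_, rfl⟩
  have hof : Fin0 y (fun P => (P.ord f : ℚ)) := ord_fin hy hf0
  have hH : Fin0 y Hy := hHe.2
  have hG₂e : Effective y G₂ := by
    refine ⟨fun P hP => ?_, ?_⟩
    · obtain ⟨l, hl'⟩ := exists_centred hy P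
      have h3 := hf P l hP hl'
      have h4 := hHP P l hP hl'
      have h5 : (0 : ℚ) ≤ P.ord f + D * Hy P := by
        rw [h4]
        exact_mod_cast h3.1
      have h6 : (0 : ℚ) ≤ P.ord f + P.ord g + D * Hy P := by
        rw [h4]
        have h7 := h3.2
        rw [P.ord_mul hf0 hg0] at h7
        exact_mod_cast h7
      have h7 : (P.ord g : ℚ) = D₂ P - D₃ P := by
        rw [hg, P.ord_div hg₂0 hg₃0, hD₂, hD₃]
        unfold Od
        push_cast
        ring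
      rw [hG₂, hM, hF]
      change 0 ≤ (P.ord f + D * Hy P) - (D₃ P - min (D₃ P) (D₂ P))
      rcases le_total (D₃ P) (D₂ P) with h8 | h8
      · rw [min_eq_left h8]
        linarith
      · rw [min_eq_right h8]
        linarith
    · rw [hG₂]
      exact (hof.add (hH.smul D)).sub hMf
  have hG₂c : cls y c G₂ = (D : ℚ) • cls y c Hy - cls y c M := by
    rw [hG₂, cls_sub (hof.add (hH.smul D)) hMf, cls_add hof (hH.smul D), hc.principal f hf0,
      zero_add, cls_smul]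
  have hMb : κ * ‖toR (cls y c M)‖ ≤ D * ‖toR (cls y c Hy)‖ := by
    have h3 := hκb _ (subset_closure (eff_mem hMe)) _ (subset_closure (eff_mem hG₂e))
    rw [← toR_add, hG₂c, add_sub_cancel, toR_smul, norm_smul] at h3
    refine h3.trans (le_of_eq ?_)
    rw [Real.norm_of_nonneg (by positivity)]
    push_cast
    rfl
  -- the classes
  have hcls : (m : ℚ) • cls y c lam + (b : ℚ) • cls y c B = cls y c F + cls y c M := by
    have h3 : cls y c D₃ = (m : ℚ) • cls y c lam + (b : ℚ) • cls y c B := by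
      rw [hD₃, cls_add (od_fin hy hl hg₃0) (Fin0.smul (y := y) hB.2 b), cls_smul]
      congr 1
      have h4 := cls_add (c := c) (ord_fin hy hg₃0) (hl.smul m)
      rw [hc.principal g₃ hg₃0, zero_add, cls_smul] at h4
      exact h4
    rw [← h3, ← cls_add hFf hMf]
    refine cls_congr fun P _ => ?_
    rw [hM]
    ring
  have hFc : cls y c F = (∑ P ∈ T'', F P • c P) + ∑ P ∈ T', F P • c P := by
    rw [cls_finset (T := T) hTp hFT, hT'', hT', add_comm]
    exact (Finset.sum_filter_add_sum_filter_not T (fun P => P ∉ Fxs y lam V) _).symm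
  -- the divisor `G`
  obtain ⟨G, hG⟩ : ∃ G : Place ℂ K → ℚ, G = fun P => if P ∈ T'' then F P / m else 0 := ⟨_, rfl⟩
  have hGin : ∀ P ∈ T'', G P = F P / m := by
    intro P hP
    rw [hG]
    exact if_pos hP
  have hGout : ∀ P, P ∉ T'' → G P = 0 := by
    intro P hP
    rw [hG]
    exact if_neg hP
  have hT''p : ∀ P ∈ T'', IsPrimeDivisor y P := fun P hP => hTp P ((hT''m P).1 hP).1
  have hGc : (m : ℚ) • cls y c G = ∑ P ∈ T'', F P • c P := by
    rw [cls_finset (T := T'') hT''p fun P _ hP => hGout P hP, Finset.smul_sum]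
    refine Finset.sum_congr rfl fun P hP => ?_
    rw [hGin P hP, smul_smul, mul_div_cancel₀ _ hm0q.ne']
  refine ⟨G, ⟨fun P hP => ?_, ?_⟩, fun P hP => ?_, fun P hP => ?_, ?_⟩
  · by_cases h3 : P ∈ T''
    · rw [hGin P h3]
      exact div_nonneg (hF0 P hP) hm0q.le
    · rw [hGout P h3]
  · refine (Finset.finite_toSet T'').subset ?_
    rintro P ⟨-, h0⟩
    by_contra h3
    exact h0 (hGout P h3)
  · have hPp : IsPrimeDivisor y P := (hT₀ P hP).1
    have hbt2 : (b : ℝ) ≤ t2 * m := hbt.trans (mul_le_mul_of_nonneg_right htt2 hm0.le)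
    have h3 := h2 P hP m b (hmam2.trans hmma) hbt2 g₃ hg₃ hg₃0
    have h4 := h2 P hP m b (hmam2.trans hmma) hbt2 g₂ hg₂' hg₂0
    have h5 := mul_nonneg hb0 (hB.1 P hPp)
    have h6 : a * m ≤ F P := by
      rw [hF, hD₃, hD₂]
      refine le_min ?_ ?_
      · change a * m ≤ Od lam m g₃ P + b * B P
        linarith
      · change a * m ≤ Od lam m g₂ P + b * B P
        linarith
    have h7 : P ∈ T := by
      by_contra h8
      rw [hFT P hPp h8] at h6
      have := mul_pos ha hm0q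
      linarith
    rw [hGin P ((hT''m P).2 ⟨h7, a, ha, hT₀ P hP⟩), le_div_iff₀ hm0q]
    exact h6
  · by_contra h3
    exact hP (hGout P fun h4 => h3 ((hT''m P).1 h4).2)
  · -- the error
    have h3 : toR (cls y c lam) - toR (cls y c G) = (1 / (m : ℝ)) •
        (toR (∑ P ∈ T', F P • c P) + toR (cls y c M) - (b : ℝ) • toR (cls y c B)) := by
      have h4 : (m : ℚ) • (cls y c lam - cls y c G) =
          (∑ P ∈ T', F P • c P) + cls y c M - (b : ℚ) • cls y c B := by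
        rw [smul_sub, hGc]
        have h5 : (m : ℚ) • cls y c lam = cls y c F + cls y c M - (b : ℚ) • cls y c B := by
          rw [← hcls, add_sub_cancel_right]
        rw [h5, hFc]
        abel
      have h5 := congrArg toR h4
      rw [toR_smul, toR_sub, toR_sub, toR_add, toR_smul] at h5
      push_cast at h5
      rw [← h5, smul_smul, one_div_mul_cancel hm0.ne', one_smul]
    have h4 : ‖toR (∑ P ∈ T', F P • c P)‖ ≤ ε * m * S + b * SB := by
      have h5 : ‖toR (∑ P ∈ T', F P • c P)‖ ≤ ∑ P ∈ T', (ε * m + b * B P : ℝ) * ‖toR (c P)‖ := by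
        rw [toR_sum]
        refine norm_sum_le_of_le _ fun P hP => ?_
        rw [toR_smul, norm_smul]
        refine mul_le_mul_of_nonneg_right ?_ (norm_nonneg _)
        have h6 := hF0 P (hTp P ((hT'm P).1 hP).1)
        have h7 : F P ≤ ε * m + b * B P := by
          rw [hF]
          refine (min_le_right _ _).trans ?_
          rw [hD₂]
          have h8 := hg₂T P hP
          change Od lam m g₂ P + b * B P ≤ _
          linarith
        rw [Real.norm_of_nonneg (by exact_mod_cast h6)]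
        exact_mod_cast h7
      refine h5.trans ?_
      simp only [add_mul]
      rw [Finset.sum_add_distrib]
      have h6 : ∑ P ∈ T', (ε * m : ℝ) * ‖toR (c P)‖ = ε * m * S := by
        rw [hS, Finset.mul_sum]
      have h7 : ∑ P ∈ T', (b * B P : ℝ) * ‖toR (c P)‖ ≤ b * SB := by
        have h8 : ∑ P ∈ T', (b * B P : ℝ) * ‖toR (c P)‖ =
            b * ∑ P ∈ T', (B P : ℝ) * ‖toR (c P)‖ := by
          rw [Finset.mul_sum]
          refine Finset.sum_congr rfl fun P _ => ?_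
          ring
        rw [h8]
        refine mul_le_mul_of_nonneg_left ?_ hb0r
        have h9 : ∑ P ∈ T', (B P : ℝ) * ‖toR (c P)‖ =
            ∑ P ∈ T'.filter (fun P => P ∈ hB2.toFinset), (B P : ℝ) * ‖toR (c P)‖ := by
          symm
          refine Finset.sum_filter_of_ne fun P hP h0 => ?_
          rw [Set.Finite.mem_toFinset]
          refine ⟨hTp P ((hT'm P).1 hP).1, fun h10 => h0 ?_⟩
          rw [h10]
          simp
        rw [h9, hSB]
        refine Finset.sum_le_sum_of_subset_of_nonneg (fun P hP => (Finset.mem_filter.1 hP).2)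
          fun P hP _ => mul_nonneg ?_ (norm_nonneg _)
        exact_mod_cast hB.1 P (hBf P hP)
      linarith
    have h5 : ‖toR (cls y c M)‖ ≤ (δ * ‖toR (cls y c Hy)‖ / κ) * m := by
      have h6 : κ * ‖toR (cls y c M)‖ ≤ δ * m * ‖toR (cls y c Hy)‖ :=
        hMb.trans (mul_le_mul_of_nonneg_right hDle (norm_nonneg _))
      rw [div_mul_eq_mul_div, le_div_iff₀ hκ]
      linarith
    have h6 : ‖(b : ℝ) • toR (cls y c B)‖ = b * ‖toR (cls y c B)‖ := by
      rw [norm_smul, Real.norm_of_nonneg hb0r]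
    have h7 : ‖toR (∑ P ∈ T', F P • c P) + toR (cls y c M) - (b : ℝ) • toR (cls y c B)‖ ≤
        ε * m * S + b * SB + (δ * ‖toR (cls y c Hy)‖ / κ) * m + b * ‖toR (cls y c B)‖ := by
      refine (norm_sub_le _ _).trans ?_
      rw [h6]
      have := norm_add_le (toR (∑ P ∈ T', F P • c P)) (toR (cls y c M))
      linarith
    rw [h3, norm_smul, Real.norm_of_nonneg (by positivity), div_mul_eq_mul_div, one_mul,
      div_le_iff₀ hm0]
    refine h7.trans ?_
    have h8 : (b : ℝ) * (SB + ‖toR (cls y c B)‖) ≤ (η / 2) * m := by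
      have h9 : (b : ℝ) ≤ t3 * m := hbt.trans (mul_le_mul_of_nonneg_right htt3 hm0.le)
      have h10 : 0 ≤ SB + ‖toR (cls y c B)‖ := add_nonneg hSB0 (norm_nonneg _)
      have h11 := mul_le_mul_of_nonneg_right h9 h10
      have h12 := mul_le_mul_of_nonneg_right ht3' hm0.le
      nlinarith
    have h9 : (ε : ℝ) * m * S ≤ (η / 2) * m := by
      have := mul_le_mul_of_nonneg_right hεS hm0.le
      linarith
    nlinarith

end

end Pool.Agent.K9h25.H
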