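import Pool.Agent.K9h25.HNef
import Pool.Agent.N110.QAssem

/-!
The pull back of sections by the iterates of a dominant rational self-map.
-/

set_option autoImplicit false
set_option linter.unusedSectionVars false
set_option linter.overlappingInstances false

open FF Module Pool.Agent.W602.GT Pool.Agent.W603.LV Pool.Agent.Y172 Pool.Agent.Y191
  Pool.Agent.R887 Pool.Agent.N110 Pool.Agent.N110.NV Pool.Agent.W619.PQ

namespace Pool.Agent.K9h25.H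

section

variable {K : Type} [Field K] [Algebra ℂ K] {N n : ℕ} {y : Fin (N + 1) → K}
  {c : Place ℂ K → ℤ} {Δ : Place ℂ K → ℚ}

/-- sections are pulled back by `φ` and multiplied by powers of `J` -/
def Pulls (y : Fin (N + 1) → K) (c : Place ℂ K → ℤ) (Δ : Place ℂ K → ℚ) (φ : K →ₐ[ℂ] K) (J : K) :
    Prop :=
  ∀ A, Effective y A → ∃ A', Effective y A' ∧ ∀ m b : ℕ, 1 ≤ m →
    ∀ g ∈ Lsp y c m (m • Δ + b • A), J ^ m * φ g ∈ Lsp y c m (m • Δ + b • A')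

theorem Pulls.one (c : Place ℂ K → ℤ) (Δ : Place ℂ K → ℚ) : Pulls y c Δ 1 1 := by
  intro A hA
  refine ⟨A, hA, fun m b _ g hg => ?_⟩
  rw [one_pow, one_mul]
  exact hg

theorem Pulls.mul {φ ψ : K →ₐ[ℂ] K} {J J' : K} (h1 : Pulls y c Δ φ J) (h2 : Pulls y c Δ ψ J') :
    Pulls y c Δ (φ * ψ) (J * φ J') := by
  intro A hA
  obtain ⟨A', hA', h3⟩ := h2 A hA
  obtain ⟨A'', hA'', h4⟩ := h1 A' hA'
  refine ⟨A'', hA'', fun m b hm g hg => ?_⟩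
  have h5 := h4 m b hm _ (h3 m b hm g hg)
  rw [map_mul, map_pow, ← mul_assoc, ← mul_pow] at h5
  exact h5

/-- the cocycle -/
noncomputable def Jk (φ : K →ₐ[ℂ] K) (J : K) : ℕ → K
  | 0 => 1
  | k + 1 => J * φ (Jk φ J k)

theorem jk_ne {φ : K →ₐ[ℂ] K} {J : K} (hJ : J ≠ 0) (k : ℕ) : Jk φ J k ≠ 0 := by
  induction k with
  | zero => exact one_ne_zero
  | succ k ih => exact mul_ne_zero hJ (by rwa [Ne, map_eq_zero])

theorem pow_app (φ : K →ₐ[ℂ] K) (k j : ℕ) (z : K) : (φ ^ (k + j)) z = (φ ^ k) ((φ ^ j) z) := by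
  rw [pow_add]
  rfl

theorem pow_app' (φ : K →ₐ[ℂ] K) (k : ℕ) (z : K) : (φ ^ (k + 1)) z = φ ((φ ^ k) z) := by
  rw [pow_succ']
  rfl

theorem jk_add {φ : K →ₐ[ℂ] K} {J : K} (k j : ℕ) :
    Jk φ J (k + j) = Jk φ J k * (φ ^ k) (Jk φ J j) := by
  induction k with
  | zero =>
    rw [zero_add, pow_zero]
    change Jk φ J j = 1 * Jk φ J j
    rw [one_mul]
  | succ k ih =>
    have e1 : k + 1 + j = (k + j) + 1 := by ring
    rw [e1]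
    change J * φ (Jk φ J (k + j)) = J * φ (Jk φ J k) * _
    rw [ih, map_mul, pow_app', mul_assoc]

theorem Pulls.pow {φ : K →ₐ[ℂ] K} {J : K} (h : Pulls y c Δ φ J) (k : ℕ) :
    Pulls y c Δ (φ ^ k) (Jk φ J k) := by
  induction k with
  | zero => exact Pulls.one c Δ
  | succ k ih =>
    rw [pow_succ']
    exact h.mul ih

/-- the divisors are dominated by hyperplane sections -/
theorem Pulls.dom (hy : NormalModel y) {i : Fin (N + 1)} (hi : y i ≠ 0) {Hy : Place ℂ K → ℚ}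
    (hHe : Effective y Hy)
    (hHP : ∀ P l, IsPrimeDivisor y P → Centred y l P → Hy P = P.ord (y i / y l))
    {ψ : K →ₐ[ℂ] K} {J : K} (hJ : J ≠ 0) (h : Pulls y c Δ ψ J) :
    ∃ f : K, f ≠ 0 ∧ ∃ γ : ℕ, Effective y (fun P => P.ord f + γ * Hy P) ∧ ∀ m b : ℕ, 1 ≤ m →
      ∀ g ∈ Lsp y c m (m • Δ + b • Hy),
        J ^ m * ψ g ∈ Lsp y c m (m • Δ + b • fun P => P.ord f + γ * Hy P) ∧
        f ^ b * (J ^ m * ψ g) ∈ Lsp y c m (m • Δ + (γ * b) • Hy) := by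
  obtain ⟨A', hA', h1⟩ := h Hy hHe
  obtain ⟨f, γ, hf, hfb⟩ := dominate hy hA' hi hHe hHP
  refine ⟨f, hf, γ, ⟨fun P hP => (hA'.1 P hP).trans (hfb P hP), ?_⟩, fun m b hm g hg => ?_⟩
  · exact (ord_fin hy hf).add (Fin0.smul (y := y) hHe.2 γ)
  have h2 := h1 m b hm g hg
  refine ⟨Lsp_mono le_rfl hA'.1 (fun P hP => hfb P hP) h2, fun P hP => ?_⟩
  by_cases hg0 : g = 0
  · left
    rw [hg0, map_zero, mul_zero, mul_zero]
  right
  have hne : J ^ m * ψ g ≠ 0 := mul_ne_zero (pow_ne_zero _ hJ) (by rwa [Ne, map_eq_zero])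
  have h3 := (h2 P hP).resolve_left hne
  have h4 := hfb P hP
  rw [P.ord_mul (pow_ne_zero _ hf) hne, P.ord_pow]
  rw [Pi.add_apply, Pi.smul_apply, Pi.smul_apply, nsmul_eq_mul, nsmul_eq_mul] at h3 ⊢
  have h5 := mul_le_mul_of_nonneg_left h4 (Nat.cast_nonneg (α := ℚ) b)
  push_cast
  linarith

theorem lsp_mul {m b m' b' : ℕ} {A : Place ℂ K → ℚ} {g g' : K}
    (hg : g ∈ Lsp y c m (m • Δ + b • A)) (hg' : g' ∈ Lsp y c m' (m' • Δ + b' • A)) :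
    g * g' ∈ Lsp y c (m + m') ((m + m') • Δ + (b + b') • A) := by
  intro P hP
  by_cases h0 : g * g' = 0
  · exact Or.inl h0
  right
  have hg0 : g ≠ 0 := left_ne_zero_of_mul h0
  have hg0' : g' ≠ 0 := right_ne_zero_of_mul h0
  have h1 := (hg P hP).resolve_left hg0
  have h2 := (hg' P hP).resolve_left hg0'
  rw [P.ord_mul hg0 hg0']
  rw [Pi.add_apply, Pi.smul_apply, Pi.smul_apply, nsmul_eq_mul, nsmul_eq_mul] at h1 h2 ⊢
  push_cast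
  linarith

theorem lsp_one {A : Place ℂ K → ℚ} : (1 : K) ∈ Lsp y c 0 (0 • Δ + 0 • A) := by
  intro P _
  right
  rw [P.ord_one]
  simp

theorem lsp_pow {m b : ℕ} {A : Place ℂ K → ℚ} {g : K} (hg : g ∈ Lsp y c m (m • Δ + b • A))
    (k : ℕ) : g ^ k ∈ Lsp y c (k * m) ((k * m) • Δ + (k * b) • A) := by
  induction k with
  | zero =>
    rw [pow_zero, zero_mul, zero_mul]
    exact lsp_one
  | succ k ih =>
    rw [pow_succ, add_mul, add_mul, one_mul, one_mul]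
    exact lsp_mul ih hg

/-- the degrees of the images of the sections of `m L + b H` by the `k`-th iterate are at most
`δ m ^ i` -/
def Bd (y : Fin (N + 1) → K) (n : ℕ) (c : Place ℂ K → ℤ) (Δ Hy : Place ℂ K → ℚ)
    (φ : K →ₐ[ℂ] K) (k i : ℕ) (δ : ℝ) : Prop :=
  ∃ t : ℝ, 0 < t ∧ ∃ m₀ : ℕ, ∀ m b : ℕ, m₀ ≤ m → (b : ℝ) ≤ t * m →
    ∀ u : Fin (n - i) → K, (∀ a, IsPencil y (u a)) → ∀ g : Fin (i + 1) → K,
      (∀ j, g j ∈ Lsp y c m (m • Δ + b • Hy)) → g 0 ≠ 0 →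
      (degreeOver u (fun j : Fin i => (φ ^ k) (g j.succ / g 0)) : ℝ) ≤ δ * m ^ i

theorem Bd.mono (hy : NormalModel y) {i : Fin (N + 1)} (hi : y i ≠ 0) {Hy : Place ℂ K → ℚ}
    (hHe : Effective y Hy)
    (hHP : ∀ P l, IsPrimeDivisor y P → Centred y l P → Hy P = P.ord (y i / y l))
    {φ : K →ₐ[ℂ] K} {J : K} (hJ : J ≠ 0) (h : Pulls y c Δ φ J) {k k' r : ℕ} {δ : ℝ} (hk : k ≤ k')
    (hb : Bd y n c Δ Hy φ k r δ) : Bd y n c Δ Hy φ k' r δ := by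
  obtain ⟨j, rfl⟩ := Nat.exists_eq_add_of_le hk
  obtain ⟨f, hf, γ, -, h1⟩ := (h.pow j).dom hy hi hHe hHP (jk_ne hJ j)
  obtain ⟨t, ht, m₀, h2⟩ := hb
  refine ⟨t / (γ + 1), by positivity, max m₀ 1, fun m b hm hbm u hu g hg hg0 => ?_⟩
  have hm1 : 1 ≤ m := (le_max_right _ _).trans hm
  have hbt : ((γ * b : ℕ) : ℝ) ≤ t * m := by
    rw [div_mul_eq_mul_div, le_div_iff₀ (by positivity)] at hbm
    push_cast
    have : (0 : ℝ) ≤ b := Nat.cast_nonneg _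
    nlinarith
  have hfac : f ^ b * Jk φ J j ^ m ≠ 0 := mul_ne_zero (pow_ne_zero _ hf)
    (pow_ne_zero _ (jk_ne hJ j))
  have h3 := h2 m (γ * b) ((le_max_left _ _).trans hm) hbt u hu
    (fun l => f ^ b * (Jk φ J j ^ m * (φ ^ j) (g l))) (fun l => (h1 m b hm1 _ (hg l)).2) (by
      rw [← mul_assoc]
      exact mul_ne_zero hfac (by rwa [Ne, map_eq_zero]))
  refine le_trans (le_of_eq ?_) h3
  congr 2
  funext l
  rw [pow_app, ← mul_assoc, ← mul_assoc, mul_div_mul_left _ _ hfac, map_div₀ (φ ^ j)]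

/-- the space of the images of the sections of `m L + b H` -/
noncomputable def Vk (y : Fin (N + 1) → K) (c : Place ℂ K → ℤ) (Δ Hy : Place ℂ K → ℚ)
    (ψ : K →ₐ[ℂ] K) (J : K) (m b : ℕ) : Submodule ℂ K :=
  (Lsp y c m (m • Δ + b • Hy)).map ((LinearMap.mulLeft ℂ (J ^ m)).comp ψ.toLinearMap)

theorem mem_Vk {Hy : Place ℂ K → ℚ} {ψ : K →ₐ[ℂ] K} {J : K} {m b : ℕ} {z : K} :
    z ∈ Vk y c Δ Hy ψ J m b ↔ ∃ g ∈ Lsp y c m (m • Δ + b • Hy), J ^ m * ψ g = z := Iff.rfl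

theorem ser_Vk (hy : NormalModel y) {i : Fin (N + 1)} (hi : y i ≠ 0) {Hy : Place ℂ K → ℚ}
    (hHe : Effective y Hy)
    (hHP : ∀ P l, IsPrimeDivisor y P → Centred y l P → Hy P = P.ord (y i / y l))
    (hps : ∀ t : ℝ, 0 < t → ∀ m₀ : ℕ, ∃ m b : ℕ, m₀ ≤ m ∧ (b : ℝ) ≤ t * m ∧
      ∃ g ∈ Lsp y c m (m • Δ + b • Hy), g ≠ 0)
    {ψ : K →ₐ[ℂ] K} {J : K} (hJ : J ≠ 0) (h : Pulls y c Δ ψ J) :
    ∃ B : Place ℂ K → ℚ, Effective y B ∧
      Ser y (fun P => (c P : ℚ) + Δ P) B (Vk y c Δ Hy ψ J) := by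
  obtain ⟨f, hf, γ, hBe, h1⟩ := h.dom hy hi hHe hHP hJ
  refine ⟨_, hBe, ?_, ?_, ?_, ?_⟩
  · rintro m b m' b' _ _ ⟨g, hg, rfl⟩ ⟨g', hg', rfl⟩
    refine ⟨g * g', lsp_mul hg hg', ?_⟩
    change J ^ (m + m') * ψ (g * g') = J ^ m * ψ g * (J ^ m' * ψ g')
    rw [map_mul]
    ring
  · rintro m b b' hbb _ ⟨g, hg, rfl⟩
    exact ⟨g, Lsp_mono hbb hHe.1 (fun _ _ => le_rfl) hg, rfl⟩
  · rintro m b hm _ ⟨g, hg, rfl⟩ hg0 P hP
    have h2 := ((h1 m b hm g hg).1 P hP).resolve_left hg0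
    rw [Pi.add_apply, Pi.smul_apply, Pi.smul_apply, nsmul_eq_mul, nsmul_eq_mul] at h2
    unfold Od
    change 0 ≤ ((P.ord (J ^ m * ψ g) : ℤ) : ℚ) + m * (c P + Δ P) + b * (P.ord f + γ * Hy P)
    linarith
  · intro t ht m₀
    obtain ⟨m, b, hm, hb, g, hg, hg0⟩ := hps t ht m₀
    exact ⟨m, b, hm, hb, J ^ m * ψ g, ⟨g, hg, rfl⟩,
      mul_ne_zero (pow_ne_zero _ hJ) (by rwa [Ne, map_eq_zero])⟩

/-- monotonicity of the fixed parts -/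
theorem fx_mono (hy : NormalModel y) {i : Fin (N + 1)} (hi : y i ≠ 0) {Hy : Place ℂ K → ℚ}
    (hHe : Effective y Hy)
    (hHP : ∀ P l, IsPrimeDivisor y P → Centred y l P → Hy P = P.ord (y i / y l))
    {φ : K →ₐ[ℂ] K} {J : K} (hJ : J ≠ 0) (h : Pulls y c Δ φ J) {k k' : ℕ} (hk : k ≤ k')
    {s s' : ℚ} (hs : s' < s) {lam : Place ℂ K → ℚ} :
    Fx y lam (Vk y c Δ Hy (φ ^ k) (Jk φ J k)) s ⊆ Fx y lam (Vk y c Δ Hy (φ ^ k') (Jk φ J k')) s' := by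
  obtain ⟨j, rfl⟩ := Nat.exists_eq_add_of_le hk
  rintro Q ⟨hQ, t, ht, m₀, h2⟩
  obtain ⟨f, hf, γ, -, h1⟩ := (h.pow j).dom hy hi hHe hHP (jk_ne hJ j)
  refine ⟨hQ, ?_⟩
  obtain ⟨d, hd⟩ : ∃ d : ℚ, d = |(Q.ord ((φ ^ k) f) : ℚ)| := ⟨_, rfl⟩
  have hd0 : 0 ≤ d := by rw [hd]; exact abs_nonneg _
  have hd0r : (0 : ℝ) ≤ d := by exact_mod_cast hd0
  have hss : (0 : ℝ) < s - s' := by
    have : (0 : ℚ) < s - s' := by linarith
    exact_mod_cast this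
  refine ⟨min (t / (γ + 1)) ((s - s') / (d + 1)), lt_min (by positivity) (by positivity),
    max m₀ 1, fun m b hm hbm z hz hz0 => ?_⟩
  have hm1 : 1 ≤ m := (le_max_right _ _).trans hm
  have hm0 : (0 : ℝ) ≤ m := Nat.cast_nonneg _
  obtain ⟨g, hg, hgz⟩ := hz
  change Jk φ J (k + j) ^ m * (φ ^ (k + j)) g = z at hgz
  have hb1 : (b : ℝ) ≤ t / (γ + 1) * m := hbm.trans (mul_le_mul_of_nonneg_right
    (min_le_left _ _) hm0)
  have hb2 : (b : ℝ) ≤ (s - s') / (d + 1) * m := hbm.trans (mul_le_mul_of_nonneg_right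
    (min_le_right _ _) hm0)
  have hb0 : (0 : ℝ) ≤ b := Nat.cast_nonneg _
  have hbt : ((γ * b : ℕ) : ℝ) ≤ t * m := by
    rw [div_mul_eq_mul_div, le_div_iff₀ (by positivity)] at hb1
    push_cast
    nlinarith
  have hbd : (b : ℝ) * d ≤ (s - s') * m := by
    rw [div_mul_eq_mul_div, le_div_iff₀ (by positivity)] at hb2
    nlinarith
  have hbd' : (b : ℚ) * d ≤ (s - s') * m := by exact_mod_cast hbd
  have hz' : (φ ^ k) f ^ b * z ∈ Vk y c Δ Hy (φ ^ k) (Jk φ J k) m (γ * b) := by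
    refine ⟨f ^ b * (Jk φ J j ^ m * (φ ^ j) g), (h1 m b hm1 g hg).2, ?_⟩
    change Jk φ J k ^ m * (φ ^ k) (f ^ b * (Jk φ J j ^ m * (φ ^ j) g)) = _
    rw [← hgz, jk_add, pow_app, map_mul, map_mul, map_pow, map_pow]
    ring
  have hfk : (φ ^ k) f ^ b ≠ 0 := pow_ne_zero _ (by rwa [Ne, map_eq_zero])
  have h3 := h2 m (γ * b) ((le_max_left _ _).trans hm) hbt _ hz' (mul_ne_zero hfk hz0)
  unfold Od at h3 ⊢
  rw [Q.ord_mul hfk hz0, Q.ord_pow] at h3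
  push_cast at h3
  have h4 : (Q.ord ((φ ^ k) f) : ℚ) ≤ d := by
    rw [hd]
    exact le_abs_self _
  have h5 := mul_le_mul_of_nonneg_left h4 (Nat.cast_nonneg (α := ℚ) b)
  linarith

/-- **Nonvanishing, if the images of the sections have small degrees.** -/
theorem nv_of_bd (hy : NormalModel y) (hn : Algebra.trdeg ℂ K = n) (hn0 : 0 < n)
    {i : Fin (N + 1)} (hi : y i ≠ 0) (hcf : Fin0 y fun P => (c P : ℚ)) (hΔ : Fin0 y Δ)
    {Hy : Place ℂ K → ℚ} (hHe : Effective y Hy)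
    (hHP : ∀ P l, IsPrimeDivisor y P → Centred y l P → Hy P = P.ord (y i / y l))
    (hq : IrregularityZero y)
    (hps : ∀ t : ℝ, 0 < t → ∀ m₀ : ℕ, ∃ m b : ℕ, m₀ ≤ m ∧ (b : ℝ) ≤ t * m ∧
      ∃ g ∈ Lsp y c m (m • Δ + b • Hy), g ≠ 0)
    {φ : K →ₐ[ℂ] K} {J : K} (hJ : J ≠ 0) (h : Pulls y c Δ φ J)
    (hbd : ∀ δ : ℝ, 0 < δ → ∃ k, Bd y n c Δ Hy φ k 1 δ) :
    ∃ m : ℕ, 1 ≤ m ∧ ∃ g : K, g ≠ 0 ∧ g ∈ Lsp y c m (m • Δ) := by
  obtain ⟨ρ, cc, hcc⟩ := hq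
  have hB := fun k => ser_Vk hy hi hHe hHP hps (jk_ne hJ k) (h.pow k)
  choose B hB hser using hB
  obtain ⟨m, hm, f, hf, hfo⟩ := core_seq hy hn hn0 hi (hcf.add hΔ) hHe hHP hcc
    (fun k => Vk y c Δ Hy (φ ^ k) (Jk φ J k)) B hB hser
    (fun k k' hk s s' hs => fx_mono hy hi hHe hHP hJ h hk hs) (fun δ hδ => by
      obtain ⟨k₀, hk₀⟩ := hbd δ hδ
      refine ⟨k₀, fun k hk => ?_⟩
      obtain ⟨t, ht, m₀, h1⟩ := hk₀.mono hy hi hHe hHP hJ h hk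
      refine ⟨t, ht, m₀, ?_⟩
      rintro m b hm hb _ ⟨g₀, hg₀, rfl⟩ _ ⟨g₁, hg₁, rfl⟩ hne u hu
      change Jk φ J k ^ m * (φ ^ k) g₀ ≠ 0 at hne
      have hg0 : g₀ ≠ 0 := by
        rintro rfl
        apply hne
        rw [map_zero, mul_zero]
      have h2 := h1 m b hm hb u hu ![g₀, g₁] (fun j => by
        fin_cases j
        · exact hg₀
        · exact hg₁) hg0
      rw [pow_one] at h2
      refine le_trans (le_of_eq ?_) h2
      congr 2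
      funext j
      change Jk φ J k ^ m * (φ ^ k) g₁ / (Jk φ J k ^ m * (φ ^ k) g₀) = _
      rw [mul_div_mul_left _ _ (pow_ne_zero _ (jk_ne hJ k)), ← map_div₀]
      fin_cases j
      rfl)
  refine ⟨m, hm, f, hf, fun P hP => Or.inr ?_⟩
  have h1 := hfo P hP
  rw [Pi.smul_apply, nsmul_eq_mul]
  change 0 ≤ (P.ord f : ℚ) + m * (c P + Δ P) at h1
  linarith

end

end Pool.Agent.K9h25.H
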