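import Pool.Agent.K9h25.HCyc

/-!
The jacobian of a dominant rational self-map.
-/

set_option autoImplicit false
set_option linter.unusedSectionVars false
set_option linter.overlappingInstances false

open FF Module MvPolynomial Pool.Agent.W602.GT Pool.Agent.W603.LV Pool.Agent.Y172
  Pool.Agent.Y191 Pool.Agent.R887 Pool.Agent.N110 Pool.Agent.N110.NV Pool.Agent.W619.PQ

namespace Pool.Agent.K9h25.H

section

variable {K K' : Type} [Field K] [Algebra ℂ K] [Field K'] [Algebra ℂ K'] {N N' n : ℕ}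
  {y : Fin (N + 1) → K} {y' : Fin (N' + 1) → K'}

/-- **The pull back of sections**, with one jacobian for all divisors. -/
theorem pull_all (hy : NormalModel y) (hy' : NormalModel y') (hn : Algebra.trdeg ℂ K = n)
    (hn' : Algebra.trdeg ℂ K' = n) {Δ : Place ℂ K → ℚ}
    {Δ' : Place ℂ K' → ℚ} (ψ : K →ₐ[ℂ] K')
    (hψ : ∀ Q : Place ℂ K', IsPrimeDivisor y' Q → ∀ (P : Place ℂ K) (e : ℕ), LiesOver ψ Q P e →
      ∃ α : ℚ, LogDisc y n Δ P α ∧ 1 - Δ' Q ≤ e * α) {x : Fin n → K}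
    {E : Fin n → Derivation ℂ K K} (hx : IsTranscendenceBasis ℂ x)
    (hE : ∀ i j, E i (x j) = if i = j then 1 else 0) (hfr : IsFrame E)
    {E' : Fin n → Derivation ℂ K' K'} (hfr' : IsFrame E') {c : Place ℂ K → ℤ}
    (hc : IsDisc y E c) {c' : Place ℂ K' → ℤ} (hc' : IsDisc y' E' c') :
    ∃ J : K', J ≠ 0 ∧ ∀ A : Place ℂ K → ℚ, Effective y A → ∃ A' : Place ℂ K' → ℚ,
      Effective y' A' ∧ ∀ m b : ℕ, 1 ≤ m →
      ∀ g ∈ Lsp y c m (m • Δ + b • A), J ^ m * ψ g ∈ Lsp y' c' m (m • Δ' + b • A') := by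
  classical
  have hess := hy.ess
  have hess' := hy'.ess
  let _ : Algebra K K' := ψ.toRingHom.toAlgebra
  have hst : IsScalarTower ℂ K K' :=
    IsScalarTower.of_algebraMap_eq fun c => (ψ.commutes c).symm
  have hfd : FiniteDimensional K K' := finite_map hn hn'
  refine ⟨(Matrix.of fun i j => E' i (ψ (x j))).det, pull_ne hn hE hfr', fun A hA => ?_⟩
  choose s hsc hs0 hs using fun j => disc_bound2 (Δ := Δ) (n := n) hy hA hfr j
  refine ⟨fun Q => ∑ j, |(Q.ord (ψ (s j)) : ℚ)|, ⟨fun Q _ => Finset.sum_nonneg fun _ _ =>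
    abs_nonneg _, ?_⟩, fun m b hm g hg => ?_⟩
  · refine (Set.finite_iUnion fun j => finite_ord hy' (f := ψ (s j))
      (by rw [Ne, map_eq_zero]; exact hs0 j)).subset ?_
    rintro Q ⟨hQ, h0⟩
    by_contra hcon
    simp only [Set.mem_iUnion, not_exists] at hcon
    apply h0
    refine Finset.sum_eq_zero fun j _ => ?_
    have h1 : Q.ord (ψ (s j)) = 0 := by
      by_contra h2
      exact hcon j ⟨hQ, h2⟩
    rw [h1]
    simp
  · have hω := frm_pluri (n := n) x m g
    have hωE : frm x m g E = g := frm_self hE m g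
    have hsec : IsSection y n m (m • Δ + b • A) (frm x m g) := by
      rw [isSection_iff hc hω, hωE]
      exact hg
    have h1 : IsSection y' n m (m • Δ' + b • fun Q => ∑ j, |(Q.ord (ψ (s j)) : ℚ)|)
        (pull K' x E m (frm x m g)) := by
      refine ⟨pull_pluri x E m _, fun Q hQ => ?_⟩
      have hov := over_bel K Q
      obtain ⟨α, hα, hα1⟩ := hψ Q hQ (bel K Q) (ram K Q) hov
      obtain ⟨j, hj⟩ := exists_centred hy (bel K Q)
      have h2 := hs j (bel K Q) hj α hα m b hm _ hsec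
      have hdQ : Divisorial n Q := hQ.divisorial hy' hn'
      have hPd : Divisorial n (bel K Q) := divisorial_down hov hdQ
      obtain ⟨c1, hc1⟩ : ∃ c1 : ℤ, c1 = ⌈(m : ℚ) * (α - 1)⌉ - b * (bel K Q).ord (s j) := ⟨_, rfl⟩
      have h3 : OrdGe (bel K Q) (frm x m g) c1 := by
        intro E' hE'
        refine (h2 E' hE').imp_right fun h => ?_
        have h3 : (m : ℚ) * (α - 1) ≤
            (((bel K Q).ord (frm x m g E') + b * (bel K Q).ord (s j) : ℤ) : ℚ) := by
          push_cast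
          linarith
        have h4 := Int.ceil_le.2 h3
        rw [hc1]
        have h5 : ⌈(m : ℚ) * (α - 1)⌉ - b * (bel K Q).ord (s j) ≤
            (bel K Q).ord (frm x m g E') := by
          omega
        exact_mod_cast h5
      intro D hD
      have h4 := pull_ord (K' := K') hn hx hE hov hPd hω h3 hD
      refine h4.imp_right fun h5 => ?_
      have h6 : ((m * (ram K Q - 1) + ram K Q * c1 : ℤ) : ℚ) ≤
          Q.ord (pull K' x E m (frm x m g) D) := by exact_mod_cast h5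
      refine le_trans ?_ h6
      rw [hc1, Pi.add_apply, Pi.smul_apply, Pi.smul_apply, nsmul_eq_mul, nsmul_eq_mul]
      have h7 : (Q.ord (ψ (s j)) : ℚ) ≤ ∑ j, |(Q.ord (ψ (s j)) : ℚ)| := by
        refine (le_abs_self _).trans ?_
        exact Finset.single_le_sum (f := fun j => |(Q.ord (ψ (s j)) : ℚ)|)
          (fun _ _ => abs_nonneg _) (Finset.mem_univ j)
      have h8 : Q.ord (ψ (s j)) = ram K Q * (bel K Q).ord (s j) := hov.2 (s j)
      have h9 : (m : ℚ) * (α - 1) ≤ ⌈(m : ℚ) * (α - 1)⌉ := Int.le_ceil _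
      have hram : (0 : ℚ) ≤ ram K Q := Nat.cast_nonneg _
      have h10 := mul_le_mul_of_nonneg_left h9 hram
      have hm0 : (0 : ℚ) ≤ m := Nat.cast_nonneg _
      have h11 := mul_le_mul_of_nonneg_left hα1 hm0
      have hb0 : (0 : ℚ) ≤ b := Nat.cast_nonneg _
      have h12 := mul_le_mul_of_nonneg_left h7 hb0
      have h13 : (Q.ord (ψ (s j)) : ℚ) = ram K Q * (bel K Q).ord (s j) := by exact_mod_cast h8
      rw [h13] at h12
      push_cast
      nlinarith
    rw [isSection_iff hc' (pull_pluri x E m _)] at h1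
    have h2 : pull K' x E m (frm x m g) E' =
        (Matrix.of fun i j => E' i (ψ (x j))).det ^ m * ψ g := by
      unfold pull
      rw [hωE]
      rfl
    rw [h2] at h1
    exact h1

end

section

variable {K : Type} [Field K] [Algebra ℂ K] {N n : ℕ} {y : Fin (N + 1) → K}

theorem pulls_of (hy : NormalModel y) (hn : Algebra.trdeg ℂ K = n) {Δ : Place ℂ K → ℚ}
    {φ : K →ₐ[ℂ] K} (hφ : SelfPullLe φ y n Δ) {x : Fin n → K}
    {E : Fin n → Derivation ℂ K K} (hx : IsTranscendenceBasis ℂ x)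
    (hE : ∀ i j, E i (x j) = if i = j then 1 else 0) (hfr : IsFrame E) {c : Place ℂ K → ℤ}
    (hc : IsDisc y E c) : ∃ J : K, J ≠ 0 ∧ Pulls y c Δ φ J :=
  pull_all hy hy hn hn φ hφ hx hE hfr hfr hc hc

/-- sections of the multiples of `L + ε H` -/
theorem psef_sections (hy : NormalModel y) {i : Fin (N + 1)} (hi : y i ≠ 0)
    {Δ : Place ℂ K → ℚ} (hpsef : LogPsef y n Δ)
    {E : Fin n → Derivation ℂ K K} (hfr : IsFrame E) {c : Place ℂ K → ℤ}
    (hc : IsDisc y E c) {Hy : Place ℂ K → ℚ}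
    (hHP : ∀ P l, IsPrimeDivisor y P → Centred y l P → Hy P = P.ord (y i / y l)) {t : ℝ}
    (ht : 0 < t) (m₀ : ℕ) : ∃ m b : ℕ, m₀ ≤ m ∧ (b : ℝ) ≤ t * m ∧
      ∃ g ∈ Lsp y c m (m • Δ + b • Hy), g ≠ 0 := by
  obtain ⟨q₀, hq₀⟩ := exists_nat_gt (1 / t)
  obtain ⟨q, hq⟩ : ∃ q, q = max (max m₀ q₀) 1 := ⟨_, rfl⟩
  have hq1 : 1 ≤ q := by omega
  have hq2 : m₀ ≤ q := by omega
  have hq3 : q₀ ≤ q := by omega
  obtain ⟨m, hm, ω, hω0, hω⟩ := hpsef i hi q hq1
  have hωE : ω E ≠ 0 := fun h0 => hω0 (pluri_zero hfr hω.1 h0)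
  refine ⟨m * q, m, hq2.trans (Nat.le_mul_of_pos_left _ hm), ?_, ω E, fun P hP => Or.inr ?_, hωE⟩
  · have h1 : (1 : ℝ) ≤ t * q := by
      rw [div_lt_iff₀ ht] at hq₀
      have : (q₀ : ℝ) ≤ q := by exact_mod_cast hq3
      nlinarith
    push_cast
    have h2 : (0 : ℝ) ≤ m := Nat.cast_nonneg _
    nlinarith
  · obtain ⟨l, hl⟩ := exists_centred hy P
    have h1 := ((hc P hP _ ω hω.1 _).1 (hω.2 P l hP hl)).resolve_left hωE
    rw [Pi.add_apply, Pi.smul_apply, Pi.smul_apply, nsmul_eq_mul, nsmul_eq_mul, hHP P l hP hl]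
    linarith

end

end Pool.Agent.K9h25.H
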