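import Pool.Agent.K9h25.HPl
import Pool.Agent.Y172.Dim

/-!
Two independent sections give images of sections of large degrees; the Kodaira dimension zero.
-/

set_option autoImplicit false
set_option linter.unusedSectionVars false
set_option linter.overlappingInstances false

open FF Module Pool.Agent.W602.GT Pool.Agent.W603.LV Pool.Agent.Y172 Pool.Agent.Y191
  Pool.Agent.R887 Pool.Agent.N110 Pool.Agent.N110.NV Pool.Agent.W619.PQ

namespace Pool.Agent.K9h25.H

section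

variable {K : Type} [Field K] [Algebra ℂ K] {N n : ℕ} {y : Fin (N + 1) → K}
  {c : Place ℂ K → ℤ} {Δ : Place ℂ K → ℚ}

theorem transc_zero {z : K} (hz : Transcendental ℂ z) :
    Transcendental (gen ℂ (0 : Multiset K)) z := by
  have h1 : gen ℂ (0 : Multiset K) = ⊥ := by
    unfold gen
    simp
  rw [h1]
  intro h
  have h2 : Algebra.IsAlgebraic ℂ (⊥ : IntermediateField ℂ K) := by
    constructor
    rintro ⟨a, ha⟩
    obtain ⟨b, rfl⟩ := IntermediateField.mem_bot.1 ha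
    exact isAlgebraic_algebraMap (R := ℂ) (A := (⊥ : IntermediateField ℂ K)) b
  exact hz (h.restrictScalars ℂ)

/-- pencils which are independent of a nonconstant function -/
theorem exists_indep {S : Set K} (cx : Ctx n ℂ S) (H : Cls ℂ S) {z : K}
    (hz : Transcendental ℂ z) (hn0 : 0 < n) : ∀ j : ℕ, j + 1 ≤ n →
    ∃ W, Sel W (Multiset.replicate j H) ∧ Ind n ℂ (W + {z}) := by
  have hess := cx.ess
  intro j
  induction j with
  | zero =>
    intro _
    refine ⟨0, Multiset.Rel.zero, ?_⟩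
    rw [zero_add]
    exact (ind_zero cx.hn).cons (transc_zero hz)
  | succ j ih =>
    intro hj
    obtain ⟨W, hW, hi⟩ := ih (by omega)
    have hWc : W.card = j := by rw [hW.card, Multiset.card_replicate]
    have h1 : Algebra.trdeg (gen ℂ (W + {z})) K ≠ 0 := by
      intro h0
      have h2 := trdeg_le_gen (k := ℂ) (W + {z})
      rw [h0, zero_add, cx.hn, Multiset.card_add, Multiset.card_singleton, hWc] at h2
      have : n ≤ j + 1 := by exact_mod_cast h2
      omega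
    have h2 : Algebra.Transcendental (gen ℂ (W + {z})) K := _root_.trdeg_ne_zero_iff.1 h1
    obtain ⟨x, hx⟩ := h2.transcendental
    obtain ⟨e, he, hez⟩ := exists_transc H.big hx
    refine ⟨e ::ₘ W, ?_, ?_⟩
    · rw [Multiset.replicate_succ]
      exact sel_cons he hW
    · rw [Multiset.cons_add]
      exact hi.cons hez

/-- nonconstant quotients of sections -/
theorem not_bd (hy : NormalModel y) (hn : Algebra.trdeg ℂ K = n) (hn0 : 0 < n)
    {i : Fin (N + 1)} (hi : y i ≠ 0) {Hy : Place ℂ K → ℚ} {φ : K →ₐ[ℂ] K} {m : ℕ} (hm : 1 ≤ m)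
    {g₀ g₁ : K} (hg₀ : g₀ ∈ Lsp y c m (m • Δ)) (hg₁ : g₁ ∈ Lsp y c m (m • Δ))
    (htr : Transcendental ℂ (g₁ / g₀)) (k : ℕ) : ¬ Bd y n c Δ Hy φ k 1 (1 / (2 * m)) := by
  have hess := hy.ess
  rintro ⟨t, ht, m₀, h⟩
  have cx := ctx hy hn hi
  have hg₀0 : g₀ ≠ 0 := by
    rintro rfl
    apply htr
    rw [div_zero]
    exact isAlgebraic_zero
  have hz : Transcendental ℂ ((φ ^ k) (g₁ / g₀)) := by
    intro h1
    exact htr ((isAlgebraic_algHom_iff (φ ^ k) (φ ^ k).toRingHom.injective).1 h1)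
  obtain ⟨z, hzd⟩ : ∃ z, z = (φ ^ k) (g₁ / g₀) := ⟨_, rfl⟩
  rw [← hzd] at hz
  obtain ⟨W, hW, hind⟩ := exists_indep cx (hcls hy hi) hz hn0 (n - 1) (by omega)
  have hWc : W.card = n - 1 := by rw [hW.card, Multiset.card_replicate]
  have e0 : W + {z} = z ::ₘ W := by rw [Multiset.add_comm, Multiset.singleton_add]
  rw [e0] at hind
  have hdm : 1 ≤ dm ℂ (z ::ₘ W) := Nat.one_le_iff_ne_zero.2 (hind.dm_ne (by
    rw [Multiset.card_cons, hWc]
    omega))
  obtain ⟨w, hw⟩ := exists_fin W hWc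
  rw [sel_rep] at hW
  have hwp : ∀ a, IsPencil y (w a) := by
    intro a
    refine pencil_span hi ?_
    have h3 : w a ∈ {x | x ∈ W} := by
      rw [hw]
      exact ⟨a, rfl⟩
    exact hW.2 _ h3
  obtain ⟨s, hs⟩ : ∃ s, s = max m₀ 1 := ⟨_, rfl⟩
  have hs1 : 1 ≤ s := by omega
  have hms : m₀ ≤ s * m := by
    have : s ≤ s * m := Nat.le_mul_of_pos_right _ hm
    omega
  have hLsp : ∀ g, g ∈ Lsp y c m (m • Δ) →
      g ^ s ∈ Lsp y c (s * m) ((s * m) • Δ + 0 • Hy) := by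
    intro g hg
    have h1 : g ∈ Lsp y c m (m • Δ + 0 • Hy) := by rwa [zero_smul, add_zero]
    have h2 := lsp_pow h1 s
    rwa [mul_zero] at h2
  have h1 := h (s * m) 0 hms (by push_cast; positivity) w hwp ![g₀ ^ s, g₁ ^ s] (fun j => by
    fin_cases j
    · exact hLsp g₀ hg₀
    · exact hLsp g₁ hg₁) (pow_ne_zero _ hg₀0)
  have e1 : (fun j : Fin 1 => (φ ^ k) ((![g₀ ^ s, g₁ ^ s] : Fin 2 → K) j.succ /
      (![g₀ ^ s, g₁ ^ s] : Fin 2 → K) 0)) = fun _ => z ^ s := by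
    funext j
    fin_cases j
    change (φ ^ k) (g₁ ^ s / g₀ ^ s) = z ^ s
    rw [← div_pow, map_pow, hzd]
  rw [e1, pow_one] at h1
  have e2 : degreeOver w (fun _ : Fin 1 => z ^ s) = dm ℂ (z ^ s ::ₘ W) := by
    rw [deg_dm (U := W) (V := {z ^ s}) hw, Multiset.add_comm, Multiset.singleton_add]
    ext x
    constructor
    · intro hx
      exact ⟨0, (Multiset.mem_singleton.1 hx).symm⟩
    · rintro ⟨_, rfl⟩
      exact Multiset.mem_singleton_self _
  rw [e2] at h1
  have h2 := dm_pow hn (z := z) (W := W) (by omega) hs1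
  have h3 : s ≤ dm ℂ (z ^ s ::ₘ W) := le_trans (Nat.le_mul_of_pos_right _ hdm) h2
  have h4 : (s : ℝ) ≤ 1 / (2 * m) * ((s * m : ℕ) : ℝ) := by
    refine le_trans ?_ h1
    exact_mod_cast h3
  have hm' : (0 : ℝ) < m := by exact_mod_cast hm
  have hs' : (0 : ℝ) < s := by exact_mod_cast hs1
  have h5 : 1 / (2 * m) * ((s * m : ℕ) : ℝ) = s / 2 := by
    push_cast
    field_simp
  rw [h5] at h4
  linarith

/-- algebraic functions are constant -/
theorem const_of_alg {z : K} (h : ¬ Transcendental ℂ z) : ∃ a : ℂ, z = algebraMap ℂ K a := by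
  have h1 : IsAlgebraic ℂ z := not_not.1 h
  obtain ⟨a, ha⟩ : z ∈ (algebraMap ℂ K).range :=
    minpoly.mem_range_of_degree_eq_one ℂ z
      (IsAlgClosed.degree_eq_one_of_irreducible ℂ (minpoly.irreducible h1.isIntegral))
  exact ⟨a, ha.symm⟩

/-- **The Kodaira dimension zero.** -/
theorem kod_zero (hΔ : {P | IsPrimeDivisor y P ∧ Δ P ≠ 0}.Finite)
    {E : Fin n → Derivation ℂ K K} (hE : IsFrame E)
    (hup : ∀ m : ℕ, 1 ≤ m → ∀ ω ω' : (Fin n → Derivation ℂ K K) → K,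
      IsSection y n m (m • Δ) ω → IsSection y n m (m • Δ) ω' → ω E ≠ 0 →
      ∃ a : ℂ, ω' E = algebraMap ℂ K a * ω E)
    {m₀ : ℕ} (hm₀ : 1 ≤ m₀) {ω : (Fin n → Derivation ℂ K K) → K}
    (hω : IsSection y n m₀ (m₀ • Δ) ω) (hω0 : ω E ≠ 0) :
    kodairaDim y n Δ = ((0 : ℕ) : WithBot ℕ) := by
  classical
  obtain ⟨d0, hd0, hint⟩ : ∃ d0 : ℕ, 1 ≤ d0 ∧ ∀ t : ℕ, Integral y ((t * d0) • Δ) := by
    let S := hΔ.toFinset
    refine ⟨∏ P ∈ S, (Δ P).den, Nat.pos_of_ne_zero (Finset.prod_ne_zero_iff.2 fun P _ =>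
      (Δ P).den_ne_zero), fun t P hP => ?_⟩
    by_cases h0 : Δ P = 0
    · exact ⟨0, by simp [h0]⟩
    have hPS : P ∈ S := by
      rw [Set.Finite.mem_toFinset]
      exact ⟨hP, h0⟩
    refine ⟨t * (∏ Q ∈ S.erase P, (Δ Q).den : ℕ) * (Δ P).num, ?_⟩
    rw [← Finset.prod_erase_mul _ _ hPS]
    have h1 : ((Δ P).den : ℚ) * Δ P = (Δ P).num := by
      rw [mul_comm]
      exact Rat.mul_den_eq_num (Δ P)
    simp only [Pi.smul_apply, nsmul_eq_mul]
    push_cast
    rw [← h1]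
    ring
  have hfin : ∀ m : ℕ, 1 ≤ m → Module.Finite ℂ (secSub y n m (m • Δ)) ∧ h0 y n m (m • Δ) ≤ 1 := by
    intro m hm
    refine finite_h0 hE fun r f hf hsec => ?_
    by_contra hr
    push Not at hr
    obtain ⟨i0, hi0⟩ : ∃ i0 : Fin r, i0 = ⟨0, by omega⟩ := ⟨_, rfl⟩
    obtain ⟨i1, hi1⟩ : ∃ i1 : Fin r, i1 = ⟨1, by omega⟩ := ⟨_, rfl⟩
    obtain ⟨η0, hη0, e0⟩ := hsec i0
    obtain ⟨η1, hη1, e1⟩ := hsec i1
    have hne : f i0 ≠ 0 := hf.ne_zero i0
    obtain ⟨a, ha⟩ := hup m hm η0 η1 hη0 hη1 (by rw [e0]; exact hne)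
    rw [e0, e1] at ha
    have hpair : LinearIndependent ℂ ![f i0, f i1] := by
      have h1 := hf.comp ![i0, i1] (by
        intro a b hab
        fin_cases a <;> fin_cases b
        · rfl
        · exfalso
          change i0 = i1 at hab
          rw [hi0, hi1] at hab
          simp at hab
        · exfalso
          change i1 = i0 at hab
          rw [hi0, hi1] at hab
          simp at hab
        · rfl)
      convert h1 using 1
      funext j
      fin_cases j <;> rfl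
    have h2 := LinearIndependent.pair_iff.1 hpair a (-1) (by
      rw [ha, Algebra.smul_def, neg_one_smul, add_neg_cancel])
    have := h2.2
    norm_num at this
  obtain ⟨M, hM⟩ : ∃ M, M = m₀ * d0 := ⟨_, rfl⟩
  have hM1 : 1 ≤ M := by
    rw [hM]
    exact Nat.mul_pos hm₀ hd0
  have hint' : ∀ t : ℕ, Integral y ((t * M) • Δ) := by
    intro t
    have h1 : t * M = (t * m₀) * d0 := by
      rw [hM]
      ring
    rw [h1]
    exact hint _
  have hlow : ∀ t : ℕ, 1 ≤ t → t ^ 0 ≤ h0 y n (t * M) ((t * M) • Δ) := by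
    intro t ht
    rw [pow_zero]
    have h1 := hω.pow (t * d0)
    have e1 : t * d0 * m₀ = t * M := by
      rw [hM]
      ring
    rw [smul_smul, e1] at h1
    have h2 : LinearIndependent ℂ
        (fun _ : Fin 1 => (fun E => ω E ^ (t * d0) : (Fin n → Derivation ℂ K K) → K)) := by
      rw [linearIndependent_unique_iff]
      intro h3
      have h4 := congrFun h3 E
      exact pow_ne_zero _ hω0 h4
    have h3 := le_h0 (hfin (t * M) (Nat.mul_pos ht hM1)).1 h2 fun _ => h1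
    rwa [Fintype.card_fin] at h3
  unfold kodairaDim
  rw [if_neg]
  · congr 1
    exact kappa_eq (k := 0) (I := {m : ℕ | 1 ≤ m ∧ Integral y (m • Δ)})
      (h := fun m => h0 y n m (m • Δ)) (C := 1) hM1
      (fun t ht => ⟨Nat.mul_pos ht hM1, hint' t⟩) hlow
      fun m _ hm => by
        rw [pow_zero, one_mul]
        exact (hfin m hm).2
  · intro hcon
    have h1 := hcon (1 * M) (by omega) (hint' 1)
    have h2 := hlow 1 le_rfl
    rw [h1, one_pow] at h2
    omega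

/-- **Nonvanishing for varieties with a dominant rational self-map whose greatest dynamical degree
is not attained at two consecutive indices.** -/
theorem main (hy : NormalModel y) (hn : Algebra.trdeg ℂ K = n) (hn0 : 0 < n)
    (hΔ : {P | IsPrimeDivisor y P ∧ Δ P ≠ 0}.Finite) (hq : IrregularityZero y)
    {φ : K →ₐ[ℂ] K} (hφ : SelfPullLe φ y n Δ)
    (hdeg : ∀ j, j + 1 ≤ n → ∃ a ≤ 1, ∃ p ≤ n,
      selfJointDegree {φ} y n (j + a) < selfJointDegree {φ} y n p)
    (hpsef : LogPsef y n Δ) :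
    (∃ m : ℕ, 1 ≤ m ∧ ∃ ω : (Fin n → Derivation ℂ K K) → K, ω ≠ 0 ∧
      IsSection y n m (m • Δ) ω) ∧ kodairaDim y n Δ = ((0 : ℕ) : WithBot ℕ) := by
  classical
  have hess := hy.ess
  obtain ⟨i, hi⟩ := hy.ne
  obtain ⟨x, E, hx, hE⟩ := exists_crd hn (k := ℂ) (K := K)
  have hfr : IsFrame E := fun F => ⟨fun j => F (x j),
    (Pool.Agent.W73.PG.PULL.expand x hx E hE F).symm⟩
  obtain ⟨c, hcfin, hc⟩ := exists_ordc hy hn hx hE
  have hc' : IsDisc y E c := hc
  obtain ⟨Hy, hHe, hHP⟩ := exists_hyp hy hi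
  obtain ⟨J, hJ, hP⟩ := pulls_of hy hn hφ hx hE hfr hc'
  have hbd := bd_of_deg hy hn hn0 hi hcfin hΔ hHe hHP hJ hP hdeg
  have hcf : Fin0 y fun P => (c P : ℚ) := by
    refine hcfin.subset ?_
    rintro P ⟨hP, h0⟩
    refine ⟨hP, fun h2 => h0 ?_⟩
    change ((c P : ℤ) : ℚ) = 0
    rw [h2]
    simp
  obtain ⟨m, hm, g, hg0, hg⟩ := nv_of_bd hy hn hn0 hi hcf hΔ hHe hHP hq
    (fun t ht m₀ => psef_sections hy hi hpsef hfr hc' hHP ht m₀) hJ hP hbd
  have hω : IsSection y n m (m • Δ) (frm x m g) := by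
    rw [isSection_iff hc' (frm_pluri x m g), frm_self hE]
    exact hg
  have hωE : frm x m g E ≠ 0 := by
    rw [frm_self hE]
    exact hg0
  refine ⟨⟨m, hm, frm x m g, fun h0 => hωE (by rw [h0]; rfl), hω⟩, ?_⟩
  refine kod_zero hΔ hfr (fun m hm ω ω' h h' h0 => ?_) hm hω hωE
  have h1 := (isSection_iff hc' h.1).1 h
  have h2 := (isSection_iff hc' h'.1).1 h'
  have h3 : ¬ Transcendental ℂ (ω' E / ω E) := by
    intro htr
    have hm' : (0 : ℝ) < m := by exact_mod_cast hm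
    obtain ⟨k, hk⟩ := hbd (1 / (2 * (m : ℝ))) (by positivity)
    exact not_bd hy hn hn0 hi hm h1 h2 htr k hk
  obtain ⟨a, ha⟩ := const_of_alg h3
  exact ⟨a, by rw [← ha, div_mul_cancel₀ _ h0]⟩

end

end Pool.Agent.K9h25.H
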