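import Pool.Agent.K9h25.HJac

/-!
Intersection numbers of the images of the spaces of sections under the iterates.
-/

set_option autoImplicit false
set_option linter.unusedSectionVars false
set_option linter.overlappingInstances false

open FF Module Pool.Agent.W602.GT Pool.Agent.W603.LV Pool.Agent.Y172 Pool.Agent.Y191
  Pool.Agent.R887 Pool.Agent.N110 Pool.Agent.N110.NV Pool.Agent.W619.PQ

namespace Pool.Agent.K9h25.H

/-- slowly growing indices -/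
theorem exists_kq (Γ : ℕ → ℕ) : ∃ kq : ℕ → ℕ, (∀ q, kq q ≤ q) ∧ ∀ k₀ : ℕ,
    ∀ᶠ q in Filter.atTop, k₀ ≤ kq q ∧ Γ (kq q) * Γ (kq q) ≤ q + 1 := by
  classical
  refine ⟨fun q => Nat.findGreatest (fun k => Γ k * Γ k ≤ q + 1) q,
    fun q => Nat.findGreatest_le q, fun k₀ => ?_⟩
  filter_upwards [Filter.eventually_ge_atTop (max k₀ (Γ k₀ * Γ k₀))] with q hq
  have h1 : k₀ ≤ q := (le_max_left _ _).trans hq
  have h2 : Γ k₀ * Γ k₀ ≤ q + 1 := by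
    have := (le_max_right _ _).trans hq
    omega
  exact ⟨Nat.le_findGreatest h1 h2,
    Nat.findGreatest_spec (P := fun k => Γ k * Γ k ≤ q + 1) h1 h2⟩

/-- `Γ ≤ √(q + 1)` implies `Γ κ ≤ t (q + 1)` for large `q` -/
theorem gam_le {Γ κ q : ℕ} {t : ℝ} (ht : 0 < t) (h1 : Γ * Γ ≤ q + 1)
    (h2 : (κ : ℝ) * κ ≤ t * t * (q + 1)) : (Γ * κ : ℝ) ≤ t * (q + 1) := by
  have h3 : (Γ : ℝ) * Γ ≤ q + 1 := by exact_mod_cast h1
  refine abs_le_of_sq_le_sq' ?_ (by positivity) |>.2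
  have h4 : (0 : ℝ) ≤ (κ : ℝ) * κ := by positivity
  have h5 : (0 : ℝ) ≤ (q : ℝ) + 1 := by positivity
  calc ((Γ : ℝ) * κ) ^ 2 = (Γ * Γ) * (κ * κ) := by ring
    _ ≤ (q + 1) * (κ * κ) := mul_le_mul_of_nonneg_right h3 h4
    _ ≤ (q + 1) * (t * t * (q + 1)) := mul_le_mul_of_nonneg_left h2 h5
    _ = (t * (q + 1)) ^ 2 := by ring

section

variable {K : Type} [Field K] [Algebra ℂ K] {N n : ℕ} {y : Fin (N + 1) → K}
  {c : Place ℂ K → ℤ} {Δ : Place ℂ K → ℚ}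

/-- multiplication by a hyperplane section -/
theorem mul_hyp' (hy : NormalModel y) {i : Fin (N + 1)} (hi : y i ≠ 0) {Hy : Place ℂ K → ℚ}
    (hHP : ∀ P l, IsPrimeDivisor y P → Centred y l P → Hy P = P.ord (y i / y l)) {m b : ℕ}
    {g : K} (hg : g ∈ Lsp y c m (m • Δ + b • Hy)) (l : Fin (N + 1)) :
    g * (y l / y i) ∈ Lsp y c m (m • Δ + (b + 1) • Hy) := by
  intro P hP
  by_cases h0 : g * (y l / y i) = 0
  · exact Or.inl h0
  right
  have hg0 : g ≠ 0 := left_ne_zero_of_mul h0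
  have hl0 : y l / y i ≠ 0 := right_ne_zero_of_mul h0
  have hyl : y l ≠ 0 := by
    rintro h
    rw [h, zero_div] at hl0
    exact hl0 rfl
  have h1 := (hg P hP).resolve_left hg0
  have h2 := (ord_coord hy hi hHP hP hyl).1
  rw [P.ord_mul hg0 hl0]
  rw [Pi.add_apply, Pi.smul_apply, Pi.smul_apply, nsmul_eq_mul, nsmul_eq_mul] at h1 ⊢
  push_cast
  linarith

theorem mem_secCls {hy : NormalModel y} {i : Fin (N + 1)} {hi : y i ≠ 0}
    {hcfin : {P | IsPrimeDivisor y P ∧ c P ≠ 0}.Finite}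
    {hΔ : {P | IsPrimeDivisor y P ∧ Δ P ≠ 0}.Finite}
    {A : Place ℂ K → ℚ} {hA : Effective y A} {m b : ℕ} {σ : K} {hσ : σ ≠ 0}
    {h : ∀ l, σ * (y l / y i) ∈ Lsp y c m (m • Δ + b • A)} {v : K} :
    v ∈ (secCls hy hi hcfin hΔ hA m b hσ h).V ↔ σ * v ∈ Lsp y c m (m • Δ + b • A) := Iff.rfl

/-- **Lower bound.** -/
theorem eps_low (hy : NormalModel y) (hn : Algebra.trdeg ℂ K = n) {i : Fin (N + 1)}
    (hi : y i ≠ 0) (hcfin : {P | IsPrimeDivisor y P ∧ c P ≠ 0}.Finite)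
    (hΔ : {P | IsPrimeDivisor y P ∧ Δ P ≠ 0}.Finite) {Hy : Place ℂ K → ℚ}
    (hHe : Effective y Hy)
    (hHP : ∀ P l, IsPrimeDivisor y P → Centred y l P → Hy P = P.ord (y i / y l))
    (ψ : K →ₐ[ℂ] K) {ν : ℕ} (hν : ν ≤ n) {ε : ℝ} {m₁ b₁ : ℕ} {u : Fin (n - ν) → K}
    (hu : ∀ a, IsPencil y (u a)) {g : Fin (ν + 1) → K}
    (hg : ∀ j, g j ∈ Lsp y c m₁ (m₁ • Δ + b₁ • Hy)) (hg0 : g 0 ≠ 0)
    (hdeg : ε * m₁ ^ ν ≤ (degreeOver u (fun j : Fin ν => ψ (g j.succ / g 0)) : ℝ))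
    {s m b : ℕ} (hs : 1 ≤ s) (hm : m = s * m₁) (hb : s * (b₁ + 1) ≤ b) {σ : K} (hσ : σ ≠ 0)
    (hmem : ∀ l, σ * (y l / y i) ∈ Lsp y c m (m • Δ + b • Hy)) :
    ε * (m : ℝ) ^ ν ≤ (I (Multiset.replicate ν
      (eCls hy hn hi ψ (secCls hy hi hcfin hΔ hHe m b hσ hmem)) +
      Multiset.replicate (n - ν) (hcls hy hi)) : ℝ) := by
  have cx := ctx hy hn hi
  have hmem1 : ∀ l, g 0 * (y l / y i) ∈ Lsp y c m₁ (m₁ • Δ + (b₁ + 1) • Hy) := fun l =>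
    mul_hyp' hy hi hHP (hg 0) l
  obtain ⟨V, hV⟩ : ∃ V, V = secCls hy hi hcfin hΔ hHe m₁ (b₁ + 1) hg0 hmem1 := ⟨_, rfl⟩
  obtain ⟨D, hD⟩ : ∃ D, D = secCls hy hi hcfin hΔ hHe m b hσ hmem := ⟨_, rfl⟩
  have hVm : ∀ v, v ∈ V.V ↔ g 0 * v ∈ Lsp y c m₁ (m₁ • Δ + (b₁ + 1) • Hy) := fun v => by
    rw [hV]
    rfl
  have hDm : ∀ v, v ∈ D.V ↔ σ * v ∈ Lsp y c m (m • Δ + b • Hy) := fun v => by
    rw [hD]
    rfl
  rw [← hD]
  -- the degree
  have hcard : (Multiset.replicate ν (eCls hy hn hi ψ V) + Multiset.replicate (n - ν)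
      (hcls hy hi)).card = n := by
    rw [Multiset.card_add, Multiset.card_replicate, Multiset.card_replicate]
    omega
  have e1 : degreeOver u (fun j : Fin ν => ψ (g j.succ / g 0)) =
      dm ℂ (toM u + toM (fun j : Fin ν => ψ (g j.succ / g 0))) :=
    deg_dm (toM_set _) (toM_set _)
  obtain ⟨Q', hQ', e2⟩ := replace_pencils' hy hn hi (toM u)
    (toM (fun j : Fin ν => ψ (g j.succ / g 0)))
    (by rw [Multiset.card_add, toM_card, toM_card]; omega) (fun z hz => by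
      obtain ⟨j, rfl⟩ := mem_toM.1 hz
      exact hu j)
  rw [toM_card] at hQ'
  have hsel : Sel (toM (fun j : Fin ν => ψ (g j.succ / g 0)))
      (Multiset.replicate ν (eCls hy hn hi ψ V)) := by
    rw [sel_rep]
    refine ⟨toM_card _, fun z hz => ?_⟩
    obtain ⟨j, rfl⟩ := mem_toM.1 hz
    refine eCls_mem ?_
    rw [hVm, mul_div_cancel₀ _ hg0]
    exact Lsp_mono (Nat.le_succ _) hHe.1 (fun _ _ => le_rfl) (hg j.succ)
  have e3 := le_I cx hcard (sel_add hsel hQ')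
  have e4 : degreeOver u (fun j : Fin ν => ψ (g j.succ / g 0)) ≤
      I (Multiset.replicate ν (eCls hy hn hi ψ V) + Multiset.replicate (n - ν) (hcls hy hi)) := by
    rw [e1]
    rw [add_comm] at e3
    exact e2.trans e3
  have e5 : ((degreeOver u (fun j : Fin ν => ψ (g j.succ / g 0)) : ℕ) : ℝ) ≤
      (I (Multiset.replicate ν (eCls hy hn hi ψ V) +
        Multiset.replicate (n - ν) (hcls hy hi)) : ℝ) := Nat.cast_le.2 e4
  -- powers
  have hs0 : (0 : ℝ) < s := by exact_mod_cast hs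
  have hle : Le n (fun s : Multiset (Cls ℂ (affS y i)) => (I s : ℝ)) (1 / (s : ℝ))
      (eCls hy hn hi ψ V) (eCls hy hn hi ψ D) := by
    intro S hS
    have h1 := I_rat_emap hy hn hi ψ (V := V) (B := D) (p := s) (q := 1) hs
      (h := g 0 ^ s / σ) (div_ne_zero (pow_ne_zero _ hg0) hσ) (fun v hv Q _ => by
        have h2 : g 0 ^ s / σ * v ^ s ∈ D.V := by
          rw [hDm]
          have h3 : σ * (g 0 ^ s / σ * v ^ s) = (g 0 * v) ^ s := by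
            rw [mul_pow, ← mul_assoc, mul_div_cancel₀ _ hσ]
          rw [h3, hm]
          exact Lsp_mono hb hHe.1 (fun _ _ => le_rfl) (lsp_pow ((hVm v).1 hv) s)
        by_cases h3 : g 0 ^ s / σ * v ^ s = 0
        · refine ⟨1, D.one, one_ne_zero, ?_⟩
          rw [h3, Q.ord_one, Q.ord_zero]
          simp
        · exact ⟨_, h2, h3, by simp⟩) hS
    rw [one_mul] at h1
    have h2 : (s : ℝ) * (I (eCls hy hn hi ψ V ::ₘ S) : ℝ) ≤ (I (eCls hy hn hi ψ D ::ₘ S) : ℝ) := by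
      exact_mod_cast h1
    change (I (eCls hy hn hi ψ V ::ₘ S) : ℝ) ≤ 1 / (s : ℝ) * (I (eCls hy hn hi ψ D ::ₘ S) : ℝ)
    rw [div_mul_eq_mul_div, one_mul, le_div_iff₀ hs0]
    linarith
  have e6 := hle.rep (by positivity) ν (Multiset.replicate (n - ν) (hcls hy hi))
    (by rw [Multiset.card_replicate]; omega)
  have e7 := hdeg.trans (e5.trans e6)
  beta_reduce at e7
  rw [one_div, inv_pow, inv_mul_eq_div, le_div_iff₀ (by positivity)] at e7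
  rw [hm]
  push_cast
  rw [mul_pow]
  linarith

/-- **Upper bound.** -/
theorem zero_up (hy : NormalModel y) (hn : Algebra.trdeg ℂ K = n) {i : Fin (N + 1)}
    (hi : y i ≠ 0) (hcfin : {P | IsPrimeDivisor y P ∧ c P ≠ 0}.Finite)
    (hΔ : {P | IsPrimeDivisor y P ∧ Δ P ≠ 0}.Finite) {Hy : Place ℂ K → ℚ}
    (hHe : Effective y Hy) {φ : K →ₐ[ℂ] K} {J : K} (hJ : J ≠ 0) {k j γ : ℕ} {f : K} (hf : f ≠ 0)
    (hfγ : ∀ m b : ℕ, 1 ≤ m → ∀ g ∈ Lsp y c m (m • Δ + b • Hy),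
      f ^ b * (Jk φ J j ^ m * (φ ^ j) g) ∈ Lsp y c m (m • Δ + (γ * b) • Hy))
    {r : ℕ} (hr : r ≤ n) {δ t : ℝ} {m₀ : ℕ} (hbd : ∀ m b : ℕ, m₀ ≤ m → (b : ℝ) ≤ t * m →
      ∀ u : Fin (n - r) → K, (∀ a, IsPencil y (u a)) → ∀ g : Fin (r + 1) → K,
        (∀ j, g j ∈ Lsp y c m (m • Δ + b • Hy)) → g 0 ≠ 0 →
        (degreeOver u (fun j : Fin r => (φ ^ k) (g j.succ / g 0)) : ℝ) ≤ δ * m ^ r)
    {m b : ℕ} (hm1 : 1 ≤ m) (hm : m₀ ≤ m) (hb : ((γ * b : ℕ) : ℝ) ≤ t * m) {σ : K} (hσ : σ ≠ 0)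
    (hmem : ∀ l, σ * (y l / y i) ∈ Lsp y c m (m • Δ + b • Hy)) :
    (I (Multiset.replicate r
      (eCls hy hn hi (φ ^ (k + j)) (secCls hy hi hcfin hΔ hHe m b hσ hmem)) +
      Multiset.replicate (n - r) (hcls hy hi)) : ℝ) ≤ δ * m ^ r := by
  have cx := ctx hy hn hi
  obtain ⟨D, hD⟩ : ∃ D, D = secCls hy hi hcfin hΔ hHe m b hσ hmem := ⟨_, rfl⟩
  have hDm : ∀ v, v ∈ D.V ↔ σ * v ∈ Lsp y c m (m • Δ + b • Hy) := fun v => by
    rw [hD]
    rfl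
  rw [← hD]
  have hcard : (Multiset.replicate r (eCls hy hn hi (φ ^ (k + j)) D) +
      Multiset.replicate (n - r) (hcls hy hi)).card = n := by
    rw [Multiset.card_add, Multiset.card_replicate, Multiset.card_replicate]
    omega
  obtain ⟨W, hW, e⟩ := exists_max cx hcard
  obtain ⟨W1, W2, s1, s2, rfl⟩ := sel_add_right hW
  rw [sel_rep] at s1 s2
  obtain ⟨w1, hw1⟩ := exists_fin W1 s1.1
  obtain ⟨w2, hw2⟩ := exists_fin W2 s2.1
  have hw1m : ∀ j', ∃ v ∈ D.V, (φ ^ (k + j)) v = w1 j' := by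
    intro j'
    have h3 : w1 j' ∈ {x | x ∈ W1} := by
      rw [hw1]
      exact ⟨j', rfl⟩
    obtain ⟨v, hv, hv2⟩ := s1.2 _ h3
    exact ⟨v, hv, hv2⟩
  choose v hv hvw using hw1m
  have hw2m : ∀ j, w2 j ∈ Submodule.span ℂ (affS y i) := by
    intro j
    have h3 : w2 j ∈ {x | x ∈ W2} := by
      rw [hw2]
      exact ⟨j, rfl⟩
    exact s2.2 _ h3
  have hfac : f ^ b * Jk φ J j ^ m ≠ 0 := mul_ne_zero (pow_ne_zero _ hf)
    (pow_ne_zero _ (jk_ne hJ j))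
  have hσm : σ ∈ Lsp y c m (m • Δ + b • Hy) := by
    have := hmem i
    rwa [div_self hi, mul_one] at this
  have hbd' := hbd m (γ * b) hm hb w2 (fun a => pencil_span hi (hw2m a))
    (Fin.cons (f ^ b * (Jk φ J j ^ m * (φ ^ j) σ))
      (fun j' => f ^ b * (Jk φ J j ^ m * (φ ^ j) (σ * v j')))) (fun j' => by
      refine Fin.cases ?_ (fun j' => ?_) j'
      · rw [Fin.cons_zero]
        exact hfγ m b hm1 σ hσm
      · rw [Fin.cons_succ]
        exact hfγ m b hm1 _ ((hDm _).1 (hv j'))) (by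
      rw [Fin.cons_zero, ← mul_assoc]
      exact mul_ne_zero hfac (by rwa [Ne, map_eq_zero]))
  have e1 : (fun j' : Fin r => (φ ^ k) ((Fin.cons (f ^ b * (Jk φ J j ^ m * (φ ^ j) σ))
      (fun j' => f ^ b * (Jk φ J j ^ m * (φ ^ j) (σ * v j'))) : Fin (r + 1) → K) j'.succ /
      (Fin.cons (f ^ b * (Jk φ J j ^ m * (φ ^ j) σ))
      (fun j' => f ^ b * (Jk φ J j ^ m * (φ ^ j) (σ * v j'))) : Fin (r + 1) → K) 0)) = w1 := by
    funext j'
    rw [Fin.cons_succ, Fin.cons_zero, ← mul_assoc, ← mul_assoc, mul_div_mul_left _ _ hfac,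
      ← map_div₀ (φ ^ j), mul_div_cancel_left₀ _ hσ, ← pow_app, hvw]
  rw [e1, deg_dm hw2 hw1, add_comm W2 W1, e] at hbd'
  exact hbd'

end

end Pool.Agent.K9h25.H
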