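import Pool.Agent.K9h25.HApp

/-!
Sequences of graded linear series with smaller and smaller moving parts: the divisor is effective.
-/

set_option autoImplicit false
set_option linter.unusedSectionVars false
set_option linter.overlappingInstances false

open FF Module Pool.Agent.W602.GT Pool.Agent.Y172 Pool.Agent.R887 Pool.Agent.N110
  Pool.Agent.N110.NV

namespace Pool.Agent.K9h25.H

/-- linear functionals over `ℚ` are bounded -/
theorem lin_bound {ρ : ℕ} (T : (Fin ρ → ℚ) →ₗ[ℚ] ℚ) :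
    ∃ C : ℝ, 0 ≤ C ∧ ∀ v, |((T v : ℚ) : ℝ)| ≤ C * ‖toR v‖ := by
  classical
  refine ⟨∑ i, |((T (Pi.single i 1) : ℚ) : ℝ)|, Finset.sum_nonneg fun _ _ => abs_nonneg _,
    fun v => ?_⟩
  have h1 : T v = ∑ i, v i * T (Pi.single i 1) := by
    conv_lhs => rw [pi_eq_sum_univ' v]
    rw [map_sum]
    refine Finset.sum_congr rfl fun i _ => ?_
    rw [map_smul, smul_eq_mul]
  rw [h1]
  push_cast
  refine (Finset.abs_sum_le_sum_abs _ _).trans ?_
  rw [Finset.sum_mul]
  refine Finset.sum_le_sum fun i _ => ?_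
  rw [abs_mul, mul_comm]
  refine mul_le_mul_of_nonneg_left ?_ (abs_nonneg _)
  have h2 := norm_le_pi_norm (toR v) i
  rw [Real.norm_eq_abs] at h2
  exact h2

section

variable {K : Type} [Field K] [Algebra ℂ K] {N n : ℕ} {y : Fin (N + 1) → K}
  {lam : Place ℂ K → ℚ}

/-- **Sequences of graded linear series.** -/
theorem core_seq (hy : NormalModel y) (hn : Algebra.trdeg ℂ K = n) (hn0 : 0 < n)
    {i : Fin (N + 1)} (hi : y i ≠ 0) (hl : Fin0 y lam) {Hy : Place ℂ K → ℚ}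
    (hHe : Effective y Hy)
    (hHP : ∀ P l, IsPrimeDivisor y P → Centred y l P → Hy P = P.ord (y i / y l))
    {ρ : ℕ} {c : Place ℂ K → Fin ρ → ℚ} (hc : FiniteClasses y c)
    (V : ℕ → ℕ → ℕ → Submodule ℂ K) (B : ℕ → Place ℂ K → ℚ) (hB : ∀ k, Effective y (B k))
    (hV : ∀ k, Ser y lam (B k) (V k))
    (hmono : ∀ k k', k ≤ k' → ∀ s s' : ℚ, s' < s → Fx y lam (V k) s ⊆ Fx y lam (V k') s')
    (hbd : ∀ δ : ℝ, 0 < δ → ∃ k₀ : ℕ, ∀ k, k₀ ≤ k → ∃ t : ℝ, 0 < t ∧ ∃ m₀ : ℕ, ∀ m b : ℕ,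
      m₀ ≤ m → (b : ℝ) ≤ t * m → ∀ g₀ ∈ V k m b, ∀ g₁ ∈ V k m b, g₀ ≠ 0 →
      ∀ u : Fin (n - 1) → K, (∀ a, IsPencil y (u a)) →
        (degreeOver u (fun _ : Fin 1 => g₁ / g₀) : ℝ) ≤ δ * m) :
    ∃ m : ℕ, 1 ≤ m ∧ ∃ f : K, f ≠ 0 ∧ ∀ P, IsPrimeDivisor y P → 0 ≤ P.ord f + m * lam P := by
  classical
  -- the span of the classes of the fixed parts
  obtain ⟨U, hU⟩ : ∃ U : Set (Place ℂ K), U = {Q | ∃ k, Q ∈ Fxs y lam (V k)} := ⟨_, rfl⟩
  obtain ⟨bs, hbs, hspan, hli⟩ := exists_linearIndependent ℚ (c '' U)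
  have hbfin : Finite bs := hli.finite_of_isNoetherian
  have := Fintype.ofFinite bs
  have hQex : ∀ w : bs, ∃ Q ∈ U, c Q = w.1 := fun w => hbs w.2
  choose Q hQU hQc using hQex
  have hQinj : Function.Injective Q := by
    intro w w' h
    apply Subtype.ext
    rw [← hQc w, ← hQc w', h]
  -- the index and the order
  have hkex : ∀ w : bs, ∃ k, ∃ s : ℚ, 0 < s ∧ Q w ∈ Fx y lam (V k) s := by
    intro w
    have := hQU w
    rw [hU] at this
    exact this
  choose kk ss hss hkk using hkex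
  obtain ⟨k₁, hk₁⟩ : ∃ k₁ : ℕ, ∀ w, kk w ≤ k₁ :=
    ⟨Finset.univ.sup kk, fun w => Finset.le_sup (Finset.mem_univ w)⟩
  obtain ⟨a, ha0, ha⟩ : ∃ a : ℚ, 0 < a ∧ ∀ w, a < ss w := by
    rcases isEmpty_or_nonempty bs with he | he
    · exact ⟨1, one_pos, fun w => (he.false w).elim⟩
    · obtain ⟨w0, -, h0⟩ := Finset.exists_min_image Finset.univ ss ⟨he.some, Finset.mem_univ _⟩
      refine ⟨ss w0 / 2, by have := hss w0; positivity, fun w => ?_⟩
      have h1 := h0 w (Finset.mem_univ w)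
      have h2 := hss w0
      linarith
  have hfix : ∀ k, k₁ ≤ k → ∀ w, Q w ∈ Fx y lam (V k) a := fun k hk w =>
    hmono (kk w) k ((hk₁ w).trans hk) (ss w) a (ha w) (hkk w)
  have hQp : ∀ w, IsPrimeDivisor y (Q w) := fun w => (hfix k₁ le_rfl w).1
  -- the norms
  obtain ⟨κ, hκ, hκb⟩ := salient_bound (closure (effSet y c)) isClosed_closure
    (fun x hx r hr => clo_smul hx hr) hc.salient
  have happ : ∀ τ : ℝ, 0 < τ → ∃ G : Place ℂ K → ℚ, Effective y G ∧ (∀ w, a ≤ G (Q w)) ∧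
      cls y c G ∈ Submodule.span ℚ (c '' U) ∧ ‖toR (cls y c lam - cls y c G)‖ ≤ τ := by
    intro τ hτ
    have h1 : 0 ≤ ‖toR (cls y c Hy)‖ := norm_nonneg _
    obtain ⟨δ, hδ⟩ : ∃ δ, δ = τ * κ / (2 * (‖toR (cls y c Hy)‖ + 1)) := ⟨_, rfl⟩
    have hδ0 : 0 < δ := by
      rw [hδ]
      positivity
    obtain ⟨k₀, hk₀⟩ := hbd δ hδ0
    obtain ⟨G, hG, hG1, hG2, hG3⟩ := Ser.approx hy hn hn0 hi hl hHe hHP hc
      (hB (max k₀ k₁)) (hV (max k₀ k₁)) hκ hκb hδ0 (hk₀ _ (le_max_left _ _)) ha0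
      (Finset.univ.image Q) (fun P hP => by
        obtain ⟨w, -, rfl⟩ := Finset.mem_image.1 hP
        exact hfix _ (le_max_right _ _) w) (show 0 < τ / 2 by positivity)
    refine ⟨G, hG, fun w => hG1 _ (Finset.mem_image.2 ⟨w, Finset.mem_univ _, rfl⟩), ?_, ?_⟩
    · rw [cls_finset (T := (hG.2 : Fin0 y G).toFinset) (fun P hP => by
        rw [Set.Finite.mem_toFinset] at hP
        exact hP.1) (fun P hP hPn => by
        rw [Set.Finite.mem_toFinset] at hPn
        by_contra h2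
        exact hPn ⟨hP, h2⟩)]
      refine Submodule.sum_mem _ fun P hP => Submodule.smul_mem _ _ (Submodule.subset_span ?_)
      rw [Set.Finite.mem_toFinset] at hP
      refine ⟨P, ?_, rfl⟩
      rw [hU]
      exact ⟨_, hG2 P hP.2⟩
    · rw [toR_sub]
      refine hG3.trans ?_
      have h2 : δ * ‖toR (cls y c Hy)‖ / κ ≤ τ / 2 := by
        rw [hδ, div_le_iff₀ hκ, div_mul_eq_mul_div, div_le_iff₀ (by positivity)]
        have h3 := mul_pos hτ hκ
        nlinarith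
      linarith
  -- linear algebra
  obtain ⟨A, hA⟩ : ∃ A : (bs → ℚ) →ₗ[ℚ] (Fin ρ → ℚ),
      A = Fintype.linearCombination ℚ (fun w : bs => c (Q w)) := ⟨_, rfl⟩
  have hAx : ∀ x, A x = ∑ w, x w • c (Q w) := by
    intro x
    rw [hA]
    rfl
  have hli' : LinearIndependent ℚ (fun w : bs => c (Q w)) := by
    have h1 : (fun w : bs => c (Q w)) = (fun w : bs => (w : Fin ρ → ℚ)) := funext hQc
    rw [h1]
    exact hli
  have hAinj : Function.Injective A := by
    rw [hA]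
    exact hli'.fintypeLinearCombination_injective
  obtain ⟨Pr, hPr⟩ := A.exists_leftInverse_of_injective (LinearMap.ker_eq_bot.2 hAinj)
  have hPrA : ∀ x, Pr (A x) = x := fun x => by
    have := LinearMap.congr_fun hPr x
    exact this
  have hrange : ∀ v ∈ Submodule.span ℚ (c '' U), ∃ x, A x = v := by
    intro v hv
    rw [← hspan] at hv
    have h1 : Submodule.span ℚ bs ≤ LinearMap.range A := by
      rw [Submodule.span_le]
      intro w hw
      refine ⟨Pi.single ⟨w, hw⟩ 1, ?_⟩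
      rw [hAx, Finset.sum_eq_single ⟨w, hw⟩]
      · rw [Pi.single_eq_same, one_smul, hQc]
      · intro w' _ hw'
        rw [Pi.single_eq_of_ne hw', zero_smul]
      · intro h
        exact absurd (Finset.mem_univ _) h
    exact h1 hv
  obtain ⟨R, hR⟩ : ∃ R : (Fin ρ → ℚ) →ₗ[ℚ] (Fin ρ → ℚ), R = LinearMap.id - A ∘ₗ Pr := ⟨_, rfl⟩
  have hRv : ∀ v, R v = v - A (Pr v) := fun v => by
    rw [hR]
    rfl
  have hR0 : ∀ v ∈ Submodule.span ℚ (c '' U), R v = 0 := by
    intro v hv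
    obtain ⟨x, rfl⟩ := hrange v hv
    rw [hRv, hPrA, sub_self]
  -- the class of `L` is in the span
  have hRL : R (cls y c lam) = 0 := by
    funext j
    by_contra hne
    obtain ⟨C, hC, hCb⟩ := lin_bound ((LinearMap.proj j).comp R)
    have h1 : (0 : ℝ) < |((R (cls y c lam) j : ℚ) : ℝ)| := by
      rw [abs_pos]
      exact_mod_cast hne
    obtain ⟨G, -, -, hG2, hG3⟩ := happ (|((R (cls y c lam) j : ℚ) : ℝ)| / (2 * (C + 1)))
      (by positivity)
    have h2 := hCb (cls y c lam - cls y c G)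
    have h3 : ((LinearMap.proj j).comp R) (cls y c lam - cls y c G) = R (cls y c lam) j := by
      rw [map_sub]
      change R (cls y c lam) j - R (cls y c G) j = _
      rw [hR0 _ hG2, Pi.zero_apply, sub_zero]
    rw [h3] at h2
    have h4 := h2.trans (mul_le_mul_of_nonneg_left hG3 hC)
    rw [← mul_div_assoc, le_div_iff₀ (by positivity)] at h4
    nlinarith
  -- the coordinates
  have hcb : ∀ w : bs, ∃ C : ℝ, 0 ≤ C ∧ ∀ v, |((Pr v w : ℚ) : ℝ)| ≤ C * ‖toR v‖ := fun w =>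
    lin_bound ((LinearMap.proj w).comp Pr)
  choose Cw hCw hCwb using hcb
  obtain ⟨C, hC⟩ : ∃ C : ℝ, C = ∑ w, Cw w := ⟨_, rfl⟩
  have hC0 : 0 ≤ C := by
    rw [hC]
    exact Finset.sum_nonneg fun w _ => hCw w
  have hCle : ∀ w, Cw w ≤ C := by
    intro w
    rw [hC]
    exact Finset.single_le_sum (f := Cw) (fun w _ => hCw w) (Finset.mem_univ w)
  have ha0r : (0 : ℝ) < a := by exact_mod_cast ha0
  obtain ⟨G, hGe, hG1, hG2, hG3⟩ := happ ((a : ℝ) / (C + 1)) (by positivity)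
  obtain ⟨x, hx⟩ : ∃ x, x = Pr (cls y c lam - cls y c G) := ⟨_, rfl⟩
  have hxa : ∀ w, |x w| ≤ a := by
    intro w
    have h1 := (hCwb w (cls y c lam - cls y c G)).trans (mul_le_mul (hCle w) hG3
      (norm_nonneg _) hC0)
    rw [← hx] at h1
    have h2 : C * ((a : ℝ) / (C + 1)) ≤ a := by
      rw [← mul_div_assoc, div_le_iff₀ (by positivity)]
      nlinarith
    have h3 := h1.trans h2
    exact_mod_cast h3
  have hxA : A x = cls y c lam - cls y c G := by
    have h1 : R (cls y c lam - cls y c G) = 0 := by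
      rw [map_sub, hRL, hR0 _ hG2, sub_zero]
    rw [hRv, ← hx] at h1
    exact (sub_eq_zero.1 h1).symm
  -- the divisor
  obtain ⟨E, hE⟩ : ∃ E : Place ℂ K → ℚ, E = fun P => ∑ w, if P = Q w then x w else 0 := ⟨_, rfl⟩
  have hEf : Fin0 y E := by
    rw [hE]
    exact Fin0.sum _ fun w _ => fin_single (Q w) (x w)
  have hEc : cls y c E = cls y c lam - cls y c G := by
    rw [← hxA, hAx, hE, cls_sum _ fun w _ => fin_single (Q w) (x w)]
    exact Finset.sum_congr rfl fun w _ => cls_single (hQp w) (x w)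
  have hEQ : ∀ w, E (Q w) = x w := by
    intro w
    rw [hE]
    change (∑ w', if Q w = Q w' then x w' else 0) = x w
    rw [Finset.sum_eq_single w]
    · rw [if_pos rfl]
    · intro w' _ hw'
      rw [if_neg fun h => hw' (hQinj h).symm]
    · intro h
      exact absurd (Finset.mem_univ _) h
  have hEn : ∀ P, (∀ w, P ≠ Q w) → E P = 0 := by
    intro P hP
    rw [hE]
    exact Finset.sum_eq_zero fun w _ => if_neg (hP w)
  obtain ⟨b, hb⟩ : ∃ b : Place ℂ K → ℚ, b = fun P => G P + E P := ⟨_, rfl⟩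
  have hbf : Fin0 y b := by
    rw [hb]
    exact Fin0.add (y := y) hGe.2 hEf
  have hbn : ∀ P, IsPrimeDivisor y P → 0 ≤ b P := by
    intro P hP
    rw [hb]
    change 0 ≤ G P + E P
    by_cases h : ∃ w, P = Q w
    · obtain ⟨w, rfl⟩ := h
      rw [hEQ]
      have h1 := hG1 w
      have h2 := (abs_le.1 (hxa w)).1
      linarith
    · push Not at h
      rw [hEn P h, add_zero]
      exact hGe.1 P hP
  have hbc : cls y c b = cls y c lam := by
    rw [hb, cls_add (D := G) (D' := E) hGe.2 hEf, hEc]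
    abel
  obtain ⟨m, hm, f, hf, hfo⟩ := hc.torsion (fun P => lam P - b P) (hl.sub hbf) (by
    rw [cls_sub hl hbf, hbc, sub_self])
  refine ⟨m, hm, f⁻¹, inv_ne_zero hf, fun P hP => ?_⟩
  rw [P.ord_inv]
  push_cast
  rw [hfo P hP]
  have h1 := mul_nonneg (Nat.cast_nonneg (α := ℚ) m) (hbn P hP)
  linarith

end

end Pool.Agent.K9h25.H
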