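import Pool.Agent.K9h25.HSys
import Pool.Agent.N110.QPlateau

/-!
The plateau theorem for dominant rational self-maps of pairs with pseudo-effective `K_X + Δ`.
-/

set_option autoImplicit false
set_option linter.unusedSectionVars false
set_option linter.overlappingInstances false

open FF Module Pool.Agent.W602.GT Pool.Agent.W603.LV Pool.Agent.Y172 Pool.Agent.Y191
  Pool.Agent.R887 Pool.Agent.N110 Pool.Agent.N110.NV Pool.Agent.W619.PQ
open scoped ENNReal Topology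

namespace Pool.Agent.K9h25.H

section

variable {K : Type} [Field K] [Algebra ℂ K] {N n : ℕ} {y : Fin (N + 1) → K}
  {c : Place ℂ K → ℤ} {Δ : Place ℂ K → ℚ}

/-- **The plateau theorem**, for the largest `ν`. -/
theorem plateau_dyn (hy : NormalModel y) (hn : Algebra.trdeg ℂ K = n) (hn0 : 0 < n)
    {i : Fin (N + 1)} (hi : y i ≠ 0) (hcfin : {P | IsPrimeDivisor y P ∧ c P ≠ 0}.Finite)
    (hΔ : {P | IsPrimeDivisor y P ∧ Δ P ≠ 0}.Finite) {Hy : Place ℂ K → ℚ}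
    (hHe : Effective y Hy)
    (hHP : ∀ P l, IsPrimeDivisor y P → Centred y l P → Hy P = P.ord (y i / y l))
    {φ : K →ₐ[ℂ] K} {J : K} (hJ : J ≠ 0) (h : Pulls y c Δ φ J) {ν : ℕ} (hν : ν ≤ n)
    {ε : ℝ} (hε : 0 < ε) (hnb : ∀ k, ¬ Bd y n c Δ Hy φ k ν ε)
    (hb' : ν + 1 ≤ n → ∀ δ : ℝ, 0 < δ → ∃ k, Bd y n c Δ Hy φ k (ν + 1) δ) :
    ∃ j, j + ν ≤ n ∧ ∀ a ≤ ν, ∀ p ≤ n,
      selfJointDegree {φ} y n p ≤ selfJointDegree {φ} y n (j + a) := by
  classical
  by_contra hcon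
  push Not at hcon
  obtain ⟨S, hS⟩ : ∃ S : Set (K →ₐ[ℂ] K), S = {φ} := ⟨_, rfl⟩
  rw [← hS] at hcon
  obtain ⟨d, hd⟩ : ∃ d : ℕ → ℕ → ℝ≥0∞, ∀ p l, d p l = ⨆ (w : List (K →ₐ[ℂ] K))
      (_ : w.length = l) (_ : ∀ φ ∈ w, φ ∈ S), selfDegree w.prod y n p := ⟨_, fun _ _ => rfl⟩
  have hdyn : ∀ p, selfJointDegree S y n p =
      Filter.limsup (fun l : ℕ => d p l ^ (1 / (l : ℝ))) Filter.atTop := by
    intro p
    unfold selfJointDegree
    congr 1
    funext l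
    rw [hd]
  obtain ⟨p0, hp0, hmax⟩ := Finset.exists_max_image (Finset.range (n + 1))
    (fun p => selfJointDegree S y n p) ⟨0, by simp⟩
  rw [Finset.mem_range] at hp0
  have hcon' : ∀ j, j + ν ≤ n → ∃ a ≤ ν, selfJointDegree S y n (j + a) < selfJointDegree S y n p0 := by
    intro j hj
    obtain ⟨a, ha, p, hp, hlt⟩ := hcon j hj
    exact ⟨a, ha, hlt.trans_le (hmax p (Finset.mem_range.2 (by omega)))⟩
  choose a ha halt using hcon'
  obtain ⟨B, hB⟩ : ∃ B : ℝ≥0∞, B = (Finset.range (n + 1)).sup fun j =>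
      if hj : j + ν ≤ n then selfJointDegree S y n (j + a j hj) else 0 := ⟨_, rfl⟩
  have hBlt : B < selfJointDegree S y n p0 := by
    rw [hB, Finset.sup_lt_iff]
    · intro j _
      split_ifs with hj
      · exact halt j hj
      · exact zero_le.trans_lt (halt 0 (by omega))
    · exact zero_le.trans_lt (halt 0 (by omega))
  obtain ⟨L, hL1, hL2⟩ := ENNReal.lt_iff_exists_nnreal_btwn.1 hBlt
  obtain ⟨L', hL3, hL4⟩ := ENNReal.lt_iff_exists_nnreal_btwn.1 hL2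
  have hL0 : (0 : ℝ) < L := by
    have : (0 : ℝ≥0∞) < L := zero_le.trans_lt hL1
    exact_mod_cast this
  have hLL' : (L : ℝ) < L' := by exact_mod_cast hL3
  have hg := growth_dyn hy hn hn0 hi hcfin hΔ hHe hHP hJ h (C₁ := I (eCls hy hn hi φ
    (hcls hy hi) ::ₘ Multiset.replicate (n - 1) (hcls hy hi))) le_rfl hν hε hnb hb' hL0 hLL'
  rw [← hS] at hg
  obtain ⟨A, hA⟩ := hg (by
    intro j hj
    have h3 : selfJointDegree S y n (j + a j hj) < ENNReal.ofReal L := by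
      rw [ENNReal.ofReal_coe_nnreal]
      refine lt_of_le_of_lt ?_ hL1
      rw [hB]
      have h4 := Finset.le_sup (s := Finset.range (n + 1))
        (f := fun j => if hj : j + ν ≤ n then selfJointDegree S y n (j + a j hj) else 0)
        (Finset.mem_range.2 (by omega : j < n + 1))
      simp only [dif_pos hj] at h4
      exact h4
    have ha' := ha j hj
    rw [hdyn] at h3
    obtain ⟨l0, hl0⟩ := ev_of_limsup hL0 h3
    refine ⟨a j hj, ha', 1, l0, fun w hw hwS => ?_⟩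
    have h4 := hl0 w.length hw
    have h5 : selfDegree w.prod y n (j + a j hj) ≤ d (j + a j hj) w.length := by
      rw [hd]
      exact le_iSup_of_le w (le_iSup_of_le rfl (le_iSup_of_le hwS le_rfl))
    have h6 := h5.trans h4
    rw [selfDegree_eq hy hn hi w.prod (by omega)] at h6
    have h7 := (ENNReal.le_ofReal_iff_toReal_le (ENNReal.natCast_ne_top _) (by positivity)).1 h6
    rw [one_mul]
    simpa using h7)
  have h3 : selfJointDegree S y n p0 ≤ ENNReal.ofReal L' := by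
    rw [hdyn p0]
    refine limsup_of_bd (A := A) (hL0.trans hLL') fun l => ?_
    rw [hd]
    refine iSup_le fun w => iSup_le fun hw => iSup_le fun hwS => ?_
    rw [selfDegree_eq hy hn hi w.prod (by omega : p0 ≤ n), ← ENNReal.ofReal_natCast]
    refine ENNReal.ofReal_le_ofReal ?_
    rw [← hw]
    exact hA w hwS p0 (by omega)
  rw [ENNReal.ofReal_coe_nnreal] at h3
  exact absurd hL4 (not_lt.2 h3)

/-- If the greatest dynamical degree is not attained at two consecutive indices then the images of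
the sections become small. -/
theorem bd_of_deg (hy : NormalModel y) (hn : Algebra.trdeg ℂ K = n) (hn0 : 0 < n)
    {i : Fin (N + 1)} (hi : y i ≠ 0) (hcfin : {P | IsPrimeDivisor y P ∧ c P ≠ 0}.Finite)
    (hΔ : {P | IsPrimeDivisor y P ∧ Δ P ≠ 0}.Finite) {Hy : Place ℂ K → ℚ}
    (hHe : Effective y Hy)
    (hHP : ∀ P l, IsPrimeDivisor y P → Centred y l P → Hy P = P.ord (y i / y l))
    {φ : K →ₐ[ℂ] K} {J : K} (hJ : J ≠ 0) (h : Pulls y c Δ φ J)
    (hdeg : ∀ j, j + 1 ≤ n → ∃ a ≤ 1, ∃ p ≤ n,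
      selfJointDegree {φ} y n (j + a) < selfJointDegree {φ} y n p) (δ : ℝ) (hδ : 0 < δ) :
    ∃ k, Bd y n c Δ Hy φ k 1 δ := by
  classical
  by_contra hcon
  push Not at hcon
  have h1 : (fun k => ∃ ε : ℝ, 0 < ε ∧ ∀ l, ¬ Bd y n c Δ Hy φ l k ε) 1 := ⟨δ, hδ, hcon⟩
  obtain ⟨ν, hν⟩ : ∃ ν, ν = Nat.findGreatest
    (fun k => ∃ ε : ℝ, 0 < ε ∧ ∀ l, ¬ Bd y n c Δ Hy φ l k ε) n := ⟨_, rfl⟩
  have e1 : 1 ≤ ν := by
    rw [hν]
    exact Nat.le_findGreatest hn0 h1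
  have e2 : ν ≤ n := by
    rw [hν]
    exact Nat.findGreatest_le n
  have e3 : ∃ ε : ℝ, 0 < ε ∧ ∀ l, ¬ Bd y n c Δ Hy φ l ν ε := by
    rw [hν]
    exact Nat.findGreatest_spec (P := fun k => ∃ ε : ℝ, 0 < ε ∧ ∀ l, ¬ Bd y n c Δ Hy φ l k ε)
      hn0 h1
  have e4 : ν + 1 ≤ n → ∀ δ : ℝ, 0 < δ → ∃ k, Bd y n c Δ Hy φ k (ν + 1) δ := by
    intro h2 δ' hδ'
    by_contra hcon'
    push Not at hcon'
    exact Nat.findGreatest_is_greatest
      (P := fun k => ∃ ε : ℝ, 0 < ε ∧ ∀ l, ¬ Bd y n c Δ Hy φ l k ε) (n := n) (k := ν + 1)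
      (by rw [← hν]; omega) h2 ⟨δ', hδ', hcon'⟩
  obtain ⟨ε, hε, hnb⟩ := e3
  obtain ⟨j, hj, hpl⟩ := plateau_dyn hy hn hn0 hi hcfin hΔ hHe hHP hJ h e2 hε hnb e4
  obtain ⟨a, ha, p, hp, hlt⟩ := hdeg j (by omega)
  exact absurd hlt (not_lt.2 (hpl a (by omega) p hp))

end

end Pool.Agent.K9h25.H
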