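import Pool.Agent.N110.NV.Fin

/-!
Graded linear series: if the moving part is small then the class is, up to a small error, the class
of a divisor with support in the fixed part.
-/

set_option autoImplicit false
set_option linter.unusedSectionVars false
set_option linter.overlappingInstances false

open FF Module Pool.Agent.W602.GT Pool.Agent.Y172 Pool.Agent.R887 Pool.Agent.N110
  Pool.Agent.N110.NV

namespace Pool.Agent.K9h25.H

section

variable {K : Type} [Field K] [Algebra ℂ K] {N n : ℕ} {y : Fin (N + 1) → K}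
  {lam B : Place ℂ K → ℚ} {V : ℕ → ℕ → Submodule ℂ K}

/-- the order of the section `g` of `m L` -/
def Od (lam : Place ℂ K → ℚ) (m : ℕ) (g : K) (P : Place ℂ K) : ℚ := P.ord g + m * lam P

theorem od_pow {m k : ℕ} {g : K} (P : Place ℂ K) : Od lam (k * m) (g ^ k) P = k * Od lam m g P := by
  unfold Od
  rw [P.ord_pow]
  push_cast
  ring

/-- graded linear series -/
structure Ser (y : Fin (N + 1) → K) (lam B : Place ℂ K → ℚ) (V : ℕ → ℕ → Submodule ℂ K) :
    Prop where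
  mul : ∀ m b m' b' g g', g ∈ V m b → g' ∈ V m' b' → g * g' ∈ V (m + m') (b + b')
  mono : ∀ m b b', b ≤ b' → V m b ≤ V m b'
  pole : ∀ m b, 1 ≤ m → ∀ g ∈ V m b, g ≠ 0 → ∀ P, IsPrimeDivisor y P → 0 ≤ Od lam m g P + b * B P
  psef : ∀ t : ℝ, 0 < t → ∀ m₀ : ℕ, ∃ m b : ℕ, m₀ ≤ m ∧ (b : ℝ) ≤ t * m ∧ ∃ g ∈ V m b, g ≠ 0

/-- the prime divisors along which the orders of all sections are at least `s m` -/
def Fx (y : Fin (N + 1) → K) (lam : Place ℂ K → ℚ) (V : ℕ → ℕ → Submodule ℂ K) (s : ℚ) :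
    Set (Place ℂ K) :=
  {Q | IsPrimeDivisor y Q ∧ ∃ t : ℝ, 0 < t ∧ ∃ m₀ : ℕ, ∀ m b : ℕ, m₀ ≤ m → (b : ℝ) ≤ t * m →
    ∀ g ∈ V m b, g ≠ 0 → s * m ≤ Od lam m g Q}

theorem Ser.pow (h : Ser y lam B V) {m b : ℕ} {g : K} (hg : g ∈ V m b) (k : ℕ) (hk : 1 ≤ k) :
    g ^ k ∈ V (k * m) (k * b) := by
  induction k, hk using Nat.le_induction with
  | base => rwa [pow_one, one_mul, one_mul]
  | succ k _ ih =>
    rw [pow_succ, add_mul, add_mul, one_mul, one_mul]
    exact h.mul _ _ _ _ _ _ ih hg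

/-- sections with small orders off the fixed part, along given prime divisors -/
theorem Ser.small (h : Ser y lam B V) {t : ℝ} (ht : 0 < t) {m₁ b₁ : ℕ} (hm₁ : 1 ≤ m₁)
    (hb₁ : (b₁ : ℝ) ≤ t * m₁) {g₁ : K} (hg₁ : g₁ ∈ V m₁ b₁) (hg₁0 : g₁ ≠ 0)
    {ε : ℚ} (hε : 0 < ε) (T : Finset (Place ℂ K))
    (hT : ∀ P ∈ T, IsPrimeDivisor y P ∧ P ∉ Fx y lam V ε) :
    ∃ k : ℕ, 1 ≤ k ∧ ∃ b : ℕ, (b : ℝ) ≤ t * (k * m₁ : ℕ) ∧ ∃ g ∈ V (k * m₁) b, g ≠ 0 ∧ ∀ P ∈ T,
      Od lam (k * m₁) g P ≤ ε * (k * m₁ : ℕ) := by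
  classical
  induction T using Finset.induction_on with
  | empty =>
    exact ⟨1, le_rfl, b₁, by rwa [one_mul], g₁, by rwa [one_mul], hg₁0,
      fun P hP => absurd hP (by simp)⟩
  | insert P T hPT ih =>
    obtain ⟨k, hk, b, hb, g, hg, hg0, hgT⟩ := ih fun Q hQ => hT Q (Finset.mem_insert_of_mem hQ)
    obtain ⟨hP, hPB⟩ := hT P (Finset.mem_insert_self P T)
    have h1 : ∃ m b' : ℕ, 1 ≤ m ∧ (b' : ℝ) ≤ t * m ∧ ∃ g ∈ V m b', g ≠ 0 ∧
        Od lam m g P < ε * m := by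
      by_contra hcon
      push Not at hcon
      exact hPB ⟨hP, t, ht, 1, hcon⟩
    obtain ⟨m, b', hm, hb', g', hg', hg'0, hg'P⟩ := h1
    obtain ⟨G, hG⟩ : ∃ G, G = g ^ m := ⟨_, rfl⟩
    obtain ⟨G', hG'⟩ : ∃ G', G' = g' ^ (k * m₁) := ⟨_, rfl⟩
    have hkm : 1 ≤ k * m₁ := Nat.mul_pos hk hm₁
    obtain ⟨β, hβ⟩ : ∃ β, β = max (m * b) (k * m₁ * b') := ⟨_, rfl⟩
    have hGs : G ∈ V (m * (k * m₁)) β := by
      rw [hG, hβ]
      exact h.mono _ _ _ (le_max_left _ _) (h.pow hg m hm)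
    have hGs' : G' ∈ V (m * (k * m₁)) β := by
      rw [hG', hβ]
      refine h.mono _ _ _ (le_max_right _ _) ?_
      rw [mul_comm m (k * m₁)]
      exact h.pow hg' (k * m₁) hkm
    have hG0 : G ≠ 0 := by
      rw [hG]
      exact pow_ne_zero _ hg0
    have hG0' : G' ≠ 0 := by
      rw [hG']
      exact pow_ne_zero _ hg'0
    obtain ⟨v, hv, hv0, hvo⟩ := exists_generic (k₀ := ℂ) (k := ℂ) (K := K) (S := {G, G'})
      (by simp) (T := ((insert P T : Finset (Place ℂ K)) : Set (Place ℂ K)))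
      (Finset.finite_toSet _) ⟨G, by simp, hG0⟩
    have hvs : v ∈ V (m * (k * m₁)) β := by
      have h2 : Submodule.span ℂ {G, G'} ≤ V (m * (k * m₁)) β := by
        rw [Submodule.span_le]
        rintro s (rfl | rfl)
        · exact hGs
        · exact hGs'
      exact h2 hv
    have hle : ∀ s ∈ ({G, G'} : Set K), s ≠ 0 → ∀ Q ∈ insert P T,
        Od lam (m * (k * m₁)) v Q ≤ Od lam (m * (k * m₁)) s Q := by
      intro s hs hs0 Q hQ
      have h3 : (Q.ord v : ℚ) ≤ Q.ord s := by exact_mod_cast hvo Q (by simpa using hQ) s hs hs0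
      unfold Od
      linarith
    have hβt : (β : ℝ) ≤ t * (m * (k * m₁) : ℕ) := by
      rw [hβ, Nat.cast_max]
      refine max_le ?_ ?_
      · push_cast at hb ⊢
        nlinarith [mul_le_mul_of_nonneg_left hb (Nat.cast_nonneg (α := ℝ) m)]
      · push_cast
        have h3 : (0 : ℝ) ≤ k * m₁ := by positivity
        nlinarith [mul_le_mul_of_nonneg_left hb' h3]
    refine ⟨m * k, by nlinarith, β, by rwa [mul_assoc], v, by rwa [mul_assoc], hv0,
      fun Q hQ => ?_⟩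
    rw [mul_assoc]
    have hm' : (0 : ℚ) ≤ m := Nat.cast_nonneg _
    rcases Finset.mem_insert.1 hQ with h3 | h3
    · refine (hle G' (by simp) hG0' Q hQ).trans ?_
      rw [hG', mul_comm m (k * m₁), od_pow, h3]
      have h4 := mul_le_mul_of_nonneg_left hg'P.le (Nat.cast_nonneg (α := ℚ) (k * m₁))
      refine h4.trans (le_of_eq ?_)
      push_cast
      ring
    · refine (hle G (by simp) hG0 Q hQ).trans ?_
      rw [hG, od_pow]
      have h4 := mul_le_mul_of_nonneg_left (hgT Q h3) hm'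
      refine h4.trans (le_of_eq ?_)
      push_cast
      ring

theorem ord_fin (hy : NormalModel y) {g : K} (hg : g ≠ 0) : Fin0 y (fun P => (P.ord g : ℚ)) := by
  refine (finite_ord hy hg).subset ?_
  rintro P ⟨hP, h0⟩
  refine ⟨hP, fun h2 => h0 ?_⟩
  change ((P.ord g : ℤ) : ℚ) = 0
  rw [h2]
  simp

theorem od_fin (hy : NormalModel y) (hl : Fin0 y lam) {m : ℕ} {g : K} (hg : g ≠ 0) :
    Fin0 y (Od lam m g) :=
  (ord_fin hy hg).add (hl.smul m)

end

end Pool.Agent.K9h25.H
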