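import Pool.Agent.K9h25.HLow

/-!
The growth of the degrees of the iterates, if the images of the sections do not become small.
-/

set_option autoImplicit false
set_option linter.unusedSectionVars false
set_option linter.overlappingInstances false

open FF Module Pool.Agent.W602.GT Pool.Agent.W603.LV Pool.Agent.Y172 Pool.Agent.Y191
  Pool.Agent.R887 Pool.Agent.N110 Pool.Agent.N110.NV Pool.Agent.W619.PQ

namespace Pool.Agent.K9h25.H

section

variable {K : Type} [Field K] [Algebra ℂ K] {N n : ℕ} {y : Fin (N + 1) → K}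
  {c : Place ℂ K → ℤ} {Δ : Place ℂ K → ℚ}

theorem prod_single {φ : K →ₐ[ℂ] K} {w : List (K →ₐ[ℂ] K)}
    (hw : ∀ ψ ∈ w, ψ ∈ ({φ} : Set (K →ₐ[ℂ] K))) : w.prod = φ ^ w.length := by
  have e1 : w = List.replicate w.length φ := List.eq_replicate_iff.2 ⟨rfl, hw⟩
  conv_lhs => rw [e1]
  rw [List.prod_replicate]

/-- **The growth of the degrees of the iterates.** -/
theorem growth_dyn (hy : NormalModel y) (hn : Algebra.trdeg ℂ K = n) (hn0 : 0 < n)
    {i : Fin (N + 1)} (hi : y i ≠ 0) (hcfin : {P | IsPrimeDivisor y P ∧ c P ≠ 0}.Finite)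
    (hΔ : {P | IsPrimeDivisor y P ∧ Δ P ≠ 0}.Finite) {Hy : Place ℂ K → ℚ}
    (hHe : Effective y Hy)
    (hHP : ∀ P l, IsPrimeDivisor y P → Centred y l P → Hy P = P.ord (y i / y l))
    {φ : K →ₐ[ℂ] K} {J : K} (hJ : J ≠ 0) (h : Pulls y c Δ φ J)
    {C₁ : ℕ} (hC₁ : I (eCls hy hn hi φ (hcls hy hi) ::ₘ
      Multiset.replicate (n - 1) (hcls hy hi)) ≤ C₁) {ν : ℕ} (hν : ν ≤ n)
    {ε : ℝ} (hε : 0 < ε) (hnb : ∀ k, ¬ Bd y n c Δ Hy φ k ν ε)
    (hb' : ν + 1 ≤ n → ∀ δ : ℝ, 0 < δ → ∃ k, Bd y n c Δ Hy φ k (ν + 1) δ) {L L' : ℝ}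
    (hL : 0 < L) (hlt : L < L')
    (hyp : ∀ j, j + ν ≤ n → ∃ a ≤ ν, ∃ A : ℝ, ∃ l0 : ℕ, ∀ w : List (K →ₐ[ℂ] K),
      l0 ≤ w.length → (∀ ψ ∈ w, ψ ∈ ({φ} : Set (K →ₐ[ℂ] K))) →
      (I (Multiset.replicate (j + a) (eCls hy hn hi w.prod (hcls hy hi)) +
        Multiset.replicate (n - (j + a)) (hcls hy hi)) : ℝ) ≤ A * L ^ w.length) :
    ∃ A : ℝ, ∀ w : List (K →ₐ[ℂ] K), (∀ ψ ∈ w, ψ ∈ ({φ} : Set (K →ₐ[ℂ] K))) → ∀ p, p ≤ n →
      (I (Multiset.replicate p (eCls hy hn hi w.prod (hcls hy hi)) +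
      Multiset.replicate (n - p) (hcls hy hi)) : ℝ) ≤ A * L' ^ w.length := by
  classical
  have hess := hy.ess
  have cx := ctx hy hn hi
  obtain ⟨S, hS⟩ : ∃ S : Set (K →ₐ[ℂ] K), S = {φ} := ⟨_, rfl⟩
  rw [← hS] at hyp ⊢
  have hpr : ∀ w : List (K →ₐ[ℂ] K), (∀ ψ ∈ w, ψ ∈ S) → w.prod = φ ^ w.length := by
    intro w hw
    rw [hS] at hw
    exact prod_single hw
  -- the domination
  have hdomk := fun k => (h.pow k).dom hy hi hHe hHP (jk_ne hJ k)
  choose fk hfk γ hBk hγ using hdomk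
  obtain ⟨Γ, hΓ⟩ : ∃ Γ : ℕ → ℕ, ∀ k, Γ k = ∑ j ∈ Finset.range (k + 1), γ j := ⟨_, fun _ => rfl⟩
  have hγΓ : ∀ j k, j ≤ k → γ j ≤ Γ k := by
    intro j k hjk
    rw [hΓ]
    exact Finset.single_le_sum (f := γ) (fun _ _ => Nat.zero_le _) (Finset.mem_range.2 (by omega))
  obtain ⟨kq, hkq, hkq'⟩ := exists_kq Γ
  -- the sequence of sections
  have hseq : ∀ q k : ℕ, ∃ m b : ℕ, 2 * (q + 1) ≤ m ∧ (b : ℝ) ≤ 1 / (2 * (q + 1)) * m ∧
      ∃ u : Fin (n - ν) → K, (∀ a, IsPencil y (u a)) ∧ ∃ g : Fin (ν + 1) → K,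
      (∀ j, g j ∈ Lsp y c m (m • Δ + b • Hy)) ∧ g 0 ≠ 0 ∧
      ε * m ^ ν ≤ (degreeOver u (fun j : Fin ν => (φ ^ k) (g j.succ / g 0)) : ℝ) := by
    intro q k
    have h1 := hnb k
    unfold Bd at h1
    push Not at h1
    obtain ⟨m, b, hm, hb, u, hu, g, hg, hg0, hlt⟩ := h1 (1 / (2 * ((q : ℝ) + 1)))
      (by positivity) (2 * (q + 1))
    exact ⟨m, b, hm, hb, u, hu, g, hg, hg0, hlt.le⟩
  choose m₁ b₁ hm₁ hb₁ u hu g hg hg0 hdeg using hseq
  obtain ⟨b, hb⟩ : ∃ b : ℕ → ℕ, ∀ q, b q = ∏ k ∈ Finset.range (2 * q + 1), m₁ q k :=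
    ⟨_, fun _ => rfl⟩
  obtain ⟨m, hm⟩ : ∃ m : ℕ → ℕ, ∀ q, m q = (q + 1) * b q := ⟨_, fun _ => rfl⟩
  have hm₁1 : ∀ q k, 1 ≤ m₁ q k := fun q k => by
    have := hm₁ q k
    omega
  have hb1 : ∀ q, 1 ≤ b q := fun q => by
    rw [hb]
    exact Nat.pos_of_ne_zero (Finset.prod_ne_zero_iff.2 fun k _ => by
      have := hm₁1 q k
      omega)
  have hm1 : ∀ q, q + 1 ≤ m q := fun q => by
    rw [hm]
    exact Nat.le_mul_of_pos_right _ (hb1 q)
  have hm1' : ∀ q, 1 ≤ m q := fun q => by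
    have := hm1 q
    omega
  have hs : ∀ q k, k ≤ 2 * q → ∃ s, 1 ≤ s ∧ m q = s * m₁ q k ∧ s * (b₁ q k + 1) ≤ b q := by
    intro q k hk
    have hd : m₁ q k ∣ b q := by
      rw [hb]
      exact Finset.dvd_prod_of_mem _ (Finset.mem_range.2 (by omega))
    obtain ⟨s', hs'⟩ := hd
    have hs'1 : 1 ≤ s' := by
      rcases Nat.eq_zero_or_pos s' with h0 | h0
      · rw [h0, mul_zero] at hs'
        have := hb1 q
        omega
      · exact h0
    refine ⟨(q + 1) * s', Nat.mul_pos (by omega) hs'1, by rw [hm, hs']; ring, ?_⟩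
    have h2 : (q + 1) * (b₁ q k + 1) ≤ m₁ q k := by
      have h3 := hb₁ q k
      have h4 : (2 * (q + 1) : ℝ) ≤ m₁ q k := by exact_mod_cast hm₁ q k
      rw [div_mul_eq_mul_div, one_mul, le_div_iff₀ (by positivity)] at h3
      have h5 : ((q : ℝ) + 1) * (b₁ q k + 1) ≤ m₁ q k := by nlinarith
      exact_mod_cast h5
    rw [hs']
    calc (q + 1) * s' * (b₁ q k + 1) = s' * ((q + 1) * (b₁ q k + 1)) := by ring
      _ ≤ s' * m₁ q k := Nat.mul_le_mul_left _ h2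
      _ = m₁ q k * s' := mul_comm _ _
  -- the base sections
  have hσex : ∀ q, ∃ σ : K, σ ≠ 0 ∧ ∀ l, σ * (y l / y i) ∈ Lsp y c (m q) (m q • Δ + b q • Hy) := by
    intro q
    obtain ⟨s, hs1, hs2, hs3⟩ := hs q 0 (by omega)
    refine ⟨g q 0 0 ^ s, pow_ne_zero _ (hg0 q 0), fun l => ?_⟩
    have h1 := mul_hyp' hy hi hHP (lsp_pow (hg q 0 0) s) l
    rw [← hs2] at h1
    refine Lsp_mono ?_ hHe.1 (fun _ _ => le_rfl) h1
    nlinarith
  choose σ hσ hσm using hσex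
  have hmem : ∀ a q l, σ q * (y l / y i) ∈ Lsp y c (m q) (m q • Δ + ((a + 1) * b q) • Hy) :=
    fun a q l => Lsp_mono (Nat.le_mul_of_pos_left _ (by omega)) hHe.1 (fun _ _ => le_rfl)
      (hσm q l)
  obtain ⟨V, hV⟩ : ∃ V : ℕ → ℕ → Cls ℂ (affS y i), ∀ a q, V a q =
      secCls hy hi hcfin hΔ hHe (m q) ((a + 1) * b q) (hσ q) (hmem a q) := ⟨_, fun _ _ => rfl⟩
  have hVm : ∀ a q v, v ∈ (V a q).V ↔
      σ q * v ∈ Lsp y c (m q) (m q • Δ + ((a + 1) * b q) • Hy) := by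
    intro a q v
    rw [hV]
    rfl
  obtain ⟨M, hM⟩ : ∃ M : ℕ → ℕ → Cls ℂ (affS y i), ∀ a q, M a q =
      eCls hy hn hi (φ ^ kq q) (V a q) := ⟨_, fun _ _ => rfl⟩
  obtain ⟨D, hDV⟩ : ∃ D : Cls ℂ (affS y i) → ℕ → Cls ℂ (affS y i), ∀ a v, D a v =
      mulCls (fin_affS i) (one_affS hi) a (hpow hy hi (v - 1)) := ⟨_, fun _ _ => rfl⟩
  obtain ⟨β, f, hf, hdom⟩ := dom_sections hy hi hcfin hΔ
  obtain ⟨βA, gA, hgA, hdomA⟩ := hdom Hy hHe
  obtain ⟨t, ht⟩ : ∃ t : Multiset (Cls ℂ (affS y i)) → ℝ, t = fun s => (I s : ℝ) := ⟨_, rfl⟩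
  -- comparison after all maps
  have hLeW : ∀ (V V' : Cls ℂ (affS y i)) (g : K), g ≠ 0 → (∀ v ∈ V.V, g * v ∈ V'.V) →
      LeW n t (EWrd hy hn hi S) 1 V V' := by
    rintro V V' g hg0 hV l F ⟨w, -, -, rfl⟩ s hs
    rw [ht, one_mul]
    refine Nat.cast_le.2 (I_mono cx (g := w.prod g) (by rwa [Ne, map_eq_zero]) ?_ hs)
    rintro _ ⟨v, hv, rfl⟩
    exact ⟨g * v, hV v hv, map_mul w.prod g v⟩
  have hdir : ∀ a a', a ≤ a' → ∀ q, LeW n t (EWrd hy hn hi S) 1 (M a q) (M a' q) := by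
    intro a a' haa q
    refine hLeW _ _ 1 one_ne_zero ?_
    rw [hM, hM]
    rintro _ ⟨v, hv, rfl⟩
    rw [one_mul]
    refine ⟨v, ?_, rfl⟩
    have hv' := (hVm a q v).1 hv
    exact (hVm a' q v).2 (Lsp_mono (Nat.mul_le_mul_right _ (by omega)) hHe.1
      (fun _ _ => le_rfl) hv')
  have data : Sys n t (EWrd hy hn hi S) (hcls hy hi) (fun q => (m q : ℝ)) M D ν (β + 1)
      ε C₁ := by
    refine ⟨?_, ?_, hn0, hν, by positivity, hε, ?_, ?_, ?_, ?_, ?_, ?_, ?_, ?_, ?_, ?_, ?_, ?_, ?_,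
      ?_, ?_⟩
    · -- pos
      intro s hs
      rw [ht]
      beta_reduce
      exact_mod_cast I_pos cx hs
    · -- ex
      rw [ht]
      exact exch cx
    · -- one
      refine ⟨[], rfl, by simp, ?_⟩
      funext A
      rw [List.prod_nil, eCls_one]
      rfl
    · -- zero_id
      rintro F ⟨w, hw, -, rfl⟩
      rw [List.length_eq_zero_iff] at hw
      subst hw
      funext A
      rw [List.prod_nil, eCls_one]
      rfl
    · -- split
      rintro l k F ⟨w, hw, hwS, rfl⟩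
      refine ⟨eCls hy hn hi (w.take l).prod, ⟨w.take l, by rw [List.length_take]; omega,
        fun φ hφ => hwS φ (List.mem_of_mem_take hφ), rfl⟩,
        eCls hy hn hi (w.drop l).prod, ⟨w.drop l, by rw [List.length_drop]; omega,
        fun φ hφ => hwS φ (List.mem_of_mem_drop hφ), rfl⟩, ?_⟩
      funext A
      change _ = eCls hy hn hi _ (eCls hy hn hi _ A)
      rw [eCls_eCls, ← List.prod_append, List.take_append_drop]
    · -- deg
      rintro l F ⟨w, -, -, rfl⟩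
      refine ⟨mapDegree w.prod, by exact_mod_cast mapDegree_pos hess hn w.prod, fun s hs => ?_⟩
      rw [ht]
      beta_reduce
      exact_mod_cast I_emap hy hn hi w.prod hs
    · -- H_deg
      rintro F ⟨w, hw, hwS, rfl⟩
      rw [hpr w hwS, hw, pow_one, ht]
      beta_reduce
      exact_mod_cast hC₁
    · -- m_pos
      intro q
      exact_mod_cast hm1' q
    · -- m_tend
      refine Filter.tendsto_atTop_mono (fun q => ?_) tendsto_natCast_atTop_atTop
      have := hm1 q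
      exact_mod_cast (by omega : q ≤ m q)
    · -- dir
      intro a a'
      exact ⟨max a a', fun q => ⟨hdir _ _ (le_max_left _ _) q, hdir _ _ (le_max_right _ _) q⟩⟩
    · -- M_f
      rintro k G ⟨w, rfl, hwS, rfl⟩ a
      rw [hpr w hwS]
      obtain ⟨k, hk⟩ : ∃ k, k = w.length := ⟨_, rfl⟩
      rw [← hk]
      refine ⟨γ k * (a + 1), fun q => ?_⟩
      obtain ⟨B, hB⟩ : ∃ B, B = (a + 1) * b q := ⟨_, rfl⟩
      obtain ⟨X, hX⟩ : ∃ X : K → K, ∀ z, X z = fk k ^ B * (Jk φ J k ^ m q * (φ ^ k) z) :=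
        ⟨_, fun _ => rfl⟩
      have hσk : (φ ^ k) (σ q) ≠ 0 := by
        rw [Ne, map_eq_zero]
        exact hσ q
      have hXσ : X (σ q) ≠ 0 := by
        rw [hX]
        exact mul_ne_zero (pow_ne_zero _ (hfk k)) (mul_ne_zero (pow_ne_zero _ (jk_ne hJ k)) hσk)
      have hXm : ∀ v, X (σ q * v) = X (σ q) * (φ ^ k) v := by
        intro v
        rw [hX, hX, map_mul]
        ring
      refine hLeW _ _ ((φ ^ kq q) (X (σ q) / σ q))
        (by
          rw [Ne, map_eq_zero]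
          exact div_ne_zero hXσ (hσ q)) ?_
      rw [hM, hM, eCls_eCls]
      rintro _ ⟨v, hv, rfl⟩
      change (φ ^ kq q) (X (σ q) / σ q) * (φ ^ k * φ ^ kq q) v ∈ _
      have e1 : (φ ^ k * φ ^ kq q) v = (φ ^ kq q) ((φ ^ k) v) := by
        rw [← pow_add, add_comm, pow_app]
      rw [e1, ← map_mul]
      refine eCls_mem ((hVm _ q _).2 ?_)
      have e2 : σ q * (X (σ q) / σ q * (φ ^ k) v) = X (σ q * v) := by
        rw [hXm, ← mul_assoc, mul_div_cancel₀ _ (hσ q)]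
      rw [e2, hX]
      have h3 := (hγ k (m q) B (hm1' q) _ (by
        rw [hB]
        exact (hVm a q v).1 hv)).2
      refine Lsp_mono ?_ hHe.1 (fun _ _ => le_rfl) h3
      rw [hB, ← mul_assoc]
      exact Nat.mul_le_mul_right _ (by omega)
    · -- M_le
      intro a
      obtain ⟨q₁, hq₁⟩ : ∃ q₁ : ℕ, q₁ = ((a + 1) * βA) * ((a + 1) * βA) := ⟨_, rfl⟩
      filter_upwards [hkq' 0, Filter.eventually_ge_atTop q₁] with q hq hqq
      rintro l F ⟨w, -, -, rfl⟩ s hs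
      rw [ht]
      obtain ⟨k, hk⟩ : ∃ k, k = kq q := ⟨_, rfl⟩
      obtain ⟨B, hB⟩ : ∃ B, B = (a + 1) * b q := ⟨_, rfl⟩
      have hσk : (φ ^ k) (σ q) ≠ 0 := by
        rw [Ne, map_eq_zero]
        exact hσ q
      have e1 := I_dom_emap hy hn hi w.prod (V := M a q)
        (B := m q * β + (γ k * B) * βA)
        (f := f ^ m q * gA ^ (γ k * B) * (fk k ^ B * (Jk φ J k ^ m q * (φ ^ k) (σ q))))
        (mul_ne_zero (mul_ne_zero (pow_ne_zero _ hf) (pow_ne_zero _ hgA))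
          (mul_ne_zero (pow_ne_zero _ (hfk k)) (mul_ne_zero (pow_ne_zero _ (jk_ne hJ k)) hσk)))
        (by
          rw [hM, ← hk]
          rintro _ ⟨v, hv, rfl⟩
          have h3 := (hγ k (m q) B (hm1' q) _ (by
            rw [hB]
            exact (hVm a q v).1 hv)).2
          have h4 := hdomA (m q) (γ k * B) _ h3
          have e2 : f ^ m q * gA ^ (γ k * B) * (fk k ^ B * (Jk φ J k ^ m q * (φ ^ k) (σ q))) *
              (φ ^ k).toLinearMap v = f ^ m q * gA ^ (γ k * B) *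
              (fk k ^ B * (Jk φ J k ^ m q * (φ ^ k) (σ q * v))) := by
            change _ * (φ ^ k) v = _
            rw [map_mul]
            ring
          rw [e2]
          exact h4) hs
      have e2 : ((m q * β + (γ k * B) * βA : ℕ) : ℝ) ≤ ((β : ℝ) + 1) * m q := by
        have h3 : (Γ k * ((a + 1) * βA : ℕ) : ℝ) ≤ 1 * ((q : ℝ) + 1) := by
          refine gam_le one_pos (by rw [hk]; exact hq.2) ?_
          have h4 : ((a + 1) * βA) * ((a + 1) * βA) ≤ q + 1 := by omega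
          rw [one_mul, one_mul]
          exact_mod_cast h4
        have h4 : Γ k * ((a + 1) * βA) ≤ q + 1 := by
          rw [one_mul] at h3
          exact_mod_cast h3
        have h5 : γ k * ((a + 1) * βA) ≤ q + 1 :=
          (Nat.mul_le_mul_right _ (hγΓ k k le_rfl)).trans h4
        have h6 : (γ k * B) * βA ≤ m q := by
          rw [hB, hm]
          calc γ k * ((a + 1) * b q) * βA = γ k * ((a + 1) * βA) * b q := by ring
            _ ≤ (q + 1) * b q := Nat.mul_le_mul_right _ h5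
        have h7 : m q * β + (γ k * B) * βA ≤ (β + 1) * m q := by nlinarith
        exact_mod_cast h7
      calc ((I (eCls hy hn hi w.prod (M a q) ::ₘ s) : ℕ) : ℝ) ≤
            ((m q * β + (γ k * B) * βA : ℕ) : ℝ) *
            (I (eCls hy hn hi w.prod (hcls hy hi) ::ₘ s) : ℝ) := by exact_mod_cast e1
        _ ≤ ((β : ℝ) + 1) * m q * (I (eCls hy hn hi w.prod (hcls hy hi) ::ₘ s) : ℝ) :=
          mul_le_mul_of_nonneg_right e2 (Nat.cast_nonneg _)
    · -- D_add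
      rintro a v hv l F ⟨w, -, -, rfl⟩ s hs
      rw [ht, hDV]
      have e1 := I_add cx (D := eCls hy hn hi w.prod (mulCls (fin_affS i) (one_affS hi) a
        (hpow hy hi (v - 1)))) (V := eCls hy hn hi w.prod a)
        (V' := eCls hy hn hi w.prod (hpow hy hi (v - 1))) (by rw [eCls_mul]; exact le_rfl) hs
      have e2 := I_dom_emap hy hn hi w.prod (V := hpow hy hi (v - 1))
        (B := v - 1 + 1) (f := 1) one_ne_zero (hpow_bnd hy hi (v - 1)) hs
      have e3 : v - 1 + 1 = v := by omega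
      rw [e3] at e2
      beta_reduce
      exact_mod_cast e1.trans (Nat.add_le_add_left e2 _)
    · -- D_M
      intro a v hv s hs
      rw [ht, one_mul, hDV]
      refine Nat.cast_le.2 (I_mono cx (g := 1) one_ne_zero (fun w hw => ?_) hs)
      rw [one_mul]
      have := Submodule.mul_mem_mul hw (hpow hy hi (v - 1)).one
      rwa [mul_one] at this
    · -- D_H
      intro a v hv s hs
      rw [ht, hDV]
      have e1 := I_pow cx (V := hcls hy hi)
        (D := mulCls (fin_affS i) (one_affS hi) a (hpow hy hi (v - 1))) (q := v) hv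
        (fun w hw => by
          have e2 := hpow_pow hy hi (v - 1) w hw
          have e3 : v - 1 + 1 = v := by omega
          rw [e3] at e2
          have := Submodule.mul_mem_mul a.one e2
          rwa [one_mul] at this) hs
      beta_reduce
      exact_mod_cast e1
    · -- eps
      rintro l F ⟨w, rfl, hwS, rfl⟩
      rw [hpr w hwS]
      obtain ⟨l, hl⟩ : ∃ l, l = w.length := ⟨_, rfl⟩
      rw [← hl]
      refine ⟨0, ?_⟩
      filter_upwards [Filter.eventually_ge_atTop l] with q hq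
      have hk : l + kq q ≤ 2 * q := by
        have := hkq q
        omega
      obtain ⟨s, hs1, hs2, hs3⟩ := hs q (l + kq q) hk
      rw [ht, hM, hV, eCls_eCls, ← pow_add]
      exact eps_low hy hn hi hcfin hΔ hHe hHP (φ ^ (l + kq q)) hν (hu q _) (hg q _) (hg0 q _)
        (hdeg q _) hs1 hs2 (by rw [zero_add, one_mul]; exact hs3) (hσ q) (hmem 0 q)
    · -- zero
      intro hν1 a δ hδ
      obtain ⟨k, tt, htt, m₀, hbd⟩ := hb' hν1 δ hδ
      obtain ⟨q₁, hq₁⟩ := exists_nat_gt ((((a + 1 : ℕ) : ℝ) * ((a + 1 : ℕ) : ℝ)) / (tt * tt))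
      filter_upwards [hkq' k, Filter.eventually_ge_atTop (max q₁ m₀)] with q hq hqq
      obtain ⟨hq1, hq2⟩ := hq
      have hqq1 : q₁ ≤ q := (le_max_left _ _).trans hqq
      have hqq2 : m₀ ≤ q := (le_max_right _ _).trans hqq
      obtain ⟨j, hj⟩ := Nat.exists_eq_add_of_le hq1
      rw [ht, hM, hV, hj]
      refine zero_up hy hn hi hcfin hΔ hHe hJ (hfk j) (fun m b hm g hg => (hγ j m b hm g hg).2)
        hν1 hbd (hm1' q) (by have := hm1 q; omega) ?_ (hσ q) (hmem a q)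
      have h3 : (Γ (kq q) * ((a + 1 : ℕ) : ℝ)) ≤ tt * ((q : ℝ) + 1) := by
        refine gam_le htt hq2 ?_
        have h4 : (q₁ : ℝ) ≤ q := by exact_mod_cast hqq1
        have htt2 : 0 < tt * tt := by positivity
        rw [div_lt_iff₀ htt2] at hq₁
        nlinarith
      have h4 : (γ j : ℝ) ≤ Γ (kq q) := by
        exact_mod_cast hγΓ j (kq q) (by omega)
      have h5 : (γ j : ℝ) * ((a + 1 : ℕ) : ℝ) ≤ tt * ((q : ℝ) + 1) :=
        (mul_le_mul_of_nonneg_right h4 (Nat.cast_nonneg _)).trans h3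
      have h6 : (0 : ℝ) ≤ b q := Nat.cast_nonneg _
      have h7 := mul_le_mul_of_nonneg_right h5 h6
      rw [hm]
      push_cast at h7 ⊢
      nlinarith
  have hcomp : ∀ l k, ∀ F ∈ EWrd hy hn hi S l, ∀ G ∈ EWrd hy hn hi S k,
      F ∘ G ∈ EWrd hy hn hi S (l + k) := by
    rintro l k F ⟨w, hw, hwS, rfl⟩ G ⟨w', hw', hwS', rfl⟩
    refine ⟨w ++ w', by rw [List.length_append, hw, hw'], fun φ hφ => ?_, ?_⟩
    · rcases List.mem_append.1 hφ with h | h
      · exact hwS φ h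
      · exact hwS' φ h
    · funext A
      rw [List.prod_append, ← eCls_eCls]
      rfl
  have hfin := data.growth' hcomp ⟨0⟩ hL hlt (by
    intro j hj
    obtain ⟨a, ha, A, l0, hA⟩ := hyp j hj
    refine ⟨a, ha, A, l0, ?_⟩
    rintro l hl F ⟨w, rfl, hwS, rfl⟩
    rw [ht]
    exact hA w hl hwS)
  obtain ⟨A, hA⟩ := hfin
  refine ⟨A, fun w hwS p hp => ?_⟩
  have := hA w.length (eCls hy hn hi w.prod) ⟨w, rfl, hwS, rfl⟩ p hp
  rw [ht] at this
  exact this

end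

end Pool.Agent.K9h25.H
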