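import Pool.Agent.K9h25.Po
import Pool.Agent.R885.NG14
import Pool.Agent.W602.GT.KDefs
import Pool.Agent.TH466.QG.Low

/-!
The Kodaira dimension of mild hypersurfaces with a nonempty Fine interior.
-/

set_option autoImplicit false
set_option linter.overlappingInstances false
set_option linter.unusedSectionVars false

open FF Pool.Agent.R885 Pool.Agent.W603.LV Pool.Agent.W619.PQ Pool.Agent.TH165.ACC
  Pool.Agent.TH122.AB
open Pool.Agent.W602.GT (KodGe LogSec RegAt LogAt DerReg DerLog Divisorial IsPluri)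

namespace Pool.Agent.K9h25

/-- The hypersurface `f = 0` is mild: at the zeros in the torus of the initial part `ini v f` at
which its gradient vanishes, its logarithmic Hessian has rank at least two, and at least three if
`v = 0`. -/
def Mild {ι k : Type} [Fintype ι] [Field k] (f : (ι → ℤ) →₀ k) : Prop :=
  ∀ (v : ι → ℤ) (c : ι → k), (∀ i, c i ≠ 0) → ev c (ini v f) = 0 → gr c (ini v f) = 0 →
    2 ≤ (hess c (ini v f)).rank ∧ (v = 0 → 3 ≤ (hess c (ini v f)).rank)

section

variable {k K : Type} [Field k] [CharZero k] [Field K] [Algebra k K] {r n : ℕ} {x : Fin r → K}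

/-- the gradient does not vanish at the generic point -/
theorem gr_ne (hx : ∀ i, x i ≠ 0) (hgen : IntermediateField.adjoin k (Set.range x) = ⊤)
    (htr : Algebra.trdeg k K = (n : ℕ)) (hr : r = n + 1) {f : (Fin r → ℤ) →₀ k}
    (h : gr x f = 0 → 2 ≤ (hess x f).rank) : gr x f ≠ 0 := by
  classical
  intro h0
  obtain ⟨σ, hσ⟩ := exists_rows _ (h h0)
  obtain ⟨Z, hZ⟩ := Pool.Agent.W636.PG.exists_basis k K n htr
  obtain ⟨D0, hD0'⟩ := Pool.Agent.W602.GT.exists_dual hZ
  have hD0 : ∀ i j, D0 i (Z j) = if i = j then 1 else 0 := by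
    intro i j
    have h1 := congrFun (congrFun hD0' i) j
    rw [Matrix.of_apply, Matrix.one_apply] at h1
    exact h1
  have hli : LinearIndependent K fun a => lg x (D0 a) := by
    rw [Fintype.linearIndependent_iff]
    intro c hc j
    obtain ⟨D, hDd⟩ : ∃ D : Derivation k K K, D = ∑ a, c a • D0 a := ⟨_, rfl⟩
    have h1 : ∀ i, D (x i) = 0 := by
      intro i
      have h2 : lg x D i = 0 := by
        rw [hDd, lg_sum]
        have h3 := congrFun hc i
        rw [Finset.sum_apply, Pi.zero_apply] at h3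
        exact h3
      exact (div_eq_zero_iff.1 h2).resolve_right (hx i)
    have h3 := der_eq_zero hgen h1 (Z j)
    rw [hDd, sum_der, Finset.sum_eq_single j] at h3
    · rwa [hD0, if_pos rfl, mul_one] at h3
    · intro b _ hb
      rw [hD0, if_neg hb, mul_zero]
    · intro hj
      exact absurd (Finset.mem_univ _) hj
  have h1 := rank_le hσ hli fun i a => by
    have h2 := der_gr (D0 a) hx f (σ i)
    rw [h0, Pi.zero_apply, map_zero] at h2
    exact h2.symm
  rw [Fintype.card_fin, Fintype.card_fin, Fintype.card_fin] at h1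
  omega

/-- the condition at a place -/
theorem mild_place [IsAlgClosed k] {f : (Fin r → ℤ) →₀ k} (h : Mild f) (hx : ∀ i, x i ≠ 0)
    (hf : ev x f = 0) (P : Place k K) (hz : gr (pt P x) (ini (vec P x) f) = 0) :
    2 ≤ (hess (pt P x) (ini (vec P x) f)).rank ∧
      (vec P x = 0 → 3 ≤ (hess (pt P x) (ini (vec P x) f)).rank) := by
  have hev : ev (pt P x) (ini (vec P x) f) = 0 := by
    by_cases hf0 : f = 0
    · rw [hf0]
      unfold ini
      rw [Finsupp.filter_zero]
      unfold ev
      exact Finsupp.sum_zero_index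
    obtain ⟨m0, -, hm0⟩ := exists_mn hf0 (vec P x)
    have h2 := red_ev' P hx f hm0
    have h3 : ev' x f m0 = 0 := by
      have h4 := ev_eq hx f m0
      rw [hf] at h4
      exact (mul_eq_zero.1 h4.symm).resolve_left (mono_ne hx _)
    rw [h3, P.red_zero] at h2
    exact (div_eq_zero_iff.1 h2.symm).resolve_right (mono_ne (pt_ne P hx) _)
  constructor
  · exact mild_ext (fun c hc h1 h2 => (h (vec P x) c hc h1 h2).1) P.RF (pt P x) (pt_ne P hx) hev hz
  · intro hv
    exact mild_ext (fun c hc h1 h2 => (h (vec P x) c hc h1 h2).2 hv) P.RF (pt P x)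
      (pt_ne P hx) hev hz

theorem mild_ne [IsAlgClosed k] {f : (Fin r → ℤ) →₀ k} (h : Mild f) (hf0 : f ≠ 0)
    (hx : ∀ i, x i ≠ 0) (hgen : IntermediateField.adjoin k (Set.range x) = ⊤)
    (htr : Algebra.trdeg k K = (n : ℕ)) (hr : r = n + 1) (hf : ev x f = 0) : gr x f ≠ 0 := by
  refine gr_ne hx hgen htr hr fun h0 => ?_
  have h1 := mild_ext (g := ini 0 f) (s := 2) (fun c hc h1 h2 => (h 0 c hc h1 h2).1) K x hx
  rw [ini_zero hf0] at h1
  exact h1 hf h0

/-- **Nonnegative Kodaira dimension.** -/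
theorem kod_of_fine [IsAlgClosed k] {f : (Fin r → ℤ) →₀ k} (h : Mild f) (hf0 : f ≠ 0)
    (hx : ∀ i, x i ≠ 0) (hgen : IntermediateField.adjoin k (Set.range x) = ⊤)
    (htr : Algebra.trdeg k K = (n : ℕ)) (hr : r = n + 1) (hf : ev x f = 0) {u : Fin r → ℚ}
    (hu : ∀ v, v ≠ 0 → 1 + (mn v f : ℚ) ≤ dq u v) : KodGe k K n (fun _ => False) 0 := by
  classical
  have hgr := mild_ne h hf0 hx hgen htr hr hf
  have e : Unit ⊕ Fin n ≃ Fin r := Fintype.equivOfCardEq (by
    simp only [Fintype.card_sum, Fintype.card_fin, Fintype.card_unit]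
    omega)
  obtain ⟨C0, hC0⟩ := complete_zero (κ := K) (J := Unit) (a := fun _ => gr x f)
    (linearIndependent_unique_iff.2 hgr) (n := n) (by
      rw [Fintype.card_fin, Fintype.card_unit]; omega)
  have h0 : dt e (fun _ : Unit => gr x f) C0 ≠ 0 := dt_ne hC0
  obtain ⟨Z, hZ⟩ := Pool.Agent.W636.PG.exists_basis k K n htr
  obtain ⟨D0, hD0'⟩ := Pool.Agent.W602.GT.exists_dual hZ
  have hD0 : ∀ i j, D0 i (Z j) = if i = j then 1 else 0 := by
    intro i j
    have h1 := congrFun (congrFun hD0' i) j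
    rw [Matrix.of_apply, Matrix.one_apply] at h1
    exact h1
  have hOm0 := om_ne (e := e) hx hgen (f := fun _ : Unit => f) (fun _ => hf) h0 hZ hD0
  -- the common denominator
  obtain ⟨M, hM, hMu⟩ := Pool.Agent.TH165.ACC.exists_denom u
  choose u0 hu0 using hMu
  obtain ⟨N, rfl⟩ : ∃ N : ℕ, M = N := ⟨M.toNat, by omega⟩
  have hN : 0 < N := by exact_mod_cast hM
  have hdot : ∀ v, ((u0 ⬝ᵥ v : ℤ) : ℚ) = N * dq u v := by
    intro v
    rw [← dq_int]
    unfold dq
    rw [Finset.mul_sum]
    refine Finset.sum_congr rfl fun i _ => ?_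
    beta_reduce
    rw [← hu0]
    push_cast
    ring
  obtain ⟨ω, hωd⟩ : ∃ ω : (Fin n → Derivation k K K) → K, ω = fun D =>
    mono x u0 * Om e x (fun _ : Unit => f) C0 D ^ N := ⟨_, rfl⟩
  have hpl : IsPluri N ω := by
    intro A D
    rw [hωd]
    beta_reduce
    have h1 : Om e x (fun _ : Unit => f) C0 (fun i => ∑ j, A i j • D j) ^ N =
        A.det ^ N * Om e x (fun _ : Unit => f) C0 D ^ N :=
      om_pluri e x (fun _ : Unit => f) C0 N A D
    have h2 : mono x u0 * Om e x (fun _ : Unit => f) C0 (fun i => ∑ j, A i j • D j) ^ N =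
        A.det ^ N * (mono x u0 * Om e x (fun _ : Unit => f) C0 D ^ N) := by
      rw [h1]
      ring
    exact h2
  have hreg : ∀ (P : Place k K) (D : Fin n → Derivation k K K), (∀ i, DerReg P (D i)) →
      P.Reg (ω D) := by
    intro P D hD
    obtain ⟨h1, h2⟩ := om_mild P (e := e) hx hf0 hf h0 (D := D) hD
      (fun hz => mild_place h hx hf P hz)
    rw [hωd]
    beta_reduce
    by_cases hv : vec P x = 0
    · have h3 := (h2 hv).pow N
      rw [mul_zero] at h3
      refine P.reg_mul (Or.inr ?_) h3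
      rw [ord_mono P hx, hv, dotProduct_zero]
    · have h3 := h1.pow N
      have h4 : Ge P (u0 ⬝ᵥ vec P x) (mono x u0) := Or.inr (by rw [ord_mono P hx])
      refine (h4.mul h3).mono ?_
      have h5 := hu _ hv
      have h6 := hdot (vec P x)
      have h7 : (0 : ℚ) < N := by exact_mod_cast hN
      have h8 : (N : ℚ) * (1 + (mn (vec P x) f : ℚ)) ≤ ((u0 ⬝ᵥ vec P x : ℤ) : ℚ) := by
        rw [h6]
        exact mul_le_mul_of_nonneg_left h5 h7.le
      have h9 : (N : ℤ) * (1 + mn (vec P x) f) ≤ u0 ⬝ᵥ vec P x := by exact_mod_cast h8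
      have h10 : (0 : ℤ) ≤ u0 ⬝ᵥ vec P x + N * (-1 - mn (vec P x) f) := by linarith
      exact h10
  refine ⟨N, hN, fun _ => ω, fun _ => ⟨hpl, fun P _ D hD => hreg P D fun i =>
    Pool.Agent.TH466.QG.derReg_of_log (hD i), fun P _ _ D hD => hreg P D hD⟩, D0, ?_, ?_⟩
  · rw [hωd]
    exact mul_ne_zero (mono_ne hx _) (pow_ne_zero _ hOm0)
  · rw [algebraicIndependent_empty_type_iff]
    exact (algebraMap k K).injective

end

end Pool.Agent.K9h25
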