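import Pool.Agent.K9h25.Pn
import Pool.Agent.R885.NG14

/-!
Arbitrary hypersurfaces of tori, and fibres of monomial maps on them: high multiples of the
canonical divisor have no sections.
-/

set_option autoImplicit false
set_option linter.overlappingInstances false
set_option linter.unusedSectionVars false

open FF Pool.Agent.R885 Pool.Agent.W603.LV Pool.Agent.W619.PQ Pool.Agent.Y173.QA
  Pool.Agent.W619.TW Pool.Agent.TH165.ACC Pool.Agent.TH122.AB Pool.Agent.Y174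

namespace Pool.Agent.K9h25

section

variable {k K : Type} [Field k] [CharZero k] [Field K] [Algebra k K] {r m d : ℕ} {x : Fin r → K}

/-- the rows of the system are independent -/
theorem li_Gu {κ F : Type} [Field κ] [Field F] [Algebra κ F] {x : Fin r → F}
    (hx : ∀ i, x i ≠ 0) {w : Fin d → Fin r → ℤ} {u : Fin r → F}
    (hli : LinearIndependent F (Sum.elim (fun _ : Unit => u) fun j i => (w j i : F))) :
    LinearIndependent F (Gu x w u) := by
  have h1 := hli.units_smul (fun z : Unit ⊕ Fin d =>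
    Sum.elim (fun _ => (1 : Fˣ)) (fun j => Units.mk0 (mono x (w j)) (mono_ne hx _)) z)
  have h2 : Gu x w u = (fun z : Unit ⊕ Fin d =>
      Sum.elim (fun _ => (1 : Fˣ)) (fun j => Units.mk0 (mono x (w j)) (mono_ne hx _)) z) •
        (Sum.elim (fun _ : Unit => u) fun j i => (w j i : F)) := by
    funext z i
    rcases z with z | z
    · change u i = ((1 : Fˣ) • u) i
      rw [one_smul]
    · change (w z i : F) * mono x (w z) = mono x (w z) * (w z i : F)
      rw [mul_comm]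
  rw [h2]
  exact h1

/-- **No sections of high multiples.** -/
theorem neg_zero (htr : Algebra.trdeg k K = (m + 1 : ℕ)) (hx : ∀ i, x i ≠ 0)
    (hgen : IntermediateField.adjoin k (Set.range x) = ⊤)
    (e : (Unit ⊕ Fin d) ⊕ Fin (m + 1) ≃ Fin r) {f : (Fin r → ℤ) →₀ k}
    (hf0 : f ≠ 0) (hf : ev x f = 0) {w : Fin d → Fin r → ℤ} {t : Fin d → k}
    (hwt : ∀ j, algebraMap k K (t j) = mono x (w j))
    (hli : LinearIndependent K (Sum.elim (fun _ : Unit => gr x f) fun j i => (w j i : K)))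
    {S : Finset (Fin r → ℤ)} {u0 : Fin r → ℤ} {c a0 : ℤ} (hc : 0 < c) (hac : a0 < c)
    (hwS : ∀ j, ∀ s ∈ S, w j ⬝ᵥ s = 0) (hS : ∀ s ∈ S, u0 ⬝ᵥ s = a0 + c * mn s f)
    (hpos : ∀ q : Fin r → ℚ, (∀ s ∈ S, 0 ≤ dq q s) → ∀ s ∈ S, dq q s = 0)
    (hsp : ∀ P : Place k K, InSpan S (vec P x))
    (hhom : ∀ (P : Place k K) (C : Fin m → Fin r → ℤ) (σ : Fin 2 → Fin r → ℤ),
      (∀ j, C j ⬝ᵥ vec P x = 0) →
      (AlgebraicIndependent k fun j => P.red (mono x (C j))) →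
      (LinearIndependent ℚ fun (z : Fin d ⊕ Fin m) (i : Fin r) =>
        ((Sum.elim w C z i : ℤ) : ℚ)) →
      (LinearIndependent ℚ fun (i : Fin 2) (k : Fin r) => (σ i k : ℚ)) →
      (∀ j i, w j ⬝ᵥ σ i = 0) → (∀ j i, C j ⬝ᵥ σ i = 0) →
      ∃ m ∈ f.support, ∃ m' ∈ f.support, m ⬝ᵥ vec P x = mn (vec P x) f ∧
        m' ⬝ᵥ vec P x = mn (vec P x) f ∧ ∃ i, m ⬝ᵥ σ i ≠ m' ⬝ᵥ σ i) (T : Finset K) :
    ∃ M0 : ℕ, ∀ M : ℕ, M0 ≤ M → ∀ ω : (Fin (m + 1) → Derivation k K K) → K,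
      PairSec k K (m + 1) (fun _ => 0) T M 1 ω → ω = 0 := by
  classical
  obtain ⟨c1, B, hc1, h0B, hsB, hB⟩ := exists_B S hpos
  have hcard : r = (1 + d) + (m + 1) := by
    rw [← Fintype.card_fin r, ← Fintype.card_congr e]
    simp only [Fintype.card_sum, Fintype.card_unit, Fintype.card_fin]
  have hGu := li_Gu (κ := k) hx hli
  obtain ⟨C0, hC0⟩ := complete_zero hGu (n := m + 1) (by
    simp only [Fintype.card_sum, Fintype.card_unit, Fintype.card_fin]
    omega)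
  have h0 : dt e (fun l => gr x (hs f w t l)) C0 ≠ 0 := by
    rw [gr_hs]
    exact dt_ne hC0
  have hfl : ∀ l, ev x (hs f w t l) = 0 := by
    rintro (l | j)
    · exact hf
    · change ev x (Finsupp.single (w j) 1 - Finsupp.single 0 (t j)) = 0
      rw [bin_ev, hwt, sub_self]
  have hgenB : IntermediateField.adjoin k (Set.range fun b : B => mono x (b : Fin r → ℤ)) = ⊤ := by
    rw [eq_top_iff, ← hgen, IntermediateField.adjoin_le_iff]
    rintro _ ⟨i, rfl⟩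
    apply IntermediateField.subset_adjoin
    exact ⟨⟨Pi.single i 1, hsB i⟩, mono_single x i⟩
  obtain ⟨v, hℓ, hbas, hord⟩ := noether (u := fun b : B => mono x (b : Fin r → ℤ))
    (fun b => mono_ne hx _) (b0 := ⟨0, h0B⟩) (mono_zero x) hgenB htr
  obtain ⟨ℓ, hℓd⟩ : ∃ ℓ : Fin (m + 2) → K, ℓ = fun l => ∑ b : B, v l b • mono x b := ⟨_, rfl⟩
  have hℓd' : ∀ l, ∑ b : B, v l b • mono x b = ℓ l := fun l => by rw [hℓd]
  obtain ⟨Z, hZd⟩ : ∃ Z : Fin (m + 1) → K, Z = fun j => ℓ ((0 : Fin (m + 2)).succAbove j) / ℓ 0 :=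
    ⟨_, rfl⟩
  obtain ⟨Z', hZ'd⟩ : ∃ Z' : Fin (m + 1) → K,
    Z' = fun j => ℓ ((1 : Fin (m + 2)).succAbove j) / ℓ 1 := ⟨_, rfl⟩
  have hℓ0 : ∀ l, ℓ l ≠ 0 := fun l => by rw [← hℓd']; exact hℓ l
  have hZ : IsTranscendenceBasis k Z := by
    have h1 := hbas 0
    simp only [hℓd'] at h1
    rw [hZd]
    exact h1
  have hZ0 : Z' 0 = (Z 0)⁻¹ := by
    rw [hZ'd, hZd]
    beta_reduce
    have h1 : (1 : Fin (m + 2)).succAbove 0 = 0 := by
      rw [Fin.succAbove_of_castSucc_lt _ _ (by simp)]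
      rfl
    have h2 : (0 : Fin (m + 2)).succAbove 0 = 1 := by
      rw [Fin.succAbove_zero]
      rfl
    rw [h1, h2, inv_div]
  have hZs : ∀ j : Fin m, Z' j.succ = Z j.succ / Z 0 := by
    intro j
    rw [hZ'd, hZd]
    beta_reduce
    have h1 : (1 : Fin (m + 2)).succAbove j.succ = j.succ.succ := by
      rw [Fin.succAbove_of_le_castSucc _ _ (by simp [Fin.le_def])]
    have h2 : (0 : Fin (m + 2)).succAbove 0 = 1 := by
      rw [Fin.succAbove_zero]
      rfl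
    have h3 : (0 : Fin (m + 2)).succAbove j.succ = j.succ.succ := by
      rw [Fin.succAbove_zero]
    rw [h1, h2, h3]
    have := hℓ0 0
    have := hℓ0 1
    field_simp
  obtain ⟨D0, hD0'⟩ := Pool.Agent.W602.GT.exists_dual hZ
  have hD0 : ∀ i j, D0 i (Z j) = if i = j then 1 else 0 := by
    intro i j
    have h1 := congrFun (congrFun hD0' i) j
    rw [Matrix.of_apply, Matrix.one_apply] at h1
    exact h1
  have hOm0 := om_ne hx hgen hfl h0 hZ hD0
  -- the finite set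
  obtain ⟨T0, hT0d⟩ : ∃ T0 : Finset K, T0 = T.filter fun s => s ≠ 0 := ⟨_, rfl⟩
  have hT0 : ∀ s ∈ T0, s ≠ 0 := by
    intro s hs
    rw [hT0d] at hs
    exact (Finset.mem_filter.1 hs).2
  obtain ⟨C, hC⟩ := fd_bound hZ (hfin_of_gen hgen hZ) hZ0 hZs T0 hT0
  -- a transcendental coordinate
  obtain ⟨i0, hi0⟩ : ∃ i0, Transcendental k (x i0) := by
    by_contra hcon
    push Not at hcon
    have h1 : ∀ i, IsAlgebraic k (x i) := fun i => by
      have := hcon i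
      unfold Transcendental at this
      exact not_not.1 this
    have h2 : Algebra.IsAlgebraic k (IntermediateField.adjoin k (Set.range x)) :=
      IntermediateField.isAlgebraic_adjoin fun z hz => by
        obtain ⟨i, rfl⟩ := hz
        exact (h1 i).isIntegral
    have h3 : Algebra.IsAlgebraic k K := by
      constructor
      intro z
      have hz : z ∈ IntermediateField.adjoin k (Set.range x) := by
        rw [hgen]
        trivial
      have h4 := h2.isAlgebraic ⟨z, hz⟩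
      exact (isAlgebraic_algebraMap_iff
        (A := K) (algebraMap (IntermediateField.adjoin k (Set.range x)) K).injective).2 h4
    rw [trdeg_eq_zero] at htr
    have h4 : (0 : ℕ) = m + 1 := by exact_mod_cast htr
    omega
  -- the bounds
  obtain ⟨V0, hV00, hV0⟩ : ∃ V0 : ℚ, 0 ≤ V0 ∧ ∀ s ∈ S, ∀ i, |(s i : ℚ)| ≤ V0 := by
    refine ⟨∑ s ∈ S, ∑ i, |(s i : ℚ)|, Finset.sum_nonneg fun s _ => Finset.sum_nonneg fun i _ =>
      abs_nonneg _, fun s hs i => ?_⟩
    have h1 := Finset.single_le_sum (f := fun i => |(s i : ℚ)|) (fun i _ => abs_nonneg _)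
      (Finset.mem_univ i)
    have h2 := Finset.single_le_sum (f := fun s : Fin r → ℤ => ∑ i, |(s i : ℚ)|)
      (fun s _ => Finset.sum_nonneg fun i _ => abs_nonneg _) hs
    exact h1.trans h2
  obtain ⟨K1, hK10, hK1⟩ : ∃ K1 : ℚ, 0 ≤ K1 ∧ ∀ s ∈ S, ∀ m ∈ f.support,
      |((m ⬝ᵥ s : ℤ) : ℚ)| ≤ K1 := by
    refine ⟨∑ s ∈ S, ∑ m ∈ f.support, |((m ⬝ᵥ s : ℤ) : ℚ)|, Finset.sum_nonneg fun s _ =>
      Finset.sum_nonneg fun i _ => abs_nonneg _, fun s hs m' hm' => ?_⟩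
    have h1 := Finset.single_le_sum (f := fun m' => |((m' ⬝ᵥ s : ℤ) : ℚ)|)
      (fun i _ => abs_nonneg _) hm'
    have h2 := Finset.single_le_sum (f := fun s : Fin r → ℤ =>
      ∑ m ∈ f.support, |((m ⬝ᵥ s : ℤ) : ℚ)|)
      (fun s _ => Finset.sum_nonneg fun i _ => abs_nonneg _) hs
    exact h1.trans h2
  obtain ⟨Q0, hQ0⟩ := exists_nat_ge ((c : ℚ) * K1 + C * V0)
  refine ⟨c.toNat * Q0, fun M hMM ω hsecω => ?_⟩
  by_contra hω0
  have hωD0 : ω D0 ≠ 0 := by
    intro h1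
    apply hω0
    funext E
    have h2 : E = fun i => ∑ b, E i (Z b) • D0 b := by
      funext i
      apply der_ext' hZ
      intro j
      rw [sum_der, Finset.sum_eq_single j]
      · rw [hD0, if_pos rfl, mul_one]
      · intro b _ hb
        rw [hD0, if_neg hb, mul_zero]
      · intro hj
        exact absurd (Finset.mem_univ _) hj
    have h3 := hsecω.1 (Matrix.of fun i b => E i (Z b)) D0
    simp only [Matrix.of_apply] at h3
    rw [← h2, h1, mul_zero] at h3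
    exact h3
  obtain ⟨q, hqd⟩ : ∃ q : ℤ, q = (M : ℤ) / c := ⟨_, rfl⟩
  obtain ⟨ρ, hρd⟩ : ∃ ρ : ℤ, ρ = (M : ℤ) % c := ⟨_, rfl⟩
  have hMq : (M : ℤ) = c * q + ρ := by
    rw [hqd, hρd]
    have := Int.emod_add_mul_ediv (M : ℤ) c
    linarith
  have hρ0 : 0 ≤ ρ := by
    rw [hρd]
    exact Int.emod_nonneg _ hc.ne'
  have hρc : ρ < c := by
    rw [hρd]
    exact Int.emod_lt_of_pos _ hc
  have hQq : (Q0 : ℤ) ≤ q := by
    rw [hqd, Int.le_ediv_iff_mul_le hc]
    have h1 : ((c.toNat : ℕ) : ℤ) = c := Int.toNat_of_nonneg hc.le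
    have h2 : ((c.toNat * Q0 : ℕ) : ℤ) ≤ M := by exact_mod_cast hMM
    push_cast at h2
    rw [h1] at h2
    linarith
  have hq : (c : ℚ) * K1 + C * V0 ≤ q := hQ0.trans (by exact_mod_cast hQq)
  obtain ⟨R, hRd⟩ : ∃ R : K, R = mono x (q • u0) := ⟨_, rfl⟩
  have hR0 : R ≠ 0 := by
    rw [hRd]
    exact mono_ne hx _
  have hRord : ∀ P : Place k K, P.ord R = q * (u0 ⬝ᵥ vec P x) := by
    intro P
    rw [hRd, ord_mono P hx, smul_dotProduct, smul_eq_mul]
  have hc'0 : (Om e x (hs f w t) C0 D0 ^ M * R)⁻¹ ≠ 0 :=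
    inv_ne_zero (mul_ne_zero (pow_ne_zero _ hOm0) hR0)
  have hlin' : LinearIndependent k fun l : Fin (C + 1) =>
      ω D0 * (Om e x (hs f w t) C0 D0 ^ M * R)⁻¹ * x i0 ^ (l : ℕ) := by
    rw [Fintype.linearIndependent_iff]
    intro g hg
    have h1 : ω D0 * (Om e x (hs f w t) C0 D0 ^ M * R)⁻¹ * Polynomial.aeval (x i0)
        (∑ l : Fin (C + 1), Polynomial.monomial (l : ℕ) (g l)) = 0 := by
      rw [← hg, map_sum, Finset.mul_sum]
      refine Finset.sum_congr rfl fun l _ => ?_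
      rw [Polynomial.aeval_monomial, Algebra.smul_def]
      ring
    have h2 := (mul_eq_zero.1 h1).resolve_left (mul_ne_zero hωD0 hc'0)
    have h3 : (∑ l : Fin (C + 1), Polynomial.monomial (l : ℕ) (g l)) = 0 := by
      by_contra h4
      exact hi0 ⟨_, h4, h2⟩
    intro l
    have h4 := congrArg (fun p : Polynomial k => p.coeff (l : ℕ)) h3
    simp only [Polynomial.finsetSum_coeff, Polynomial.coeff_monomial, Polynomial.coeff_zero] at h4
    rw [Finset.sum_eq_single l] at h4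
    · rwa [if_pos rfl] at h4
    · intro b _ hb
      rw [if_neg]
      intro h5
      exact hb (Fin.ext h5)
    · intro h5
      exact absurd (Finset.mem_univ _) h5
  suffices hfin : C + 1 ≤ C by omega
  refine hC (C + 1) _ hlin' fun l P hP => ?_
  -- the frame at the place
  have hfr : IsDivisorial P (m + 1) ∧
      ∃ D : Fin (m + 1) → Derivation k K K, (∀ a, Pres P (D a)) ∧
        Om e x (hs f w t) C0 D ≠ 0 ∧ ∃ N : ℚ, 0 ≤ N ∧
        (c : ℚ) * P.ord (Om e x (hs f w t) C0 D) + ((u0 ⬝ᵥ vec P x : ℤ) : ℚ) ≤ -(c - a0) * N ∧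
        P.ord (Om e x (hs f w t) C0 D) + mn (vec P x) f ≤ 0 ∧
        (∀ i, |(vec P x i : ℚ)| ≤ V0 * N) ∧ |(mn (vec P x) f : ℚ)| ≤ K1 * N := by
    rcases hP with ⟨p, hp, hP⟩ | hP
    · exact place_neg htr hgen P hx e hf0 hf hwt hli hc hwS hS (hsp P)
        h0B hB hℓ hbas (hord P) h0 0 hp (by
          simp only [hℓd']
          rw [hZd] at hP
          exact hP) (hhom P) hV0 hK1
    · exact place_neg htr hgen P hx e hf0 hf hwt hli hc hwS hS (hsp P)
        h0B hB hℓ hbas (hord P) h0 1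
        (MvPolynomial.X_prime (R := k) (i := (0 : Fin (m + 1)))).irreducible (by
          simp only [hℓd']
          rw [hZ'd] at hP
          exact hP) (hhom P) hV0 hK1
  obtain ⟨hdiv, D, hD, hOm, N, hN0, hest, homn, hvN, hmnN⟩ := hfr
  have h1 : D = fun i => ∑ b, D i (Z b) • D0 b := by
    funext i
    apply der_ext' hZ
    intro j
    rw [sum_der, Finset.sum_eq_single j]
    · rw [hD0, if_pos rfl, mul_one]
    · intro b _ hb
      rw [hD0, if_neg hb, mul_zero]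
    · intro hj
      exact absurd (Finset.mem_univ _) hj
  obtain ⟨δ, hδ⟩ : ∃ δ : K, δ = (Matrix.of fun i b => D i (Z b)).det := ⟨_, rfl⟩
  have h2 : Om e x (hs f w t) C0 D = δ * Om e x (hs f w t) C0 D0 := by
    have h3 := om_pluri e x (hs f w t) C0 1 (Matrix.of fun i b => D i (Z b)) D0
    simp only [Matrix.of_apply, pow_one] at h3
    rw [← h1, ← hδ] at h3
    exact h3
  have h3 : ω D = δ ^ M * ω D0 := by
    have h4 := hsecω.1 (Matrix.of fun i b => D i (Z b)) D0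
    simp only [Matrix.of_apply] at h4
    rw [← h1, ← hδ] at h4
    exact h4
  have hδ0 : δ ≠ 0 := by
    intro h4
    rw [h4, zero_mul] at h2
    exact hOm h2
  have hωD : ω D ≠ 0 := by
    rw [h3]
    exact mul_ne_zero (pow_ne_zero _ hδ0) hωD0
  have h4 : ω D0 * (Om e x (hs f w t) C0 D0 ^ M * R)⁻¹ =
      ω D / (Om e x (hs f w t) C0 D ^ M * R) := by
    rw [h2, h3, mul_pow, mul_assoc, ← div_eq_mul_inv, mul_div_mul_left _ _ (pow_ne_zero _ hδ0)]
  have h5 : P.ord (ω D0 * (Om e x (hs f w t) C0 D0 ^ M * R)⁻¹) =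
      P.ord (ω D) - M * P.ord (Om e x (hs f w t) C0 D) - q * (u0 ⬝ᵥ vec P x) := by
    rw [h4, P.ord_div hωD (mul_ne_zero (pow_ne_zero _ hOm) hR0),
      P.ord_mul (pow_ne_zero _ hOm) hR0, P.ord_pow, hRord]
    ring
  obtain ⟨s, hsT, hs0, hle⟩ := (hsecω.2 P hdiv D hD).resolve_left hωD
  rw [Nat.cast_one, one_mul, mul_zero, sub_zero] at hle
  have hle' : P.ord s ≤ P.ord (ω D) := by exact_mod_cast hle
  refine ⟨s, ?_, ?_⟩
  · rw [hT0d]
    exact Finset.mem_filter.2 ⟨hsT, hs0⟩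
  have hFl : P.ord (ω D0 * (Om e x (hs f w t) C0 D0 ^ M * R)⁻¹ * x i0 ^ (l : ℕ)) =
      P.ord (ω D0 * (Om e x (hs f w t) C0 D0 ^ M * R)⁻¹) + (l : ℕ) * vec P x i0 := by
    rw [P.ord_mul (mul_ne_zero hωD0 hc'0) (pow_ne_zero _ (hx i0)), P.ord_pow]
    rfl
  rw [hFl, h5]
  obtain ⟨o, ho⟩ : ∃ o, o = P.ord (Om e x (hs f w t) C0 D) := ⟨_, rfl⟩
  rw [← ho] at hest homn ⊢
  -- the arithmetic
  have hcq : (0 : ℚ) < c := by exact_mod_cast hc
  have e1 : (q : ℚ) * ((c : ℚ) * o + ((u0 ⬝ᵥ vec P x : ℤ) : ℚ)) ≤ q * (-(c - a0) * N) :=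
    mul_le_mul_of_nonneg_left hest (by
      have h6 : (0 : ℤ) ≤ q := le_trans (Int.natCast_nonneg Q0) hQq
      exact_mod_cast h6)
  have hqq : (0 : ℚ) ≤ q := by
    have h6 : (0 : ℤ) ≤ q := le_trans (Int.natCast_nonneg Q0) hQq
    exact_mod_cast h6
  have e2 : (q : ℚ) * N ≤ q * ((c - a0) * N) := by
    refine mul_le_mul_of_nonneg_left ?_ hqq
    have h6 : (1 : ℚ) ≤ c - a0 := by
      have : 1 ≤ c - a0 := by omega
      exact_mod_cast this
    nlinarith
  have e3 : (ρ : ℚ) * o ≤ c * K1 * N := by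
    have h6 : (o : ℚ) ≤ -(mn (vec P x) f : ℚ) := by
      have : o ≤ -mn (vec P x) f := by omega
      exact_mod_cast this
    have h7 : -(mn (vec P x) f : ℚ) ≤ K1 * N := (neg_le_abs _).trans hmnN
    have h8 : (0 : ℚ) ≤ ρ := by exact_mod_cast hρ0
    have h9 : (ρ : ℚ) ≤ c := by exact_mod_cast hρc.le
    calc (ρ : ℚ) * o ≤ ρ * (K1 * N) := mul_le_mul_of_nonneg_left (h6.trans h7) h8
      _ ≤ c * (K1 * N) := mul_le_mul_of_nonneg_right h9 (mul_nonneg hK10 hN0)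
      _ = c * K1 * N := by ring
  have e4 : -(C * V0 * N : ℚ) ≤ ((l : ℕ) : ℚ) * (vec P x i0 : ℚ) := by
    have h6 := hvN i0
    have h7 := neg_abs_le (vec P x i0 : ℚ)
    have h8 : ((l : ℕ) : ℚ) ≤ C := by
      have := l.2
      exact_mod_cast (by omega : (l : ℕ) ≤ C)
    have h9 : (0 : ℚ) ≤ ((l : ℕ) : ℚ) := by positivity
    have h10 : ((l : ℕ) : ℚ) * |(vec P x i0 : ℚ)| ≤ C * (V0 * N) :=
      mul_le_mul h8 h6 (abs_nonneg _) (by positivity)
    have h11 : ((l : ℕ) : ℚ) * (-|(vec P x i0 : ℚ)|) ≤ ((l : ℕ) : ℚ) * (vec P x i0 : ℚ) :=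
      mul_le_mul_of_nonneg_left h7 h9
    linarith
  have e5 : ((c : ℚ) * K1 + C * V0) * N ≤ q * N := mul_le_mul_of_nonneg_right hq hN0
  have hMr : ((M : ℤ) : ℚ) = c * q + ρ := by
    rw [hMq]
    push_cast
    ring
  have hfinal : (P.ord s : ℚ) ≤ (P.ord (ω D) : ℚ) - ((M : ℤ) : ℚ) * o -
      q * ((u0 ⬝ᵥ vec P x : ℤ) : ℚ) + ((l : ℕ) : ℚ) * (vec P x i0 : ℚ) := by
    have h6 : (P.ord s : ℚ) ≤ (P.ord (ω D) : ℚ) := by exact_mod_cast hle'
    rw [hMr]
    linarith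
  exact_mod_cast hfinal

end

end Pool.Agent.K9h25
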