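import Pool.Agent.K9h25.Sp

/-!
Laurent polynomials with few monomials: the inequality of Sylvester for the rank of the logarithmic
Hessian.
-/

set_option autoImplicit false
set_option linter.overlappingInstances false
set_option linter.unusedSectionVars false

open FF Pool.Agent.R885

namespace Pool.Agent.K9h25

/-- The dimension of the affine span of the finite set `A` of integral vectors. -/
noncomputable def affDim {ι : Type} (A : Finset (ι → ℤ)) : ℕ :=
  Module.finrank ℚ (vectorSpan ℚ ((fun (a : ι → ℤ) (i : ι) => (a i : ℚ)) '' (A : Set (ι → ℤ))))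

section

/-- the inequality of Sylvester -/
theorem sylvester {k U V W : Type} [Field k] [AddCommGroup U] [Module k U] [AddCommGroup V]
    [Module k V] [AddCommGroup W] [Module k W] [FiniteDimensional k U] [FiniteDimensional k V]
    [FiniteDimensional k W] (f : U →ₗ[k] V) (g : V →ₗ[k] W) :
    Module.finrank k (LinearMap.range f) + Module.finrank k (LinearMap.range g) ≤
      Module.finrank k (LinearMap.range (g ∘ₗ f)) + Module.finrank k V := by
  have h1 := LinearMap.finrank_range_add_finrank_ker g
  let h : LinearMap.range f →ₗ[k] W := g ∘ₗ (LinearMap.range f).subtype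
  have h2 := LinearMap.finrank_range_add_finrank_ker h
  have h3 : LinearMap.range h = LinearMap.range (g ∘ₗ f) := by
    rw [LinearMap.range_comp, Submodule.range_subtype, LinearMap.range_comp]
  have h4 : Module.finrank k (LinearMap.ker h) ≤ Module.finrank k (LinearMap.ker g) := by
    let ι : LinearMap.ker h →ₗ[k] LinearMap.ker g :=
      { toFun := fun z => ⟨((z : LinearMap.range f) : V), z.2⟩
        map_add' := fun a b => rfl
        map_smul' := fun a b => rfl }
    refine LinearMap.finrank_le_finrank_of_injective (f := ι) fun a b hab => ?_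
    apply Subtype.ext
    apply Subtype.ext
    exact congrArg (fun z : LinearMap.ker g => (z : V)) hab
  rw [h3] at h2
  omega

theorem sylvester_mat {k : Type} [Field k] {a b c : Type} [Fintype a] [Fintype b] [Fintype c]
    [DecidableEq a] [DecidableEq b] [DecidableEq c] (M : Matrix a b k) (N : Matrix b c k) :
    M.rank + N.rank ≤ (M * N).rank + Fintype.card b := by
  have h1 := sylvester N.mulVecLin M.mulVecLin
  rw [← Matrix.mulVecLin_mul, Module.finrank_fintype_fun_eq_card] at h1
  unfold Matrix.rank
  omega

variable {ι k : Type} [Fintype ι] [Field k] [CharZero k]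

/-- affinely independent exponents -/
theorem col_li {A : Type} [Fintype A] {p : A → ι → ℤ}
    (h : AffineIndependent ℚ fun (a : A) (i : ι) => (p a i : ℚ)) :
    LinearIndependent k fun (a : A) (o : Option ι) => o.elim (1 : k) fun i => (p a i : k) := by
  have h1 : LinearIndependent ℚ fun (a : A) (o : Option ι) => o.elim (1 : ℚ) fun i => (p a i : ℚ) := by
    rw [Fintype.linearIndependent_iff]
    intro g hg
    have h2 : ∑ a, g a = 0 := by
      have h3 := congrFun hg none
      rw [Finset.sum_apply, Pi.zero_apply] at h3
      rw [← h3]
      refine Finset.sum_congr rfl fun a _ => ?_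
      rw [Pi.smul_apply, Option.elim_none, smul_eq_mul, mul_one]
    have h3 : ∑ a, g a • (fun i => (p a i : ℚ)) = 0 := by
      funext i
      have h4 := congrFun hg (some i)
      rw [Finset.sum_apply, Pi.zero_apply] at h4
      rw [Finset.sum_apply, Pi.zero_apply, ← h4]
      refine Finset.sum_congr rfl fun a _ => ?_
      rw [Pi.smul_apply, Pi.smul_apply, Option.elim_some]
    intro a
    exact affineIndependent_iff.1 h Finset.univ g h2 h3 a (Finset.mem_univ a)
  have h2 := (linearIndependent_algebraMap_comp_iff (R := ℚ) (S := k)).2 h1
  have h3 : (fun a => (algebraMap ℚ k) ∘ fun (o : Option ι) => o.elim (1 : ℚ) fun i => (p a i : ℚ)) =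
      fun (a : A) (o : Option ι) => o.elim (1 : k) fun i => (p a i : k) := by
    funext a o
    rcases o with _ | i <;> simp
  rwa [h3] at h2

/-- **Few monomials.** -/
theorem mildAt_of_few {g : (ι → ℤ) →₀ k} (hg : g ≠ 0) {s : ℕ}
    (h : AffineIndependent ℚ (fun (a : g.support) (i : ι) => ((a : ι → ℤ) i : ℚ)) ∨
      g.support.card + s ≤ 2 * (affDim g.support + 1)) : MildAt k g s := by
  classical
  intro c hc hev hgr
  -- the coefficients
  let b : g.support → k := fun a => g a * mono c (a : ι → ℤ)
  have hb : ∀ a, b a ≠ 0 := fun a => mul_ne_zero (Finsupp.mem_support_iff.1 a.2) (mono_ne hc _)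
  have hsum : ∀ ψ : (ι → ℤ) → ℤ, (g.sum fun m a => algebraMap k k a * (ψ m : k) * mono c m) =
      ∑ a : g.support, (ψ (a : ι → ℤ) : k) * b a := by
    intro ψ
    unfold Finsupp.sum
    rw [← Finset.sum_coe_sort]
    refine Finset.sum_congr rfl fun a _ => ?_
    change algebraMap k k (g a) * _ * _ = _ * (g a * _)
    rw [Algebra.algebraMap_self_apply]
    ring
  have h0 : ∑ a : g.support, b a = 0 := by
    have h1 := hsum fun _ => 1
    simp only [Int.cast_one, one_mul, mul_one] at h1
    rw [← h1]
    exact hev
  have h1 : ∀ i, ∑ a : g.support, ((a : ι → ℤ) i : k) * b a = 0 := by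
    intro i
    have h2 := hsum fun m => m i
    rw [← h2]
    exact congrFun hgr i
  let B : Matrix (Option ι) g.support k := Matrix.of fun o a =>
    o.elim (1 : k) fun i => ((a : ι → ℤ) i : k)
  rcases h with h | h
  · -- affinely independent exponents
    exfalso
    have h2 := col_li (k := k) (p := fun a : g.support => (a : ι → ℤ)) h
    rw [Fintype.linearIndependent_iff] at h2
    have h3 := h2 b (by
      funext o
      rw [Finset.sum_apply, Pi.zero_apply]
      rcases o with _ | i
      · rw [← h0]
        refine Finset.sum_congr rfl fun a _ => ?_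
        rw [Pi.smul_apply, Option.elim_none, smul_eq_mul, mul_one]
      · rw [← h1 i]
        refine Finset.sum_congr rfl fun a _ => ?_
        rw [Pi.smul_apply, Option.elim_some, smul_eq_mul, mul_comm])
    obtain ⟨a, ha⟩ := Finsupp.support_nonempty_iff.2 hg
    exact hb ⟨a, ha⟩ (h3 ⟨a, ha⟩)
  -- the rank of `B`
  have hB : affDim g.support + 1 ≤ B.rank := by
    let S0 : Set (ι → ℚ) := (fun (a : ι → ℤ) (i : ι) => (a i : ℚ)) '' (g.support : Set (ι → ℤ))
    obtain ⟨t, ht, hspan, hind⟩ := exists_affineIndependent ℚ (ι → ℚ) S0
    have hfin : t.Finite := (g.support.finite_toSet.image _).subset ht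
    have : Fintype t := hfin.fintype
    have hvs : vectorSpan ℚ t = vectorSpan ℚ S0 := by
      rw [← direction_affineSpan, hspan, direction_affineSpan]
    have hne : t.Nonempty := by
      rw [← affineSpan_nonempty ℚ, hspan, affineSpan_nonempty ℚ]
      obtain ⟨a, ha⟩ := Finsupp.support_nonempty_iff.2 hg
      exact ⟨_, a, ha, rfl⟩
    have hcard : Fintype.card t = affDim g.support + 1 := by
      have h2 : 0 < Fintype.card t := Fintype.card_pos_iff.2 hne.to_subtype
      obtain ⟨n, hn⟩ := Nat.exists_eq_add_of_le' h2
      have h3 := hind.finrank_vectorSpan hn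
      rw [Subtype.range_coe, hvs] at h3
      rw [hn]
      unfold affDim
      rw [h3]
    have hlift : ∀ z : t, ∃ a : g.support, (fun i => ((a : ι → ℤ) i : ℚ)) = (z : ι → ℚ) := by
      intro z
      obtain ⟨a, ha, haz⟩ := ht z.2
      exact ⟨⟨a, ha⟩, haz⟩
    choose q hq using hlift
    have h2 : AffineIndependent ℚ fun (z : t) (i : ι) => ((q z : ι → ℤ) i : ℚ) := by
      have h3 : (fun (z : t) (i : ι) => ((q z : ι → ℤ) i : ℚ)) = ((↑) : t → ι → ℚ) := by
        funext z
        exact hq z
      rw [h3]
      exact hind
    have h3 := col_li (k := k) (p := fun z : t => (q z : ι → ℤ)) h2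
    have h4 : LinearIndependent k fun z : t =>
        (⟨B.col (q z), Submodule.subset_span ⟨q z, rfl⟩⟩ : Submodule.span k (Set.range B.col)) := by
      refine LinearIndependent.of_comp (Submodule.span k (Set.range B.col)).subtype ?_
      exact h3
    have h5 := h4.fintype_card_le_finrank
    rw [← B.rank_eq_finrank_span_cols, hcard] at h5
    exact h5
  -- the matrix with an additional row and column
  have hdiag : (Matrix.diagonal b).det ≠ 0 := by
    rw [Matrix.det_diagonal]
    exact Finset.prod_ne_zero_iff.2 fun a _ => hb a
  have hr1 : (Matrix.diagonal b * B.transpose).rank = B.rank := by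
    rw [Matrix.rank_mul_eq_right_of_det_ne_zero _ _ hdiag, Matrix.rank_transpose]
  have hr2 := sylvester_mat B (Matrix.diagonal b * B.transpose)
  rw [hr1, Fintype.card_coe] at hr2
  let Q : Matrix (Option ι) ι k := Matrix.of fun o i => if o = some i then 1 else 0
  have hQ : B * (Matrix.diagonal b * B.transpose) = Q * (hess c g) * Q.transpose := by
    have hL : ∀ o o', (B * (Matrix.diagonal b * B.transpose)) o o' =
        ∑ a : g.support, B o a * B o' a * b a := by
      intro o o'
      rw [Matrix.mul_apply]
      refine Finset.sum_congr rfl fun a _ => ?_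
      rw [Matrix.diagonal_mul, Matrix.transpose_apply]
      ring
    have hR : ∀ o o', (Q * (hess c g) * Q.transpose) o o' =
        ∑ i, ∑ j, Q o i * hess c g i j * Q o' j := by
      intro o o'
      rw [Matrix.mul_apply, Finset.sum_comm]
      refine Finset.sum_congr rfl fun j _ => ?_
      rw [Matrix.mul_apply, Matrix.transpose_apply, Finset.sum_mul]
    ext o o'
    rw [hL, hR]
    rcases o with _ | i
    · have h2 : ∀ i j, Q none i * hess c g i j * Q o' j = 0 := by
        intro i j
        change (if (none : Option ι) = some i then (1 : k) else 0) * _ * _ = 0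
        rw [if_neg (by simp), zero_mul, zero_mul]
      rw [Finset.sum_eq_zero fun i _ => Finset.sum_eq_zero fun j _ => h2 i j]
      rcases o' with _ | j
      · rw [← h0]
        refine Finset.sum_congr rfl fun a _ => ?_
        change 1 * 1 * b a = b a
        ring
      · rw [← h1 j]
        refine Finset.sum_congr rfl fun a _ => ?_
        change 1 * ((a : ι → ℤ) j : k) * b a = _
        ring
    · rcases o' with _ | j
      · have h2 : ∀ i' j, Q (some i) i' * hess c g i' j * Q none j = 0 := by
          intro i' j
          change _ * _ * (if (none : Option ι) = some j then (1 : k) else 0) = 0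
          rw [if_neg (by simp), mul_zero]
        rw [Finset.sum_eq_zero fun i _ => Finset.sum_eq_zero fun j _ => h2 i j, ← h1 i]
        refine Finset.sum_congr rfl fun a _ => ?_
        change ((a : ι → ℤ) i : k) * 1 * b a = _
        ring
      · have h2 : ∀ i', ∑ j', Q (some i) i' * hess c g i' j' * Q (some j) j' =
            (if i' = i then 1 else 0) * hess c g i' j := by
          intro i'
          rw [Finset.sum_eq_single j]
          · change (if some i = some i' then (1 : k) else 0) * _ *
              (if some j = some j then (1 : k) else 0) = _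
            rw [if_pos rfl, mul_one]
            simp only [Option.some.injEq]
            by_cases h3 : i' = i
            · rw [if_pos h3, if_pos h3.symm]
            · rw [if_neg h3, if_neg (Ne.symm h3)]
          · intro j' _ hj'
            change _ * _ * (if some j = some j' then (1 : k) else 0) = 0
            rw [if_neg (fun h3 => hj' (Option.some.inj h3).symm), mul_zero]
          · intro h3
            exact absurd (Finset.mem_univ _) h3
        rw [Finset.sum_congr rfl fun i' _ => h2 i', Finset.sum_eq_single i]
        · rw [if_pos rfl, one_mul]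
          have h3 := hsum fun m => m i * m j
          unfold hess
          rw [Matrix.of_apply, h3]
          refine Finset.sum_congr rfl fun a _ => ?_
          change ((a : ι → ℤ) i : k) * ((a : ι → ℤ) j : k) * b a = _
          push_cast
          ring
        · intro i' _ hi'
          rw [if_neg hi', zero_mul]
        · intro h3
          exact absurd (Finset.mem_univ _) h3
  have hr3 : (B * (Matrix.diagonal b * B.transpose)).rank ≤ (hess c g).rank := by
    rw [hQ]
    exact (Matrix.rank_mul_le_left _ _).trans (Matrix.rank_mul_le_right _ _)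
  omega

end

end Pool.Agent.K9h25
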