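import Pool.Agent.K9h25.Ex
import Pool.Agent.K9h25.Kod
import Pool.Agent.K9h25.Syl

/-!
Arbitrary hypersurfaces of tori whose real Fine interior is empty, and the dichotomy for mild
hypersurfaces.
-/

set_option autoImplicit false
set_option linter.overlappingInstances false
set_option linter.unusedSectionVars false

open FF IntermediateField Pool.Agent.R885 Pool.Agent.W603.LV Pool.Agent.W619.PQ
  Pool.Agent.Y173.QA Pool.Agent.W619.TW Pool.Agent.TH165.ACC Pool.Agent.TH122.AB Pool.Agent.Y174

namespace Pool.Agent.K9h25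

/-- **Hypersurfaces with an empty Fine interior.** -/
theorem notPsef_of_empty {k K : Type} [Field k] [CharZero k] [IsAlgClosed k] [Field K]
    [Algebra k K] {r n : ℕ} (hn : 1 ≤ n) (hr : r = n + 1) (htr : Algebra.trdeg k K = (n : ℕ))
    {x : Fin r → K} (hx : ∀ i, x i ≠ 0) (hgen : IntermediateField.adjoin k (Set.range x) = ⊤)
    {f : (Fin r → ℤ) →₀ k} (hf0 : f ≠ 0) (hf : ev x f = 0) (hgr : gr x f ≠ 0)
    (hF : ¬ ∃ u : Fin r → ℚ, ∀ v, v ≠ 0 → 1 + (mn v f : ℚ) ≤ dq u v) : NotPsef k K n := by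
  classical
  have hK0 : CharZero K := charZero_of_injective_algebraMap (algebraMap k K).injective
  by_cases hU : ∀ v : Fin r → ℤ, (∀ _ : Unit, ∀ m ∈ f.support, ∀ m' ∈ f.support,
      m ⬝ᵥ v = m' ⬝ᵥ v) → v = 0
  swap
  · push Not at hU
    obtain ⟨v1, hv1, hv10⟩ := hU
    obtain ⟨g, v0, c, hg, rfl, hc⟩ := exists_prim hv10
    refine notPsef_hom htr hr hx hgen hf0 hf hgr hc fun m hm m' hm' => ?_
    have h1 := hv1 () m hm m' hm'
    rw [dotProduct_smul, dotProduct_smul, smul_eq_mul, smul_eq_mul] at h1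
    exact mul_left_cancel₀ hg.ne' h1
  obtain ⟨t, ht0, ht1, hFt, hmax⟩ := N.exists_best (f := fun _ : Unit => f) (fun _ => hf0) hU
  simp only [Finset.univ_unique, Finset.sum_singleton] at hFt hmax
  have htlt : t < 1 := by
    refine ht1.lt_of_ne fun h1 => hF ?_
    rw [h1] at hFt
    exact hFt
  have hFW : (FineW (fun v : Fin r → ℤ => t * (fun _ => 1) v) (fun _ : Unit => (1 : ℚ))
      (fun _ : Unit => f)).Nonempty := by
    obtain ⟨u, hu⟩ := hFt
    refine ⟨u, fun v hv => ?_⟩
    have h1 := hu v hv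
    simp only [Finset.univ_unique, Finset.sum_singleton, mul_one, one_mul]
    exact h1
  have htrE : ∀ E : IntermediateField k K, ∃ d : ℕ, d ≤ n ∧ Algebra.trdeg k E = (d : ℕ) := by
    intro E
    have h1 : Algebra.trdeg k E ≤ n := by
      rw [← htr]
      exact trdeg_le_of_injective E.val E.val.injective
    obtain ⟨d, hd⟩ := Cardinal.lt_aleph0.1 (h1.trans_lt Cardinal.natCast_lt_aleph0)
    refine ⟨d, ?_, hd⟩
    rw [hd] at h1
    exact_mod_cast h1
  obtain ⟨d, hdn, hd⟩ := htrE (IntermediateField.adjoin k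
    {z : K | ∃ w ∈ dirsW (fun v : Fin r → ℤ => t * (fun _ => 1) v) (fun _ : Unit => (1 : ℚ))
      (fun _ : Unit => f), z = mono x w})
  -- the tight vectors
  have hDt : ∀ v : Fin r → ℤ, ∃ z : ℤ, ((t.den : ℕ) : ℚ) *
      (fun v : Fin r → ℤ => t * (fun _ => 1) v) v = z := by
    intro v
    refine ⟨t.num, ?_⟩
    have h1 : t * t.den = t.num := Rat.mul_den_eq_num t
    beta_reduce
    rw [mul_one, mul_comm]
    exact h1
  obtain ⟨u0, c, a, nl, S, B, hc, -, ha, hnl, hF', hS, hpos, -, hdirs⟩ :=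
    exists_tightW (g := fun _ : Unit => f) (wt := fun _ => 1)
      (A := fun v : Fin r → ℤ => t * (fun _ => 1) v) (fun _ => hf0) (D := t.den) t.den_pos
      (fun v _ => by
        beta_reduce
        rw [mul_one]
        exact ht0) (fun v => by
        beta_reduce
        rw [mul_one]
        exact ht1) hDt (fun _ => ⟨t.den, by simp⟩) hFW
  have hcq : (0 : ℚ) < c := by exact_mod_cast hc
  obtain ⟨a0, ha0⟩ : ∃ a0, a0 = a 0 := ⟨_, rfl⟩
  have hat : (a0 : ℚ) = c * t := by
    rw [ha0, ha]
    ring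
  have haa : ∀ v, a v = a0 := by
    intro v
    have h1 : (a v : ℚ) = a0 := by
      rw [hat, ha]
      ring
    exact_mod_cast h1
  have hnl1 : ∀ l, nl l = c := by
    intro l
    have h1 := hnl l
    rw [mul_one] at h1
    exact_mod_cast h1
  have hΦ : ∀ v, a v + ∑ l : Unit, nl l * mn v f = a0 + c * mn v f := by
    intro v
    rw [haa, Finset.univ_unique, Finset.sum_singleton, hnl1]
  simp only [hΦ] at hF' hS
  have hac : a0 < c := by
    have h1 : (a0 : ℚ) < c := by
      rw [hat]
      nlinarith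
    exact_mod_cast h1
  obtain ⟨y, hyG, hyind, hyalg⟩ := exists_mono_basis hd
  choose w hw hwy using hyG
  have hyw : y = fun j => mono x (w j) := funext hwy
  have hwS : ∀ j, ∀ s ∈ S, w j ⬝ᵥ s = 0 := fun j => (hdirs (w j)).1 (hw j)
  rcases hdn.lt_or_eq with hdlt | hdeq
  · -- the generic fibre
    have hess : Algebra.EssFiniteType k K := by
      rw [← IntermediateField.fg_top_iff, ← hgen]
      exact ⟨Finset.univ.image x, by rw [Finset.coe_image, Finset.coe_univ, Set.image_univ]⟩
    obtain ⟨m, rfl⟩ : ∃ m, n = d + (m + 1) := ⟨n - d - 1, by omega⟩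
    refine notPsef_of_neg fun T => ?_
    refine pairNeg_gen hess hyind htr ?_ T
    intro Λ F _ _ _ _ _ _ _ φ hφgen hΛF t' ht' htt' hcon δ' hδ' T'
    have hinj : Function.Injective φ := (φ : K →+* F).injective
    have hδ0 : δ' = fun _ => 0 := by
      funext P
      rcases hδ' P with ⟨v, e, he, -, hδ⟩ | h0
      · rw [hδ, sub_zero, mul_one]
        have h1 : (1 : ℝ) ≤ e := by exact_mod_cast he
        exact max_eq_left (by linarith)
      · exact h0
    rw [hδ0]
    have e' : (Unit ⊕ Fin d) ⊕ Fin (m + 1) ≃ Fin r := Fintype.equivOfCardEq (by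
      simp only [Fintype.card_sum, Fintype.card_fin, Fintype.card_unit]
      omega)
    have hmono : ∀ w' : Fin r → ℤ, φ (mono x w') = mono (fun i => φ (x i)) w' := fun w' =>
      map_mono (φ : K →+* F) x w'
    have hgrφ : ∀ i, gr (fun i => φ (x i)) f i = φ (gr x f i) := by
      intro i
      unfold gr Finsupp.sum
      rw [map_sum]
      refine Finset.sum_congr rfl fun m' _ => ?_
      rw [map_mul, map_mul, map_intCast, hmono, φ.commutes]
    refine neg_fibre (k := k) (f := f) (S := S) (u0 := u0) (c := c) (a0 := a0) (w := w) (t := t')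
      (x := fun i => φ (x i)) e' hΛF ?_ ?_ hf0 ?_ ?_ hc hac (fun s hs => ((hS s).1 hs).2) hpos hwS
      ht' ?_ ?_ T'
    · intro i h0
      exact hx i (hinj (by rw [h0, map_zero]))
    · rw [eq_top_iff, ← hφgen, IntermediateField.adjoin_le_iff]
      rintro _ ⟨z, rfl⟩
      have hz : z ∈ IntermediateField.adjoin k (Set.range x) := by
        rw [hgen]
        trivial
      have h1 : IntermediateField.adjoin k (Set.range x) ≤
          ((IntermediateField.adjoin Λ (Set.range fun i => φ (x i))).restrictScalars k).comap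
            φ := by
        rw [IntermediateField.adjoin_le_iff]
        rintro _ ⟨i, rfl⟩
        exact IntermediateField.subset_adjoin Λ _ ⟨i, rfl⟩
      exact h1 hz
    · rw [← map_ev, hf, map_zero]
    · intro h0
      apply hgr
      funext i
      have h1 := congrFun h0 i
      rw [hgrφ] at h1
      exact hinj (by rw [h1]; exact (map_zero φ).symm)
    · intro j
      rw [htt', hwy, hmono]
    · intro w' hw'
      have h1 := hyalg (mono x w') ⟨w', (hdirs w').2 hw', rfl⟩
      obtain ⟨a, ha⟩ := hcon _ h1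
      exact ⟨a, by rw [ha, hmono]⟩
  -- the exceptional case
  subst hdeq
  have hSne : S.Nonempty := by
    by_contra hcon
    rw [Finset.not_nonempty_iff_eq_empty] at hcon
    refine hmax htlt (t + 1 / c) (by
      have := one_div_pos.2 hcq
      linarith) ⟨fun i => (u0 i : ℚ) / c, fun v hv => ?_⟩
    have h1 := hF' v hv
    have h2 : u0 ⬝ᵥ v ≠ a0 + c * mn v f := by
      intro h3
      have h4 := (hS v).2 ⟨hv, h3⟩
      rw [hcon] at h4
      exact absurd h4 (Finset.notMem_empty _)
    have h3 : a0 + c * mn v f + 1 ≤ u0 ⬝ᵥ v := by omega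
    have h4 : (a0 : ℚ) + c * (mn v f : ℚ) + 1 ≤ ((u0 ⬝ᵥ v : ℤ) : ℚ) := by
      exact_mod_cast h3
    have h5 : dq (fun i => (u0 i : ℚ) / c) v = ((u0 ⬝ᵥ v : ℤ) : ℚ) / c := by
      rw [← dq_int]
      unfold dq
      rw [Finset.sum_div]
      exact Finset.sum_congr rfl fun i _ => by ring
    rw [h5, le_div_iff₀ hcq]
    rw [hat] at h4
    have h6 : (t + 1 / c + (mn v f : ℚ)) * c = c * t + c * (mn v f : ℚ) + 1 := by
      field_simp
      ring
    rw [h6]
    exact h4
  obtain ⟨m, s, c', hm, hsS, hrel, huniq⟩ := N.exists_circuit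
    (fun s hs => ((hS s).1 hs).1) hSne hpos
  have hlis := N.circ_li (fun i => (hsS i).2) huniq
  rw [hyw] at hyind
  have hws : ∀ j i, w j ⬝ᵥ s i = 0 := fun j i => hwS j (s i) (hsS i).1
  have hli : LinearIndependent K fun _ : Unit => gr x f := linearIndependent_unique_iff.2 hgr
  have heta : ∀ c : Fin m → K,
      (∀ _ : Unit, ∑ j, gr x f j * (∑ i, c i * (s i.succ j : K)) = 0) →
      (fun j => ∑ i, c i * (s i.succ j : K)) = 0 := by
    intro c h1
    refine N.eta_zero htr hx hgen (J := Unit) (f := fun _ => f)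
      (by rw [Fintype.card_unit, hr, add_comm]) (fun _ => hf) hli hyind h1 fun j => ?_
    have h2 : ∑ i, (w j i : K) * ∑ i', c i' * (s i'.succ i : K) =
        ∑ i', c i' * ((w j ⬝ᵥ s i'.succ : ℤ) : K) := by
      simp only [Finset.mul_sum]
      rw [Finset.sum_comm]
      refine Finset.sum_congr rfl fun i' _ => ?_
      rw [← dot_intCast, Finset.mul_sum]
      exact Finset.sum_congr rfl fun i _ => by ring
    rw [h2]
    exact Finset.sum_eq_zero fun i' _ => by rw [hws, Int.cast_zero, mul_zero]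
  have hcard := N.card_JC (f := fun _ : Unit => f) (fun _ => hf) hlis heta
  have hF'' : ∀ v, v ≠ 0 → a0 + c * ∑ _l : Unit, mn v f ≤ u0 ⬝ᵥ v := by
    intro v hv
    rw [Finset.univ_unique, Finset.sum_singleton]
    exact hF' v hv
  obtain ⟨h1, h2, h3, -⟩ := N.exc_arith (f := fun _ : Unit => f) (fun _ => hf0) hm
    (fun i => (hsS i).2) hrel hc hac hF'' (fun i => by
      rw [Finset.univ_unique, Finset.sum_singleton]
      exact ((hS _).1 (hsS i).1).2) hcard
  obtain rfl : m = 1 := by
    have h4 := Finset.card_le_univ (N.JC (fun _ : Unit => f) s)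
    rw [h2, Fintype.card_unit] at h4
    omega
  have hmem : () ∈ N.JC (fun _ : Unit => f) s := by
    have h4 : (N.JC (fun _ : Unit => f) s).Nonempty := by
      rw [← Finset.card_pos, h2]
      exact one_pos
    obtain ⟨l, hl⟩ := h4
    exact hl
  have h4 := h3 () hmem
  rw [Fin.sum_univ_two] at h1 h4
  have hs1 : s 1 = -s 0 := eq_neg_of_add_eq_zero_right h1
  rw [hs1] at h4
  have hs00 : s 0 ≠ 0 := ((hS _).1 (hsS 0).1).1
  obtain ⟨g, s', β, hg, hgs, hβ⟩ := exists_prim hs00
  have hwid : mn (s 0) f + mn (-s 0) f = g * (mn s' f + mn (-s') f) := by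
    rw [hgs, mn_smul hf0 hg.le, ← smul_neg, mn_smul hf0 hg.le]
    ring
  have h5 : g * (mn s' f + mn (-s') f) = -1 := by
    rw [← hwid]
    exact h4
  have hg1 : g = 1 := by
    have h6 : g ∣ 1 := by
      have : g ∣ -1 := Dvd.intro _ h5
      exact (Int.dvd_neg).1 this
    exact Int.eq_one_of_dvd_one hg.le h6
  rw [hg1, one_mul] at h5
  refine notPsef_width hn htr hr hx hgen hf0 hf hgr hβ h5 (w := w) (fun j => ?_) hyind
  have h6 := hws j 0
  rw [hgs, hg1, one_smul] at h6
  exact h6

end Pool.Agent.K9h25
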