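import Pool.Agent.K9h25.Ab
import Pool.Agent.R885.Fib
import Pool.Agent.R885.Pla
import Pool.Agent.R885.G2
import Pool.Agent.R885.D0b

/-!
An upper bound for the order of the residue form of an arbitrary hypersurface of a torus, or of a
fibre of a monomial map on it.
-/

set_option autoImplicit false
set_option linter.overlappingInstances false
set_option linter.unusedSectionVars false

open FF Pool.Agent.R885 Pool.Agent.W603.LV Pool.Agent.W619.PQ Pool.Agent.Y173.QA

namespace Pool.Agent.K9h25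

section

variable {r : ℕ}

/-- a vector which is orthogonal to sufficiently many independent vectors vanishes -/
theorem eq_zero_of_rows {K : Type} [Field K] {α : Type} [Fintype α] {ρ : α → Fin r → K}
    (h : LinearIndependent K ρ) (hc : r = Fintype.card α) {w : Fin r → K}
    (hw : ∀ a, ∑ i, ρ a i * w i = 0) : w = 0 := by
  by_contra h0
  have h1 := rank_le h (b := fun _ : Unit => w) (linearIndependent_unique_iff.2 h0)
    fun a _ => hw a
  rw [Fintype.card_fin, Fintype.card_unit] at h1
  omega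

/-- integral dual vectors -/
theorem dual_int {α : Type} [Fintype α] [DecidableEq α] {ρ : α → Fin r → ℤ}
    (h : LinearIndependent ℚ fun (a : α) (i : Fin r) => (ρ a i : ℚ)) (hc : r = Fintype.card α)
    (a0 : α) : ∃ (s : Fin r → ℤ) (N : ℤ), 0 < N ∧ ρ a0 ⬝ᵥ s = N ∧ ∀ a, a ≠ a0 → ρ a ⬝ᵥ s = 0 := by
  classical
  let e : α ≃ Fin r := Fintype.equivOfCardEq (by rw [Fintype.card_fin, hc])
  let M : Matrix α α ℚ := Matrix.of fun a b => (ρ a (e b) : ℚ)
  have h1 : LinearIndependent ℚ M.row :=
    h.map' (LinearEquiv.funCongrLeft ℚ ℚ e).toLinearMap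
      (LinearMap.ker_eq_bot.2 (LinearEquiv.injective _))
  rw [Matrix.linearIndependent_rows_iff_isUnit, Matrix.isUnit_iff_isUnit_det] at h1
  obtain ⟨q, hq⟩ : ∃ q : Fin r → ℚ, q = fun i => M⁻¹ (e.symm i) a0 := ⟨_, rfl⟩
  have h2 : ∀ a, ∑ i, (ρ a i : ℚ) * q i = if a = a0 then 1 else 0 := by
    intro a
    have h3 := congrFun (congrFun (Matrix.mul_nonsing_inv M h1) a) a0
    rw [Matrix.mul_apply, Matrix.one_apply] at h3
    rw [← h3, ← e.sum_comp]
    refine Finset.sum_congr rfl fun b _ => ?_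
    rw [hq]
    beta_reduce
    rw [e.symm_apply_apply]
    rfl
  obtain ⟨D, hD, hDq⟩ := Pool.Agent.TH165.ACC.exists_denom q
  choose s hs using hDq
  have h3 : ∀ a, ((ρ a ⬝ᵥ s : ℤ) : ℚ) = D * if a = a0 then 1 else 0 := by
    intro a
    rw [← h2, Finset.mul_sum]
    unfold dotProduct
    push_cast
    refine Finset.sum_congr rfl fun i _ => ?_
    rw [← hs]
    ring
  refine ⟨s, D, hD, ?_, fun a ha => ?_⟩
  · have h4 := h3 a0
    rw [if_pos rfl, mul_one] at h4
    exact_mod_cast h4
  · have h4 := h3 a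
    rw [if_neg ha, mul_zero] at h4
    exact_mod_cast h4

/-- independence of integral vectors over a field and over the rational numbers -/
theorem li_down {F : Type} [Field F] [CharZero F] {α : Type} {σ : α → Fin r → ℤ}
    (h : LinearIndependent F fun (i : α) (k : Fin r) => (σ i k : F)) :
    LinearIndependent ℚ fun (i : α) (k : Fin r) => (σ i k : ℚ) := by
  refine (linearIndependent_algebraMap_comp_iff (R := ℚ) (S := F)).1 ?_
  have h2 : (fun i => (algebraMap ℚ F) ∘ fun k : Fin r => (σ i k : ℚ)) =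
      fun (i : α) (k : Fin r) => (σ i k : F) := by
    funext i k
    simp
  rwa [h2]

theorem li_up {F : Type} [Field F] [CharZero F] {α : Type} {σ : α → Fin r → ℤ}
    (h : LinearIndependent ℚ fun (i : α) (k : Fin r) => (σ i k : ℚ)) :
    LinearIndependent F fun (i : α) (k : Fin r) => (σ i k : F) := by
  have h1 := (linearIndependent_algebraMap_comp_iff (R := ℚ) (S := F)).2 h
  have h2 : (fun i => (algebraMap ℚ F) ∘ fun k : Fin r => (σ i k : ℚ)) =
      fun (i : α) (k : Fin r) => (σ i k : F) := by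
    funext i k
    simp
  rwa [h2] at h1

/-- The vectors which complete the exponents of the monomials. -/
structure Frame (r d m : ℕ) (w : Fin d → Fin r → ℤ) (C : Fin m → Fin r → ℤ)
    (s' e' c1 c2 : Fin r → ℤ) (N1 N2 : ℤ) : Prop where
  ws : ∀ j, w j ⬝ᵥ s' = 0
  we : ∀ j, w j ⬝ᵥ e' = 0
  Cs : ∀ j, C j ⬝ᵥ s' = 0
  Ce : ∀ j, C j ⬝ᵥ e' = 0
  h1s : c1 ⬝ᵥ s' = N1
  h1e : c1 ⬝ᵥ e' = 0
  h2s : c2 ⬝ᵥ s' = 0
  h2e : c2 ⬝ᵥ e' = N2
  N1 : N1 ≠ 0
  N2 : N2 ≠ 0

end

section

variable {k K : Type} [Field k] [CharZero k] [Field K] [Algebra k K] {r m d : ℕ} {x : Fin r → K}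

/-- the equation of a hypersurface, and of the fibre of a monomial map -/
noncomputable def hs {k : Type} [Field k] {r d : ℕ} (f : (Fin r → ℤ) →₀ k)
    (w : Fin d → Fin r → ℤ) (t : Fin d → k) (z : Unit ⊕ Fin d) : (Fin r → ℤ) →₀ k :=
  Sum.elim (fun _ => f) (fun j => Finsupp.single (w j) 1 - Finsupp.single 0 (t j)) z

/-- the rows of the determinant, for an arbitrary first row -/
noncomputable def Gu (x : Fin r → K) (w : Fin d → Fin r → ℤ) (u : Fin r → K) :
    Unit ⊕ Fin d → Fin r → K :=
  Sum.elim (fun _ => u) fun j i => (w j i : K) * mono x (w j)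

theorem gr_hs (f : (Fin r → ℤ) →₀ k) (w : Fin d → Fin r → ℤ) (t : Fin d → k) :
    (fun l => gr x (hs f w t l)) = Gu x w (gr x f) := by
  funext l i
  rcases l with l | j
  · rfl
  · exact bin_gr x (w j) (t j) i

/-- the dependence on the first row -/
theorem dt_lin (e : (Unit ⊕ Fin d) ⊕ Fin (m + 1) ≃ Fin r) (w : Fin d → Fin r → ℤ)
    (C1 : Fin (m + 1) → Fin r → ℤ) (a b : K) (u u' : Fin r → K) :
    dt e (Gu x w (fun i => a * u i + b * u' i)) C1 =
      a * dt e (Gu x w u) C1 + b * dt e (Gu x w u') C1 := by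
  classical
  let M0 : Matrix ((Unit ⊕ Fin d) ⊕ Fin (m + 1)) ((Unit ⊕ Fin d) ⊕ Fin (m + 1)) K :=
    Matrix.of fun a b => rows (Gu x w u) C1 a (e b)
  have h1 : ∀ v : Fin r → K, dt e (Gu x w v) C1 =
      (M0.updateRow (Sum.inl (Sum.inl ())) fun b => v (e b)).det := by
    intro v
    unfold dt
    congr 1
    ext a b
    rcases a with (a | a) | a
    · rw [Matrix.updateRow_self]
      rfl
    · rw [Matrix.updateRow_ne (by simp)]
      rfl
    · rw [Matrix.updateRow_ne (by simp)]
      rfl
  rw [h1, h1, h1]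
  have h2 : (fun b' => (fun i => a * u i + b * u' i) (e b')) =
      (a • fun b' => u (e b')) + b • fun b' => u' (e b') := by
    funext b'
    simp
  rw [h2, Matrix.det_updateRow_add, Matrix.det_updateRow_smul, Matrix.det_updateRow_smul]

/-- **The residue form at an arbitrary place.** -/
theorem om_upper (htr : Algebra.trdeg k K = (m + 1 : ℕ))
    (hfin : ∀ y : Fin (m + 1) → K, IsTranscendenceBasis k y →
      FiniteDimensional (IntermediateField.adjoin k (Set.range y)) K)
    (P : Place k K) (hx : ∀ i, x i ≠ 0) (hgen : IntermediateField.adjoin k (Set.range x) = ⊤)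
    {e : (Unit ⊕ Fin d) ⊕ Fin (m + 1) ≃ Fin r} {f : (Fin r → ℤ) →₀ k} (hf0 : f ≠ 0)
    (hf : ev x f = 0) {w : Fin d → Fin r → ℤ} {t : Fin d → k}
    (hwt : ∀ j, algebraMap k K (t j) = mono x (w j))
    (hli : LinearIndependent K (Sum.elim (fun _ : Unit => gr x f) fun j i => (w j i : K)))
    {C : Fin m → Fin r → ℤ} (hCv : ∀ j, C j ⬝ᵥ vec P x = 0)
    (hy : ∀ p : MvPolynomial (Fin m) k, p ≠ 0 →
      MvPolynomial.aeval (fun j => mono x (C j)) p ≠ 0 ∧
        P.ord (MvPolynomial.aeval (fun j => mono x (C j)) p) = 0)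
    {C0 : Fin (m + 1) → Fin r → ℤ} (h0 : dt e (fun l => gr x (hs f w t l)) C0 ≠ 0) :
    LinearIndependent K (fun (z : Fin d ⊕ Fin m) i => ((Sum.elim w C z i : ℤ) : K)) ∧
    ∃ D : Fin (m + 1) → Derivation k K K, (∀ a, Pres P (D a)) ∧ Om e x (hs f w t) C0 D ≠ 0 ∧
      (vec P x = 0 → P.ord (Om e x (hs f w t) C0 D) ≤ 0) ∧
      ∀ (g : ℤ) (s' c' : Fin r → ℤ), 0 < g → vec P x = g • s' → c' ⬝ᵥ s' = 1 →
        P.ord (Om e x (hs f w t) C0 D) ≤ -g - mn (vec P x) f := by
  classical
  have hK0 : CharZero K := charZero_of_injective_algebraMap (algebraMap k K).injective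
  obtain ⟨t0, ht00, ht0⟩ := P.surj
  obtain ⟨hbas, E, hE1, hE2⟩ := frame_of htr hfin P ht0 hy
  obtain ⟨m0, hm0, hm0'⟩ := exists_mn hf0 (vec P x)
  have hcard : r = (1 + d) + (m + 1) := by
    rw [← Fintype.card_fin r, ← Fintype.card_congr e]
    simp only [Fintype.card_sum, Fintype.card_unit, Fintype.card_fin]
  -- the logarithmic derivatives
  obtain ⟨W, hWd⟩ : ∃ W : Fin (m + 1) → Fin r → K, W = fun a => lg x (E a) := ⟨_, rfl⟩
  have hmono : ∀ (a : Fin (m + 1)) (u : Fin r → ℤ),
      ∑ i, (u i : K) * W a i = E a (mono x u) / mono x u := by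
    intro a u
    rw [der_mono (E a) hx, mul_div_cancel_left₀ _ (mono_ne hx _), hWd]
    rfl
  have hEt : E 0 t0 = 1 := by
    have h1 := hE1 0 0
    rwa [Fin.cons_zero, if_pos rfl] at h1
  have hEy0 : ∀ j : Fin m, E 0 (mono x (C j)) = 0 := by
    intro j
    have h1 := hE1 0 j.succ
    rwa [Fin.cons_succ, if_neg (Fin.succ_ne_zero j).symm] at h1
  have hEys : ∀ i j : Fin m, E i.succ (mono x (C j)) = if i = j then 1 else 0 := by
    intro i j
    have h1 := hE1 i.succ j.succ
    rw [Fin.cons_succ] at h1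
    rw [h1]
    simp only [Fin.succ_inj]
  have hWw : ∀ (a : Fin (m + 1)) j, ∑ i, (w j i : K) * W a i = 0 := by
    intro a j
    rw [hmono, ← hwt, (E a).map_algebraMap, zero_div]
  have hWC0 : ∀ j : Fin m, ∑ i, (C j i : K) * W 0 i = 0 := by
    intro j
    rw [hmono, hEy0, zero_div]
  have hWCs : ∀ i' j : Fin m, ∑ i, (C j i : K) * W i'.succ i =
      if i' = j then (mono x (C j))⁻¹ else 0 := by
    intro i' j
    rw [hmono, hEys]
    split_ifs
    · rw [one_div]
    · rw [zero_div]
  have hWg : ∀ a, ∑ i, gr x f i * W a i = 0 := fun a => by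
    rw [hWd]
    exact gr_lg hx hf (E a)
  have hW0 : W 0 ≠ 0 := by
    intro h1
    have h2 : ∀ i, E 0 (x i) = 0 := by
      intro i
      have h3 := congrFun h1 i
      rw [hWd] at h3
      exact (div_eq_zero_iff.1 h3).resolve_right (hx i)
    have h3 := der_eq_zero hgen h2 t0
    rw [hEt] at h3
    exact one_ne_zero h3
  -- independence of the gradient and the exponents
  have hliC : LinearIndependent K (Sum.elim (Sum.elim (fun _ : Unit => gr x f)
      fun (j : Fin d) i => (w j i : K)) fun (j : Fin m) i => (C j i : K)) := by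
    rw [Fintype.linearIndependent_iff]
    intro g hg
    have hg1 : ∀ i, (∑ z : Unit ⊕ Fin d, g (Sum.inl z) *
        (Sum.elim (fun _ : Unit => gr x f) (fun (j : Fin d) i => (w j i : K)) z) i) +
        ∑ j, g (Sum.inr j) * (C j i : K) = 0 := by
      intro i
      have h1 := congrFun hg i
      rw [Fintype.sum_sum_type, Pi.add_apply, Finset.sum_apply, Finset.sum_apply] at h1
      exact h1
    have hr : ∀ j, g (Sum.inr j) = 0 := by
      intro j
      have h1 : ∑ i, ((∑ z : Unit ⊕ Fin d, g (Sum.inl z) *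
          (Sum.elim (fun _ : Unit => gr x f) (fun (j : Fin d) i => (w j i : K)) z) i) +
          ∑ j, g (Sum.inr j) * (C j i : K)) * W j.succ i = 0 :=
        Finset.sum_eq_zero fun i _ => by rw [hg1, zero_mul]
      simp only [add_mul] at h1
      rw [Finset.sum_add_distrib] at h1
      have h2 : ∑ i, (∑ z : Unit ⊕ Fin d, g (Sum.inl z) *
          (Sum.elim (fun _ : Unit => gr x f) (fun (j : Fin d) i => (w j i : K)) z) i) *
            W j.succ i = 0 := by
        simp only [Finset.sum_mul]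
        rw [Finset.sum_comm]
        refine Finset.sum_eq_zero fun z _ => ?_
        have h3 : ∑ i, g (Sum.inl z) * (Sum.elim (fun _ : Unit => gr x f)
            (fun (j : Fin d) i => (w j i : K)) z) i * W j.succ i = g (Sum.inl z) *
            ∑ i, (Sum.elim (fun _ : Unit => gr x f)
              (fun (j : Fin d) i => (w j i : K)) z) i * W j.succ i := by
          rw [Finset.mul_sum]
          exact Finset.sum_congr rfl fun i _ => by ring
        rw [h3]
        rcases z with z | z
        · change g (Sum.inl (Sum.inl z)) * ∑ i, gr x f i * W j.succ i = 0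
          rw [hWg, mul_zero]
        · change g (Sum.inl (Sum.inr z)) * ∑ i, (w z i : K) * W j.succ i = 0
          rw [hWw, mul_zero]
      have h3 : ∑ i, (∑ j, g (Sum.inr j) * (C j i : K)) * W j.succ i =
          g (Sum.inr j) * (mono x (C j))⁻¹ := by
        simp only [Finset.sum_mul]
        rw [Finset.sum_comm]
        have h4 : ∀ j', ∑ i, g (Sum.inr j') * (C j' i : K) * W j.succ i = g (Sum.inr j') *
            (if j = j' then (mono x (C j'))⁻¹ else 0) := by
          intro j'
          rw [← hWCs, Finset.mul_sum]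
          exact Finset.sum_congr rfl fun i _ => by ring
        rw [Finset.sum_congr rfl fun j' _ => h4 j', Finset.sum_eq_single j]
        · rw [if_pos rfl]
        · intro j' _ hj
          rw [if_neg (Ne.symm hj), mul_zero]
        · intro hj
          exact absurd (Finset.mem_univ _) hj
      rw [h2, h3, zero_add] at h1
      exact (mul_eq_zero.1 h1).resolve_right (inv_ne_zero (mono_ne hx _))
    have hl := Fintype.linearIndependent_iff.1 hli (fun z => g (Sum.inl z)) (by
      funext i
      have h1 := hg1 i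
      rw [Finset.sum_eq_zero (s := Finset.univ) (f := fun j => g (Sum.inr j) * (C j i : K))
        (fun j _ => by rw [hr j, zero_mul]), add_zero] at h1
      rw [Finset.sum_apply, Pi.zero_apply, ← h1]
      rfl)
    rintro (z | j)
    · exact hl z
    · exact hr j
  have hliwC : LinearIndependent K (fun (z : Fin d ⊕ Fin m) i => ((Sum.elim w C z i : ℤ) : K)) := by
    have h1 := hliC.comp (Sum.map Sum.inr id : Fin d ⊕ Fin m → (Unit ⊕ Fin d) ⊕ Fin m)
      (Sum.map_injective.2 ⟨Sum.inr_injective, Function.injective_id⟩)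
    convert h1 using 1
    funext z i
    rcases z with z | z <;> rfl
  refine ⟨hliwC, ?_⟩
  -- the direction of the place, and the additional row
  obtain ⟨z, s', c1, α, hα0, hvs, hz, hc1s, hc1⟩ : ∃ (z : K) (s' c1 : Fin r → ℤ) (α : ℤ),
      0 ≤ α ∧ vec P x = α • s' ∧ (α = 0 ∧ z = 1 ∨ 0 < α ∧ z = mono x c1) ∧
      (c1 ⬝ᵥ s' = 1 ∨ α = 0) ∧
      LinearIndependent K (Sum.elim (Sum.elim (Sum.elim (fun _ : Unit => gr x f)
        fun (j : Fin d) i => (w j i : K)) fun (j : Fin m) i => (C j i : K))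
          fun (_ : Unit) i => (c1 i : K)) := by
    by_cases hv : vec P x = 0
    · obtain ⟨C', hC'⟩ := complete_zero hliC (n := 1) (by
        simp only [Fintype.card_sum, Fintype.card_unit, Fintype.card_fin]
        omega)
      refine ⟨1, 0, C' 0, 0, le_rfl, by rw [hv, smul_zero], Or.inl ⟨rfl, rfl⟩, Or.inr rfl, ?_⟩
      have h1 := hC'.comp (Sum.map id (fun _ : Unit => (0 : Fin 1)) :
        ((Unit ⊕ Fin d) ⊕ Fin m) ⊕ Unit → ((Unit ⊕ Fin d) ⊕ Fin m) ⊕ Fin 1)
        (Sum.map_injective.2 ⟨Function.injective_id, fun _ _ _ => rfl⟩)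
      convert h1 using 1
      funext z i
      rcases z with z | z <;> rfl
    · obtain ⟨g, s', c1, hg, hgs, hc1⟩ := exists_prim hv
      refine ⟨mono x c1, s', c1, g, hg.le, hgs, Or.inr ⟨hg, rfl⟩, Or.inl hc1, ?_⟩
      have hzo : P.ord (mono x c1) = g := by
        rw [ord_mono P hx, hgs, dotProduct_smul, hc1, smul_eq_mul, mul_one]
      have h1 : ∑ i, (c1 i : K) * W 0 i ≠ 0 := by
        rw [hmono]
        exact div_ne_zero (ord_der_unif P ht0 (hE2 0) hEt (mono_ne hx _)
          (by rw [hzo]; exact hg.ne')).1 (mono_ne hx _)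
      rw [Fintype.linearIndependent_iff]
      intro c hc
      have hc' : ∀ i, (∑ z, c (Sum.inl z) * (Sum.elim (Sum.elim (fun _ : Unit => gr x f)
          fun (j : Fin d) i => (w j i : K)) (fun (j : Fin m) i => (C j i : K)) z) i) +
          c (Sum.inr ()) * (c1 i : K) = 0 := by
        intro i
        have h2 := congrFun hc i
        rw [Fintype.sum_sum_type, Pi.add_apply, Finset.sum_apply, Fintype.sum_unique (ι := Unit)] at h2
        exact h2
      have h2 : c (Sum.inr ()) = 0 := by
        have h3 : ∑ i, ((∑ z, c (Sum.inl z) * (Sum.elim (Sum.elim (fun _ : Unit => gr x f)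
            fun (j : Fin d) i => (w j i : K)) (fun (j : Fin m) i => (C j i : K)) z) i) +
            c (Sum.inr ()) * (c1 i : K)) * W 0 i = 0 :=
          Finset.sum_eq_zero fun i _ => by rw [hc', zero_mul]
        simp only [add_mul] at h3
        rw [Finset.sum_add_distrib] at h3
        have h4 : ∑ i, (∑ z, c (Sum.inl z) * (Sum.elim (Sum.elim (fun _ : Unit => gr x f)
            fun (j : Fin d) i => (w j i : K)) (fun (j : Fin m) i => (C j i : K)) z) i) *
              W 0 i = 0 := by
          simp only [Finset.sum_mul]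
          rw [Finset.sum_comm]
          refine Finset.sum_eq_zero fun z _ => ?_
          have h5 : ∑ i, c (Sum.inl z) * (Sum.elim (Sum.elim (fun _ : Unit => gr x f)
              fun (j : Fin d) i => (w j i : K)) (fun (j : Fin m) i => (C j i : K)) z) i * W 0 i =
              c (Sum.inl z) * ∑ i, (Sum.elim (Sum.elim (fun _ : Unit => gr x f)
                fun (j : Fin d) i => (w j i : K)) (fun (j : Fin m) i => (C j i : K)) z) i *
                  W 0 i := by
            rw [Finset.mul_sum]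
            exact Finset.sum_congr rfl fun i _ => by ring
          rw [h5]
          rcases z with (z | z) | z
          · change _ * ∑ i, gr x f i * W 0 i = 0
            rw [hWg, mul_zero]
          · change _ * ∑ i, (w z i : K) * W 0 i = 0
            rw [hWw, mul_zero]
          · change _ * ∑ i, (C z i : K) * W 0 i = 0
            rw [hWC0, mul_zero]
        rw [h4, zero_add] at h3
        have h5 : ∑ i, c (Sum.inr ()) * (c1 i : K) * W 0 i =
            c (Sum.inr ()) * ∑ i, (c1 i : K) * W 0 i := by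
          rw [Finset.mul_sum]
          exact Finset.sum_congr rfl fun i _ => by ring
        rw [h5] at h3
        exact (mul_eq_zero.1 h3).resolve_right h1
      have h3 := Fintype.linearIndependent_iff.1 hliC (fun z => c (Sum.inl z)) (by
        funext i
        have h4 := hc' i
        rw [h2, zero_mul, add_zero] at h4
        rw [Finset.sum_apply, Pi.zero_apply, ← h4]
        rfl)
      rintro (z | z)
      · exact h3 z
      · exact h2
  -- the last row and the dual vectors
  have hliq : LinearIndependent ℚ (fun (z : (Fin d ⊕ Fin m) ⊕ Unit) i =>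
      ((Sum.elim (Sum.elim w C) (fun _ => c1) z i : ℤ) : ℚ)) := by
    apply li_down (F := K)
    have h1 := hc1.comp (Sum.map (Sum.map Sum.inr id) id :
      (Fin d ⊕ Fin m) ⊕ Unit → ((Unit ⊕ Fin d) ⊕ Fin m) ⊕ Unit)
      (Sum.map_injective.2 ⟨Sum.map_injective.2 ⟨Sum.inr_injective, Function.injective_id⟩,
        Function.injective_id⟩)
    convert h1 using 1
    funext z i
    rcases z with (z | z) | z <;> rfl
  obtain ⟨C2, hC2⟩ := complete_zero hliq (n := 1) (by
    simp only [Fintype.card_sum, Fintype.card_unit, Fintype.card_fin]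
    omega)
  have hC2' : LinearIndependent ℚ (fun (z : ((Fin d ⊕ Fin m) ⊕ Unit) ⊕ Fin 1) i =>
      ((Sum.elim (Sum.elim (Sum.elim w C) (fun _ => c1)) C2 z i : ℤ) : ℚ)) := by
    have h2 : (fun (z : ((Fin d ⊕ Fin m) ⊕ Unit) ⊕ Fin 1) i =>
        ((Sum.elim (Sum.elim (Sum.elim w C) (fun _ => c1)) C2 z i : ℤ) : ℚ)) =
        Sum.elim (fun (z : (Fin d ⊕ Fin m) ⊕ Unit) i =>
          ((Sum.elim (Sum.elim w C) (fun _ => c1) z i : ℤ) : ℚ)) fun b i => ((C2 b i : ℤ) : ℚ) := by
      funext z i
      rcases z with z | z <;> rfl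
    rw [h2]
    exact hC2
  have hcr : r = Fintype.card (((Fin d ⊕ Fin m) ⊕ Unit) ⊕ Fin 1) := by
    simp only [Fintype.card_sum, Fintype.card_unit, Fintype.card_fin]
    omega
  obtain ⟨e', N2, hN2, he1, he2⟩ := dual_int hC2' hcr (Sum.inr 0)
  obtain ⟨s1, N1, hN1, hs1, hs2⟩ := dual_int hC2' hcr (Sum.inl (Sum.inr ()))
  obtain ⟨s'', c2, N1', hfr, hvs'', hzN, κ, hκ⟩ : ∃ (s'' c2 : Fin r → ℤ) (N1' : ℤ),
      Frame r d m w C s'' e' c1 c2 N1' N2 ∧ vec P x = α • s'' ∧ (N1' = 1 ∨ α = 0) ∧
      ∃ κ : ℤ, C2 0 = c2 + κ • c1 := by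
    have hwe : ∀ j, w j ⬝ᵥ e' = 0 := fun j => he2 (Sum.inl (Sum.inl (Sum.inl j))) (by simp)
    have hCe : ∀ j, C j ⬝ᵥ e' = 0 := fun j => he2 (Sum.inl (Sum.inl (Sum.inr j))) (by simp)
    have h1e : c1 ⬝ᵥ e' = 0 := he2 (Sum.inl (Sum.inr ())) (by simp)
    have h2e : C2 0 ⬝ᵥ e' = N2 := he1
    rcases hc1s with h1 | h1
    · by_cases hα : α = 0
      · refine ⟨s1, C2 0, N1, ⟨fun j => hs2 (Sum.inl (Sum.inl (Sum.inl j))) (by simp), hwe,
          fun j => hs2 (Sum.inl (Sum.inl (Sum.inr j))) (by simp), hCe, hs1, h1e,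
          hs2 (Sum.inr 0) (by simp), h2e, hN1.ne', hN2.ne'⟩, ?_, Or.inr hα, 0, by
            rw [zero_smul, add_zero]⟩
        rw [hvs, hα, zero_smul, zero_smul]
      · have hdiv : ∀ u : Fin r → ℤ, u ⬝ᵥ vec P x = 0 → u ⬝ᵥ s' = 0 := by
          intro u hu
          rw [hvs, dotProduct_smul, smul_eq_mul] at hu
          exact (mul_eq_zero.1 hu).resolve_left hα
        have hwv : ∀ j, w j ⬝ᵥ vec P x = 0 := by
          intro j
          rw [← ord_mono P hx, ← hwt]
          exact P.ord_const fun h2 => by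
            have h3 := hwt j
            rw [h2, map_zero] at h3
            exact mono_ne hx _ h3.symm
        refine ⟨s', C2 0 - (C2 0 ⬝ᵥ s') • c1, 1, ⟨fun j => hdiv _ (hwv j), hwe,
          fun j => hdiv _ (hCv j), hCe, h1, h1e, ?_, ?_, one_ne_zero, hN2.ne'⟩, hvs, Or.inl rfl,
          C2 0 ⬝ᵥ s', by abel⟩
        · rw [sub_dotProduct, smul_dotProduct, h1, smul_eq_mul, mul_one, sub_self]
        · rw [sub_dotProduct, smul_dotProduct, h1e, smul_zero, sub_zero, h2e]
    · refine ⟨s1, C2 0, N1, ⟨fun j => hs2 (Sum.inl (Sum.inl (Sum.inl j))) (by simp), hwe,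
        fun j => hs2 (Sum.inl (Sum.inl (Sum.inr j))) (by simp), hCe, hs1, h1e,
        hs2 (Sum.inr 0) (by simp), h2e, hN1.ne', hN2.ne'⟩, ?_, Or.inr h1, 0, by
          rw [zero_smul, add_zero]⟩
      rw [hvs, h1, zero_smul, zero_smul]
  have he'0 : e' ≠ 0 := by
    intro h1
    have h2 := hfr.h2e
    rw [h1, dotProduct_zero] at h2
    exact hfr.N2 h2.symm
  have hs''0 : s'' ≠ 0 := by
    intro h1
    have h2 := hfr.h1s
    rw [h1, dotProduct_zero] at h2
    exact hfr.N1 h2.symm
  have hN1K : (N1' : K) ≠ 0 := Int.cast_ne_zero.2 hfr.N1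
  have hN2K : (N2 : K) ≠ 0 := Int.cast_ne_zero.2 hfr.N2
  obtain ⟨A', hA'⟩ : ∃ A' : K, A' = (∑ i, (c1 i : K) * W 0 i) / N1' := ⟨_, rfl⟩
  obtain ⟨B, hB⟩ : ∃ B : K, B = (∑ i, (c2 i : K) * W 0 i) / N2 := ⟨_, rfl⟩
  have hA'1 : ∑ i, (c1 i : K) * W 0 i = A' * N1' := by
    rw [hA', div_mul_cancel₀ _ hN1K]
  have hB1 : ∑ i, (c2 i : K) * W 0 i = B * N2 := by
    rw [hB, div_mul_cancel₀ _ hN2K]
  -- the decomposition
  have hdec : ∀ i, W 0 i = A' * (s'' i : K) + B * (e' i : K) := by
    have hpair : ∀ u : Fin r → ℤ, ∑ i, (u i : K) * (W 0 i - A' * (s'' i : K) - B * (e' i : K)) =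
        ∑ i, (u i : K) * W 0 i - A' * ((u ⬝ᵥ s'' : ℤ) : K) - B * ((u ⬝ᵥ e' : ℤ) : K) := by
      intro u
      rw [← dot_intCast, ← dot_intCast, Finset.mul_sum, Finset.mul_sum, ← Finset.sum_sub_distrib,
        ← Finset.sum_sub_distrib]
      exact Finset.sum_congr rfl fun i _ => by ring
    have h1 : (fun i => W 0 i - A' * (s'' i : K) - B * (e' i : K)) = 0 := by
      refine eq_zero_of_rows (li_up (F := K) hC2') hcr ?_
      rintro (((j | j) | j) | j)
      · change ∑ i, (w j i : K) * _ = 0
        rw [hpair, hWw, hfr.ws, hfr.we]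
        simp
      · change ∑ i, (C j i : K) * _ = 0
        rw [hpair, hWC0, hfr.Cs, hfr.Ce]
        simp
      · change ∑ i, (c1 i : K) * _ = 0
        rw [hpair, hA'1, hfr.h1s, hfr.h1e]
        simp
      · obtain rfl : j = 0 := Subsingleton.elim _ _
        change ∑ i, (C2 0 i : K) * _ = 0
        rw [hpair, hκ, add_dotProduct, add_dotProduct, smul_dotProduct, smul_dotProduct, hfr.h1s,
          hfr.h1e, hfr.h2s, hfr.h2e]
        have h2 : ∑ i, (((c2 + κ • c1) i : ℤ) : K) * W 0 i = B * N2 + κ * (A' * N1') := by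
          rw [← hB1, ← hA'1, Finset.mul_sum, ← Finset.sum_add_distrib]
          refine Finset.sum_congr rfl fun i _ => ?_
          rw [Pi.add_apply, Pi.smul_apply, smul_eq_mul]
          push_cast
          ring
        rw [h2]
        simp only [smul_eq_mul, zero_add, mul_zero, add_zero]
        push_cast
        ring
    intro i
    have h2 := congrFun h1 i
    rw [Pi.zero_apply] at h2
    linear_combination h2
  have hpairW : ∀ u : Fin r → ℤ, E 0 (mono x u) = mono x u *
      (A' * ((u ⬝ᵥ s'' : ℤ) : K) + B * ((u ⬝ᵥ e' : ℤ) : K)) := by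
    intro u
    have h1 := hmono 0 u
    rw [eq_div_iff (mono_ne hx _)] at h1
    rw [← h1, mul_comm]
    congr 1
    rw [← dot_intCast, ← dot_intCast, Finset.mul_sum, Finset.mul_sum, ← Finset.sum_add_distrib]
    refine Finset.sum_congr rfl fun i _ => ?_
    rw [hdec i]
    ring
  have hc1card : r = Fintype.card (((Unit ⊕ Fin d) ⊕ Fin m) ⊕ Unit) := by
    simp only [Fintype.card_sum, Fintype.card_unit, Fintype.card_fin]
    omega
  have hA'0 : A' ≠ 0 := by
    intro h1
    apply hW0
    refine eq_zero_of_rows hc1 hc1card ?_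
    rintro (((j | j) | j) | j)
    · exact hWg 0
    · exact hWw 0 j
    · exact hWC0 j
    · change ∑ i, (c1 i : K) * W 0 i = 0
      rw [hA'1, h1, zero_mul]
  have hz0 : z ≠ 0 := by
    rcases hz with ⟨-, h1⟩ | ⟨-, h1⟩
    · rw [h1]
      exact one_ne_zero
    · rw [h1]
      exact mono_ne hx _
  have hzord : P.ord z = α := by
    rcases hz with ⟨h2, h1⟩ | ⟨h2, h1⟩
    · rw [h1, P.ord_one, h2]
    · rw [h1, ord_mono P hx, hvs'', dotProduct_smul, hfr.h1s, hzN.resolve_right h2.ne',
        smul_eq_mul, mul_one]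
  have hintinv : ∀ N : ℤ, N ≠ 0 → P.Reg ((N : K)⁻¹) := by
    intro N hN
    have h1 : ((N : ℤ) : K)⁻¹ = algebraMap k K ((N : k)⁻¹) := by
      rw [map_inv₀, map_intCast]
    rw [h1]
    exact P.reg_const _
  have hAreg : P.Reg (A' * z) := by
    rcases hz with ⟨h2, h1⟩ | ⟨h2, h1⟩
    · rw [h1, mul_one, hA', hmono, div_eq_mul_inv (_ / _)]
      refine P.reg_mul (der_unit (hE2 0) ?_) (hintinv _ hfr.N1)
      rw [ord_mono P hx, hvs'', h2, zero_smul, dotProduct_zero]
    · have h3 : A' * z = E 0 z := by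
        have h4 := hpairW c1
        rw [hfr.h1s, hfr.h1e, hzN.resolve_right h2.ne', ← h1, Int.cast_one, Int.cast_zero] at h4
        rw [h4]
        ring
      rw [h3]
      exact hE2 0 z (Or.inr (by rw [hzord]; exact hα0))
  have hBreg : P.Reg B := by
    rw [hB, hmono, div_eq_mul_inv (_ / _)]
    refine P.reg_mul (der_unit (hE2 0) ?_) (hintinv _ hfr.N2)
    rw [ord_mono P hx, hvs'', dotProduct_smul, hfr.h2s, smul_zero]
  -- the derivatives
  obtain ⟨G2, hG2d⟩ : ∃ G2 : K, G2 = ∑ i, gr' x f m0 i * (e' i : K) := ⟨_, rfl⟩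
  have hG2m : G2 ∈ A0 P x := by
    rw [hG2d]
    exact sum_mem fun i _ => mul_mem (gr'_mem P x f hm0' i) (intCast_mem _ _)
  obtain ⟨G1, hG1m, hG1⟩ : ∃ G1 ∈ A0 P x, ∑ i, gr' x f m0 i * (s'' i : K) = z * G1 := by
    rcases hz with ⟨h2, h1⟩ | ⟨h2, h1⟩
    · refine ⟨∑ i, gr' x f m0 i * (s'' i : K), sum_mem fun i _ =>
        mul_mem (gr'_mem P x f hm0' i) (intCast_mem _ _), ?_⟩
      rw [h1, one_mul]
    · rw [h1]
      exact gr'_dir P hx hf h2 hvs'' (by rw [hfr.h1s, hzN.resolve_right h2.ne']) hm0'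
  have hrel : A' * z * G1 + B * G2 = 0 := by
    have h1 := gr'_lg hx hf m0 (E 0)
    have h2 : ∑ i, gr' x f m0 i * lg x (E 0) i = A' * (z * G1) + B * G2 := by
      rw [← hG1, hG2d, Finset.mul_sum, Finset.mul_sum, ← Finset.sum_add_distrib]
      refine Finset.sum_congr rfl fun i _ => ?_
      have h3 : lg x (E 0) i = W 0 i := by rw [hWd]
      rw [h3, hdec i]
      ring
    rw [h1] at h2
    rw [mul_assoc]
    exact h2.symm
  have hgre : ∑ i, gr x f i * (e' i : K) = mono x m0 * G2 := by
    rw [hG2d, Finset.mul_sum]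
    refine Finset.sum_congr rfl fun i _ => ?_
    rw [gr_eq hx f m0, mul_assoc]
  have hGe0 : ∑ i, gr x f i * (e' i : K) ≠ 0 := by
    intro h1
    apply he'0
    have h2 := eq_zero_of_rows hc1 hc1card (w := fun i => (e' i : K)) (by
      rintro (((j | j) | j) | j)
      · exact h1
      · change ∑ i, (w j i : K) * (e' i : K) = 0
        rw [dot_intCast, hfr.we, Int.cast_zero]
      · change ∑ i, (C j i : K) * (e' i : K) = 0
        rw [dot_intCast, hfr.Ce, Int.cast_zero]
      · change ∑ i, (c1 i : K) * (e' i : K) = 0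
        rw [dot_intCast, hfr.h1e, Int.cast_zero])
    funext i
    have h3 : (e' i : K) = 0 := congrFun h2 i
    exact_mod_cast h3
  have hG20 : G2 ≠ 0 := by
    intro h1
    rw [hgre, h1, mul_zero] at hGe0
    exact hGe0 rfl
  have hmon : ∀ u : Fin r → ℤ, 0 ≤ u ⬝ᵥ vec P x → ∃ a ∈ A0 P x, ∃ b ∈ A0 P x,
      E 0 (mono x u) = A' * z * a + B * b := by
    intro u hu
    rcases hz with ⟨h2, h1⟩ | ⟨h2, h1⟩
    · refine ⟨((u ⬝ᵥ s'' : ℤ) : K) * mono x u, mul_mem (intCast_mem _ _) (mono_mem P x hu),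
        ((u ⬝ᵥ e' : ℤ) : K) * mono x u, mul_mem (intCast_mem _ _) (mono_mem P x hu), ?_⟩
      rw [hpairW, h1]
      ring
    · have h3 : 0 ≤ u ⬝ᵥ s'' := by
        rw [hvs'', dotProduct_smul, smul_eq_mul] at hu
        exact nonneg_of_mul_nonneg_right hu h2
      rcases h3.lt_or_eq with h4 | h4
      · refine ⟨((u ⬝ᵥ s'' : ℤ) : K) * mono x (u - c1), mul_mem (intCast_mem _ _)
          (mono_mem P x ?_), ((u ⬝ᵥ e' : ℤ) : K) * mono x u,
          mul_mem (intCast_mem _ _) (mono_mem P x hu), ?_⟩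
        · rw [hvs'', dotProduct_smul, sub_dotProduct, hfr.h1s, hzN.resolve_right h2.ne',
            smul_eq_mul]
          exact mul_nonneg h2.le (by omega)
        · rw [hpairW, mono_sub hx, h1]
          have := mono_ne hx c1
          field_simp
      · refine ⟨0, zero_mem _, ((u ⬝ᵥ e' : ℤ) : K) * mono x u,
          mul_mem (intCast_mem _ _) (mono_mem P x hu), ?_⟩
        rw [hpairW, ← h4, Int.cast_zero]
        ring
  have hle := ord_le htr hfin P hx hgen hy ht0 (hE2 0) hEt hEy0 (mul_ne_zero hA'0 hz0) hBreg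
    hG1m hG2m hG20 hrel hmon
  rw [P.ord_mul hA'0 hz0, hzord] at hle
  -- the residue form
  obtain ⟨C1, hC1⟩ : ∃ C1 : Fin (m + 1) → Fin r → ℤ, C1 = Fin.cons c1 C := ⟨_, rfl⟩
  have hevs : ∀ l, ev x (hs f w t l) = 0 := by
    rintro (l | j)
    · exact hf
    · change ev x (Finsupp.single (w j) 1 - Finsupp.single 0 (t j)) = 0
      rw [bin_ev, hwt, sub_self]
  have hdt1 : dt e (Gu x w (gr x f)) C1 ≠ 0 := by
    refine dt_ne ?_
    let φ : (Unit ⊕ Fin d) ⊕ Fin (m + 1) → ((Unit ⊕ Fin d) ⊕ Fin m) ⊕ Unit :=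
      Sum.elim (fun z => Sum.inl (Sum.inl z))
        (Fin.cons (Sum.inr ()) fun j => Sum.inl (Sum.inr j))
    have hφ : Function.Injective φ := by
      rintro (a | a) (b | b) hab
      · exact congrArg _ (Sum.inl_injective (Sum.inl_injective hab))
      · exfalso
        revert hab
        refine Fin.cases ?_ (fun j => ?_) b
        · intro hab
          exact Sum.inl_ne_inr hab
        · intro hab
          exact Sum.inl_ne_inr (Sum.inl_injective hab)
      · exfalso
        revert hab
        refine Fin.cases ?_ (fun j => ?_) a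
        · intro hab
          exact Sum.inr_ne_inl hab
        · intro hab
          exact Sum.inr_ne_inl (Sum.inl_injective hab)
      · congr 1
        revert hab
        refine Fin.cases ?_ (fun i => ?_) a
        · refine Fin.cases ?_ (fun j => ?_) b
          · intro _
            rfl
          · intro hab
            exact absurd hab (by
              intro h
              exact Sum.inr_ne_inl h)
        · refine Fin.cases ?_ (fun j => ?_) b
          · intro hab
            exact absurd hab (by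
              intro h
              exact Sum.inl_ne_inr h)
          · intro hab
            have h1 : (Sum.inl (Sum.inr i) : ((Unit ⊕ Fin d) ⊕ Fin m) ⊕ Unit) =
              Sum.inl (Sum.inr j) := hab
            rw [Sum.inr_injective (Sum.inl_injective h1)]
    have h1 := (hc1.comp φ hφ).units_smul (fun z : (Unit ⊕ Fin d) ⊕ Fin (m + 1) =>
      Sum.elim (Sum.elim (fun _ => (1 : Kˣ)) fun j => Units.mk0 (mono x (w j)) (mono_ne hx _))
        (fun _ => 1) z)
    convert h1 using 1
    funext z i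
    rcases z with (z | z) | z
    · change gr x f i = ((1 : Kˣ) • gr x f) i
      rw [one_smul]
    · change (w z i : K) * mono x (w z) = (mono x (w z) • fun i => (w z i : K)) i
      rw [Pi.smul_apply, smul_eq_mul, mul_comm]
    · revert z
      intro z
      refine Fin.cases ?_ (fun j => ?_) z
      · rw [hC1]
        change (c1 i : K) = ((1 : Kˣ) • fun i => (c1 i : K)) i
        rw [one_smul]
      · rw [hC1]
        change (C j i : K) = ((1 : Kˣ) • fun i => (C j i : K)) i
        rw [one_smul]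
  have hdt1' : dt e (fun l => gr x (hs f w t l)) C1 ≠ 0 := by
    rw [gr_hs]
    exact hdt1
  have hOmE : Om e x (hs f w t) C0 E = (cw C1 W).det / dt e (Gu x w (gr x f)) C1 := by
    rw [om_eq hx hevs h0 hdt1']
    unfold Om
    rw [gr_hs, hWd]
  have hnum : (cw C1 W).det = A' * N1' * ∏ j : Fin m, (mono x (C j))⁻¹ := by
    rw [Matrix.det_succ_column_zero, Fin.sum_univ_succ, Finset.sum_eq_zero (s := Finset.univ)
      (f := fun i : Fin m => (-1) ^ ((i.succ : Fin (m + 1)) : ℕ) * cw C1 W i.succ 0 *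
        ((cw C1 W).submatrix i.succ.succAbove Fin.succ).det), add_zero]
    · have h1 : cw C1 W 0 0 = A' * N1' := by
        rw [← hA'1, hC1]
        rfl
      have h2 : ((cw C1 W).submatrix (Fin.succAbove 0) Fin.succ) =
          Matrix.diagonal fun j => (mono x (C j))⁻¹ := by
        ext b a
        rw [Matrix.submatrix_apply, Fin.succAbove_zero]
        have h3 : cw C1 W b.succ a.succ = ∑ i, (C b i : K) * W a.succ i := by
          rw [hC1]
          rfl
        rw [h3, hWCs, Matrix.diagonal_apply]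
        by_cases hab : a = b
        · rw [if_pos hab, if_pos hab.symm]
        · rw [if_neg hab, if_neg (Ne.symm hab)]
      rw [h1, h2, Matrix.det_diagonal]
      simp
    · intro i _
      have h1 : cw C1 W i.succ 0 = ∑ l, (C i l : K) * W 0 l := by
        rw [hC1]
        rfl
      rw [h1, hWC0, mul_zero, zero_mul]
  have hden : dt e (Gu x w (gr x f)) C1 * N2 =
      dt e (Gu x w fun i => (c2 i : K)) C1 * (mono x m0 * G2) := by
    have h1 := dt_lin (x := x) e w C1 (∑ i, gr x f i * (e' i : K)) (-(N2 : K)) (fun i => (c2 i : K))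
      (gr x f)
    have h2 : dt e (Gu x w (fun i => (∑ i, gr x f i * (e' i : K)) * (c2 i : K) +
        -(N2 : K) * gr x f i)) C1 = 0 := by
      by_contra h3
      apply he'0
      have h4 := rows_zero h3 (w := fun i => (e' i : K)) (by
        rintro ((j | j) | b)
        · change ∑ i, ((∑ i, gr x f i * (e' i : K)) * (c2 i : K) + -(N2 : K) * gr x f i) *
            (e' i : K) = 0
          have h5 : ∑ i, ((∑ i, gr x f i * (e' i : K)) * (c2 i : K) + -(N2 : K) * gr x f i) *
              (e' i : K) = (∑ i, gr x f i * (e' i : K)) * ∑ i, (c2 i : K) * (e' i : K) -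
              N2 * ∑ i, gr x f i * (e' i : K) := by
            rw [Finset.mul_sum (a := ∑ i, gr x f i * (e' i : K)), Finset.mul_sum (a := (N2 : K)),
              ← Finset.sum_sub_distrib]
            exact Finset.sum_congr rfl fun i _ => by ring
          rw [h5, dot_intCast, hfr.h2e]
          ring
        · change ∑ i, (w j i : K) * mono x (w j) * (e' i : K) = 0
          have h5 : ∑ i, (w j i : K) * mono x (w j) * (e' i : K) =
              mono x (w j) * ∑ i, (w j i : K) * (e' i : K) := by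
            rw [Finset.mul_sum]
            exact Finset.sum_congr rfl fun i _ => by ring
          rw [h5, dot_intCast, hfr.we, Int.cast_zero, mul_zero]
        · rw [hC1]
          refine Fin.cases ?_ (fun j => ?_) b
          · change ∑ i, (c1 i : K) * (e' i : K) = 0
            rw [dot_intCast, hfr.h1e, Int.cast_zero]
          · change ∑ i, (C j i : K) * (e' i : K) = 0
            rw [dot_intCast, hfr.Ce, Int.cast_zero])
      funext i
      have h5 : (e' i : K) = 0 := congrFun h4 i
      exact_mod_cast h5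
    rw [h2, hgre] at h1
    linear_combination h1
  have hdc0 : dt e (Gu x w fun i => (c2 i : K)) C1 ≠ 0 := by
    intro h1
    rw [h1, zero_mul] at hden
    exact mul_ne_zero hdt1 hN2K hden
  have hdco : P.ord (dt e (Gu x w fun i => (c2 i : K)) C1) = 0 := by
    let Mk : Matrix ((Unit ⊕ Fin d) ⊕ Fin (m + 1)) ((Unit ⊕ Fin d) ⊕ Fin (m + 1)) k :=
      Matrix.of fun a b => Sum.elim (Sum.elim (fun _ => (c2 (e b) : k))
        (fun j => (w j (e b) : k) * t j)) (fun b' => (C1 b' (e b) : k)) a
    have h1 : dt e (Gu x w fun i => (c2 i : K)) C1 = algebraMap k K Mk.det := by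
      rw [RingHom.map_det]
      unfold dt
      congr 1
      ext a b
      rcases a with (a | a) | a
      · exact (map_intCast (algebraMap k K) _).symm
      · change (w a (e b) : K) * mono x (w a) = algebraMap k K ((w a (e b) : k) * t a)
        rw [map_mul, map_intCast, hwt]
      · exact (map_intCast (algebraMap k K) _).symm
    rw [h1]
    refine P.ord_const fun h2 => hdc0 ?_
    rw [h1, h2, map_zero]
  have hdto : P.ord (dt e (Gu x w (gr x f)) C1) = mn (vec P x) f + P.ord G2 := by
    have h1 := congrArg P.ord hden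
    have hm00 := mono_ne hx m0
    rw [P.ord_mul hdt1 hN2K, (ord_intCast P hfr.N2).2, P.ord_mul hdc0 (mul_ne_zero hm00 hG20),
      P.ord_mul hm00 hG20, hdco, ord_mono P hx, hm0'] at h1
    omega
  have hprod0 : ∏ j : Fin m, (mono x (C j))⁻¹ ≠ 0 :=
    Finset.prod_ne_zero_iff.2 fun j _ => inv_ne_zero (mono_ne hx _)
  have hprodo : P.ord (∏ j : Fin m, (mono x (C j))⁻¹) = 0 := by
    have h1 : ∀ s : Finset (Fin m), P.ord (∏ j ∈ s, (mono x (C j))⁻¹) = 0 := by
      intro s
      induction s using Finset.induction_on with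
      | empty => simp [P.ord_one]
      | insert a s ha ih =>
        rw [Finset.prod_insert ha, P.ord_mul (inv_ne_zero (mono_ne hx _))
          (Finset.prod_ne_zero_iff.2 fun j _ => inv_ne_zero (mono_ne hx _)), ih, P.ord_inv,
          ord_mono P hx, hCv, neg_zero, add_zero]
    exact h1 _
  have hnum0 : (cw C1 W).det ≠ 0 := by
    rw [hnum]
    exact mul_ne_zero (mul_ne_zero hA'0 hN1K) hprod0
  have hOm0 : Om e x (hs f w t) C0 E ≠ 0 := by
    rw [hOmE]
    exact div_ne_zero hnum0 hdt1
  have hOmo : P.ord (Om e x (hs f w t) C0 E) = P.ord A' - mn (vec P x) f - P.ord G2 := by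
    rw [hOmE, P.ord_div hnum0 hdt1, hdto, hnum, P.ord_mul (mul_ne_zero hA'0 hN1K) hprod0,
      hprodo, P.ord_mul hA'0 hN1K, (ord_intCast P hfr.N1).2]
    ring
  refine ⟨E, hE2, hOm0, fun hv => ?_, fun g s₀ c' hg hgs hc' => ?_⟩
  · have h1 : α = 0 := by
      rw [hvs''] at hv
      exact (smul_eq_zero.1 hv).resolve_right hs''0
    rw [hOmo, hv, mn_zero hf0]
    omega
  · have hα : 0 < α := by
      rcases hα0.lt_or_eq with h1 | h1
      · exact h1
      · exfalso
        rw [hvs'', ← h1, zero_smul] at hgs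
        have h2 := (smul_eq_zero.1 hgs.symm).resolve_left hg.ne'
        rw [h2, dotProduct_zero] at hc'
        exact zero_ne_one hc'
    have hN1' := hzN.resolve_right hα.ne'
    have h1 : α = g * (c1 ⬝ᵥ s₀) := by
      have h2 : c1 ⬝ᵥ vec P x = α := by
        rw [hvs'', dotProduct_smul, hfr.h1s, hN1', smul_eq_mul, mul_one]
      rw [← h2, hgs, dotProduct_smul, smul_eq_mul]
    have h3 : 0 < c1 ⬝ᵥ s₀ := by
      by_contra hcon
      push Not at hcon
      have := mul_nonpos_of_nonneg_of_nonpos hg.le hcon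
      omega
    have h4 : g ≤ α := by
      rw [h1]
      nlinarith
    rw [hOmo]
    omega

end

end Pool.Agent.K9h25
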