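import Pool.Agent.K9h25.Ch
import Pool.Agent.K9h25.Ar
import Pool.Agent.R885.NG4

/-!
The residue form at the places over the charts, for an arbitrary hypersurface.
-/

set_option autoImplicit false
set_option linter.overlappingInstances false
set_option linter.unusedSectionVars false

open FF Pool.Agent.R885 Pool.Agent.W603.LV Pool.Agent.W619.PQ Pool.Agent.Y173.QA
  Pool.Agent.W619.TW Pool.Agent.TH165.ACC

namespace Pool.Agent.K9h25

section

variable {k K : Type} [Field k] [CharZero k] [Field K] [Algebra k K] {r m d : ℕ} {x : Fin r → K}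

/-- **The residue form at the places over the charts.** -/
theorem place_neg (htr : Algebra.trdeg k K = (m + 1 : ℕ))
    (hgen : IntermediateField.adjoin k (Set.range x) = ⊤)
    (P : Place k K) (hx : ∀ i, x i ≠ 0)
    (e : (Unit ⊕ Fin d) ⊕ Fin (m + 1) ≃ Fin r) {f : (Fin r → ℤ) →₀ k}
    (hf0 : f ≠ 0) (hf : ev x f = 0) {w : Fin d → Fin r → ℤ} {t : Fin d → k}
    (hwt : ∀ j, algebraMap k K (t j) = mono x (w j))
    (hli : LinearIndependent K (Sum.elim (fun _ : Unit => gr x f) fun j i => (w j i : K)))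
    {S : Finset (Fin r → ℤ)} {u0 : Fin r → ℤ} {c a0 : ℤ} (hc : 0 < c)
    (hwS : ∀ j, ∀ s ∈ S, w j ⬝ᵥ s = 0) (hS : ∀ s ∈ S, u0 ⬝ᵥ s = a0 + c * mn s f)
    (hsp : InSpan S (vec P x)) {c1 : ℤ} {B : Finset (Fin r → ℤ)} (h0B : (0 : Fin r → ℤ) ∈ B)
    (hB : ∀ v : Fin r → ℤ, (∀ q : Fin r → ℚ, (∀ s ∈ S, dq q s = 0) → dq q v = 0) →
        ∃ (j : ℕ) (σ : Fin j → Fin r → ℤ) (α : Fin j → ℚ), (∀ i, σ i ∈ S ∧ 0 < α i) ∧
          (∀ k, ∑ i, α i * (σ i k : ℚ) = v k) ∧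
          (LinearIndependent ℚ fun (i : Fin j) (k : Fin r) => (σ i k : ℚ)) ∧
          ((∑ i, σ i) ∈ S → j ≤ 1) ∧
          ∀ b ∈ B, (∀ b' ∈ B, b ⬝ᵥ v ≤ b' ⬝ᵥ v) → ∀ i, b ⬝ᵥ σ i = -c1)
    {v : Fin (m + 2) → B → k} (hℓ : ∀ l, ∑ b : B, v l b • mono x b ≠ 0)
    (hbas : ∀ l0 : Fin (m + 2), IsTranscendenceBasis k fun j : Fin (m + 1) =>
        (∑ b : B, v (l0.succAbove j) b • mono x b) / ∑ b : B, v l0 b • mono x b)
    (hord : ∀ b : B, ∃ l, P.ord (∑ b : B, v l b • mono x b) ≤ P.ord (mono x b))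
    {C0 : Fin (m + 1) → Fin r → ℤ} (h0 : dt e (fun l => gr x (hs f w t l)) C0 ≠ 0)
    (l0 : Fin (m + 2)) {p : MvPolynomial (Fin (m + 1)) k} (hp : Irreducible p)
    (hP : Adic (fun j : Fin (m + 1) =>
        (∑ b : B, v (l0.succAbove j) b • mono x b) / ∑ b : B, v l0 b • mono x b) p P)
    (hhom : ∀ (C : Fin m → Fin r → ℤ) (σ : Fin 2 → Fin r → ℤ), (∀ j, C j ⬝ᵥ vec P x = 0) →
      (AlgebraicIndependent k fun j => P.red (mono x (C j))) →
      (LinearIndependent ℚ fun (z : Fin d ⊕ Fin m) (i : Fin r) =>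
        ((Sum.elim w C z i : ℤ) : ℚ)) →
      (LinearIndependent ℚ fun (i : Fin 2) (k : Fin r) => (σ i k : ℚ)) →
      (∀ j i, w j ⬝ᵥ σ i = 0) → (∀ j i, C j ⬝ᵥ σ i = 0) →
      ∃ m ∈ f.support, ∃ m' ∈ f.support, m ⬝ᵥ vec P x = mn (vec P x) f ∧
        m' ⬝ᵥ vec P x = mn (vec P x) f ∧ ∃ i, m ⬝ᵥ σ i ≠ m' ⬝ᵥ σ i)
    {V0 K1 : ℚ} (hV0 : ∀ s ∈ S, ∀ i, |(s i : ℚ)| ≤ V0)
    (hK1 : ∀ s ∈ S, ∀ m ∈ f.support, |((m ⬝ᵥ s : ℤ) : ℚ)| ≤ K1) :
    IsDivisorial P (m + 1) ∧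
    ∃ D : Fin (m + 1) → Derivation k K K, (∀ a, Pres P (D a)) ∧ Om e x (hs f w t) C0 D ≠ 0 ∧
      ∃ N : ℚ, 0 ≤ N ∧
        (c : ℚ) * P.ord (Om e x (hs f w t) C0 D) + ((u0 ⬝ᵥ vec P x : ℤ) : ℚ) ≤ -(c - a0) * N ∧
        P.ord (Om e x (hs f w t) C0 D) + mn (vec P x) f ≤ 0 ∧
        (∀ i, |(vec P x i : ℚ)| ≤ V0 * N) ∧ |(mn (vec P x) f : ℚ)| ≤ K1 * N := by
  classical
  have hK0 : CharZero K := charZero_of_injective_algebraMap (algebraMap k K).injective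
  have hfin : ∀ y : Fin (m + 1) → K, IsTranscendenceBasis k y →
      FiniteDimensional (IntermediateField.adjoin k (Set.range y)) K :=
    fun y hy => hfin_of_gen hgen hy
  obtain ⟨b, hy⟩ := adic_res (hbas l0).1 hp hP
  refine ⟨⟨_, hy⟩, ?_⟩
  obtain ⟨bs, -, hbs⟩ := Finset.exists_min_image (Finset.univ : Finset B)
    (fun b => (b : Fin r → ℤ) ⬝ᵥ vec P x) ⟨⟨0, h0B⟩, Finset.mem_univ _⟩
  have hbs' : ∀ b : B, (bs : Fin r → ℤ) ⬝ᵥ vec P x ≤ (b : Fin r → ℤ) ⬝ᵥ vec P x := fun b =>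
    hbs b (Finset.mem_univ _)
  obtain ⟨ℓ, hℓd⟩ : ∃ ℓ : Fin (m + 2) → K, ℓ = fun l => ∑ b : B, v l b • mono x b := ⟨_, rfl⟩
  have hℓd' : ∀ l, ∑ b : B, v l b • mono x b = ℓ l := fun l => by rw [hℓd]
  simp only [hℓd'] at hℓ hbas hord hP hy
  have hZ0 : ∀ j : Fin (m + 1), 0 ≤ P.ord (ℓ (l0.succAbove j) / ℓ l0) := by
    intro j
    have h1 := (hP (MvPolynomial.X j) (MvPolynomial.X_ne_zero j)).1
    rwa [MvPolynomial.aeval_X] at h1
  have hmin : ∀ l, P.ord (ℓ l0) ≤ P.ord (ℓ l) := by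
    intro l
    by_cases hl : l = l0
    · rw [hl]
    · obtain ⟨j, rfl⟩ := Fin.exists_succAbove_eq hl
      have h1 := hZ0 j
      rw [P.ord_div (hℓ _) (hℓ _)] at h1
      omega
  have hordℓ : P.ord (ℓ l0) = (bs : Fin r → ℤ) ⬝ᵥ vec P x := by
    apply le_antisymm
    · obtain ⟨l, hl⟩ := hord bs
      rw [ord_mono P hx] at hl
      exact (hmin l).trans hl
    · have h1 : Ge P ((bs : Fin r → ℤ) ⬝ᵥ vec P x) (ℓ l0) := by
        rw [← hℓd']
        refine Ge.sum _ _ fun b _ => ?_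
        rw [Algebra.smul_def]
        have h2 : Ge P ((bs : Fin r → ℤ) ⬝ᵥ vec P x) (mono x (b : Fin r → ℤ)) := Or.inr (by
          rw [ord_mono P hx]
          exact hbs' b)
        have h3 := (Ge.const (P := P) (v l0 b)).mul h2
        rwa [zero_add] at h3
      exact h1.resolve_left (hℓ _)
  -- the forms divided by the monomial
  have hz0 : mono x (bs : Fin r → ℤ) ≠ 0 := mono_ne hx _
  have ht : ∀ l, ∑ b : B, v l b • mono x ((b : Fin r → ℤ) - bs) = ℓ l / mono x (bs : Fin r → ℤ) := by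
    intro l
    rw [← hℓd', Finset.sum_div]
    refine Finset.sum_congr rfl fun b _ => ?_
    rw [mono_sub hx, smul_div_assoc]
  have hne : ℓ l0 / mono x (bs : Fin r → ℤ) ≠ 0 := div_ne_zero (hℓ _) hz0
  have ho : P.ord (ℓ l0 / mono x (bs : Fin r → ℤ)) = 0 := by
    rw [P.ord_div (hℓ _) hz0, ord_mono P hx, hordℓ, sub_self]
  have hmul : ∀ j : Fin m, ℓ (l0.succAbove (b.succAbove j)) / ℓ l0 *
      (ℓ l0 / mono x (bs : Fin r → ℤ)) =
      ℓ (l0.succAbove (b.succAbove j)) / mono x (bs : Fin r → ℤ) := by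
    intro j
    have := hℓ l0
    field_simp
  have hyl : ∀ j : Fin m, ℓ (l0.succAbove (b.succAbove j)) / ℓ l0 *
      (∑ b : B, v l0 b • mono x ((b : Fin r → ℤ) - bs)) =
      ∑ b_1 : B, v (l0.succAbove (b.succAbove j)) b_1 • mono x ((b_1 : Fin r → ℤ) - bs) :=
    fun j => by rw [ht, ht]; exact hmul j
  have hl0 : (∑ b : B, v l0 b • mono x ((b : Fin r → ℤ) - bs)) ≠ 0 := by rw [ht]; exact hne
  have hl0' : P.ord (∑ b : B, v l0 b • mono x ((b : Fin r → ℤ) - bs)) = 0 := by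
    rw [ht]
    exact ho
  obtain ⟨β, hβ, hβi⟩ := exists_C P hx hbs' hy (a := fun j => v (l0.succAbove (b.succAbove j)))
    (a0 := v l0) hl0 hl0' hyl
  obtain ⟨C, hCd⟩ : ∃ C : Fin m → Fin r → ℤ, C = fun j => (β j : Fin r → ℤ) - bs := ⟨_, rfl⟩
  have hCv : ∀ j, C j ⬝ᵥ vec P x = 0 := by
    intro j
    rw [hCd]
    beta_reduce
    rw [sub_dotProduct, hβ, sub_self]
  have hCi : AlgebraicIndependent k fun j => P.red (mono x (C j)) := by
    rw [hCd]
    exact hβi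
  have hyC := unit_of_ind P (z := fun j => mono x (C j)) (fun j => Or.inr (by
    rw [ord_mono P hx, hCv])) hCi
  obtain ⟨hliwC, D, hD, hOm, hOm0, hOm1⟩ := om_upper htr hfin P hx hgen (e := e) hf0 hf hwt hli
    hCv hyC h0
  obtain ⟨jj, σ, α, hσ, hsum, hlis, -, hface⟩ := hB (vec P x) (inSpan_dq hsp)
  have hCσ : ∀ j i, C j ⬝ᵥ σ i = 0 := by
    intro j i
    have h1 := hface (β j) (β j).2 (fun b' hb' => by
      rw [hβ]
      exact hbs' ⟨b', hb'⟩) i
    have h2 := hface bs bs.2 (fun b' hb' => hbs' ⟨b', hb'⟩) i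
    rw [hCd]
    beta_reduce
    rw [sub_dotProduct, h1, h2, sub_self]
  have hwσ : ∀ j i, w j ⬝ᵥ σ i = 0 := fun j i => hwS j _ (hσ i).1
  have hcard : r = (1 + d) + (m + 1) := by
    rw [← Fintype.card_fin r, ← Fintype.card_congr e]
    simp only [Fintype.card_sum, Fintype.card_unit, Fintype.card_fin]
  have hjj : jj ≤ 2 := by
    have h1 := rank_le hliwC (li_field (F := K) hlis) (by
      rintro (j | j) i
      · change ∑ l, (w j l : K) * (σ i l : K) = 0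
        rw [dot_intCast, hwσ, Int.cast_zero]
      · change ∑ l, (C j l : K) * (σ i l : K) = 0
        rw [dot_intCast, hCσ, Int.cast_zero])
    simp only [Fintype.card_sum, Fintype.card_fin] at h1
    omega
  refine ⟨D, hD, hOm, ∑ i, α i, Finset.sum_nonneg fun i _ => (hσ i).2.le, ?_⟩
  have hbd : (∀ i, |(vec P x i : ℚ)| ≤ V0 * ∑ i, α i) ∧
      |(mn (vec P x) f : ℚ)| ≤ K1 * ∑ i, α i := by
    constructor
    · intro i
      have h1 := comb_bound (fun i => (hσ i).2) hsum (w := Pi.single i 1) (V0 := V0) (by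
        intro j
        rw [single_one_dotProduct]
        exact hV0 _ (hσ j).1 i)
      rwa [single_one_dotProduct] at h1
    · obtain ⟨m0, hm0, hm0'⟩ := exists_mn hf0 (vec P x)
      have h1 := comb_bound (fun i => (hσ i).2) hsum (w := m0) (V0 := K1) (by
        intro j
        exact hK1 _ (hσ j).1 m0 hm0)
      rwa [hm0'] at h1
  rw [← and_assoc]
  refine ⟨?_, hbd⟩
  by_cases hv : vec P x = 0
  · have h1 := hOm0 hv
    have hα : ∀ i : Fin jj, False := by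
      intro i
      have h2 : LinearIndependent ℚ fun (i : Fin jj) (k : Fin r) => (σ i k : ℚ) := hlis
      have h3 := Fintype.linearIndependent_iff.1 h2 α (by
        funext l
        rw [Finset.sum_apply]
        have h4 := hsum l
        rw [hv] at h4
        simpa using h4)
      exact (hσ i).2.ne' (h3 i)
    have h2 : ∑ i, α i = 0 := Finset.sum_eq_zero fun i _ => (hα i).elim
    rw [h2, hv, dotProduct_zero, mn_zero hf0, mul_zero, Int.cast_zero, add_zero, add_zero]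
    refine ⟨?_, h1⟩
    have h3 : (P.ord (Om e x (hs f w t) C0 D) : ℚ) ≤ 0 := by exact_mod_cast h1
    have h4 : (0 : ℚ) < c := by exact_mod_cast hc
    exact mul_nonpos_of_nonneg_of_nonpos h4.le h3
  · obtain ⟨g, s', c', hg, hgs, hc'⟩ := exists_prim hv
    refine total_arith (fun i => (hσ i).2) hf0 hsum hjj ?_ hc (fun i => hS _ (hσ i).1) hg hgs hc'
      (hOm1 g s' c' hg hgs hc')
    rintro rfl
    exact hhom C σ hCv hCi (li_down (F := K) hliwC) hlis hwσ hCσ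

end

end Pool.Agent.K9h25
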