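import Pool.Agent.K9h25.Sp
import Pool.Agent.R885.NOm

/-!
The order of the residue form of a hypersurface of a torus at a place at which the hypersurface is
degenerate, but the logarithmic Hessian has a large rank.
-/

set_option autoImplicit false
set_option linter.overlappingInstances false
set_option linter.unusedSectionVars false

open FF Pool.Agent.R885 Pool.Agent.W603.LV Pool.Agent.W619.PQ

namespace Pool.Agent.K9h25

section

variable {r n : ℕ} {J : Type} [Fintype J] [DecidableEq J] {K : Type} [Field K]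

/-- the determinant of the rows `G` and `R` -/
noncomputable def dtK (e : J ⊕ Fin n ≃ Fin r) (G : J → Fin r → K) (R : Fin n → Fin r → K) : K :=
  Matrix.det (Matrix.of fun a b => (Sum.elim G R : J ⊕ Fin n → Fin r → K) a (e b))

/-- the pairings of the rows `R` and the vectors `W` -/
noncomputable def cwK (R : Fin n → Fin r → K) (W : Fin n → Fin r → K) :
    Matrix (Fin n) (Fin n) K := Matrix.of fun b a => ∑ i, R b i * W a i

theorem dtK_cwK {e : J ⊕ Fin n ≃ Fin r} {G : J → Fin r → K} {C0 : Fin n → Fin r → ℤ}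
    (h0 : dt e G C0 ≠ 0) {W : Fin n → Fin r → K} (hW : ∀ l a, ∑ i, G l i * W a i = 0)
    (R : Fin n → Fin r → K) :
    dt e G C0 * (cwK R W).det = dtK e G R * (cw C0 W).det := by
  classical
  let M0 : Matrix (J ⊕ Fin n) (J ⊕ Fin n) K := Matrix.of fun a b => rows G C0 a (e b)
  have hM0 : IsUnit M0.det := isUnit_iff_ne_zero.2 h0
  let X : Matrix (J ⊕ Fin n) (J ⊕ Fin n) K := Matrix.of fun b a =>
    Sum.elim (fun l => M0⁻¹ b (Sum.inl l)) (fun a => W a (e b)) a
  have key : ∀ R' : Fin n → Fin r → K, dtK e G R' * X.det = (cwK R' W).det := by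
    intro R'
    let M : Matrix (J ⊕ Fin n) (J ⊕ Fin n) K :=
      Matrix.of fun a b => (Sum.elim G R' : J ⊕ Fin n → Fin r → K) a (e b)
    have h1 : M * X = Matrix.fromBlocks 1 0
        (Matrix.of fun b l => ∑ c, M (Sum.inr b) c * X c (Sum.inl l)) (cwK R' W) := by
      ext a b
      rw [Matrix.mul_apply]
      rcases a with a | a <;> rcases b with b | b
      · rw [Matrix.fromBlocks_apply₁₁]
        have h2 := congrFun (congrFun (Matrix.mul_nonsing_inv M0 hM0) (Sum.inl a)) (Sum.inl b)
        rw [Matrix.mul_apply] at h2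
        rw [Matrix.one_apply] at h2 ⊢
        simp only [Sum.inl.injEq] at h2
        rw [← h2]
        rfl
      · rw [Matrix.fromBlocks_apply₁₂, Matrix.zero_apply]
        change ∑ c, G a (e c) * W b (e c) = 0
        rw [e.sum_comp fun i => G a i * W b i]
        exact hW a b
      · rfl
      · rw [Matrix.fromBlocks_apply₂₂]
        change ∑ c, R' a (e c) * W b (e c) = ∑ i, R' a i * W b i
        rw [e.sum_comp fun i => R' a i * W b i]
    have h2 := congrArg Matrix.det h1
    rw [Matrix.det_mul, Matrix.det_fromBlocks_zero₁₂, Matrix.det_one, one_mul] at h2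
    exact h2
  have h1 : dt e G C0 * X.det = (cw C0 W).det := key fun b i => (C0 b i : K)
  rw [← key R, ← h1]
  ring

end

section

variable {k K : Type} [Field k] [Field K] [Algebra k K] {r n : ℕ} {x : Fin r → K}

theorem der_gr (D : Derivation k K K) (hx : ∀ i, x i ≠ 0) (f : (Fin r → ℤ) →₀ k) (i : Fin r) :
    D (gr x f i) = ∑ j, hess x f i j * lg x D j := by
  classical
  unfold gr hess Finsupp.sum lg
  simp only [Matrix.of_apply]
  rw [map_sum]
  simp only [Finset.sum_mul]
  rw [Finset.sum_comm]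
  refine Finset.sum_congr rfl fun m _ => ?_
  have h1 : algebraMap k K (f m) * ((m i : ℤ) : K) = algebraMap k K (f m * ((m i : ℤ) : k)) := by
    rw [map_mul, map_intCast]
  rw [h1, D.leibniz, der_mono D hx, D.map_algebraMap, smul_zero, add_zero, smul_eq_mul,
    Finset.mul_sum, Finset.mul_sum, ← h1]
  refine Finset.sum_congr rfl fun j _ => ?_
  push_cast
  ring

theorem om_dtK {J : Type} [Fintype J] [DecidableEq J] {e : J ⊕ Fin n ≃ Fin r}
    (hx : ∀ i, x i ≠ 0) {f : J → (Fin r → ℤ) →₀ k} (hf : ∀ l, ev x (f l) = 0)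
    {C0 : Fin n → Fin r → ℤ} (h0 : dt e (fun l => gr x (f l)) C0 ≠ 0)
    (D : Fin n → Derivation k K K) (R : Fin n → Fin r → K) :
    Om e x f C0 D * dtK e (fun l => gr x (f l)) R = (cwK R fun a => lg x (D a)).det := by
  have h1 := dtK_cwK h0 (W := fun a => lg x (D a)) (fun l a => gr_lg hx (hf l) (D a)) R
  unfold Om
  rw [div_mul_eq_mul_div, div_eq_iff h0, mul_comm (cwK _ _).det, h1, mul_comm]

/-- **The order of the residue form at a degenerate place.** -/
theorem om_ge_mild (P : Place k K) {e : Unit ⊕ Fin n ≃ Fin r} (hx : ∀ i, x i ≠ 0)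
    {f : (Fin r → ℤ) →₀ k} (hf0 : f ≠ 0) (hf : ev x f = 0) {C0 : Fin n → Fin r → ℤ}
    (h0 : dt e (fun _ => gr x f) C0 ≠ 0) {D : Fin n → Derivation k K K}
    (hD : ∀ a, Pres P (D a)) {s : ℕ} (hs : 1 ≤ s)
    (hz : gr (pt P x) (ini (vec P x) f) = 0)
    (hrk : s + 1 ≤ (hess (pt P x) (ini (vec P x) f)).rank) :
    Ge P ((s : ℤ) - 2 - mn (vec P x) f) (Om e x (fun _ : Unit => f) C0 D) := by
  classical
  obtain ⟨m0, hm0, hm0'⟩ := exists_mn hf0 (vec P x)
  obtain ⟨g, hgd⟩ : ∃ g : Fin r → K, g = gr' x f m0 := ⟨_, rfl⟩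
  have hgr : ∀ i, gr x f i = mono x m0 * g i := fun i => by rw [hgd]; exact gr_eq hx f m0 i
  have hgreg : ∀ i, P.Reg (g i) := fun i => by rw [hgd]; exact reg_gr' P hx f hm0' i
  have hgred : ∀ i, P.red (g i) = 0 := by
    intro i
    rw [hgd, red_gr' P hx f hm0' i, hz, Pi.zero_apply, zero_div]
  have hz0 := mono_ne hx m0
  -- the smallest order
  have hne : (Finset.univ.filter fun i => g i ≠ 0).Nonempty := by
    by_contra hcon
    rw [Finset.not_nonempty_iff_eq_empty, Finset.filter_eq_empty_iff] at hcon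
    apply h0
    unfold dt
    refine Matrix.det_eq_zero_of_row_eq_zero (Sum.inl ()) fun b => ?_
    change gr x f (e b) = 0
    rw [hgr, not_not.1 (hcon (Finset.mem_univ (e b))), mul_zero]
  obtain ⟨i0, hi0, hmin⟩ := Finset.exists_min_image _ (fun i => P.ord (g i)) hne
  rw [Finset.mem_filter] at hi0
  have hg0 : g i0 ≠ 0 := hi0.2
  obtain ⟨δ, hδ⟩ : ∃ δ, δ = P.ord (g i0) := ⟨_, rfl⟩
  have hδ1 : 1 ≤ δ := by
    have h1 := (P.red_eq_zero_iff (hgreg i0)).1 (hgred i0)
    rcases h1 with h1 | h1
    · exact absurd h1 hg0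
    · omega
  have hgδ : ∀ i, Ge P δ (g i) := by
    intro i
    by_cases h1 : g i = 0
    · exact Or.inl h1
    · right
      rw [hδ]
      exact hmin i (Finset.mem_filter.2 ⟨Finset.mem_univ _, h1⟩)
  obtain ⟨g1, hg1d⟩ : ∃ g1 : Fin r → K, g1 = fun i => g i / g i0 := ⟨_, rfl⟩
  have hg1 : ∀ i, g i = g i0 * g1 i := by
    intro i
    rw [hg1d]
    field_simp
  have hg1reg : ∀ i, P.Reg (g1 i) := by
    intro i
    have h1 : Ge P (0 + δ) (g i0 * g1 i) := by rw [← hg1, zero_add]; exact hgδ i
    exact Ge.of_mul' hg0 hδ.symm h1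
  have hg1i : g1 i0 = 1 := by
    rw [hg1d]
    exact div_self hg0
  -- the Hessian
  obtain ⟨H, hHd⟩ : ∃ H : Fin r → Fin r → K, H = fun i j =>
    ∑ m ∈ f.support, algebraMap k K (f m) * ((m i * m j : ℤ) : K) * mono x (m - m0) := ⟨_, rfl⟩
  have hH : ∀ i j, hess x f i j = mono x m0 * H i j := by
    intro i j
    rw [hHd]
    unfold hess Finsupp.sum
    rw [Matrix.of_apply, Finset.mul_sum]
    refine Finset.sum_congr rfl fun m _ => ?_
    rw [mono_sub hx]
    field_simp
  have hHred : ∀ i j, P.red (H i j) = hess (pt P x) (ini (vec P x) f) i j / mono (pt P x) m0 := by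
    intro i j
    have h1 := red_lau P hx f hm0' fun m => m i * m j
    rw [hHd]
    refine h1.trans ?_
    unfold hess
    rw [Matrix.of_apply, ini_sum]
  have hge : ∀ m ∈ f.support, 0 ≤ (m - m0) ⬝ᵥ vec P x := by
    intro m hm
    rw [sub_dotProduct, hm0']
    exact sub_nonneg.2 (mn_le hm)
  have hHreg : ∀ i j, P.Reg (H i j) := by
    intro i j
    rw [hHd]
    exact Ge.sum (P := P) (N := 0) _ _ fun m hm => reg_const_int_mono P hx _ _ (hge m hm)
  -- the rows
  obtain ⟨σ, hσ⟩ := exists_rows_mod _ hrk (w := fun i => P.red (g1 i)) (by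
    intro h1
    have h2 := congrFun h1 i0
    beta_reduce at h2
    rw [hg1i, P.red_one] at h2
    exact one_ne_zero h2)
  have hpt := pt_ne P hx
  have hli : LinearIndependent P.RF (Sum.elim (fun (_ : Unit) i => P.red (g1 i))
      fun (j : Fin s) i => P.red (H (σ j) i)) := by
    have h3 := hσ.units_smul (fun z : Unit ⊕ Fin s => Sum.elim (fun _ => (1 : P.RFˣ))
      (fun _ => (Units.mk0 (mono (pt P x) m0) (mono_ne hpt _))⁻¹) z)
    convert h3 using 1
    funext z i
    rcases z with z | z
    · change _ = ((1 : P.RFˣ) • (fun i => P.red (g1 i))) i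
      rw [one_smul]
      rfl
    · change P.red (H (σ z) i) = ((mono (pt P x) m0)⁻¹ •
        (hess (pt P x) (ini (vec P x) f) (σ z))) i
      rw [hHred, Pi.smul_apply, smul_eq_mul, div_eq_mul_inv, mul_comm]
  have hcard : r = 1 + n := by
    rw [← Fintype.card_fin r, ← Fintype.card_congr e, Fintype.card_sum, Fintype.card_fin,
      Fintype.card_unit]
  have hsn : s ≤ n := by
    have h1 := hli.fintype_card_le_finrank
    rw [Fintype.card_sum, Fintype.card_fin, Fintype.card_unit, Module.finrank_fintype_fun_eq_card,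
      Fintype.card_fin] at h1
    omega
  obtain ⟨d, rfl⟩ := Nat.exists_eq_add_of_le hsn
  obtain ⟨C, hC⟩ := complete_zero hli (n := d) (by
    rw [Fintype.card_sum, Fintype.card_fin, Fintype.card_fin, Fintype.card_unit]
    omega)
  obtain ⟨R, hRd⟩ : ∃ R : Fin (s + d) → Fin r → K,
    R = Fin.append (fun j => H (σ j)) (fun b i => (C b i : K)) := ⟨_, rfl⟩
  have hR1 : ∀ j : Fin s, R (Fin.castAdd d j) = H (σ j) := fun j => by
    rw [hRd, Fin.append_left]
  have hR2 : ∀ b : Fin d, R (Fin.natAdd s b) = fun i => (C b i : K) := fun b => by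
    rw [hRd, Fin.append_right]
  have hRreg : ∀ b i, P.Reg (R b i) := by
    intro b i
    refine Fin.addCases (fun j => ?_) (fun b => ?_) b
    · rw [hR1]
      exact hHreg _ _
    · rw [hR2]
      exact reg_int P _
  -- the determinant
  have hdt1 : dtK e (fun _ : Unit => g1) R ≠ 0 ∧ P.ord (dtK e (fun _ : Unit => g1) R) = 0 := by
    obtain ⟨h1, h2⟩ := red_det P (Matrix.of fun a b =>
      (Sum.elim (fun _ : Unit => g1) R : Unit ⊕ Fin (s + d) → Fin r → K) a (e b)) (by
        rintro (a | a) b
        · exact hg1reg _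
        · exact hRreg _ _)
    have h3 : P.red (dtK e (fun _ : Unit => g1) R) ≠ 0 := by
      unfold dtK
      rw [h2]
      have h4 := hC.comp (fun z : Unit ⊕ Fin (s + d) => (Sum.elim (fun _ => Sum.inl (Sum.inl ()))
        (fun b => Sum.map Sum.inr id (finSumFinEquiv.symm b)) z : (Unit ⊕ Fin s) ⊕ Fin d)) (by
        rintro (a | a) (b | b) hab
        · rfl
        · exfalso
          rcases h5 : finSumFinEquiv.symm b with c | c
          · simp only [Sum.elim_inl, Sum.elim_inr, h5, Sum.map_inl, Sum.inl.injEq,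
              reduceCtorEq] at hab
          · simp only [Sum.elim_inl, Sum.elim_inr, h5, Sum.map_inr, reduceCtorEq] at hab
        · exfalso
          rcases h5 : finSumFinEquiv.symm a with c | c
          · simp only [Sum.elim_inl, Sum.elim_inr, h5, Sum.map_inl, Sum.inl.injEq,
              reduceCtorEq] at hab
          · simp only [Sum.elim_inl, Sum.elim_inr, h5, Sum.map_inr, reduceCtorEq] at hab
        · have h5 : finSumFinEquiv.symm a = finSumFinEquiv.symm b :=
            (Sum.map_injective.2 ⟨Sum.inr_injective, Function.injective_id⟩) hab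
          rw [finSumFinEquiv.symm.injective h5])
      have h5 := h4.map' (LinearEquiv.funCongrLeft P.RF P.RF e).toLinearMap
        (LinearMap.ker_eq_bot.2 (LinearEquiv.injective _))
      have h6' : (⇑(LinearEquiv.funCongrLeft P.RF P.RF e).toLinearMap ∘
          ((Sum.elim (Sum.elim (fun (_ : Unit) i => P.red (g1 i))
            fun (j : Fin s) i => P.red (H (σ j) i)) fun b i => ((C b i : ℤ) : P.RF)) ∘
          fun z : Unit ⊕ Fin (s + d) => (Sum.elim (fun _ => Sum.inl (Sum.inl ()))
            (fun b => Sum.map Sum.inr id (finSumFinEquiv.symm b)) z : (Unit ⊕ Fin s) ⊕ Fin d))) =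
          ((Matrix.of fun a b =>
            (Sum.elim (fun _ : Unit => g1) R : Unit ⊕ Fin (s + d) → Fin r → K) a (e b)).map
            P.red).row := by
        funext a b
        rcases a with a | a
        · rfl
        · change (Sum.elim (Sum.elim (fun (_ : Unit) i => P.red (g1 i))
            fun (j : Fin s) i => P.red (H (σ j) i)) (fun b i => ((C b i : ℤ) : P.RF))
            (Sum.map Sum.inr id (finSumFinEquiv.symm a)) : Fin r → P.RF) (e b) =
            P.red (R a (e b))
          refine Fin.addCases (fun j => ?_) (fun b' => ?_) a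
          · rw [hR1, finSumFinEquiv_symm_apply_castAdd]
            rfl
          · rw [hR2, finSumFinEquiv_symm_apply_natAdd]
            change ((C b' (e b) : ℤ) : P.RF) = P.red ((C b' (e b) : ℤ) : K)
            rw [red_int]
      have h6 : LinearIndependent P.RF ((Matrix.of fun a b =>
          (Sum.elim (fun _ : Unit => g1) R : Unit ⊕ Fin (s + d) → Fin r → K) a (e b)).map
            P.red).row := by
        rw [← h6']
        exact h5
      rw [Matrix.linearIndependent_rows_iff_isUnit, Matrix.isUnit_iff_isUnit_det] at h6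
      exact h6.ne_zero
    have h1' : P.Reg (dtK e (fun _ : Unit => g1) R) := h1
    rw [Ne, P.red_eq_zero_iff h1'] at h3
    push Not at h3
    have h4 := (P.reg_iff h3.1).1 h1'
    exact ⟨h3.1, le_antisymm h3.2 h4⟩
  have hdt : dtK e (fun _ : Unit => gr x f) R = mono x m0 * g i0 * dtK e (fun _ : Unit => g1) R := by
    unfold dtK
    have h1 : (Matrix.of fun a b =>
        (Sum.elim (fun _ : Unit => gr x f) R : Unit ⊕ Fin (s + d) → Fin r → K) a (e b)) =
        Matrix.of fun a b => (Sum.elim (fun _ : Unit => mono x m0 * g i0) (fun _ => 1) a) *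
          (Matrix.of fun a b =>
            (Sum.elim (fun _ : Unit => g1) R : Unit ⊕ Fin (s + d) → Fin r → K) a (e b)) a b := by
      ext a b
      rcases a with a | a
      · change gr x f (e b) = mono x m0 * g i0 * g1 (e b)
        rw [hgr, hg1 (e b)]
        ring
      · change R a (e b) = 1 * R a (e b)
        rw [one_mul]
    rw [h1, Matrix.det_mul_column, Fintype.prod_sum_type]
    simp
  have hdt0 : dtK e (fun _ : Unit => gr x f) R ≠ 0 := by
    rw [hdt]
    exact mul_ne_zero (mul_ne_zero hz0 hg0) hdt1.1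
  have hdto : P.ord (dtK e (fun _ : Unit => gr x f) R) = mn (vec P x) f + δ := by
    rw [hdt, P.ord_mul (mul_ne_zero hz0 hg0) hdt1.1, P.ord_mul hz0 hg0, hdt1.2, ord_mono P hx,
      hm0', ← hδ, add_zero]
  have hOm := om_dtK (e := e) hx (f := fun _ : Unit => f) (fun _ => hf) h0 D R
  have hOm' : Om e x (fun _ : Unit => f) C0 D = (cwK R fun a => lg x (D a)).det *
      (dtK e (fun _ : Unit => gr x f) R)⁻¹ := by
    rw [← hOm, mul_inv_cancel_right₀ hdt0]
  rw [hOm']
  -- the numerator
  have hrow1 : ∀ (j : Fin s) (a : Fin (s + d)),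
      ∑ i, R (Fin.castAdd d j) i * lg x (D a) i = (mono x m0)⁻¹ * D a (gr x f (σ j)) := by
    intro j a
    rw [der_gr (D a) hx, Finset.mul_sum, hR1]
    refine Finset.sum_congr rfl fun i _ => ?_
    rw [hH]
    field_simp
  by_cases hall : ∀ j : Fin s, gr x f (σ j) ≠ 0
  · let z : Fin (s + d) → K := Fin.append (fun j => gr x f (σ j)) fun b => mono x (C b)
    let ρ : Fin (s + d) → K := Fin.append (fun j => g (σ j)) fun _ => 1
    have hz1 : ∀ b, z b ≠ 0 := by
      intro b
      refine Fin.addCases (fun j => ?_) (fun b => ?_) b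
      · change Fin.append _ _ _ ≠ 0
        rw [Fin.append_left]
        exact hall j
      · change Fin.append _ _ _ ≠ 0
        rw [Fin.append_right]
        exact mono_ne hx _
    have h1 : (cwK R fun a => lg x (D a)) = Matrix.of fun b a => ρ b *
        (Matrix.of fun b a => D a (z b) / z b : Matrix (Fin (s + d)) (Fin (s + d)) K) b a := by
      ext b a
      rw [Matrix.of_apply, Matrix.of_apply]
      change ∑ i, R b i * lg x (D a) i = ρ b * (D a (z b) / z b)
      refine Fin.addCases (fun j => ?_) (fun b => ?_) b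
      · have h2 : z (Fin.castAdd d j) = gr x f (σ j) := Fin.append_left _ _ _
        have h3 : ρ (Fin.castAdd d j) = g (σ j) := Fin.append_left _ _ _
        rw [hrow1, h2, h3, hgr]
        have h4 : g (σ j) ≠ 0 := by
          intro h4
          apply hall j
          rw [hgr, h4, mul_zero]
        field_simp
      · have h2 : z (Fin.natAdd s b) = mono x (C b) := Fin.append_right _ _ _
        have h3 : ρ (Fin.natAdd s b) = 1 := Fin.append_right _ _ _
        rw [hR2, h2, h3, one_mul, der_mono (D a) hx, mul_div_cancel_left₀ _ (mono_ne hx _)]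
        rfl
    have h2 : (Matrix.of fun b a => D a (z b) / z b : Matrix (Fin (s + d)) (Fin (s + d)) K).det =
        (Matrix.of fun a b => D a (z b) / z b : Matrix (Fin (s + d)) (Fin (s + d)) K).det := by
      rw [← Matrix.det_transpose]
      rfl
    have h3 := det_log P D hD z hz1
    rw [h1, Matrix.det_mul_column, h2]
    have h4 : Ge P ((s : ℤ) * δ) (∏ b, ρ b) := by
      rw [Fin.prod_univ_add]
      have h5 : ∏ b : Fin d, ρ (Fin.natAdd s b) = 1 :=
        Finset.prod_eq_one fun b _ => Fin.append_right _ _ _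
      rw [h5, mul_one]
      have h6 := Ge.prod (P := P) Finset.univ (fun j : Fin s => ρ (Fin.castAdd d j))
        (fun _ => δ) fun j _ => by
          have h3 : ρ (Fin.castAdd d j) = g (σ j) := Fin.append_left _ _ _
          rw [h3]
          exact hgδ _
      rw [Finset.sum_const, Finset.card_univ, Fintype.card_fin, nsmul_eq_mul] at h6
      exact h6
    have h5 : Ge P (-(mn (vec P x) f + δ)) (dtK e (fun _ : Unit => gr x f) R)⁻¹ :=
      Or.inr (by rw [P.ord_inv, hdto])
    refine ((h4.mul h3).mul h5).mono ?_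
    have h6 : (1 : ℤ) ≤ s := by exact_mod_cast hs
    nlinarith
  · push Not at hall
    obtain ⟨j, hj⟩ := hall
    left
    have h1 : (cwK R fun a => lg x (D a)).det = 0 := by
      refine Matrix.det_eq_zero_of_row_eq_zero (Fin.castAdd d j) fun a => ?_
      change ∑ i, R (Fin.castAdd d j) i * lg x (D a) i = 0
      rw [hrow1, hj, map_zero, mul_zero]
    rw [h1, zero_mul]

/-- **The order of the residue form of a mild hypersurface.** -/
theorem om_mild (P : Place k K) {e : Unit ⊕ Fin n ≃ Fin r} (hx : ∀ i, x i ≠ 0)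
    {f : (Fin r → ℤ) →₀ k} (hf0 : f ≠ 0) (hf : ev x f = 0) {C0 : Fin n → Fin r → ℤ}
    (h0 : dt e (fun _ => gr x f) C0 ≠ 0) {D : Fin n → Derivation k K K}
    (hD : ∀ a, Pres P (D a))
    (hm : gr (pt P x) (ini (vec P x) f) = 0 → 2 ≤ (hess (pt P x) (ini (vec P x) f)).rank ∧
      (vec P x = 0 → 3 ≤ (hess (pt P x) (ini (vec P x) f)).rank)) :
    Ge P (-1 - mn (vec P x) f) (Om e x (fun _ : Unit => f) C0 D) ∧
      (vec P x = 0 → Ge P 0 (Om e x (fun _ : Unit => f) C0 D)) := by
  by_cases hz : gr (pt P x) (ini (vec P x) f) = 0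
  · obtain ⟨h1, h2⟩ := hm hz
    constructor
    · have h3 := om_ge_mild P hx hf0 hf h0 hD (s := 1) le_rfl hz h1
      refine h3.mono ?_
      push_cast
      omega
    · intro hv
      have h3 := om_ge_mild P hx hf0 hf h0 hD (s := 2) (by norm_num) hz (h2 hv)
      refine h3.mono ?_
      rw [hv, mn_zero hf0]
      norm_num
  · have hnd : N.NDP P x fun _ : Unit => f := by
      intro _
      exact linearIndependent_unique_iff.2 hz
    obtain ⟨h1, h2⟩ := N.om_ge P (e := e) hx (f := fun _ : Unit => f) (fun _ => hf0) (fun _ => hf)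
      hnd h0 hD
    refine ⟨?_, h2⟩
    rw [Finset.univ_unique, Finset.sum_singleton] at h1
    exact h1

end

end Pool.Agent.K9h25
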