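import Pool.Agent.K9h25.Kod

/-!
The order of the residue form of a hypersurface of a torus at the places at which the closure of the
hypersurface in a toric variety is quasi-smooth.
-/

set_option autoImplicit false
set_option linter.overlappingInstances false
set_option linter.unusedSectionVars false

open FF Pool.Agent.R885 Pool.Agent.W603.LV Pool.Agent.W619.PQ Pool.Agent.TH165.ACC
  Pool.Agent.TH122.AB
open Pool.Agent.W602.GT (KodGe LogSec RegAt LogAt DerReg DerLog Divisorial IsPluri)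

namespace Pool.Agent.K9h25

section

variable {K : Type} [Field K] {r n : ℕ}

theorem dt_single {e : Unit ⊕ Fin n ≃ Fin r} {ν : Fin r → ℤ} {i0 : Fin r} (hν : (ν i0 : K) ≠ 0)
    {C : Fin n → Fin r → ℤ} (hC : ∀ b, C b ⬝ᵥ ν = 0) (g : Fin r → K) :
    dt e (fun _ : Unit => g) C =
      dt e (fun _ : Unit => (Pi.single i0 1 : Fin r → K)) C / (ν i0 : K) *
        ∑ i, g i * (ν i : K) := by
  classical
  obtain ⟨b0, hb0⟩ : ∃ b0, b0 = e.symm i0 := ⟨_, rfl⟩
  have hb0' : e b0 = i0 := by rw [hb0, e.apply_symm_apply]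
  obtain ⟨M, hM⟩ : ∃ M : Matrix (Unit ⊕ Fin n) (Unit ⊕ Fin n) K,
    M = Matrix.of fun a b => rows (fun _ : Unit => g) C a (e b) := ⟨_, rfl⟩
  obtain ⟨w, hw⟩ : ∃ w : Unit ⊕ Fin n → K, w = fun b => (ν (e b) : K) := ⟨_, rfl⟩
  have h1 : M.mulVec w = (∑ i, g i * (ν i : K)) • (Pi.single (Sum.inl ()) 1 : Unit ⊕ Fin n → K) := by
    funext a
    rw [hM, hw]
    change ∑ b, rows (fun _ : Unit => g) C a (e b) * (ν (e b) : K) = _
    rw [e.sum_comp fun i => rows (fun _ : Unit => g) C a i * (ν i : K)]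
    rcases a with a | a
    · rw [Pi.smul_apply, Pi.single_eq_same, smul_eq_mul, mul_one]
      rfl
    · rw [Pi.smul_apply, Pi.single_eq_of_ne (by simp), smul_zero]
      change ∑ i, ((C a i : ℤ) : K) * (ν i : K) = 0
      have h2 := congrArg (fun z : ℤ => (z : K)) (hC a)
      beta_reduce at h2
      rw [← Int.cast_zero (R := K), ← h2]
      unfold dotProduct
      push_cast
      rfl
  have h2 : M.adjugate.mulVec (M.mulVec w) = M.det • w := by
    rw [Matrix.mulVec_mulVec, Matrix.adjugate_mul, Matrix.smul_mulVec, Matrix.one_mulVec]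
  rw [h1, Matrix.mulVec_smul] at h2
  have h3 := congrFun h2 b0
  rw [Pi.smul_apply, Pi.smul_apply, smul_eq_mul, smul_eq_mul, Matrix.mulVec_single_one] at h3
  have h4 : M.adjugate.col (Sum.inl ()) b0 =
      dt e (fun _ : Unit => (Pi.single i0 1 : Fin r → K)) C := by
    rw [Matrix.col_apply, Matrix.adjugate_apply]
    unfold dt
    congr 1
    ext a b
    rcases a with a | a
    · rw [Matrix.updateRow_self, Matrix.of_apply]
      change (Pi.single b0 1 : Unit ⊕ Fin n → K) b = (Pi.single i0 1 : Fin r → K) (e b)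
      by_cases hb : b = b0
      · rw [hb, hb0', Pi.single_eq_same, Pi.single_eq_same]
      · rw [Pi.single_eq_of_ne hb, Pi.single_eq_of_ne]
        intro h
        apply hb
        rw [hb0, ← h, e.symm_apply_apply]
    · rw [Matrix.updateRow_ne (by simp), hM]
      rfl
  rw [h4, hw] at h3
  beta_reduce at h3
  rw [hb0'] at h3
  have h5 : dt e (fun _ : Unit => g) C = M.det := by rw [hM]; rfl
  rw [h5, div_mul_eq_mul_div, eq_div_iff hν, ← h3]
  ring

/-- integral rows orthogonal to a vector -/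
theorem exists_orth [CharZero K] {e : Unit ⊕ Fin n ≃ Fin r} {ν : Fin r → ℤ} {i0 : Fin r}
    (hν : ν i0 ≠ 0) : ∃ C : Fin n → Fin r → ℤ, (∀ b, C b ⬝ᵥ ν = 0) ∧
      dt e (fun _ : Unit => (Pi.single i0 1 : Fin r → K)) C ≠ 0 := by
  classical
  have hli : LinearIndependent K (fun _ : Unit => (Pi.single i0 1 : Fin r → K)) :=
    linearIndependent_unique_iff.2 fun h => by
      have h1 := congrFun h i0
      rw [Pi.single_eq_same] at h1
      exact one_ne_zero h1
  obtain ⟨C0, hC0⟩ := complete_zero hli (n := n) (by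
    rw [← Fintype.card_congr e, Fintype.card_sum, Fintype.card_fin])
  have hsg : ∑ i, (Pi.single i0 1 : Fin r → ℤ) i * ν i = ν i0 := by
    rw [Finset.sum_eq_single i0]
    · rw [Pi.single_eq_same, one_mul]
    · intro b _ hb
      rw [Pi.single_eq_of_ne hb, zero_mul]
    · intro h
      exact absurd (Finset.mem_univ _) h
  refine ⟨fun b i => ν i0 * C0 b i - (C0 b ⬝ᵥ ν) * (Pi.single i0 1 : Fin r → ℤ) i,
    fun b => ?_, ?_⟩
  · unfold dotProduct
    have h1 : ∀ i, (ν i0 * C0 b i - (∑ i, C0 b i * ν i) * (Pi.single i0 1 : Fin r → ℤ) i) * ν i =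
        ν i0 * (C0 b i * ν i) - (∑ i, C0 b i * ν i) * ((Pi.single i0 1 : Fin r → ℤ) i * ν i) :=
      fun i => by ring
    rw [Finset.sum_congr rfl fun i _ => h1 i, Finset.sum_sub_distrib, ← Finset.mul_sum,
      ← Finset.mul_sum, hsg]
    ring
  · refine dt_ne ?_
    rw [Fintype.linearIndependent_iff] at hC0 ⊢
    intro c hc
    have hν' : (ν i0 : K) ≠ 0 := Int.cast_ne_zero.2 hν
    have key := hC0 (Sum.elim (fun _ => c (Sum.inl ()) - ∑ b, c (Sum.inr b) * ((C0 b ⬝ᵥ ν : ℤ) : K))
      fun b => c (Sum.inr b) * (ν i0 : K)) (by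
      funext i
      have h1 := congrFun hc i
      rw [Finset.sum_apply, Fintype.sum_sum_type] at h1 ⊢
      rw [Pi.zero_apply] at h1 ⊢
      rw [← h1]
      simp only [Finset.univ_unique, Finset.sum_singleton, Pi.smul_apply, smul_eq_mul, rows,
        Sum.elim_inl, Sum.elim_inr]
      push_cast
      rw [sub_mul, Finset.sum_mul]
      have h2 : ∀ b, c (Sum.inr b) * ((ν i0 : K) * (C0 b i : K) -
          ((C0 b ⬝ᵥ ν : ℤ) : K) * (((Pi.single i0 1 : Fin r → ℤ) i : ℤ) : K)) =
          c (Sum.inr b) * (ν i0 : K) * (C0 b i : K) -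
            c (Sum.inr b) * ((C0 b ⬝ᵥ ν : ℤ) : K) * (Pi.single i0 1 : Fin r → K) i := by
        intro b
        have h3 : (((Pi.single i0 1 : Fin r → ℤ) i : ℤ) : K) = (Pi.single i0 1 : Fin r → K) i := by
          by_cases h : i = i0
          · rw [h, Pi.single_eq_same, Pi.single_eq_same, Int.cast_one]
          · rw [Pi.single_eq_of_ne h, Pi.single_eq_of_ne h, Int.cast_zero]
        rw [h3]
        ring
      rw [Finset.sum_congr rfl fun b _ => h2 b, Finset.sum_sub_distrib]
      simp only [default]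
      ring)
    have h1 : ∀ b, c (Sum.inr b) = 0 := by
      intro b
      have h2 := key (Sum.inr b)
      rw [Sum.elim_inr] at h2
      exact (mul_eq_zero.1 h2).resolve_right hν'
    intro a
    rcases a with a | a
    · have h2 := key (Sum.inl a)
      rw [Sum.elim_inl, Finset.sum_eq_zero fun b _ => by rw [h1 b, zero_mul], sub_zero] at h2
      exact h2
    · exact h1 a

end

section

variable {k K : Type} [Field k] [CharZero k] [Field K] [Algebra k K] {r n : ℕ} {x : Fin r → K}

/-- the order of the residue form and one derivative -/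
theorem om_dir (P : Place k K) {e : Unit ⊕ Fin n ≃ Fin r} (hx : ∀ i, x i ≠ 0)
    {f : (Fin r → ℤ) →₀ k} (hf : ev x f = 0) {C0 : Fin n → Fin r → ℤ}
    (h0 : dt e (fun _ => gr x f) C0 ≠ 0) {D : Fin n → Derivation k K K}
    (hD : ∀ a, Pres P (D a)) {ν : Fin r → ℤ} {A : ℤ} (hG : ∑ i, gr x f i * (ν i : K) ≠ 0)
    (hA : P.ord (∑ i, gr x f i * (ν i : K)) = A) :
    Ge P (-1 - A) (Om e x (fun _ : Unit => f) C0 D) ∧
      ((∃ c : ℤ, vec P x = c • ν) → Ge P (-A) (Om e x (fun _ : Unit => f) C0 D)) := by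
  classical
  have : CharZero K := charZero_of_injective_algebraMap (algebraMap k K).injective
  obtain ⟨i0, hi0⟩ : ∃ i0, ν i0 ≠ 0 := by
    by_contra hcon
    push Not at hcon
    exact hG (Finset.sum_eq_zero fun i _ => by rw [hcon i, Int.cast_zero, mul_zero])
  obtain ⟨C, hC, -⟩ := exists_orth (K := k) (e := e) hi0
  obtain ⟨C, hC, hCk⟩ := exists_orth (K := k) (e := e) hi0
  have hν' : (ν i0 : K) ≠ 0 := Int.cast_ne_zero.2 hi0
  have h1 := dt_single (e := e) hν' hC (gr x f)
  -- the constant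
  have h2 : dt e (fun _ : Unit => (Pi.single i0 1 : Fin r → K)) C =
      algebraMap k K (dt e (fun _ : Unit => (Pi.single i0 1 : Fin r → k)) C) := by
    unfold dt
    rw [RingHom.map_det]
    congr 1
    ext a b
    rcases a with a | a
    · change (Pi.single i0 1 : Fin r → K) (e b) = algebraMap k K ((Pi.single i0 1 : Fin r → k) (e b))
      by_cases h : e b = i0
      · rw [h, Pi.single_eq_same, Pi.single_eq_same, map_one]
      · rw [Pi.single_eq_of_ne h, Pi.single_eq_of_ne h, map_zero]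
    · change ((C a (e b) : ℤ) : K) = algebraMap k K ((C a (e b) : ℤ) : k)
      rw [map_intCast]
  obtain ⟨κ, hκ⟩ : ∃ κ : k, κ = dt e (fun _ : Unit => (Pi.single i0 1 : Fin r → k)) C /
    (ν i0 : k) := ⟨_, rfl⟩
  have hκ0 : κ ≠ 0 := by
    rw [hκ]
    exact div_ne_zero hCk (Int.cast_ne_zero.2 hi0)
  have h3 : dt e (fun _ : Unit => gr x f) C =
      algebraMap k K κ * ∑ i, gr x f i * (ν i : K) := by
    rw [h1, h2, hκ, map_div₀, map_intCast]
  have hκK : algebraMap k K κ ≠ 0 := by rwa [Ne, map_eq_zero]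
  have h4 : dt e (fun _ : Unit => gr x f) C ≠ 0 := by
    rw [h3]
    exact mul_ne_zero hκK hG
  have h5 : P.ord (dt e (fun _ : Unit => gr x f) C) = A := by
    rw [h3, P.ord_mul hκK hG, hA, P.ord_const hκ0, zero_add]
  rw [om_eq hx (f := fun _ : Unit => f) (fun _ => hf) h0 h4]
  have h6 : (cw C fun a => lg x (D a)).det =
      Matrix.det (Matrix.of fun j i => D j (mono x (C i)) / mono x (C i)) := by
    rw [← cw_lg hx, Matrix.det_transpose]
  unfold Om
  rw [h6, div_eq_mul_inv]
  have h7 : Ge P (-A) (dt e (fun _ : Unit => gr x f) C)⁻¹ := Or.inr (by rw [P.ord_inv, h5])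
  constructor
  · have h8 := det_log P D hD (fun b => mono x (C b)) fun b => mono_ne hx _
    have h9 := h8.mul h7
    rwa [← sub_eq_add_neg] at h9
  · rintro ⟨c, hc⟩
    have h8 := det_log_unit P D hD (fun b => mono x (C b)) fun b => by
      rw [ord_mono P hx, hc, dotProduct_smul, hC, smul_zero]
    have h9 := Ge.mul (P := P) (N := 0) h8 h7
    rwa [zero_add] at h9

end

end Pool.Agent.K9h25
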