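import Pool.Agent.K9h25.Qs

/-!
Layers of Laurent polynomials: the restrictions of the equation of a hypersurface of a toric variety
and of its derivatives, in homogeneous coordinates, to the torus orbits.
-/

set_option autoImplicit false
set_option linter.overlappingInstances false
set_option linter.unusedSectionVars false

open FF Pool.Agent.R885 Pool.Agent.W603.LV Pool.Agent.W619.PQ Pool.Agent.TH165.ACC
  Pool.Agent.TH122.AB
open Pool.Agent.W602.GT (KodGe LogSec RegAt LogAt DerReg DerLog Divisorial IsPluri)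

namespace Pool.Agent.K9h25

section

variable {k : Type} [Field k] {r s : ℕ} {f : (Fin r → ℤ) →₀ k} {ρ : Fin s → Fin r → ℤ}
  {I : Finset (Fin s)} {t : Fin s → ℚ} {v : Fin r → ℤ}

open scoped Classical in
/-- The terms of `f` whose exponents `a` satisfy `a ⬝ ρ i = min + d i` for `i ∈ I`, where the minimum
is taken over the exponents of `f`. -/
noncomputable def layer (f : (Fin r → ℤ) →₀ k) (ρ : Fin s → Fin r → ℤ) (I : Finset (Fin s))
    (d : Fin s → ℤ) : (Fin r → ℤ) →₀ k :=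
  f.filter fun a => ∀ i ∈ I, a ⬝ᵥ ρ i = mn (ρ i) f + d i

theorem mem_layer {d : Fin s → ℤ} {a : Fin r → ℤ} : a ∈ (layer f ρ I d).support ↔
    a ∈ f.support ∧ ∀ i ∈ I, a ⬝ᵥ ρ i = mn (ρ i) f + d i := by
  classical
  unfold layer
  rw [Finsupp.support_filter, Finset.mem_filter]

theorem layer_apply {d : Fin s → ℤ} {a : Fin r → ℤ}
    (h : ∀ i ∈ I, a ⬝ᵥ ρ i = mn (ρ i) f + d i) : layer f ρ I d a = f a := by
  classical
  unfold layer
  rw [Finsupp.filter_apply, if_pos h]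

/-- the vector `v` is in the relative interior of the cone -/
def InCone (ρ : Fin s → Fin r → ℤ) (I : Finset (Fin s)) (t : Fin s → ℚ) (v : Fin r → ℤ) : Prop :=
  (∀ i ∈ I, 0 < t i) ∧ ∀ l, (v l : ℚ) = ∑ i ∈ I, t i * (ρ i l : ℚ)

theorem InCone.dot (h : InCone ρ I t v) (a : Fin r → ℤ) :
    ((a ⬝ᵥ v : ℤ) : ℚ) = ∑ i ∈ I, t i * ((a ⬝ᵥ ρ i : ℤ) : ℚ) := by
  unfold dotProduct
  push_cast
  have h1 : ∀ l, (a l : ℚ) * (v l : ℚ) = ∑ i ∈ I, t i * ((a l : ℚ) * (ρ i l : ℚ)) := by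
    intro l
    rw [h.2 l, Finset.mul_sum]
    exact Finset.sum_congr rfl fun i _ => by ring
  rw [Finset.sum_congr rfl fun l _ => h1 l, Finset.sum_comm]
  exact Finset.sum_congr rfl fun i _ => by rw [Finset.mul_sum]

theorem InCone.dot_sub (h : InCone ρ I t v) (a b : Fin r → ℤ) :
    ((a ⬝ᵥ v : ℤ) : ℚ) - ((b ⬝ᵥ v : ℤ) : ℚ) =
      ∑ i ∈ I, t i * (((a ⬝ᵥ ρ i : ℤ) : ℚ) - ((b ⬝ᵥ ρ i : ℤ) : ℚ)) := by
  rw [h.dot, h.dot, ← Finset.sum_sub_distrib]
  exact Finset.sum_congr rfl fun i _ => by ring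

/-- comparison of the values of `v` -/
theorem InCone.le (h : InCone ρ I t v) {a b : Fin r → ℤ} (hab : ∀ i ∈ I, b ⬝ᵥ ρ i ≤ a ⬝ᵥ ρ i) :
    b ⬝ᵥ v ≤ a ⬝ᵥ v ∧ (a ⬝ᵥ v = b ⬝ᵥ v → ∀ i ∈ I, a ⬝ᵥ ρ i = b ⬝ᵥ ρ i) := by
  have h1 := h.dot_sub a b
  have h2 : ∀ i ∈ I, 0 ≤ t i * (((a ⬝ᵥ ρ i : ℤ) : ℚ) - ((b ⬝ᵥ ρ i : ℤ) : ℚ)) := by
    intro i hi
    refine mul_nonneg (h.1 i hi).le (sub_nonneg.2 ?_)
    exact_mod_cast hab i hi
  constructor
  · have h3 := Finset.sum_nonneg h2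
    rw [← h1, sub_nonneg] at h3
    exact_mod_cast h3
  · intro he i hi
    rw [he, sub_self] at h1
    have h3 := (Finset.sum_eq_zero_iff_of_nonneg h2).1 h1.symm i hi
    have h4 := (mul_eq_zero.1 h3).resolve_left (h.1 i hi).ne'
    have h5 : ((a ⬝ᵥ ρ i : ℤ) : ℚ) = ((b ⬝ᵥ ρ i : ℤ) : ℚ) := sub_eq_zero.1 h4
    exact_mod_cast h5

/-- the layer zero is the initial part -/
theorem InCone.ini_eq (h : InCone ρ I t v) (h0 : layer f ρ I 0 ≠ 0) : ini v f = layer f ρ I 0 := by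
  classical
  obtain ⟨b, hb⟩ := Finsupp.support_nonempty_iff.2 h0
  obtain ⟨hb1, hb2⟩ := mem_layer.1 hb
  have hb2' : ∀ i ∈ I, b ⬝ᵥ ρ i = mn (ρ i) f := fun i hi => by
    have := hb2 i hi
    rwa [Pi.zero_apply, add_zero] at this
  have hle : ∀ a ∈ f.support, b ⬝ᵥ v ≤ a ⬝ᵥ v := fun a ha =>
    (h.le fun i hi => by rw [hb2' i hi]; exact mn_le ha).1
  have hf0 : f ≠ 0 := by
    intro hf
    rw [hf] at hb1
    simp at hb1
  have hmn : mn v f = b ⬝ᵥ v := by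
    obtain ⟨m, hm, hm'⟩ := exists_mn hf0 v
    exact le_antisymm (mn_le hb1) (by rw [← hm']; exact hle m hm)
  unfold ini layer
  ext a
  by_cases ha : a ∈ f.support
  · have h1 : a ⬝ᵥ v = mn v f ↔ ∀ i ∈ I, a ⬝ᵥ ρ i = mn (ρ i) f + (0 : Fin s → ℤ) i := by
      rw [hmn]
      constructor
      · intro he i hi
        rw [Pi.zero_apply, add_zero, ← hb2' i hi]
        exact (h.le fun i hi => by rw [hb2' i hi]; exact mn_le ha).2 he i hi
      · intro he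
        have h2 := (h.le (a := b) (b := a) fun i hi => by
          have := he i hi
          rw [Pi.zero_apply, add_zero] at this
          rw [this, hb2' i hi]).1
        exact le_antisymm h2 (hle a ha)
    by_cases h2 : a ⬝ᵥ v = mn v f
    · rw [Finsupp.filter_apply, Finsupp.filter_apply, if_pos h2, if_pos (h1.1 h2)]
    · rw [Finsupp.filter_apply, Finsupp.filter_apply, if_neg h2, if_neg fun h3 => h2 (h1.2 h3)]
  · rw [Finsupp.notMem_support_iff] at ha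
    rw [Finsupp.filter_apply, Finsupp.filter_apply, ha, ite_self, ite_self]

/-- the values on the exponents with positive order in the direction `j` -/
theorem InCone.dir (h : InCone ρ I t v) {j : Fin s} (hj : j ∈ I) {b : Fin r → ℤ}
    (hb : ∀ i ∈ I, b ⬝ᵥ ρ i = mn (ρ i) f + (Pi.single j 1 : Fin s → ℤ) i) {a : Fin r → ℤ}
    (ha : a ∈ f.support) (hne : a ⬝ᵥ ρ j ≠ mn (ρ j) f) :
    b ⬝ᵥ v ≤ a ⬝ᵥ v ∧ (a ⬝ᵥ v = b ⬝ᵥ v →
      ∀ i ∈ I, a ⬝ᵥ ρ i = mn (ρ i) f + (Pi.single j 1 : Fin s → ℤ) i) := by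
  have h1 := h.le (a := a) (b := b) fun i hi => by
    rw [hb i hi]
    by_cases hij : i = j
    · rw [hij, Pi.single_eq_same]
      have := mn_le (v := ρ j) ha
      omega
    · rw [Pi.single_eq_of_ne hij, add_zero]
      exact mn_le ha
  exact ⟨h1.1, fun he i hi => by rw [h1.2 he i hi, hb i hi]⟩

/-- **The arithmetic of the Fine interior** for a quasi-smooth hypersurface. -/
theorem fine_arith (h : InCone ρ I t v) (hf0 : f ≠ 0) {j : Fin s} (hj : j ∈ I) (hρ : ρ j ≠ 0)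
    {b : Fin r → ℤ} (hb : ∀ i ∈ I, b ⬝ᵥ ρ i = mn (ρ i) f + (Pi.single j 1 : Fin s → ℤ) i)
    {u : Fin r → ℚ} (hu : ∀ v, v ≠ 0 → 1 + (mn v f : ℚ) ≤ dq u v) :
    1 + ((b ⬝ᵥ v : ℤ) : ℚ) ≤ dq u v ∨
      ((∃ c : ℤ, v = c • ρ j) ∧ ((b ⬝ᵥ v : ℤ) : ℚ) ≤ dq u v) := by
  classical
  -- the exponent with the least value in the layer zero in the direction `j`
  obtain ⟨a0, ha0, ha0'⟩ := exists_mn hf0 (ρ j)
  obtain ⟨a1, ha1, hmin⟩ := Finset.exists_min_image (f.support.filter fun a =>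
    a ⬝ᵥ ρ j = mn (ρ j) f) (fun a => a ⬝ᵥ v) ⟨a0, Finset.mem_filter.2 ⟨ha0, ha0'⟩⟩
  rw [Finset.mem_filter] at ha1
  have hmin' : ∀ a ∈ f.support, a ⬝ᵥ ρ j = mn (ρ j) f → a1 ⬝ᵥ v ≤ a ⬝ᵥ v := fun a h1 h2 =>
    hmin a (Finset.mem_filter.2 ⟨h1, h2⟩)
  obtain ⟨c, hc⟩ : ∃ c : ℤ, c = b ⬝ᵥ v - a1 ⬝ᵥ v := ⟨_, rfl⟩
  have hbj : b ⬝ᵥ ρ j = mn (ρ j) f + 1 := by
    have := hb j hj
    rwa [Pi.single_eq_same] at this
  -- `c ≤ t j`
  have hct : (c : ℚ) ≤ t j := by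
    have h1 := h.dot_sub b a1
    have h2 : ∀ i ∈ I.erase j, t i * (((b ⬝ᵥ ρ i : ℤ) : ℚ) - ((a1 ⬝ᵥ ρ i : ℤ) : ℚ)) ≤ 0 := by
      intro i hi
      rw [Finset.mem_erase] at hi
      refine mul_nonpos_of_nonneg_of_nonpos (h.1 i hi.2).le (sub_nonpos.2 ?_)
      rw [hb i hi.2, Pi.single_eq_of_ne hi.1, add_zero]
      exact_mod_cast mn_le ha1.1
    rw [← Finset.add_sum_erase _ _ hj, hbj, ha1.2] at h1
    have h3 := Finset.sum_nonpos h2
    rw [hc]
    push_cast at h1 ⊢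
    linarith
  by_cases hv : v = 0
  · right
    refine ⟨⟨0, by rw [hv, zero_smul]⟩, ?_⟩
    rw [hv, dotProduct_zero]
    unfold dq
    simp
  by_cases hc0 : c ≤ 0
  · left
    have h1 : b ⬝ᵥ v ≤ mn v f := by
      obtain ⟨m, hm, hm'⟩ := exists_mn hf0 v
      rw [← hm']
      by_cases hmj : m ⬝ᵥ ρ j = mn (ρ j) f
      · have := hmin' m hm hmj
        omega
      · exact (h.dir hj hb hm hmj).1
    have h2 := hu v hv
    have h3 : ((b ⬝ᵥ v : ℤ) : ℚ) ≤ mn v f := by exact_mod_cast h1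
    linarith
  · have hc1 : 0 < c := by omega
    have hcq : (0 : ℚ) < c := by exact_mod_cast hc1
    have hj1 := hu (ρ j) hρ
    obtain ⟨v', hv'⟩ : ∃ v' : Fin r → ℤ, v' = v - c • ρ j := ⟨_, rfl⟩
    have hdot : ∀ a : Fin r → ℤ, a ⬝ᵥ v' = a ⬝ᵥ v - c * (a ⬝ᵥ ρ j) := by
      intro a
      rw [hv', dotProduct_sub, dotProduct_smul, smul_eq_mul]
    have hdq : dq u v = dq u v' + c * dq u (ρ j) := by
      unfold dq
      rw [Finset.mul_sum, ← Finset.sum_add_distrib]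
      refine Finset.sum_congr rfl fun i _ => ?_
      rw [hv', Pi.sub_apply, Pi.smul_apply, smul_eq_mul]
      push_cast
      ring
    have hbv : ((b ⬝ᵥ v : ℤ) : ℚ) = ((b ⬝ᵥ v' : ℤ) : ℚ) + c * (mn (ρ j) f + 1) := by
      have h1 := hdot b
      rw [hbj] at h1
      have h2 : b ⬝ᵥ v = b ⬝ᵥ v' + c * (mn (ρ j) f + 1) := by rw [h1]; ring
      exact_mod_cast h2
    have hmul := mul_le_mul_of_nonneg_left hj1 hcq.le
    by_cases hv0 : v' = 0
    · right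
      refine ⟨⟨c, by rw [hv', sub_eq_zero] at hv0; exact hv0⟩, ?_⟩
      rw [hdq, hbv, hv0, dotProduct_zero]
      have h1 : dq u (0 : Fin r → ℤ) = 0 := by
        unfold dq
        simp
      rw [h1]
      push_cast
      linarith
    · left
      have h1 := hu v' hv0
      have h2 : b ⬝ᵥ v' ≤ mn v' f := by
        obtain ⟨m, hm, hm'⟩ := exists_mn hf0 v'
        rw [← hm']
        by_cases hmj : m ⬝ᵥ ρ j = mn (ρ j) f
        · have h3 := hmin' m hm hmj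
          rw [hdot, hdot, hbj, hmj]
          nlinarith
        · have h3 := h.dot_sub m b
          have h4 : ∀ i ∈ I.erase j, 0 ≤ t i * (((m ⬝ᵥ ρ i : ℤ) : ℚ) - ((b ⬝ᵥ ρ i : ℤ) : ℚ)) := by
            intro i hi
            rw [Finset.mem_erase] at hi
            refine mul_nonneg (h.1 i hi.2).le (sub_nonneg.2 ?_)
            rw [hb i hi.2, Pi.single_eq_of_ne hi.1, add_zero]
            exact_mod_cast mn_le hm
          rw [← Finset.add_sum_erase _ _ hj, hbj] at h3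
          have h5 := Finset.sum_nonneg h4
          have h6 : mn (ρ j) f + 1 ≤ m ⬝ᵥ ρ j := by
            have := mn_le (v := ρ j) hm
            omega
          have h7 : ((mn (ρ j) f : ℤ) : ℚ) + 1 ≤ ((m ⬝ᵥ ρ j : ℤ) : ℚ) := by exact_mod_cast h6
          have h8 : (c : ℚ) * (((m ⬝ᵥ ρ j : ℤ) : ℚ) - (mn (ρ j) f + 1)) ≤
              t j * (((m ⬝ᵥ ρ j : ℤ) : ℚ) - (mn (ρ j) f + 1)) :=
            mul_le_mul_of_nonneg_right hct (by linarith)
          have h9 : ((b ⬝ᵥ v' : ℤ) : ℚ) ≤ ((m ⬝ᵥ v' : ℤ) : ℚ) := by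
            rw [hdot, hdot, hbj]
            push_cast at h3 h8 ⊢
            linarith
          exact_mod_cast h9
      have h3 : ((b ⬝ᵥ v' : ℤ) : ℚ) ≤ mn v' f := by exact_mod_cast h2
      rw [hdq, hbv]
      push_cast at *
      linarith

end

end Pool.Agent.K9h25
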