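import Pool.Agent.K9h25.Qs2

/-!
The Kodaira dimension of the quasi-smooth hypersurfaces in toric varieties with a nonempty Fine
interior.
-/

set_option autoImplicit false
set_option linter.overlappingInstances false
set_option linter.unusedSectionVars false

open FF Pool.Agent.R885 Pool.Agent.W603.LV Pool.Agent.W619.PQ Pool.Agent.TH165.ACC
  Pool.Agent.TH122.AB
open Pool.Agent.W602.GT (KodGe LogSec RegAt LogAt DerReg DerLog Divisorial IsPluri)

namespace Pool.Agent.K9h25

/-- The hypersurface `f = 0` is quasi-smooth along the orbit of the cone `I`: at the points of the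
torus at which the layer zero vanishes, its gradient or one of the layers one does not vanish. -/
def QsAt {k : Type} [Field k] {r s : ℕ} (f : (Fin r → ℤ) →₀ k) (ρ : Fin s → Fin r → ℤ)
    (I : Finset (Fin s)) (F : Type) [Field F] [Algebra k F] : Prop :=
  ∀ c : Fin r → F, (∀ i, c i ≠ 0) → ev c (layer f ρ I 0) = 0 →
    gr c (layer f ρ I 0) ≠ 0 ∨ ∃ j ∈ I, ev c (layer f ρ I (Pi.single j 1)) ≠ 0

section

variable {k : Type} [Field k] {r s : ℕ} {f : (Fin r → ℤ) →₀ k} {ρ : Fin s → Fin r → ℤ}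
  {I : Finset (Fin s)}

/-- extension of the ground field -/
theorem QsAt.ext [IsAlgClosed k] (h : QsAt f ρ I k) (F : Type) [Field F] [Algebra k F] :
    QsAt f ρ I F := by
  intro c hc hev
  by_contra hcon
  push Not at hcon
  obtain ⟨hgr, hev1⟩ := hcon
  obtain ⟨A, φ, c', hc', hsp⟩ := exists_spec (k := k) hc
  choose hm hφ using hsp
  have hzero : ∀ g : (Fin r → ℤ) →₀ k, ev c g = 0 → ev c' g = 0 := by
    intro g hg
    have h1 : (⟨g.sum fun m a => algebraMap k F a * ((1 : ℤ) : F) * mono c m,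
        hm g fun _ => 1⟩ : A) = 0 := by
      apply Subtype.ext
      change (g.sum fun m a => algebraMap k F a * ((1 : ℤ) : F) * mono c m) = 0
      rw [← hg]
      unfold ev
      refine Finset.sum_congr rfl fun m _ => ?_
      simp
    have h2 := hφ g fun _ => 1
    rw [h1, map_zero] at h2
    rw [h2]
    unfold ev
    refine Finset.sum_congr rfl fun m _ => ?_
    simp
  rcases h c' hc' (hzero _ hev) with h1 | ⟨j, hj, h1⟩
  · apply h1
    funext i
    have h1 : (⟨(layer f ρ I 0).sum fun m a => algebraMap k F a * ((m i : ℤ) : F) * mono c m,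
        hm _ fun m => m i⟩ : A) = 0 := Subtype.ext (congrFun hgr i)
    have h2 := hφ (layer f ρ I 0) fun m => m i
    rw [h1, map_zero] at h2
    exact h2.symm
  · exact h1 (hzero _ (hev1 j hj))

end

section

variable {k K : Type} [Field k] [CharZero k] [Field K] [Algebra k K] {r n s : ℕ} {x : Fin r → K}
  {f : (Fin r → ℤ) →₀ k} {ρ : Fin s → Fin r → ℤ} {I : Finset (Fin s)} {t : Fin s → ℚ}

/-- the derivative in the direction of a ray -/
theorem gr_dir (hx : ∀ i, x i ≠ 0) (hf : ev x f = 0) (ν : Fin r → ℤ) (μ : ℤ) (b : Fin r → ℤ) :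
    ∑ i, gr x f i * (ν i : K) = mono x b *
      ∑ m ∈ f.support, algebraMap k K (f m) * ((m ⬝ᵥ ν - μ : ℤ) : K) * mono x (m - b) := by
  have h1 : ∑ i, gr x f i * (ν i : K) =
      ∑ m ∈ f.support, algebraMap k K (f m) * ((m ⬝ᵥ ν : ℤ) : K) * mono x m := by
    unfold gr Finsupp.sum
    simp only [Finset.sum_mul]
    rw [Finset.sum_comm]
    refine Finset.sum_congr rfl fun m _ => ?_
    unfold dotProduct
    push_cast
    rw [Finset.mul_sum, Finset.sum_mul]
    exact Finset.sum_congr rfl fun i _ => by ring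
  have h2 : ∑ m ∈ f.support, algebraMap k K (f m) * ((μ : ℤ) : K) * mono x m = 0 := by
    have h3 : ev x f = ∑ m ∈ f.support, algebraMap k K (f m) * mono x m := rfl
    rw [hf] at h3
    have h4 : ∑ m ∈ f.support, algebraMap k K (f m) * ((μ : ℤ) : K) * mono x m =
        (μ : K) * ∑ m ∈ f.support, algebraMap k K (f m) * mono x m := by
      rw [Finset.mul_sum]
      exact Finset.sum_congr rfl fun m _ => by ring
    rw [h4, ← h3, mul_zero]
  rw [h1, ← sub_zero (∑ m ∈ f.support, algebraMap k K (f m) * ((m ⬝ᵥ ν : ℤ) : K) * mono x m), ← h2,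
    ← Finset.sum_sub_distrib, Finset.mul_sum]
  refine Finset.sum_congr rfl fun m _ => ?_
  rw [mono_sub hx]
  push_cast
  field_simp [mono_ne hx b]

/-- **The order of the derivative in the direction of a ray.** -/
theorem ord_dir (P : Place k K) (hx : ∀ i, x i ≠ 0) (hf : ev x f = 0)
    (h : InCone ρ I t (vec P x)) {j : Fin s} (hj : j ∈ I)
    (hev : ev (pt P x) (layer f ρ I (Pi.single j 1)) ≠ 0) {b : Fin r → ℤ}
    (hb : ∀ i ∈ I, b ⬝ᵥ ρ i = mn (ρ i) f + (Pi.single j 1 : Fin s → ℤ) i) :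
    ∑ i, gr x f i * (ρ j i : K) ≠ 0 ∧ P.ord (∑ i, gr x f i * (ρ j i : K)) = b ⬝ᵥ vec P x := by
  classical
  obtain ⟨S, hS⟩ : ∃ S : K, S = ∑ m ∈ f.support, algebraMap k K (f m) *
    ((m ⬝ᵥ ρ j - mn (ρ j) f : ℤ) : K) * mono x (m - b) := ⟨_, rfl⟩
  have h1 := gr_dir hx hf (ρ j) (mn (ρ j) f) b
  rw [← hS] at h1
  have hreg : ∀ m ∈ f.support, P.Reg (algebraMap k K (f m) *
      ((m ⬝ᵥ ρ j - mn (ρ j) f : ℤ) : K) * mono x (m - b)) := by
    intro m hm
    by_cases hmj : m ⬝ᵥ ρ j = mn (ρ j) f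
    · rw [hmj, sub_self, Int.cast_zero, mul_zero, zero_mul]
      exact Or.inl rfl
    · refine reg_const_int_mono P hx _ _ ?_
      rw [sub_dotProduct]
      exact sub_nonneg.2 (h.dir hj hb hm hmj).1
  have hpt := pt_ne P hx
  have h2 : P.Reg S := by
    rw [hS]
    exact Ge.sum (P := P) (N := 0) _ _ hreg
  have h3 : P.red S = ev (pt P x) (layer f ρ I (Pi.single j 1)) / mono (pt P x) b := by
    rw [hS, red_sum P _ _ hreg]
    have h4 : ev (pt P x) (layer f ρ I (Pi.single j 1)) =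
        ∑ m ∈ f.support, if ∀ i ∈ I, m ⬝ᵥ ρ i = mn (ρ i) f + (Pi.single j 1 : Fin s → ℤ) i then
          algebraMap k P.RF (f m) * mono (pt P x) m else 0 := by
      unfold ev Finsupp.sum
      have h5 : (layer f ρ I (Pi.single j 1)).support = f.support.filter fun m =>
          ∀ i ∈ I, m ⬝ᵥ ρ i = mn (ρ i) f + (Pi.single j 1 : Fin s → ℤ) i := by
        ext m
        rw [mem_layer, Finset.mem_filter]
      rw [h5, Finset.sum_filter]
      refine Finset.sum_congr rfl fun m _ => ?_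
      split_ifs with h6
      · rw [layer_apply h6]
      · rfl
    rw [h4, Finset.sum_div]
    refine Finset.sum_congr rfl fun m hm => ?_
    split_ifs with h6
    · have h7 := h6 j hj
      rw [Pi.single_eq_same] at h7
      have h8 : (m - b) ⬝ᵥ vec P x = 0 := by
        rw [sub_dotProduct, sub_eq_zero]
        have h9 : (((m ⬝ᵥ vec P x : ℤ) : ℚ)) = ((b ⬝ᵥ vec P x : ℤ) : ℚ) := by
          rw [h.dot, h.dot]
          exact Finset.sum_congr rfl fun i hi => by rw [h6 i hi, hb i hi]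
        exact_mod_cast h9
      rw [P.red_mul (P.reg_mul (P.reg_const _) (reg_int P _)) (reg_mono P hx h8.ge),
        P.red_mul (P.reg_const _) (reg_int P _), ← P.algebraMap_RF, red_int, h7,
        red_mono_zero P hx h8, mono_sub hpt]
      have h9 : mn (ρ j) f + 1 - mn (ρ j) f = 1 := by ring
      rw [h9, Int.cast_one, mul_one]
      ring
    · rw [zero_div]
      by_cases hmj : m ⬝ᵥ ρ j = mn (ρ j) f
      · rw [hmj, sub_self, Int.cast_zero, mul_zero, zero_mul, P.red_zero]
      · obtain ⟨h7, h8⟩ := h.dir hj hb hm hmj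
        have h9 : 0 < (m - b) ⬝ᵥ vec P x := by
          rw [sub_dotProduct]
          rcases h7.lt_or_eq with h10 | h10
          · omega
          · exact absurd (h8 h10.symm) h6
        rw [P.red_mul (P.reg_mul (P.reg_const _) (reg_int P _)) (reg_mono P hx h9.le),
          red_mono_pos P hx h9, mul_zero]
  have h4 : P.red S ≠ 0 := by
    rw [h3]
    exact div_ne_zero hev (mono_ne hpt _)
  rw [Ne, P.red_eq_zero_iff h2] at h4
  push Not at h4
  have h5 := (P.reg_iff h4.1).1 h2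
  have h6 : P.ord S = 0 := le_antisymm h4.2 h5
  rw [h1]
  refine ⟨mul_ne_zero (mono_ne hx _) h4.1, ?_⟩
  rw [P.ord_mul (mono_ne hx _) h4.1, h6, ord_mono P hx, add_zero]

/-- **The bound at a place.** -/
theorem qs_place [IsAlgClosed k] (P : Place k K) {e : Unit ⊕ Fin n ≃ Fin r} (hx : ∀ i, x i ≠ 0)
    (hf0 : f ≠ 0) (hf : ev x f = 0) {C0 : Fin n → Fin r → ℤ}
    (h0 : dt e (fun _ => gr x f) C0 ≠ 0) {D : Fin n → Derivation k K K}
    (hD : ∀ a, Pres P (D a)) (h : InCone ρ I t (vec P x)) (hqs : QsAt f ρ I k)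
    {u : Fin r → ℚ} (hu : ∀ v, v ≠ 0 → 1 + (mn v f : ℚ) ≤ dq u v) :
    ∃ A : ℤ, Ge P (-A) (Om e x (fun _ : Unit => f) C0 D) ∧ (A : ℚ) ≤ dq u (vec P x) := by
  classical
  have hpt := pt_ne P hx
  have hini : ev (pt P x) (ini (vec P x) f) = 0 := by
    obtain ⟨m0, -, hm0⟩ := exists_mn hf0 (vec P x)
    have h2 := red_ev' P hx f hm0
    have h3 : ev' x f m0 = 0 := by
      have h4 := ev_eq hx f m0
      rw [hf] at h4
      exact (mul_eq_zero.1 h4.symm).resolve_left (mono_ne hx _)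
    rw [h3, P.red_zero] at h2
    exact (div_eq_zero_iff.1 h2.symm).resolve_right (mono_ne hpt _)
  have hev0 : ev (pt P x) (layer f ρ I 0) = 0 := by
    by_cases hl : layer f ρ I 0 = 0
    · rw [hl]
      unfold ev
      exact Finsupp.sum_zero_index
    · rw [← h.ini_eq hl]
      exact hini
  rcases hqs.ext P.RF (pt P x) hpt hev0 with h1 | ⟨j, hj, h1⟩
  · have hl : layer f ρ I 0 ≠ 0 := by
      intro hl
      apply h1
      rw [hl]
      funext i
      unfold gr
      exact Finsupp.sum_zero_index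
    have hz : gr (pt P x) (ini (vec P x) f) ≠ 0 := by rwa [h.ini_eq hl]
    have hnd : N.NDP P x fun _ : Unit => f := by
      intro _
      exact linearIndependent_unique_iff.2 hz
    obtain ⟨h2, h3⟩ := N.om_ge P (e := e) hx (f := fun _ : Unit => f) (fun _ => hf0) (fun _ => hf)
      hnd h0 hD
    rw [Finset.univ_unique, Finset.sum_singleton] at h2
    by_cases hv : vec P x = 0
    · refine ⟨0, by rw [neg_zero]; exact h3 hv, ?_⟩
      rw [hv]
      unfold dq
      simp
    · refine ⟨1 + mn (vec P x) f, ?_, ?_⟩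
      · refine h2.mono ?_
        omega
      · have := hu _ hv
        push_cast
        linarith
  · have hne : (layer f ρ I (Pi.single j 1)).support.Nonempty := by
      rw [Finsupp.support_nonempty_iff]
      intro hl
      apply h1
      rw [hl]
      unfold ev
      exact Finsupp.sum_zero_index
    obtain ⟨b, hb⟩ := hne
    obtain ⟨hb1, hb2⟩ := mem_layer.1 hb
    have hρ : ρ j ≠ 0 := by
      intro h3
      have h4 := hb2 j hj
      rw [h3, dotProduct_zero, Pi.single_eq_same, mn_zero hf0] at h4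
      omega
    obtain ⟨hG, hA⟩ := ord_dir P hx hf h hj h1 hb2
    obtain ⟨h2, h3⟩ := om_dir P (e := e) hx hf h0 hD hG hA
    rcases fine_arith h hf0 hj hρ hb2 hu with h4 | ⟨h4, h5⟩
    · refine ⟨1 + b ⬝ᵥ vec P x, h2.mono (by omega), ?_⟩
      push_cast
      exact h4
    · exact ⟨b ⬝ᵥ vec P x, h3 h4, h5⟩

/-- **Nonnegative Kodaira dimension** from the orders of the residue form. -/
theorem kod_of_bound [IsAlgClosed k] (hx : ∀ i, x i ≠ 0)
    (hgen : IntermediateField.adjoin k (Set.range x) = ⊤)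
    (htr : Algebra.trdeg k K = (n : ℕ)) (hr : r = n + 1) (hf : ev x f = 0) (hgr : gr x f ≠ 0)
    {u : Fin r → ℚ} (hb : ∀ (e : Unit ⊕ Fin n ≃ Fin r) (C0 : Fin n → Fin r → ℤ),
      dt e (fun _ : Unit => gr x f) C0 ≠ 0 → ∀ (P : Place k K) (D : Fin n → Derivation k K K),
      (∀ a, Pres P (D a)) → ∃ A : ℤ, Ge P (-A) (Om e x (fun _ : Unit => f) C0 D) ∧
        (A : ℚ) ≤ dq u (vec P x)) : KodGe k K n (fun _ => False) 0 := by
  classical
  have e : Unit ⊕ Fin n ≃ Fin r := Fintype.equivOfCardEq (by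
    simp only [Fintype.card_sum, Fintype.card_fin, Fintype.card_unit]
    omega)
  obtain ⟨C0, hC0⟩ := complete_zero (κ := K) (J := Unit) (a := fun _ => gr x f)
    (linearIndependent_unique_iff.2 hgr) (n := n) (by
      rw [Fintype.card_fin, Fintype.card_unit]; omega)
  have h0 : dt e (fun _ : Unit => gr x f) C0 ≠ 0 := dt_ne hC0
  obtain ⟨Z, hZ⟩ := Pool.Agent.W636.PG.exists_basis k K n htr
  obtain ⟨D0, hD0'⟩ := Pool.Agent.W602.GT.exists_dual hZ
  have hD0 : ∀ i j, D0 i (Z j) = if i = j then 1 else 0 := by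
    intro i j
    have h1 := congrFun (congrFun hD0' i) j
    rw [Matrix.of_apply, Matrix.one_apply] at h1
    exact h1
  have hOm0 := om_ne (e := e) hx hgen (f := fun _ : Unit => f) (fun _ => hf) h0 hZ hD0
  -- the common denominator
  obtain ⟨M, hM, hMu⟩ := Pool.Agent.TH165.ACC.exists_denom u
  choose u0 hu0 using hMu
  obtain ⟨N, rfl⟩ : ∃ N : ℕ, M = N := ⟨M.toNat, by omega⟩
  have hN : 0 < N := by exact_mod_cast hM
  have hdot : ∀ v, ((u0 ⬝ᵥ v : ℤ) : ℚ) = N * dq u v := by
    intro v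
    rw [← dq_int]
    unfold dq
    rw [Finset.mul_sum]
    refine Finset.sum_congr rfl fun i _ => ?_
    beta_reduce
    rw [← hu0]
    push_cast
    ring
  obtain ⟨ω, hωd⟩ : ∃ ω : (Fin n → Derivation k K K) → K, ω = fun D =>
    mono x u0 * Om e x (fun _ : Unit => f) C0 D ^ N := ⟨_, rfl⟩
  have hpl : IsPluri N ω := by
    intro A D
    rw [hωd]
    beta_reduce
    have h1 : Om e x (fun _ : Unit => f) C0 (fun i => ∑ j, A i j • D j) ^ N =
        A.det ^ N * Om e x (fun _ : Unit => f) C0 D ^ N :=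
      om_pluri e x (fun _ : Unit => f) C0 N A D
    have h2 : mono x u0 * Om e x (fun _ : Unit => f) C0 (fun i => ∑ j, A i j • D j) ^ N =
        A.det ^ N * (mono x u0 * Om e x (fun _ : Unit => f) C0 D ^ N) := by
      rw [h1]
      ring
    exact h2
  have hreg : ∀ (P : Place k K) (D : Fin n → Derivation k K K), (∀ i, DerReg P (D i)) →
      P.Reg (ω D) := by
    intro P D hD
    obtain ⟨A, h1, h2⟩ := hb e C0 h0 P D hD
    rw [hωd]
    beta_reduce
    have h3 := h1.pow N
    have h4 : Ge P (u0 ⬝ᵥ vec P x) (mono x u0) := Or.inr (by rw [ord_mono P hx])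
    refine (h4.mul h3).mono ?_
    have h6 := hdot (vec P x)
    have h7 : (0 : ℚ) < N := by exact_mod_cast hN
    have h8 : (N : ℚ) * (A : ℚ) ≤ ((u0 ⬝ᵥ vec P x : ℤ) : ℚ) := by
      rw [h6]
      exact mul_le_mul_of_nonneg_left h2 h7.le
    have h9 : (N : ℤ) * A ≤ u0 ⬝ᵥ vec P x := by exact_mod_cast h8
    have h10 : (0 : ℤ) ≤ u0 ⬝ᵥ vec P x + N * (-A) := by linarith
    exact h10
  refine ⟨N, hN, fun _ => ω, fun _ => ⟨hpl, fun P _ D hD => hreg P D fun i =>
    Pool.Agent.TH466.QG.derReg_of_log (hD i), fun P _ _ D hD => hreg P D hD⟩, D0, ?_, ?_⟩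
  · rw [hωd]
    exact mul_ne_zero (mono_ne hx _) (pow_ne_zero _ hOm0)
  · rw [algebraicIndependent_empty_type_iff]
    exact (algebraMap k K).injective

/-- **Nonnegative Kodaira dimension** of quasi-smooth hypersurfaces. -/
theorem kod_of_qs [IsAlgClosed k] (hx : ∀ i, x i ≠ 0)
    (hgen : IntermediateField.adjoin k (Set.range x) = ⊤)
    (htr : Algebra.trdeg k K = (n : ℕ)) (hr : r = n + 1) (hf0 : f ≠ 0) (hf : ev x f = 0)
    (hgr : gr x f ≠ 0) {F : Set (Finset (Fin s))}
    (hcomp : ∀ v : Fin r → ℤ, ∃ I ∈ F, ∃ t : Fin s → ℚ, InCone ρ I t v)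
    (hqs : ∀ I ∈ F, QsAt f ρ I k) {u : Fin r → ℚ}
    (hu : ∀ v, v ≠ 0 → 1 + (mn v f : ℚ) ≤ dq u v) : KodGe k K n (fun _ => False) 0 :=
  kod_of_bound hx hgen htr hr hf hgr fun _ _ h0 P _ hD => by
    obtain ⟨I, hI, t, h⟩ := hcomp (vec P x)
    exact qs_place P hx hf0 hf h0 hD h (hqs I hI) hu

end

end Pool.Agent.K9h25
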