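import Pool.Agent.R885.Ext
import Pool.Agent.R885.Lin

/-!
The logarithmic Hessian matrix of a Laurent polynomial; specialisation to points over the ground
field.
-/

set_option autoImplicit false
set_option linter.overlappingInstances false
set_option linter.unusedSectionVars false

open FF Pool.Agent.R885

namespace Pool.Agent.K9h25

/-- The logarithmic Hessian matrix of the Laurent polynomial `f` at `x`: the matrix of the second
derivatives with respect to the logarithms of the coordinates. -/
noncomputable def hess {ι k K : Type} [Fintype ι] [Field k] [Field K] [Algebra k K] (x : ι → K)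
    (f : (ι → ℤ) →₀ k) : Matrix ι ι K :=
  Matrix.of fun i j => f.sum fun m a => algebraMap k K a * ((m i * m j : ℤ) : K) * mono x m

section

variable {ι k : Type} [Fintype ι] [Field k]

/-- **Specialisation** to a point over the ground field. -/
theorem exists_spec [IsAlgClosed k] {F : Type} [Field F] [Algebra k F] {c : ι → F}
    (hc : ∀ i, c i ≠ 0) :
    ∃ (A : Subalgebra k F) (φ : A →ₐ[k] k) (c' : ι → k), (∀ i, c' i ≠ 0) ∧
      ∀ (g : (ι → ℤ) →₀ k) (ψ : (ι → ℤ) → ℤ),
        ∃ hm : (g.sum fun m a => algebraMap k F a * (ψ m : F) * mono c m) ∈ A,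
          φ ⟨g.sum fun m a => algebraMap k F a * (ψ m : F) * mono c m, hm⟩ =
            g.sum fun m a => a * (ψ m : k) * mono c' m := by
  classical
  let T : Set F := Set.range c ∪ Set.range (fun i => (c i)⁻¹)
  let A : Subalgebra k F := Algebra.adjoin k T
  have hTfin : T.Finite := (Set.finite_range _).union (Set.finite_range _)
  have hft : Algebra.FiniteType k A := by
    rw [← Subalgebra.fg_iff_finiteType]
    exact ⟨hTfin.toFinset, by rw [Set.Finite.coe_toFinset]⟩
  have hcA : ∀ i, c i ∈ A := fun i => Algebra.subset_adjoin (Or.inl ⟨i, rfl⟩)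
  have hcA' : ∀ i, (c i)⁻¹ ∈ A := fun i => Algebra.subset_adjoin (Or.inr ⟨i, rfl⟩)
  obtain ⟨φ⟩ := exists_point k A
  obtain ⟨c', hc'd⟩ : ∃ c' : ι → k, c' = fun i => φ ⟨c i, hcA i⟩ := ⟨_, rfl⟩
  have hc' : ∀ i, c' i ≠ 0 := by
    intro i h0
    rw [hc'd] at h0
    beta_reduce at h0
    have h1 : (⟨c i, hcA i⟩ : A) * ⟨(c i)⁻¹, hcA' i⟩ = 1 := by
      apply Subtype.ext
      exact mul_inv_cancel₀ (hc i)
    have h2 := congrArg φ h1
    rw [map_mul, h0, zero_mul, map_one] at h2
    exact one_ne_zero h2.symm
  have hmono := fun w => ev_hom φ hc hcA hcA' w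
  choose hmA hmφ using hmono
  refine ⟨A, φ, c', hc', fun g ψ => ?_⟩
  have hm : (g.sum fun m a => algebraMap k F a * (ψ m : F) * mono c m) ∈ A := by
    refine sum_mem fun m _ => mul_mem (mul_mem (A.algebraMap_mem _) (intCast_mem _ _)) (hmA m)
  refine ⟨hm, ?_⟩
  have h1 : (⟨g.sum fun m a => algebraMap k F a * (ψ m : F) * mono c m, hm⟩ : A) =
      ∑ m ∈ g.support, algebraMap k A (g m) * (ψ m : A) * ⟨mono c m, hmA m⟩ := by
    apply Subtype.ext
    rw [AddSubmonoidClass.coe_finsetSum]
    refine Finset.sum_congr rfl fun m _ => ?_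
    push_cast
    rfl
  rw [h1, map_sum]
  refine Finset.sum_congr rfl fun m _ => ?_
  rw [map_mul, map_mul, φ.commutes, map_intCast, hmφ, ← hc'd]
  rfl

/-- rows of a matrix which are independent modulo a vector -/
theorem exists_rows {F : Type} [Field F] (M : Matrix ι ι F) {s : ℕ} (h : s ≤ M.rank) :
    ∃ σ : Fin s → ι, LinearIndependent F fun j => M (σ j) := by
  classical
  have h1 : Module.finrank F (Submodule.span F (Set.range M.row)) = M.rank :=
    M.rank_eq_finrank_span_row.symm
  obtain ⟨i, hi⟩ := exists_ext (κ := F) (V := ι → F) (J := Empty) (a := fun j => j.elim)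
    linearIndependent_empty_type (U := Submodule.span F (Set.range M.row)) (t := M.row)
    (fun j => j.elim) rfl (m := M.rank) (by
      rw [h1, Fintype.card_empty, zero_add])
  refine ⟨fun j => i (Fin.castLE h j), ?_⟩
  exact hi.comp (fun j : Fin s => (Sum.inr (Fin.castLE h j) : Empty ⊕ Fin M.rank))
    fun a b hab => Fin.castLE_injective h (Sum.inr_injective hab)

theorem exists_rows_mod {F : Type} [Field F] (M : Matrix ι ι F) {s : ℕ} (h : s + 1 ≤ M.rank)
    {w : ι → F} (hw : w ≠ 0) :
    ∃ σ : Fin s → ι, LinearIndependent F (Sum.elim (fun _ : Unit => w) fun j => M (σ j)) := by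
  classical
  obtain ⟨σ, hσ⟩ := exists_rows M h
  let t : Option (Fin (s + 1)) → ι → F := fun o => o.elim w fun j => M (σ j)
  have h1 : s + 1 ≤ Module.finrank F (Submodule.span F (Set.range t)) := by
    have h2 : LinearIndependent F fun j : Fin (s + 1) =>
        (⟨M (σ j), Submodule.subset_span ⟨some j, rfl⟩⟩ : Submodule.span F (Set.range t)) :=
      LinearIndependent.of_comp (Submodule.span F (Set.range t)).subtype hσ
    have h3 := h2.fintype_card_le_finrank
    rwa [Fintype.card_fin] at h3
  obtain ⟨d, hd⟩ := Nat.exists_eq_add_of_le h1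
  obtain ⟨i, hi⟩ := exists_ext (κ := F) (V := ι → F) (J := Unit) (a := fun _ => w)
    (linearIndependent_unique_iff.2 hw) (U := Submodule.span F (Set.range t)) (t := t)
    (fun _ => Submodule.subset_span ⟨none, rfl⟩) rfl (m := s + d) (by
      rw [hd, Fintype.card_unit]; omega)
  have h4 : ∀ j : Fin (s + d), ∃ l, i j = some l := by
    intro j
    rcases h5 : i j with _ | l
    · exfalso
      have h6 := hi.injective (a₁ := Sum.inl ()) (a₂ := Sum.inr j) (by
        change w = t (i j)
        rw [h5]
        rfl)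
      cases h6
    · exact ⟨l, rfl⟩
  choose l hl using h4
  refine ⟨fun j => σ (l (Fin.castAdd d j)), ?_⟩
  have h5 := hi.comp (Sum.map id (Fin.castAdd d) : Unit ⊕ Fin s → Unit ⊕ Fin (s + d))
    (Sum.map_injective.2 ⟨Function.injective_id, Fin.castAdd_injective s d⟩)
  have h6 : (Sum.elim (fun _ : Unit => w) (t ∘ i)) ∘ (Sum.map id (Fin.castAdd d)) =
      Sum.elim (fun _ : Unit => w) fun j => M (σ (l (Fin.castAdd d j))) := by
    funext z
    rcases z with z | z
    · rfl
    · change t (i (Fin.castAdd d z)) = _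
      rw [hl]
      rfl
  rwa [h6] at h5

/-- the rank does not increase under specialisation -/
theorem rank_map_le {A F : Type} [CommRing A] [Field F] (φ : A →+* k) (ψ : A →+* F)
    (hψ : Function.Injective ψ) (M : Matrix ι ι A) : (M.map φ).rank ≤ (M.map ψ).rank := by
  classical
  obtain ⟨ρ, hρ⟩ : ∃ ρ, ρ = (M.map φ).rank := ⟨_, rfl⟩
  obtain ⟨σ, hσ⟩ := exists_rows (M.map φ) hρ.le
  rw [← hρ]
  have hρle : ρ ≤ Fintype.card ι := by
    rw [hρ]
    exact Matrix.rank_le_card_height _
  obtain ⟨d, hd⟩ := Nat.exists_eq_add_of_le hρle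
  obtain ⟨C, hC⟩ := complete_zero hσ (n := d) (by rw [hd, Fintype.card_fin])
  let e : Fin ρ ⊕ Fin d ≃ ι := Fintype.equivOfCardEq (by
    rw [Fintype.card_sum, Fintype.card_fin, Fintype.card_fin, hd])
  let T : Matrix (Fin ρ ⊕ Fin d) (Fin ρ ⊕ Fin d) A := Matrix.of fun a b =>
    Sum.elim (fun j => M (σ j) (e b)) (fun b' => ((C b' (e b) : ℤ) : A)) a
  have h1 : LinearIndependent k (T.map φ).row := by
    have h2 := hC.map' (LinearEquiv.funCongrLeft k k e).toLinearMap
      (LinearMap.ker_eq_bot.2 (LinearEquiv.injective _))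
    have h3 : (⇑(LinearEquiv.funCongrLeft k k e).toLinearMap ∘
        Sum.elim (fun j => (M.map φ) (σ j)) fun b i => ((C b i : ℤ) : k)) = (T.map φ).row := by
      funext a b
      rcases a with a | a
      · rfl
      · change ((C a (e b) : ℤ) : k) = φ ((C a (e b) : ℤ) : A)
        rw [map_intCast]
    rwa [h3] at h2
  rw [Matrix.linearIndependent_rows_iff_isUnit, Matrix.isUnit_iff_isUnit_det] at h1
  have h2 : (T.map φ).det = φ T.det := by
    rw [RingHom.map_det]
    rfl
  have h3 : T.det ≠ 0 := by
    intro h0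
    rw [h2, h0, map_zero] at h1
    exact not_isUnit_zero h1
  have h4 : (T.map ψ).det = ψ T.det := by
    rw [RingHom.map_det]
    rfl
  have h5 : IsUnit (T.map ψ).det := by
    rw [h4]
    refine isUnit_iff_ne_zero.2 fun h0 => h3 (hψ ?_)
    rw [h0, map_zero]
  rw [← Matrix.isUnit_iff_isUnit_det, ← Matrix.linearIndependent_rows_iff_isUnit] at h5
  have h6 := h5.map' (LinearEquiv.funCongrLeft F F e.symm).toLinearMap
    (LinearMap.ker_eq_bot.2 (LinearEquiv.injective _))
  have h7 : LinearIndependent F fun j : Fin ρ => (M.map ψ) (σ j) := by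
    have h8 := h6.comp (Sum.inl : Fin ρ → Fin ρ ⊕ Fin d) Sum.inl_injective
    have h9 : ((⇑(LinearEquiv.funCongrLeft F F e.symm).toLinearMap ∘ (T.map ψ).row) ∘ Sum.inl) =
        fun j : Fin ρ => (M.map ψ) (σ j) := by
      funext j i
      change ψ (M (σ j) (e (e.symm i))) = ψ (M (σ j) i)
      rw [e.apply_symm_apply]
    rwa [h9] at h8
  have h8 : LinearIndependent F fun j : Fin ρ =>
      (⟨(M.map ψ) (σ j), Submodule.subset_span ⟨σ j, rfl⟩⟩ :
        Submodule.span F (Set.range (M.map ψ).row)) :=
    LinearIndependent.of_comp (Submodule.span F (Set.range (M.map ψ).row)).subtype h7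
  have h9 := h8.fintype_card_le_finrank
  rw [Fintype.card_fin] at h9
  have h10 : Module.finrank F (Submodule.span F (Set.range (M.map ψ).row)) = (M.map ψ).rank :=
    (M.map ψ).rank_eq_finrank_span_row.symm
  omega

/-- The Laurent polynomial `g` is mild of order `s`: at its zeros in the torus at which its
gradient vanishes, the logarithmic Hessian has rank at least `s`. -/
def MildAt (F : Type) [Field F] [Algebra k F] (g : (ι → ℤ) →₀ k) (s : ℕ) : Prop :=
  ∀ c : ι → F, (∀ i, c i ≠ 0) → ev c g = 0 → gr c g = 0 → s ≤ (hess c g).rank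

/-- **Mildness over extensions.** -/
theorem mild_ext [IsAlgClosed k] {g : (ι → ℤ) →₀ k} {s : ℕ} (h : MildAt k g s) (F : Type)
    [Field F] [Algebra k F] : MildAt F g s := by
  intro c hc hev hgr
  obtain ⟨A, φ, c', hc', hsp⟩ := exists_spec (k := k) hc
  choose hm hφ using hsp
  have hev' : ev c' g = 0 := by
    have h1 : (⟨g.sum fun m a => algebraMap k F a * ((1 : ℤ) : F) * mono c m,
        hm g fun _ => 1⟩ : A) = 0 := by
      apply Subtype.ext
      change (g.sum fun m a => algebraMap k F a * ((1 : ℤ) : F) * mono c m) = 0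
      rw [← hev]
      unfold ev
      refine Finset.sum_congr rfl fun m _ => ?_
      simp
    have h2 := hφ g fun _ => 1
    rw [h1, map_zero] at h2
    rw [h2]
    unfold ev
    refine Finset.sum_congr rfl fun m _ => ?_
    simp
  have hgr' : gr c' g = 0 := by
    funext i
    have h1 : (⟨g.sum fun m a => algebraMap k F a * ((m i : ℤ) : F) * mono c m,
        hm g fun m => m i⟩ : A) = 0 := Subtype.ext (congrFun hgr i)
    have h2 := hφ g fun m => m i
    rw [h1, map_zero] at h2
    exact h2.symm
  have h1 := h c' hc' hev' hgr'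
  let M : Matrix ι ι A := Matrix.of fun i j =>
    ⟨g.sum fun m a => algebraMap k F a * ((m i * m j : ℤ) : F) * mono c m,
      hm g fun m => m i * m j⟩
  have h2 : M.map (φ : A →+* k) = hess c' g := by
    ext i j
    exact hφ g fun m => m i * m j
  have h3 : M.map (algebraMap A F) = hess c g := by
    ext i j
    rfl
  have h4 := rank_map_le (φ : A →+* k) (algebraMap A F) Subtype.val_injective M
  rw [h2, h3] at h4
  exact h1.trans h4

end

end Pool.Agent.K9h25
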